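import Pool.Agent.CRL.Targets2

set_option autoImplicit false

/-!
# CRL: Abel summation (target ABL)
-/

namespace Pool.Agent.CRL

open MeasureTheory FourierTransform Set Filter Topology
open scoped ENNReal NNReal

namespace ABL_

/-- Fundamental theorem on `Ioc`. -/
lemma ftc {U U' : ℝ → ℂ} {a R : ℝ} (hU : ∀ r ∈ Icc a R, HasDerivAt U (U' r) r)
    (hU' : ContinuousOn U' (Icc a R)) {r : ℝ} (hr : r ∈ Icc a R) :
    ∫ s in Ioc r R, U' s = U R - U r := by
  have h1 : ContinuousOn U' (uIcc r R) := by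
    rw [uIcc_of_le hr.2]
    exact hU'.mono (Icc_subset_Icc_left hr.1)
  have h2 := intervalIntegral.integral_eq_sub_of_hasDerivAt (f := U) (f' := U') (a := r) (b := R)
    (fun x hx => hU x (by
      rw [uIcc_of_le hr.2] at hx
      exact ⟨hr.1.trans hx.1, hx.2⟩)) h1.intervalIntegrable
  rw [intervalIntegral.integral_of_le hr.2] at h2
  exact h2

lemma swap (D U' : ℝ → ℂ) (a R : ℝ) (hD : IntegrableOn D (Ioc a R))
    (hU' : IntegrableOn U' (Ioc a R)) :
    ∫ r in Ioc a R, D r * ∫ s in Ioc r R, U' s = ∫ s in Ioc a R, (∫ r in Ioc a s, D r) * U' s := by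
  have hI : Integrable (Function.uncurry fun r s : ℝ => (Ioi r).indicator (fun s => D r * U' s) s)
      ((volume.restrict (Ioc a R)).prod (volume.restrict (Ioc a R))) := by
    have h1 : Integrable (fun z : ℝ × ℝ => D z.1 * U' z.2)
        ((volume.restrict (Ioc a R)).prod (volume.restrict (Ioc a R))) := hD.mul_prod hU'
    have h2 : MeasurableSet {z : ℝ × ℝ | z.1 < z.2} := measurableSet_lt measurable_fst measurable_snd
    refine (h1.indicator h2).congr (ae_of_all _ fun z => ?_)
    obtain ⟨r, s⟩ := z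
    by_cases h : r < s
    · simp [indicator, h]
    · simp [indicator, h]
  have key := integral_integral_swap hI
  have e1 : ∫ r in Ioc a R, ∫ s in Ioc a R, (Ioi r).indicator (fun s => D r * U' s) s =
      ∫ r in Ioc a R, D r * ∫ s in Ioc r R, U' s := by
    refine setIntegral_congr_fun measurableSet_Ioc fun r hr => ?_
    rw [integral_indicator measurableSet_Ioi, Measure.restrict_restrict measurableSet_Ioi]
    have h3 : Ioi r ∩ Ioc a R = Ioc r R := by
      ext s
      simp only [mem_inter_iff, mem_Ioi, mem_Ioc]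
      exact ⟨fun h => ⟨h.1, h.2.2⟩, fun h => ⟨h.1, hr.1.trans h.1, h.2⟩⟩
    rw [h3, integral_const_mul]
  have e2 : ∫ s in Ioc a R, ∫ r in Ioc a R, (Ioi r).indicator (fun s => D r * U' s) s =
      ∫ s in Ioc a R, (∫ r in Ioc a s, D r) * U' s := by
    refine setIntegral_congr_fun measurableSet_Ioc fun s hs => ?_
    have h4 : ∀ r : ℝ, (Ioi r).indicator (fun s => D r * U' s) s =
        (Iio s).indicator (fun r => D r * U' s) r := fun r => by
      by_cases h : r < s
      · simp [indicator, h]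
      · simp [indicator, h]
    simp_rw [h4]
    rw [integral_indicator measurableSet_Iio, Measure.restrict_restrict measurableSet_Iio]
    have h3 : Iio s ∩ Ioc a R = Ioo a s := by
      ext r
      simp only [mem_inter_iff, mem_Iio, mem_Ioc, mem_Ioo]
      exact ⟨fun h => ⟨h.2.1, h.1⟩, fun h => ⟨h.2, h.1, h.2.le.trans hs.2⟩⟩
    rw [h3, ← integral_Ioc_eq_integral_Ioo, integral_mul_const]
  rw [← e1, ← e2]
  exact key

end ABL_

open ABL_ in
/-- ABL. -/
theorem p_ABL : T_ABL := by
  intro D U U' a R M B haR hD hU hU' hM hB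
  have haI : a ∈ Icc a R := ⟨le_rfl, haR⟩
  have hRI : R ∈ Icc a R := ⟨haR, le_rfl⟩
  have hM0 : 0 ≤ M := (norm_nonneg _).trans (hM a haI)
  have hU'i : IntegrableOn U' (Ioc a R) :=
    (hU'.integrableOn_Icc).mono_set Ioc_subset_Icc_self
  have hUc : ContinuousOn U (Icc a R) := fun r hr => (hU r hr).continuousAt.continuousWithinAt
  have hDU : IntegrableOn (fun r => D r * U r) (Ioc a R) :=
    hD.mul_continuousOn_of_subset hUc measurableSet_Ioc isCompact_Icc Ioc_subset_Icc_self
  have hR1 : ‖U R‖ ≤ ‖U a‖ + B := by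
    have h1 := ftc hU hU' haI
    have h2 : U R = U a + ∫ s in Ioc a R, U' s := by rw [h1]; ring
    rw [h2]
    exact (norm_add_le _ _).trans (add_le_add le_rfl ((norm_integral_le_integral_norm _).trans hB))
  have e1 : ∫ r in Ioc a R, D r * U r =
      U R * (∫ r in Ioc a R, D r) - ∫ s in Ioc a R, (∫ r in Ioc a s, D r) * U' s := by
    rw [← swap D U' a R hD hU'i]
    have e2 : ∫ r in Ioc a R, D r * ∫ s in Ioc r R, U' s =
        ∫ r in Ioc a R, (D r * U R - D r * U r) := by
      refine setIntegral_congr_fun measurableSet_Ioc fun r hr => ?_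
      rw [ftc hU hU' ⟨hr.1.le, hr.2⟩]
      ring
    have h3 : IntegrableOn (fun r => D r * U R) (Ioc a R) := hD.mul_const _
    rw [e2, integral_sub h3 hDU, integral_mul_const]
    ring
  rw [e1]
  have h4 : ‖∫ s in Ioc a R, (∫ r in Ioc a s, D r) * U' s‖ ≤ M * B := by
    calc ‖∫ s in Ioc a R, (∫ r in Ioc a s, D r) * U' s‖ ≤ ∫ s in Ioc a R, M * ‖U' s‖ := by
          refine norm_integral_le_of_norm_le (hU'i.norm.const_mul M) ?_
          refine (ae_restrict_iff' measurableSet_Ioc).2 (ae_of_all _ fun s hs => ?_)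
          rw [norm_mul]
          exact mul_le_mul_of_nonneg_right (hM s ⟨hs.1.le, hs.2⟩) (norm_nonneg _)
      _ = M * ∫ s in Ioc a R, ‖U' s‖ := integral_const_mul _ _
      _ ≤ M * B := mul_le_mul_of_nonneg_left hB hM0
  have h5 : ‖U R * (∫ r in Ioc a R, D r)‖ ≤ (‖U a‖ + B) * M := by
    rw [norm_mul]
    have hB0 : 0 ≤ ‖U a‖ + B := (norm_nonneg _).trans hR1
    exact mul_le_mul hR1 (hM R hRI) (norm_nonneg _) hB0
  calc ‖U R * (∫ r in Ioc a R, D r) - ∫ s in Ioc a R, (∫ r in Ioc a s, D r) * U' s‖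
      ≤ ‖U R * (∫ r in Ioc a R, D r)‖ + ‖∫ s in Ioc a R, (∫ r in Ioc a s, D r) * U' s‖ :=
        norm_sub_le _ _
    _ ≤ (‖U a‖ + B) * M + M * B := add_le_add h5 h4
    _ = M * (‖U a‖ + 2 * B) := by ring

end Pool.Agent.CRL

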