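import Pool.Agent.CRL.Targets2

set_option autoImplicit false

/-!
# CRL, target AE: almost everywhere convergence from the weak type inequality
-/

namespace Pool.Agent.CRL

open MeasureTheory FourierTransform Set Filter Topology
open scoped ENNReal NNReal
open Pool.Agent.MBS (E ex S Sstar)
open Pool.Agent.KSP (IE)
open Pool.Agent.CAR (e1 T_CARL)

namespace AE_

/-! ### rotations and modes -/

theorem rot_cont {X : Type*} [TopologicalSpace X] {t : X → ℝ} {y : X → E 2}
    (ht : Continuous t) (hy : Continuous y) : Continuous (fun z => rot (t z) (y z)) := by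
  unfold rot
  refine (PiLp.continuous_toLp 2 _).comp ?_
  refine continuous_pi fun i => ?_
  fin_cases i
  · simp only [Fin.zero_eta, Fin.isValue, Matrix.cons_val_zero]
    fun_prop
  · simp only [Fin.mk_one, Fin.isValue, Matrix.cons_val_one]
    fun_prop

theorem ci_cont (c : ℝ) : Continuous (fun θ : ℝ => ci (c * θ)) := by
  unfold ci
  fun_prop

theorem ci_cont' (c : ℝ) : Continuous (fun θ : ℝ => ci (-(c * θ))) := by
  unfold ci
  fun_prop

theorem ci_norm (t : ℝ) : ‖ci t‖ = 1 := by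
  unfold ci
  exact Complex.norm_exp_ofReal_mul_I t

theorem ci_mul (s t : ℝ) : ci s * ci t = ci (s + t) := by
  unfold ci
  rw [← Complex.exp_add]
  congr 1
  push_cast
  ring

theorem ci_int (j k : ℤ) : (((2 * Real.pi)⁻¹ : ℝ) : ℂ) *
    ∫ θ in (-Real.pi)..Real.pi, ci (k * θ) * ci (-(j * θ)) = if j = k then 1 else 0 := by
  have hpi := Real.pi_pos
  have hpi0 : (Real.pi : ℂ) ≠ 0 := by exact_mod_cast hpi.ne'
  by_cases h : j = k
  · rw [if_pos h, h]
    have h1 : ∀ θ : ℝ, ci (k * θ) * ci (-(k * θ)) = 1 := by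
      intro θ
      rw [ci_mul, add_neg_cancel]
      unfold ci
      simp
    simp only [h1]
    rw [intervalIntegral.integral_const]
    rw [Complex.real_smul]
    push_cast
    field_simp
    ring
  · rw [if_neg h]
    set c : ℂ := ((k - j : ℤ) : ℂ) * Complex.I with hc
    have hc0 : c ≠ 0 := by
      rw [hc]
      refine mul_ne_zero ?_ Complex.I_ne_zero
      exact_mod_cast sub_ne_zero.2 (fun h2 => h h2.symm)
    have h1 : ∀ θ : ℝ, ci (k * θ) * ci (-(j * θ)) = Complex.exp (c * θ) := by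
      intro θ
      rw [ci_mul]
      unfold ci
      congr 1
      rw [hc]
      push_cast
      ring
    simp only [h1]
    rw [integral_exp_mul_complex hc0]
    have h2 : Complex.exp (c * (Real.pi : ℝ)) = Complex.exp (c * ((-Real.pi : ℝ) : ℂ)) := by
      rw [Complex.exp_eq_exp_iff_exists_int]
      refine ⟨k - j, ?_⟩
      rw [hc]
      push_cast
      ring
    rw [h2, sub_self, zero_div, mul_zero]

/-- integrability on the orbit -/
def OI (g : E 2 → ℂ) (x : E 2) : Prop :=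
  IntervalIntegrable (fun θ => g (rot θ x)) volume (-Real.pi) Real.pi

theorem oi_cont {g : E 2 → ℂ} (hg : Continuous g) (x : E 2) : OI g x := by
  apply Continuous.intervalIntegrable
  have h2 : Continuous (fun θ : ℝ => rot θ x) := rot_cont continuous_id continuous_const
  exact hg.comp h2

theorem oi_mode {k : ℤ} {g : E 2 → ℂ} (hg : IsMode k g) (x : E 2) : OI g x := by
  apply Continuous.intervalIntegrable
  have h : (fun θ => g (rot θ x)) = fun θ : ℝ => ci (k * θ) * g x := by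
    funext θ
    exact hg θ x
  rw [h]
  exact (ci_cont k).mul continuous_const

theorem amode_mode {k : ℤ} {g : E 2 → ℂ} (hg : IsMode k g) (j : ℤ) (x : E 2) :
    amode j g x = if j = k then g x else 0 := by
  unfold amode
  have h : ∀ θ : ℝ, g (rot θ x) * ci (-(j * θ)) = g x * (ci (k * θ) * ci (-(j * θ))) := by
    intro θ
    rw [hg θ x]
    ring
  simp only [h]
  rw [intervalIntegral.integral_const_mul, mul_left_comm, ci_int]
  split_ifs <;> simp

theorem amode_sub (j : ℤ) {f g : E 2 → ℂ} {x : E 2} (hf : OI f x) (hg : OI g x) :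
    amode j (fun y => f y - g y) x = amode j f x - amode j g x := by
  unfold amode
  rw [← mul_sub, ← intervalIntegral.integral_sub]
  · congr 1
    refine intervalIntegral.integral_congr fun θ _ => ?_
    ring
  · exact hf.mul_continuousOn (ci_cont' j).continuousOn
  · exact hg.mul_continuousOn (ci_cont' j).continuousOn

theorem oi_sum {F : Finset ℤ} {u : ℤ → E 2 → ℂ} {x : E 2} (h : ∀ k ∈ F, OI (u k) x) :
    OI (fun y => ∑ k ∈ F, u k y) x := by
  have e : (fun θ => ∑ k ∈ F, u k (rot θ x)) = ∑ k ∈ F, fun θ => u k (rot θ x) := by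
    funext θ
    rw [Finset.sum_apply]
  show IntervalIntegrable (fun θ => ∑ k ∈ F, u k (rot θ x)) volume (-Real.pi) Real.pi
  rw [e]
  exact IntervalIntegrable.sum F h

theorem amode_sum (j : ℤ) {F : Finset ℤ} {u : ℤ → E 2 → ℂ} {x : E 2}
    (h : ∀ k ∈ F, OI (u k) x) :
    amode j (fun y => ∑ k ∈ F, u k y) x = ∑ k ∈ F, amode j (u k) x := by
  unfold amode
  rw [← Finset.mul_sum, ← intervalIntegral.integral_finsetSum]
  · congr 1
    refine intervalIntegral.integral_congr fun θ _ => ?_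
    simp only [Finset.sum_mul]
  · intro k hk
    exact (h k hk).mul_continuousOn (ci_cont' j).continuousOn

theorem amode_sum_mode (j : ℤ) {F : Finset ℤ} {u : ℤ → E 2 → ℂ}
    (h : ∀ k ∈ F, IsMode k (u k)) (x : E 2) :
    amode j (fun y => ∑ k ∈ F, u k y) x = if j ∈ F then u j x else 0 := by
  rw [amode_sum j (fun k hk => oi_mode (h k hk) x)]
  rw [Finset.sum_congr rfl (fun k hk => amode_mode (h k hk) j x)]
  exact Finset.sum_ite_eq F j (fun k => u k x)

theorem amode_zero_of_not_oi {f : E 2 → ℂ} {x : E 2} (h : ¬ OI f x) (k : ℤ) :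
    amode k f x = 0 := by
  unfold amode
  rw [intervalIntegral.integral_undef, mul_zero]
  intro h2
  apply h
  have h3 := h2.mul_continuousOn (ci_cont k).continuousOn
  unfold OI
  refine h3.congr_ae ?_
  refine ae_of_all _ fun θ => ?_
  show f (rot θ x) * ci (-(k * θ)) * ci (k * θ) = f (rot θ x)
  rw [mul_assoc, ci_mul, neg_add_cancel]
  unfold ci
  simp

theorem amode_tail {f : E 2 → ℂ} (hm : ∀ k, IsMode k (amode k f)) (F : Finset ℤ) (j : ℤ)
    (x : E 2) :
    amode j (fun y => f y - ∑ k ∈ F, amode k f y) x = if j ∈ F then 0 else amode j f x := by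
  by_cases h : OI f x
  · rw [amode_sub j h (oi_sum (fun k _ => oi_mode (hm k) x)),
      amode_sum_mode j (fun k _ => hm k) x]
    split_ifs <;> simp
  · have h0 := amode_zero_of_not_oi h
    have h1 : ∀ θ : ℝ, f (rot θ x) - ∑ k ∈ F, amode k f (rot θ x) = f (rot θ x) := by
      intro θ
      rw [Finset.sum_eq_zero, sub_zero]
      intro k _
      rw [hm k θ x, h0 k, mul_zero]
    have h2 : amode j (fun y => f y - ∑ k ∈ F, amode k f y) x = amode j f x := by
      unfold amode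
      simp only
      congr 1
      refine intervalIntegral.integral_congr fun θ _ => ?_
      show (f (rot θ x) - ∑ k ∈ F, amode k f (rot θ x)) * ci (-(j * θ)) = _
      rw [h1 θ]
    rw [h2, h0 j]
    simp

theorem mode_sub {k : ℤ} {u v : E 2 → ℂ} (hu : IsMode k u) (hv : IsMode k v) :
    IsMode k (fun y => u y - v y) := by
  intro θ x
  show u (rot θ x) - v (rot θ x) = _
  rw [hu θ x, hv θ x]
  ring

/-! ### nice functions -/

theorem nice_sub {f g : E 2 → ℂ} (hf : Nice f) (hg : Nice g) : Nice (fun y => f y - g y) :=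
  ⟨hf.meas.sub hg.meas, hf.int.sub hg.int, hf.sq.sub hg.sq⟩

theorem nice_sum {F : Finset ℤ} {u : ℤ → E 2 → ℂ} (h : ∀ k ∈ F, Nice (u k)) :
    Nice (fun y => ∑ k ∈ F, u k y) := by
  refine ⟨Finset.measurable_sum F (fun k hk => (h k hk).meas),
    integrable_finsetSum F (fun k hk => (h k hk).int), ?_⟩
  exact memLp_finsetSum F (fun k hk => (h k hk).sq)

theorem wk_ge (k : ℤ) : 1 ≤ wk k := by
  unfold wk
  have h1 := Pool.Agent.KSP.FA2_.log3_ge (abs_nonneg (k : ℝ))
  exact one_le_pow₀ (Pool.Agent.KSP.FA2_.log3_ge (le_trans zero_le_one h1))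

theorem l2_le_NN (h3 : T_MODB) {w : E 2 → ℂ} (hw : Nice w) : ∫⁻ x, ‖w x‖ₑ ^ 2 ≤ NN w := by
  rw [← (h3 w hw).1]
  unfold NN
  refine ENNReal.tsum_le_tsum fun k => ?_
  have h : (1 : ℝ≥0∞) ≤ ENNReal.ofReal (wk k) := by
    rw [← ENNReal.ofReal_one]
    exact ENNReal.ofReal_le_ofReal (wk_ge k)
  calc ∫⁻ x, ‖amode k w x‖ₑ ^ 2 = 1 * ∫⁻ x, ‖amode k w x‖ₑ ^ 2 := (one_mul _).symm
    _ ≤ _ := by gcongr

theorem mode_l2_le (h3 : T_MODB) {w : E 2 → ℂ} (hw : Nice w) (k : ℤ) :
    ∫⁻ x, ‖amode k w x‖ₑ ^ 2 ≤ ∫⁻ x, ‖w x‖ₑ ^ 2 := by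
  rw [← (h3 w hw).1]
  exact ENNReal.le_tsum k

theorem lint_eLp (f : E 2 → ℂ) : ∫⁻ x, ‖f x‖ₑ ^ 2 = eLpNorm f 2 ^ 2 := by
  rw [eLpNorm_eq_lintegral_rpow_enorm_toReal (by norm_num) (by norm_num)]
  simp only [ENNReal.toReal_ofNat, ENNReal.rpow_ofNat, one_div]
  rw [← ENNReal.rpow_natCast, ← ENNReal.rpow_mul]
  norm_num

theorem nice_schwartz (g : SchwartzMap (E 2) ℂ) : Nice (g : E 2 → ℂ) :=
  ⟨g.continuous.measurable, g.integrable, g.memLp 2⟩

theorem approx {u : E 2 → ℂ} (hu : Nice u) {d : ℝ} (hd : 0 < d) :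
    ∃ g : E 2 → ℂ, Nice g ∧ Continuous g ∧ Nice (𝓕 g) ∧
      ∫⁻ x, ‖u x - g x‖ₑ ^ 2 ≤ ENNReal.ofReal d := by
  obtain ⟨g, hg1, hg2, hg3⟩ := MemLp.exist_eLpNorm_sub_le (μ := volume) (p := 2)
    (by norm_num) (by norm_num) hu.sq (Real.sqrt_pos.2 hd)
  have e1 : ((hg1.toSchwartzMap hg2 : SchwartzMap (E 2) ℂ) : E 2 → ℂ) = g := by
    ext x
    rfl
  refine ⟨g, ?_, ?_, ?_, ?_⟩
  · rw [← e1]
    exact nice_schwartz _
  · exact hg2.continuous
  · have e2 : 𝓕 g = ((𝓕 (hg1.toSchwartzMap hg2 : SchwartzMap (E 2) ℂ) :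
        SchwartzMap (E 2) ℂ) : E 2 → ℂ) := by
      rw [SchwartzMap.fourier_coe, e1]
    rw [e2]
    exact nice_schwartz _
  · have h1 : ∫⁻ x, ‖u x - g x‖ₑ ^ 2 = eLpNorm (u - g) 2 ^ 2 := lint_eLp (u - g)
    rw [h1]
    refine le_trans (pow_le_pow_left' hg3 2) (le_of_eq ?_)
    rw [← ENNReal.ofReal_pow (Real.sqrt_nonneg d), Real.sq_sqrt hd.le]

/-! ### disc sums -/

theorem fc' {V : Type*} [NormedAddCommGroup V] [InnerProductSpace ℝ V] [FiniteDimensional ℝ V]
    [MeasurableSpace V] [BorelSpace V] {f : V → ℂ} (hf : Integrable f) : Continuous (𝓕 f) := by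
  have h : Continuous (fun p : V × V => (innerₗ V) p.1 p.2) := continuous_inner
  exact VectorFourier.fourierIntegral_continuous Real.continuous_fourierChar h hf

theorem fc {f : E 2 → ℂ} (hf : Integrable f) : Continuous (𝓕 f) := fc' hf

theorem f_sub {f g : E 2 → ℂ} (hf : Integrable f) (hg : Integrable g) (ξ : E 2) :
    𝓕 (fun x => f x - g x) ξ = 𝓕 f ξ - 𝓕 g ξ := by
  rw [Real.fourier_eq, Real.fourier_eq, Real.fourier_eq, ← integral_sub]
  · congr 1 with x
    rw [smul_sub]
  · exact (Real.fourierIntegral_convergent_iff ξ).2 hf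
  · exact (Real.fourierIntegral_convergent_iff ξ).2 hg

theorem f_sum {F : Finset ℤ} {u : ℤ → E 2 → ℂ} (h : ∀ k ∈ F, Integrable (u k)) (ξ : E 2) :
    𝓕 (fun x => ∑ k ∈ F, u k x) ξ = ∑ k ∈ F, 𝓕 (u k) ξ := by
  simp only [Real.fourier_eq]
  rw [← integral_finsetSum]
  · congr 1 with x
    rw [Finset.smul_sum]
  · intro k hk
    exact (Real.fourierIntegral_convergent_iff ξ).2 (h k hk)

theorem ex_c (x : E 2) : Continuous (fun ξ : E 2 => ex x ξ) :=
  Pool.Agent.KSP.FA2_.ex_meas x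

theorem S_sub {f g : E 2 → ℂ} (hf : Integrable f) (hg : Integrable g) (R : ℝ) (x : E 2) :
    S (fun y => f y - g y) R x = S f R x - S g R x := by
  unfold S
  rw [← integral_sub]
  · refine integral_congr_ae (ae_of_all _ fun ξ => ?_)
    show 𝓕 (fun y => f y - g y) ξ * ex x ξ = 𝓕 f ξ * ex x ξ - 𝓕 g ξ * ex x ξ
    rw [f_sub hf hg ξ]
    ring
  · exact (((fc hf).mul (ex_c x)).continuousOn).integrableOn_compact
      (isCompact_closedBall (0 : E 2) R)
  · exact (((fc hg).mul (ex_c x)).continuousOn).integrableOn_compact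
      (isCompact_closedBall (0 : E 2) R)

theorem amode_cont {g : E 2 → ℂ} (hg : Continuous g) (k : ℤ) : Continuous (amode k g) := by
  unfold amode
  refine continuous_const.mul ?_
  refine intervalIntegral.continuous_parametric_intervalIntegral_of_continuous' ?_ _ _
  have h2 : Continuous (fun p : E 2 × ℝ => rot p.2 p.1) :=
    rot_cont continuous_snd continuous_fst
  have h1 : Continuous (fun p : E 2 × ℝ => g (rot p.2 p.1)) := hg.comp h2
  exact h1.mul ((ci_cont' k).comp continuous_snd)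

theorem conv_good {h : E 2 → ℂ} (hc : Continuous h) (hi : Integrable h)
    (hF : Integrable (𝓕 h)) (x : E 2) :
    Tendsto (fun R : ℝ => S h R x) atTop (𝓝 (h x)) := by
  have h1 : IE (𝓕 h) x = h x := by
    rw [Pool.Agent.KSP.FA2_.IE_eq_fourier, ← Real.fourierInv_eq_fourier_neg]
    exact congrFun (hc.fourierInv_fourier_eq hi hF) x
  have h2 : Integrable (fun ξ => 𝓕 h ξ * ex x ξ) := by
    refine Integrable.mono hF (hF.1.mul (ex_c x).aestronglyMeasurable) (ae_of_all _ fun ξ => ?_)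
    rw [norm_mul, Pool.Agent.MBS.ex_norm, mul_one]
  have h3 := (aecover_closedBall (μ := (volume : Measure (E 2))) (x := (0 : E 2))
    (tendsto_id (α := ℝ) (x := atTop))).integral_tendsto_of_countably_generated h2
  have h4 : ∫ ξ, 𝓕 h ξ * ex x ξ = h x := by
    rw [← h1]
    rfl
  rw [h4] at h3
  exact h3

/-! ### the decomposition -/

theorem decomp (h2 : T_MODA) (h3 : T_MODB) {f : E 2 → ℂ} (hf : Nice f) (hN : NN f ≠ ⊤) {e : ℝ}
    (he : 0 < e) : ∃ w1 w2 h : E 2 → ℂ, Nice w1 ∧ Nice w2 ∧ NN w1 ≤ ENNReal.ofReal e ∧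
      NN w2 ≤ ENNReal.ofReal e ∧ (∀ R x, S f R x = S w1 R x + S w2 R x + S h R x) ∧
      (∀ x, f x = w1 x + w2 x + h x) ∧
      ∀ x, Tendsto (fun R : ℝ => S h R x) atTop (𝓝 (h x)) := by
  -- the finite set
  have htail := ENNReal.tendsto_tsum_compl_atTop_zero hN
  have hev := (tendsto_order.1 htail).2 (ENNReal.ofReal e) (ENNReal.ofReal_pos.2 he)
  obtain ⟨F, hF⟩ := hev.exists
  have hu : ∀ k, Nice (amode k f) := fun k => (h2 k f hf).1
  have hm : ∀ k, IsMode k (amode k f) := fun k => (h2 k f hf).2.1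
  have hd : ∀ k : ℤ, 0 < e / ((F.card + 1 : ℝ) * wk k) := by
    intro k
    have := wk_ge k
    positivity
  choose g hg1 hg2 hg3 hg4 using fun k => approx (hu k) (hd k)
  have hv : ∀ k, Nice (amode k (g k)) := fun k => (h2 k (g k) (hg1 k)).1
  have hvm : ∀ k, IsMode k (amode k (g k)) := fun k => (h2 k (g k) (hg1 k)).2.1
  set H : E 2 → ℂ := fun y => ∑ k ∈ F, amode k f y with hH
  set h : E 2 → ℂ := fun y => ∑ k ∈ F, amode k (g k) y with hh
  have hHn : Nice H := nice_sum (fun k _ => hu k)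
  have hhn : Nice h := nice_sum (fun k _ => hv k)
  refine ⟨fun y => f y - H y, fun y => H y - h y, h, nice_sub hf hHn, nice_sub hHn hhn,
    ?_, ?_, ?_, ?_, ?_⟩
  · -- the tail
    have h4 : NN (fun y => f y - H y) = ∑' j : {j : ℤ // j ∉ F},
        ENNReal.ofReal (wk j) * ∫⁻ x, ‖amode (j : ℤ) f x‖ₑ ^ 2 := by
      unfold NN
      have h5 : ∀ j : ℤ, ENNReal.ofReal (wk j) *
          ∫⁻ x, ‖amode j (fun y => f y - H y) x‖ₑ ^ 2 =
          ({j : ℤ | j ∉ F}).indicator (fun j => ENNReal.ofReal (wk j) *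
            ∫⁻ x, ‖amode j f x‖ₑ ^ 2) j := by
        intro j
        have h6 : ∀ x, amode j (fun y => f y - H y) x = if j ∈ F then 0 else amode j f x :=
          fun x => amode_tail hm F j x
        simp only [h6]
        by_cases hj : j ∈ F
        · rw [indicator_of_notMem (by simpa using hj)]
          simp [hj]
        · rw [indicator_of_mem (by simpa using hj)]
          simp [hj]
      rw [tsum_congr h5]
      exact (tsum_subtype {j : ℤ | j ∉ F} _).symm
    rw [h4]
    exact hF.le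
  · -- the finite part
    have h5 : ∀ j : ℤ, ∀ x, amode j (fun y => H y - h y) x =
        if j ∈ F then amode j f x - amode j (g j) x else 0 := by
      intro j x
      have e1 : (fun y => H y - h y) = fun y => ∑ k ∈ F, (amode k f y - amode k (g k) y) := by
        funext y
        rw [hH, hh, Finset.sum_sub_distrib]
      rw [e1]
      exact amode_sum_mode (u := fun k y => amode k f y - amode k (g k) y) j
        (fun k _ => mode_sub (hm k) (hvm k)) x
    have h6 : ∀ j : ℤ, ∫⁻ x, ‖amode j f x - amode j (g j) x‖ₑ ^ 2 ≤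
        ENNReal.ofReal (e / ((F.card + 1 : ℝ) * wk j)) := by
      intro j
      have e1 : ∀ x, amode j (fun y => amode j f y - g j y) x =
          amode j f x - amode j (g j) x := by
        intro x
        rw [amode_sub j (oi_mode (hm j) x) (oi_cont (hg2 j) x), amode_mode (hm j) j x, if_pos rfl]
      calc ∫⁻ x, ‖amode j f x - amode j (g j) x‖ₑ ^ 2
          = ∫⁻ x, ‖amode j (fun y => amode j f y - g j y) x‖ₑ ^ 2 := by simp only [e1]
        _ ≤ ∫⁻ x, ‖amode j f x - g j x‖ₑ ^ 2 := mode_l2_le h3 (nice_sub (hu j) (hg1 j)) j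
        _ ≤ _ := hg4 j
    unfold NN
    rw [tsum_eq_sum (s := F)]
    · have h7 : ∀ j ∈ F, ENNReal.ofReal (wk j) *
          ∫⁻ x, ‖amode j (fun y => H y - h y) x‖ₑ ^ 2 ≤
          ENNReal.ofReal (e / (F.card + 1 : ℝ)) := by
        intro j hj
        have e1 : ∫⁻ x, ‖amode j (fun y => H y - h y) x‖ₑ ^ 2 =
            ∫⁻ x, ‖amode j f x - amode j (g j) x‖ₑ ^ 2 := by
          refine lintegral_congr fun x => ?_
          rw [h5 j x, if_pos hj]
        rw [e1]
        have hw := wk_ge j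
        calc ENNReal.ofReal (wk j) * ∫⁻ x, ‖amode j f x - amode j (g j) x‖ₑ ^ 2
            ≤ ENNReal.ofReal (wk j) * ENNReal.ofReal (e / ((F.card + 1 : ℝ) * wk j)) := by
              gcongr
              exact h6 j
          _ = ENNReal.ofReal (e / (F.card + 1 : ℝ)) := by
              rw [← ENNReal.ofReal_mul (by linarith)]
              congr 1
              have : wk j ≠ 0 := by linarith
              field_simp
      calc ∑ j ∈ F, ENNReal.ofReal (wk j) *
          ∫⁻ x, ‖amode j (fun y => H y - h y) x‖ₑ ^ 2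
          ≤ ∑ j ∈ F, ENNReal.ofReal (e / (F.card + 1 : ℝ)) := Finset.sum_le_sum h7
        _ = ENNReal.ofReal (F.card * (e / (F.card + 1 : ℝ))) := by
            rw [Finset.sum_const, nsmul_eq_mul, ENNReal.ofReal_mul (by positivity),
              ENNReal.ofReal_natCast]
        _ ≤ ENNReal.ofReal e := by
            apply ENNReal.ofReal_le_ofReal
            rw [mul_div_assoc', div_le_iff₀ (by positivity)]
            nlinarith
    · intro j hj
      have e1 : ∀ x, amode j (fun y => H y - h y) x = 0 := by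
        intro x
        rw [h5 j x, if_neg hj]
      simp [e1]
  · intro R x
    rw [S_sub hf.int hHn.int, S_sub hHn.int hhn.int]
    ring
  · intro x
    show f x = (f x - H x) + (H x - h x) + h x
    ring
  · intro x
    apply conv_good
    · exact continuous_finsetSum F (fun k _ => amode_cont (hg2 k) k)
    · exact hhn.int
    · have e1 : 𝓕 h = fun ξ => ∑ k ∈ F, amode k (𝓕 (g k)) ξ := by
        funext ξ
        rw [hh, f_sum (fun k _ => (hv k).int)]
        refine Finset.sum_congr rfl fun k _ => ?_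
        rw [(h2 k (g k) (hg1 k)).2.2.1]
      rw [e1]
      exact (nice_sum (fun k _ => (h2 k (𝓕 (g k)) (hg3 k)).1)).int

theorem cheb {w : E 2 → ℂ} (hw : Nice w) {l : ℝ} (hl : 0 < l) :
    volume {x | ENNReal.ofReal l < ‖w x‖ₑ} ≤ (∫⁻ x, ‖w x‖ₑ ^ 2) / ENNReal.ofReal l ^ 2 := by
  have hl' : ENNReal.ofReal l ≠ 0 := (ENNReal.ofReal_pos.2 hl).ne'
  refine le_trans (measure_mono ?_) (meas_ge_le_lintegral_div
    ((hw.meas.enorm.pow_const 2).aemeasurable) (pow_ne_zero 2 hl')
    (ENNReal.pow_ne_top ENNReal.ofReal_ne_top))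
  intro x hx
  have hx' : ENNReal.ofReal l < ‖w x‖ₑ := hx
  exact pow_le_pow_left' hx'.le 2

theorem bad_null (h1 : T_WT) (h2 : T_MODA) (h3 : T_MODB) (hC : T_CARL) (hL : T_LLL)
    {f : E 2 → ℂ} (hf : Nice f) (hN : NN f ≠ ⊤) {l : ℝ} (hl : 0 < l) :
    volume {x | ¬ ∀ᶠ R : ℝ in atTop, ‖S f R x - f x‖ ≤ 5 * l} = 0 := by
  obtain ⟨C, hC1⟩ := h1 hC hL
  have hl0 : 0 < ENNReal.ofReal l := ENNReal.ofReal_pos.2 hl
  have hl2 : ENNReal.ofReal l ^ 2 ≠ 0 := pow_ne_zero 2 hl0.ne'
  set K : ℝ≥0∞ := 2 * ((C : ℝ≥0∞) + 1) / ENNReal.ofReal l ^ 2 with hK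
  have hKt : K ≠ ⊤ := by
    rw [hK]
    refine ENNReal.div_ne_top ?_ hl2
    exact ENNReal.mul_ne_top (by norm_num) (ENNReal.add_ne_top.2 ⟨ENNReal.coe_ne_top, by norm_num⟩)
  have hmain : ∀ e : ℝ, 0 < e →
      volume {x | ¬ ∀ᶠ R : ℝ in atTop, ‖S f R x - f x‖ ≤ 5 * l} ≤ K * ENNReal.ofReal e := by
    intro e he
    obtain ⟨w1, w2, h, hw1, hw2, hn1, hn2, hS, hfx, hconv⟩ := decomp h2 h3 hf hN he
    have hsub : {x | ¬ ∀ᶠ R : ℝ in atTop, ‖S f R x - f x‖ ≤ 5 * l} ⊆
        ({x | ENNReal.ofReal l < Sstar w1 x} ∪ {x | ENNReal.ofReal l < Sstar w2 x}) ∪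
        ({x | ENNReal.ofReal l < ‖w1 x‖ₑ} ∪ {x | ENNReal.ofReal l < ‖w2 x‖ₑ}) := by
      intro x hx
      by_contra hcon
      apply hx
      simp only [mem_union, mem_ofPred_eq, not_or, not_lt] at hcon
      obtain ⟨⟨hs1, hs2⟩, hx1, hx2⟩ := hcon
      have hb : ∀ w : E 2 → ℂ, Sstar w x ≤ ENNReal.ofReal l → ∀ R : ℝ, 0 < R →
          ‖S w R x‖ ≤ l := by
        intro w hw R hR
        have h4 : ‖S w R x‖ₑ ≤ Sstar w x := by
          unfold Sstar
          exact le_iSup₂ (f := fun (R : ℝ) (_ : 0 < R) => ‖S w R x‖ₑ) R hR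
        have h5 := le_trans h4 hw
        rw [← ofReal_norm, ENNReal.ofReal_le_ofReal_iff hl.le] at h5
        exact h5
      rw [← ofReal_norm, ENNReal.ofReal_le_ofReal_iff hl.le] at hx1 hx2
      have hev : ∀ᶠ R : ℝ in atTop, ‖S h R x - h x‖ < l := by
        have h4 := (tendsto_iff_norm_sub_tendsto_zero.1 (hconv x))
        exact (tendsto_order.1 h4).2 l hl
      filter_upwards [hev, eventually_gt_atTop 0] with R hR hR0
      have e1 : S f R x - f x = S w1 R x + S w2 R x - w1 x - w2 x + (S h R x - h x) := by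
        rw [hS R x, hfx x]
        ring
      rw [e1]
      have a1 := hb w1 hs1 R hR0
      have a2 := hb w2 hs2 R hR0
      calc ‖S w1 R x + S w2 R x - w1 x - w2 x + (S h R x - h x)‖
          ≤ ‖S w1 R x + S w2 R x - w1 x - w2 x‖ + ‖S h R x - h x‖ := norm_add_le _ _
        _ ≤ (‖S w1 R x + S w2 R x - w1 x‖ + ‖w2 x‖) + ‖S h R x - h x‖ := by
            gcongr
            exact norm_sub_le _ _
        _ ≤ ((‖S w1 R x + S w2 R x‖ + ‖w1 x‖) + ‖w2 x‖) + ‖S h R x - h x‖ := by
            gcongr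
            exact norm_sub_le _ _
        _ ≤ (((‖S w1 R x‖ + ‖S w2 R x‖) + ‖w1 x‖) + ‖w2 x‖) + ‖S h R x - h x‖ := by
            gcongr
            exact norm_add_le _ _
        _ ≤ 5 * l := by linarith
    refine le_trans (measure_mono hsub) ?_
    have hb1 : ∀ w : E 2 → ℂ, Nice w → NN w ≤ ENNReal.ofReal e →
        volume {x | ENNReal.ofReal l < Sstar w x} ≤
          C * ENNReal.ofReal e / ENNReal.ofReal l ^ 2 := by
      intro w hw hn
      refine le_trans (hC1 w (ENNReal.ofReal l) hw hl0) ?_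
      gcongr
    have hb2 : ∀ w : E 2 → ℂ, Nice w → NN w ≤ ENNReal.ofReal e →
        volume {x | ENNReal.ofReal l < ‖w x‖ₑ} ≤ ENNReal.ofReal e / ENNReal.ofReal l ^ 2 := by
      intro w hw hn
      refine le_trans (cheb hw hl) ?_
      gcongr
      exact le_trans (l2_le_NN h3 hw) hn
    calc volume (({x | ENNReal.ofReal l < Sstar w1 x} ∪ {x | ENNReal.ofReal l < Sstar w2 x}) ∪
        ({x | ENNReal.ofReal l < ‖w1 x‖ₑ} ∪ {x | ENNReal.ofReal l < ‖w2 x‖ₑ}))
        ≤ (volume {x | ENNReal.ofReal l < Sstar w1 x} +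
            volume {x | ENNReal.ofReal l < Sstar w2 x}) +
          (volume {x | ENNReal.ofReal l < ‖w1 x‖ₑ} + volume {x | ENNReal.ofReal l < ‖w2 x‖ₑ}) :=
          (measure_union_le _ _).trans
            (add_le_add (measure_union_le _ _) (measure_union_le _ _))
      _ ≤ (C * ENNReal.ofReal e / ENNReal.ofReal l ^ 2 +
            C * ENNReal.ofReal e / ENNReal.ofReal l ^ 2) +
          (ENNReal.ofReal e / ENNReal.ofReal l ^ 2 + ENNReal.ofReal e / ENNReal.ofReal l ^ 2) :=
          add_le_add (add_le_add (hb1 w1 hw1 hn1) (hb1 w2 hw2 hn2))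
            (add_le_add (hb2 w1 hw1 hn1) (hb2 w2 hw2 hn2))
      _ = K * ENNReal.ofReal e := by
          rw [hK]
          simp only [div_eq_mul_inv]
          ring
  have hlim : Tendsto (fun n : ℕ => K * ENNReal.ofReal (1 / ((n : ℝ) + 1))) atTop (𝓝 0) := by
    have h5 : Tendsto (fun n : ℕ => ENNReal.ofReal (1 / ((n : ℝ) + 1))) atTop (𝓝 0) := by
      have h6 := (ENNReal.continuous_ofReal.tendsto 0).comp
        (tendsto_one_div_add_atTop_nhds_zero_nat (𝕜 := ℝ))
      simpa [Function.comp_def] using h6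
    have h7 := ENNReal.Tendsto.const_mul h5 (Or.inr hKt)
    simpa using h7
  exact le_antisymm (ge_of_tendsto' hlim fun n => hmain _ (by positivity)) zero_le

end AE_

/-- AE: almost everywhere convergence. -/
theorem p_AE (h1 : T_WT) (h2 : T_MODA) (h3 : T_MODB) : T_AE := by
  intro hC hL f hf hN
  have hall : ∀ᵐ x, ∀ n : ℕ, ∀ᶠ R : ℝ in atTop, ‖S f R x - f x‖ ≤ 5 * (1 / ((n : ℝ) + 1)) := by
    rw [ae_all_iff]
    intro n
    rw [ae_iff]
    exact AE_.bad_null h1 h2 h3 hC hL hf hN (by positivity)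
  filter_upwards [hall] with x hx
  rw [tendsto_iff_norm_sub_tendsto_zero]
  refine tendsto_order.2 ⟨fun a ha => Eventually.of_forall fun R =>
    lt_of_lt_of_le ha (norm_nonneg _), fun a ha => ?_⟩
  obtain ⟨n, hn⟩ := exists_nat_one_div_lt (show (0 : ℝ) < a / 5 by positivity)
  filter_upwards [hx n] with R hR
  linarith

end Pool.Agent.CRL
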