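import Pool.Agent.CRL.Targets2

set_option autoImplicit false

/-!
# Fourier transforms of finite sums of modes
-/

namespace Pool.Agent.CRL

open MeasureTheory FourierTransform Set Filter Topology
open scoped ENNReal NNReal
open Pool.Agent.MBS (E ex S Sstar)
open Pool.Agent.KSP (IE)

namespace ANG_

theorem rot_ev (θ r : ℝ) : rot θ (r • ev 0) = r • ev θ := by
  unfold rot ev
  ext i
  fin_cases i <;> simp <;> ring

theorem ev_zero_cont : Continuous (fun r : ℝ => r • ev 0) :=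
  continuous_id.smul continuous_const

theorem enorm_ci (t : ℝ) : ‖ci t‖ₑ = 1 := by
  unfold ci
  rw [← ofReal_norm, Complex.norm_exp_ofReal_mul_I, ENNReal.ofReal_one]

theorem fourier_cont {g : E 2 → ℂ} (hg : Integrable g) : Continuous (𝓕 g) :=
  VectorFourier.fourierIntegral_continuous Real.continuous_fourierChar
    (by exact continuous_inner) hg

theorem fourier_sum {F : Finset ℤ} {g : ℤ → E 2 → ℂ} (hg : ∀ k ∈ F, Integrable (g k)) (ξ : E 2) :
    𝓕 (fun x => ∑ k ∈ F, g k x) ξ = ∑ k ∈ F, 𝓕 (g k) ξ := by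
  simp only [Real.fourier_eq]
  rw [← integral_finsetSum]
  · refine integral_congr_ae (Filter.Eventually.of_forall fun x => ?_)
    simp only [Finset.smul_sum]
  · intro k hk
    exact (Real.fourierIntegral_convergent_iff ξ).2 (hg k hk)

theorem sq_fin {h : E 2 → ℂ} (hh : MemLp h 2) : ∫⁻ x, ‖h x‖ₑ ^ 2 ≠ ⊤ := by
  have h1 := hh.eLpNorm_lt_top
  rw [eLpNorm_eq_lintegral_rpow_enorm_toReal (by norm_num) (by norm_num)] at h1
  have h2 := (ENNReal.rpow_lt_top_iff_of_pos (by norm_num : (0 : ℝ) < 1 / (2 : ℝ≥0∞).toReal)).1 h1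
  simp only [ENNReal.toReal_ofNat, ENNReal.rpow_ofNat] at h2
  exact h2.ne

theorem sq_int (h2 : T_POLC) (k : ℤ) {g : E 2 → ℂ} (hc : Continuous g) (hm : IsMode k g)
    (hfin : ∫⁻ x, ‖g x‖ₑ ^ 2 ≠ ⊤) :
    IntegrableOn (fun r : ℝ => r * ‖g (r • ev 0)‖ ^ 2) (Ioi 0) := by
  have hmeas : Measurable (fun x : E 2 => ‖g x‖ₑ ^ 2) := (hc.measurable.enorm).pow_const 2
  have hP := h2.1 _ hmeas
  have hin : ∀ r : ℝ, ∫⁻ θ in Ioc (-Real.pi) Real.pi, ENNReal.ofReal r * ‖g (r • ev θ)‖ₑ ^ 2 =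
      ENNReal.ofReal r * ‖g (r • ev 0)‖ₑ ^ 2 * ENNReal.ofReal (2 * Real.pi) := by
    intro r
    have : ∀ θ : ℝ, ENNReal.ofReal r * ‖g (r • ev θ)‖ₑ ^ 2 =
        ENNReal.ofReal r * ‖g (r • ev 0)‖ₑ ^ 2 := by
      intro θ
      rw [← rot_ev θ r, hm θ, enorm_mul, enorm_ci, one_mul]
    simp only [this]
    rw [setLIntegral_const, Real.volume_Ioc]
    congr 2
    ring
  have hmr : Measurable (fun r : ℝ => ENNReal.ofReal r * ‖g (r • ev 0)‖ₑ ^ 2) := by
    have h3 : Measurable (fun r : ℝ => ‖g (r • ev 0)‖ₑ ^ 2) :=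
      ((hc.comp ev_zero_cont).measurable.enorm).pow_const 2
    exact ENNReal.measurable_ofReal.mul h3
  simp only [hin] at hP
  rw [lintegral_mul_const _ hmr] at hP
  have hfin2 : ∫⁻ r in Ioi (0 : ℝ), ENNReal.ofReal r * ‖g (r • ev 0)‖ₑ ^ 2 ≠ ⊤ := by
    intro htop
    rw [htop, ENNReal.top_mul] at hP
    · exact hfin hP
    · simp [Real.pi_pos]
  refine ⟨?_, ?_⟩
  · exact (continuous_id.mul (((hc.comp ev_zero_cont).norm).pow 2)).aestronglyMeasurable
  · rw [hasFiniteIntegral_iff_enorm]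
    refine lt_of_le_of_lt (le_of_eq ?_) (lt_top_iff_ne_top.2 hfin2)
    refine setLIntegral_congr_fun measurableSet_Ioi fun r hr => ?_
    have hr0 : (0 : ℝ) ≤ r := le_of_lt hr
    have e1 : ‖g (r • ev 0)‖ₑ ^ 2 = ENNReal.ofReal (‖g (r • ev 0)‖ ^ 2) := by
      rw [← ofReal_norm, ENNReal.ofReal_pow (norm_nonneg _)]
    rw [e1, ← ENNReal.ofReal_mul hr0, ← ofReal_norm, Real.norm_of_nonneg (by positivity)]

end ANG_

open ANG_ in
/-- ANG -/
theorem p_ANG (h1 : T_MODA) (h2 : T_POLC) : T_ANG := by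
  intro f K F hf hF
  classical
  refine ⟨fun k r => if k ∈ F then amode k (𝓕 f) (r • ev 0) else 0, ?_, ?_, ?_, ?_⟩
  · have : (𝓕 (fun x => ∑ k ∈ F, amode k f x)) = fun ξ => ∑ k ∈ F, 𝓕 (amode k f) ξ := by
      funext ξ
      exact fourier_sum (fun k _ => (h1 k f hf).1.int) ξ
    rw [this]
    exact Finset.measurable_fun_sum _ fun k _ => (fourier_cont (h1 k f hf).1.int).measurable
  · intro k
    by_cases hk : k ∈ F
    · simp only [hk, if_true]
      rw [← (h1 k f hf).2.2.1]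
      exact ((fourier_cont (h1 k f hf).1.int).comp ev_zero_cont).measurable
    · simp only [hk, if_false]
      exact measurable_const
  · intro k
    by_cases hk : k ∈ F
    · simp only [hk, if_true]
      have hN := (h1 k f hf).1
      have hc := fourier_cont hN.int
      have hm := (h1 k f hf).2.2.2
      have hpl := Pool.Agent.KSP.FA2_.plancherel hN.int hN.sq
      rw [(h1 k f hf).2.2.1] at hc hpl
      refine sq_int h2 k hc hm ?_
      rw [hpl]
      exact sq_fin hN.sq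
    · simp only [hk, if_false]
      simp
  · intro r hr θ
    have e1 := fourier_sum (F := F) (g := fun k => amode k f)
      (fun k _ => (h1 k f hf).1.int) (r • ev θ)
    rw [e1]
    have hsub : F ⊆ Finset.Icc (-(K : ℤ)) K := by
      intro k hk
      rw [Finset.mem_Icc]
      exact abs_le.1 (hF k hk)
    rw [← Finset.sum_subset hsub]
    · refine Finset.sum_congr rfl fun k hk => ?_
      simp only [hk, if_true]
      rw [(h1 k f hf).2.2.1, ← rot_ev θ r, (h1 k f hf).2.2.2 θ, mul_comm]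
    · intro k _ hk
      simp only [hk, if_false, zero_mul]

end Pool.Agent.CRL
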