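import Pool.Agent.CRL.Targets
import Pool.Agent.KSP.KE

set_option autoImplicit false

/-!
# ARC: a disc meets the annuli of a circle in arcs
-/

namespace Pool.Agent.CRL

open MeasureTheory FourierTransform Set Filter Topology
open scoped ENNReal NNReal
open Pool.Agent.MBS (E ex S Sstar)

namespace ARC_

/-- the comparison kernel -/
noncomputable def kk (a : ℝ) : ℝ≥0∞ := ENNReal.ofReal (((1 + |a| / 2) ^ 2)⁻¹)

noncomputable def K0 : ℝ≥0∞ := ∫⁻ a : ℝ, kk a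

lemma kk_le (a : ℝ) : kk a ≤ ENNReal.ofReal (4 * (1 + a ^ 2)⁻¹) := by
  unfold kk
  apply ENNReal.ofReal_le_ofReal
  have h1 : 0 < 1 + a ^ 2 := by positivity
  have h2 : (1 + a ^ 2) / 4 ≤ (1 + |a| / 2) ^ 2 := by
    have h3 : |a| ^ 2 = a ^ 2 := sq_abs a
    nlinarith [abs_nonneg a]
  calc ((1 + |a| / 2) ^ 2)⁻¹ ≤ ((1 + a ^ 2) / 4)⁻¹ := by
        apply inv_anti₀ (by positivity) h2
    _ = 4 * (1 + a ^ 2)⁻¹ := by
        rw [inv_div]
        ring

lemma K0_lt : K0 < ∞ := by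
  have h1 : Integrable (fun a : ℝ => 4 * (1 + a ^ 2)⁻¹) := integrable_inv_one_add_sq.const_mul 4
  have h2 : ∫⁻ a : ℝ, ENNReal.ofReal (4 * (1 + a ^ 2)⁻¹) < ∞ := by
    rw [← ofReal_integral_eq_lintegral_ofReal h1 (ae_of_all _ fun a => by positivity)]
    exact ENNReal.ofReal_lt_top
  exact lt_of_le_of_lt (lintegral_mono fun a => kk_le a) h2

lemma key (b R t : ℝ) (ht : |b| ≤ t) :
    |t - √(max R √(2 * b ^ 2) ^ 2 - b ^ 2)| / 2 ≤ |√(t ^ 2 + b ^ 2) - R| := by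
  set R2 : ℝ := max R √(2 * b ^ 2) with hR2
  set s : ℝ := √(t ^ 2 + b ^ 2) with hs
  have hb0 : 0 ≤ |b| := abs_nonneg b
  have ht0 : 0 ≤ t := hb0.trans ht
  have hbt : b ^ 2 ≤ t ^ 2 := by
    rw [← sq_abs b]
    gcongr
  have hs0 : 0 ≤ s := Real.sqrt_nonneg _
  have hs2 : s ^ 2 = t ^ 2 + b ^ 2 := Real.sq_sqrt (by positivity)
  have hq0 : 0 ≤ √(2 * b ^ 2) := Real.sqrt_nonneg _
  have hq2 : √(2 * b ^ 2) ^ 2 = 2 * b ^ 2 := Real.sq_sqrt (by positivity)
  have hR20 : 0 ≤ R2 := hq0.trans (le_max_right _ _)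
  have hR22 : 2 * b ^ 2 ≤ R2 ^ 2 := by
    rw [← hq2]
    exact pow_le_pow_left₀ hq0 (le_max_right _ _) 2
  set a₀ : ℝ := √(R2 ^ 2 - b ^ 2) with ha₀
  have ha0 : 0 ≤ a₀ := Real.sqrt_nonneg _
  have ha2 : a₀ ^ 2 = R2 ^ 2 - b ^ 2 := Real.sq_sqrt (by nlinarith [sq_nonneg b])
  have h1 : s ≤ 2 * t := by
    apply le_of_sq_le_sq _ (by positivity)
    nlinarith
  have h2 : R2 ≤ 2 * a₀ := by
    apply le_of_sq_le_sq _ (by positivity)
    nlinarith
  have h3 : |s - R2| ≤ |s - R| := by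
    rcases le_total (√(2 * b ^ 2)) R with h | h
    · rw [hR2, max_eq_left h]
    · rw [hR2, max_eq_right h]
      have h4 : √(2 * b ^ 2) ≤ s := by
        apply Real.sqrt_le_sqrt
        linarith
      rw [abs_of_nonneg (by linarith), abs_of_nonneg (by linarith)]
      linarith
  refine le_trans ?_ h3
  have h5 : (s - R2) * (s + R2) = (t - a₀) * (t + a₀) := by
    have e1 : (s - R2) * (s + R2) = s ^ 2 - R2 ^ 2 := by ring
    have e2 : (t - a₀) * (t + a₀) = t ^ 2 - a₀ ^ 2 := by ring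
    rw [e1, e2, hs2, ha2]
    ring
  have h6 : |s - R2| * (s + R2) = |t - a₀| * (t + a₀) := by
    rw [← abs_of_nonneg (add_nonneg hs0 hR20), ← abs_mul, h5, abs_mul,
      abs_of_nonneg (add_nonneg ht0 ha0)]
  rcases eq_or_lt_of_le (add_nonneg ht0 ha0) with h7 | h7
  · have e1 : t = 0 := by linarith
    have e2 : a₀ = 0 := by linarith
    rw [e1, e2]
    simp
  · have h8 : |t - a₀| * (t + a₀) ≤ |s - R2| * (2 * (t + a₀)) := by
      rw [← h6]
      exact mul_le_mul_of_nonneg_left (by linarith) (abs_nonneg _)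
    have h9 : |t - a₀| ≤ |s - R2| * 2 := by
      have : |t - a₀| * (t + a₀) ≤ (|s - R2| * 2) * (t + a₀) := by linarith
      exact le_of_mul_le_mul_right this h7
    linarith

/-- the weight in coordinates -/
noncomputable def HH0 (R a b : ℝ) : ℝ≥0∞ := ENNReal.ofReal (((1 + |√(a ^ 2 + b ^ 2) - R|) ^ 2)⁻¹)

lemma HH0_comm (R a b : ℝ) : HH0 R a b = HH0 R b a := by
  unfold HH0
  rw [add_comm (a ^ 2)]

lemma HH0_le (R b : ℝ) : ∃ a₀ : ℝ, ∀ a : ℝ, |b| ≤ |a| → HH0 R a b ≤ kk (a - a₀) + kk (a + a₀) := by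
  refine ⟨√(max R √(2 * b ^ 2) ^ 2 - b ^ 2), fun a ha => ?_⟩
  set a₀ : ℝ := √(max R √(2 * b ^ 2) ^ 2 - b ^ 2) with ha₀
  have h1 := key b R |a| ha
  rw [← ha₀, sq_abs] at h1
  have h2 : HH0 R a b ≤ kk (|a| - a₀) := by
    unfold HH0 kk
    apply ENNReal.ofReal_le_ofReal
    apply inv_anti₀ (by positivity)
    gcongr
  refine h2.trans ?_
  rcases le_total 0 a with h | h
  · rw [abs_of_nonneg h]
    exact le_self_add
  · rw [abs_of_nonpos h]
    have e1 : kk (-a - a₀) = kk (a + a₀) := by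
      unfold kk
      rw [show -a - a₀ = -(a + a₀) by ring, abs_neg]
    rw [e1]
    exact le_add_self

lemma inner_le (R b : ℝ) : ∫⁻ a : ℝ, (if |b| ≤ |a| then HH0 R a b else 0) ≤ 2 * K0 := by
  obtain ⟨a₀, h⟩ := HH0_le R b
  have hm : Measurable kk := by
    unfold kk
    fun_prop
  calc ∫⁻ a : ℝ, (if |b| ≤ |a| then HH0 R a b else 0) ≤ ∫⁻ a : ℝ, (kk (a - a₀) + kk (a + a₀)) := by
        refine lintegral_mono fun a => ?_
        show (if |b| ≤ |a| then HH0 R a b else 0) ≤ kk (a - a₀) + kk (a + a₀)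
        split_ifs with h1
        · exact h a h1
        · exact zero_le
    _ = (∫⁻ a : ℝ, kk (a - a₀)) + ∫⁻ a : ℝ, kk (a + a₀) :=
        lintegral_add_left (hm.comp (measurable_id.sub_const a₀)) _
    _ = 2 * K0 := by
        rw [lintegral_sub_right_eq_self kk a₀, lintegral_add_right_eq_self kk a₀, two_mul]
        rfl

lemma vol_le (c ρ : ℝ) : ∫⁻ b : ℝ, (if |b - c| ≤ ρ then 2 * K0 else 0) =
    2 * K0 * ENNReal.ofReal (2 * ρ) := by
  have e1 : (fun b : ℝ => if |b - c| ≤ ρ then 2 * K0 else 0) =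
      (Icc (c - ρ) (c + ρ)).indicator fun _ => 2 * K0 := by
    funext b
    by_cases h : |b - c| ≤ ρ
    · rw [if_pos h, indicator_of_mem]
      rw [abs_le] at h
      exact ⟨by linarith [h.1], by linarith [h.2]⟩
    · rw [if_neg h, indicator_of_notMem]
      intro h1
      exact h (abs_le.mpr ⟨by linarith [h1.1], by linarith [h1.2]⟩)
  rw [e1, lintegral_indicator_const measurableSet_Icc, Real.volume_Icc]
  congr 2
  ring

lemma meas_HH0 (R : ℝ) : Measurable fun p : ℝ × ℝ => HH0 R p.1 p.2 := by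
  unfold HH0
  fun_prop

lemma sector (R c ρ : ℝ) :
    ∫⁻ p : ℝ × ℝ, (if |p.2 - c| ≤ ρ ∧ |p.2| ≤ |p.1| then HH0 R p.1 p.2 else 0) ≤
      2 * K0 * ENNReal.ofReal (2 * ρ) := by
  have hset : MeasurableSet {p : ℝ × ℝ | |p.2 - c| ≤ ρ ∧ |p.2| ≤ |p.1|} := by
    have h1 : MeasurableSet {p : ℝ × ℝ | |p.2 - c| ≤ ρ} :=
      measurableSet_le (by fun_prop) (by fun_prop)
    have h2 : MeasurableSet {p : ℝ × ℝ | |p.2| ≤ |p.1|} :=
      measurableSet_le (by fun_prop) (by fun_prop)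
    exact h1.inter h2
  have hm : Measurable fun p : ℝ × ℝ =>
      if |p.2 - c| ≤ ρ ∧ |p.2| ≤ |p.1| then HH0 R p.1 p.2 else 0 :=
    Measurable.ite hset (meas_HH0 R) measurable_const
  have e1 : (volume : Measure (ℝ × ℝ)) = (volume : Measure ℝ).prod volume := rfl
  rw [e1, lintegral_prod_symm _ hm.aemeasurable, ← vol_le c ρ]
  refine lintegral_mono fun b => ?_
  show ∫⁻ a : ℝ, (if |b - c| ≤ ρ ∧ |b| ≤ |a| then HH0 R a b else 0) ≤
    if |b - c| ≤ ρ then 2 * K0 else 0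
  by_cases h : |b - c| ≤ ρ
  · simp only [h, true_and, if_true]
    exact inner_le R b
  · simp [h]

lemma sector' (R c ρ : ℝ) :
    ∫⁻ p : ℝ × ℝ, (if |p.1 - c| ≤ ρ ∧ |p.1| ≤ |p.2| then HH0 R p.1 p.2 else 0) ≤
      2 * K0 * ENNReal.ofReal (2 * ρ) := by
  have hset : MeasurableSet {p : ℝ × ℝ | |p.1 - c| ≤ ρ ∧ |p.1| ≤ |p.2|} := by
    have h1 : MeasurableSet {p : ℝ × ℝ | |p.1 - c| ≤ ρ} :=
      measurableSet_le (by fun_prop) (by fun_prop)
    have h2 : MeasurableSet {p : ℝ × ℝ | |p.1| ≤ |p.2|} :=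
      measurableSet_le (by fun_prop) (by fun_prop)
    exact h1.inter h2
  have hm : Measurable fun p : ℝ × ℝ =>
      if |p.1 - c| ≤ ρ ∧ |p.1| ≤ |p.2| then HH0 R p.1 p.2 else 0 :=
    Measurable.ite hset (meas_HH0 R) measurable_const
  have e1 : (volume : Measure (ℝ × ℝ)) = (volume : Measure ℝ).prod volume := rfl
  rw [e1, lintegral_prod _ hm.aemeasurable, ← vol_le c ρ]
  refine lintegral_mono fun b => ?_
  show ∫⁻ a : ℝ, (if |b - c| ≤ ρ ∧ |b| ≤ |a| then HH0 R b a else 0) ≤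
    if |b - c| ≤ ρ then 2 * K0 else 0
  by_cases h : |b - c| ≤ ρ
  · simp only [h, true_and, if_true]
    simp only [HH0_comm R b]
    exact inner_le R b
  · simp [h]

end ARC_

open ARC_ Pool.Agent.KSP.KE_ in
theorem p_ARC : T_ARC := by
  refine ⟨8 * K0.toNNReal, fun ξ R ρ _ => ?_⟩
  have hK : ((8 * K0.toNNReal : ℝ≥0) : ℝ≥0∞) = 8 * K0 := by
    rw [ENNReal.coe_mul, ENNReal.coe_toNNReal K0_lt.ne]
    rfl
  rw [hK]
  rw [← lintegral_indicator Metric.isClosed_closedBall.measurableSet, lint_φ]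
  set G1 : ℝ × ℝ → ℝ≥0∞ := fun p =>
    if |p.2 - ξ 1| ≤ ρ ∧ |p.2| ≤ |p.1| then HH0 R p.1 p.2 else 0 with hG1
  set G2 : ℝ × ℝ → ℝ≥0∞ := fun p =>
    if |p.1 - ξ 0| ≤ ρ ∧ |p.1| ≤ |p.2| then HH0 R p.1 p.2 else 0 with hG2
  have hG1m : Measurable G1 := by
    have h1 : MeasurableSet {p : ℝ × ℝ | |p.2 - ξ 1| ≤ ρ} :=
      measurableSet_le (by fun_prop) (by fun_prop)
    have h2 : MeasurableSet {p : ℝ × ℝ | |p.2| ≤ |p.1|} :=
      measurableSet_le (by fun_prop) (by fun_prop)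
    exact Measurable.ite (h1.inter h2) (meas_HH0 R) measurable_const
  have hpt : ∀ p : ℝ × ℝ, (Metric.closedBall ξ ρ).indicator
      (fun ζ => ENNReal.ofReal (dw 2 R ζ)) (φ p) ≤ G1 p + G2 p := by
    intro p
    by_cases h : φ p ∈ Metric.closedBall ξ ρ
    · rw [indicator_of_mem h]
      have e1 : ENNReal.ofReal (dw 2 R (φ p)) = HH0 R p.1 p.2 := by
        unfold dw HH0
        rw [φ_norm]
        rfl
      rw [e1]
      have h0 : ∀ i : Fin 2, |φ p i - ξ i| ≤ ρ := by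
        intro i
        have h1 := PiLp.norm_apply_le (φ p - ξ) i
        rw [Metric.mem_closedBall, dist_eq_norm] at h
        exact le_trans h1 h
      have h1 : |p.2 - ξ 1| ≤ ρ := h0 1
      have h2 : |p.1 - ξ 0| ≤ ρ := h0 0
      rcases le_total (|p.2|) (|p.1|) with h3 | h3
      · have : G1 p = HH0 R p.1 p.2 := by
          simp only [hG1]
          rw [if_pos ⟨h1, h3⟩]
        rw [this]
        exact le_self_add
      · have : G2 p = HH0 R p.1 p.2 := by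
          simp only [hG2]
          rw [if_pos ⟨h2, h3⟩]
        rw [this]
        exact le_add_self
    · rw [indicator_of_notMem h]
      exact zero_le
  calc ∫⁻ p : ℝ × ℝ, (Metric.closedBall ξ ρ).indicator
        (fun ζ => ENNReal.ofReal (dw 2 R ζ)) (φ p) ≤ ∫⁻ p : ℝ × ℝ, (G1 p + G2 p) :=
        lintegral_mono hpt
    _ = (∫⁻ p : ℝ × ℝ, G1 p) + ∫⁻ p : ℝ × ℝ, G2 p := lintegral_add_left hG1m _
    _ ≤ 2 * K0 * ENNReal.ofReal (2 * ρ) + 2 * K0 * ENNReal.ofReal (2 * ρ) :=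
        add_le_add (sector R (ξ 1) ρ) (sector' R (ξ 0) ρ)
    _ = 8 * K0 * ENNReal.ofReal ρ := by
        rw [ENNReal.ofReal_mul (by norm_num : (0 : ℝ) ≤ 2)]
        have e2 : ENNReal.ofReal 2 = 2 := by simp
        rw [e2]
        ring

end Pool.Agent.CRL
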