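import Pool.Agent.CRL.Targets

/-!
# Bessel's equation for the disc kernel
-/

set_option autoImplicit false

namespace Pool.Agent.CRL

open MeasureTheory FourierTransform Set Filter Topology
open scoped ENNReal NNReal
open Pool.Agent.MBS (E ex S Sstar)

namespace BES_

/-- the phase -/
noncomputable def a (z : E 2) (φ : ℝ) : ℝ := z 0 * Real.cos φ + z 1 * Real.sin φ

/-- its derivative -/
noncomputable def b (z : E 2) (φ : ℝ) : ℝ := -(z 0 * Real.sin φ) + z 1 * Real.cos φ

/-- the exponential -/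
noncomputable def w (z : E 2) (r φ : ℝ) : ℂ :=
  Complex.exp (2 * Real.pi * Complex.I * ((r * a z φ : ℝ) : ℂ))

theorem ex_eq (z : E 2) (r φ : ℝ) : ex z (r • ev φ) = w z r φ := by
  unfold ex w
  congr 2
  rw [inner_smul_right]
  have : inner ℝ z (ev φ) = a z φ := by
    unfold a ev
    rw [PiLp.inner_apply, Fin.sum_univ_two]
    simp [mul_comm]
  rw [this]

theorem norm_w (z : E 2) (r φ : ℝ) : ‖w z r φ‖ = 1 := by
  unfold w
  rw [Complex.norm_exp]
  simp

theorem cont_a (z : E 2) : Continuous (a z) := by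
  unfold a
  fun_prop

theorem cont_b (z : E 2) : Continuous (b z) := by
  unfold b
  fun_prop

theorem cont_w (z : E 2) : Continuous (fun p : ℝ × ℝ => w z p.1 p.2) := by
  unfold w
  have := cont_a z
  fun_prop

theorem cont_w1 (z : E 2) (r : ℝ) : Continuous (fun φ => w z r φ) := by
  unfold w
  have := cont_a z
  fun_prop

theorem norm_sq (z : E 2) (φ : ℝ) : a z φ ^ 2 + b z φ ^ 2 = ‖z‖ ^ 2 := by
  rw [EuclideanSpace.norm_sq_eq, Fin.sum_univ_two]
  unfold a b
  simp only [Real.norm_eq_abs, sq_abs]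
  have := Real.sin_sq_add_cos_sq φ
  nlinarith [this]

/-- derivative with respect to the radius -/
theorem deriv_r (z : E 2) (r φ : ℝ) :
    HasDerivAt (fun s : ℝ => w z s φ)
      (2 * Real.pi * Complex.I * (a z φ : ℂ) * w z r φ) r := by
  unfold w
  have h1 : HasDerivAt (fun s : ℝ => (2 * Real.pi * Complex.I * ((s * a z φ : ℝ) : ℂ)))
      (2 * Real.pi * Complex.I * (a z φ : ℂ)) r := by
    have h0 : HasDerivAt (fun s : ℝ => ((s * a z φ : ℝ) : ℂ)) (((1 : ℝ) * a z φ : ℝ) : ℂ) r :=
      ((hasDerivAt_id r).mul_const (a z φ)).ofReal_comp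
    have h2 := h0.const_mul (2 * Real.pi * Complex.I : ℂ)
    simpa using h2
  have h3 := h1.cexp
  convert h3 using 1
  ring

/-- derivative with respect to the angle -/
theorem deriv_φ (z : E 2) (r φ : ℝ) :
    HasDerivAt (fun t : ℝ => w z r t)
      (2 * Real.pi * Complex.I * (r * b z φ : ℂ) * w z r φ) φ := by
  unfold w
  have ha : HasDerivAt (a z) (b z φ) φ := by
    unfold a b
    have h1 := ((Real.hasDerivAt_cos φ).const_mul (z 0)).add
      ((Real.hasDerivAt_sin φ).const_mul (z 1))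
    exact h1.congr_deriv (by ring)
  have h0 : HasDerivAt (fun t : ℝ => ((r * a z t : ℝ) : ℂ)) ((r * b z φ : ℝ) : ℂ) φ :=
    (ha.const_mul r).ofReal_comp
  have h2 := h0.const_mul (2 * Real.pi * Complex.I : ℂ)
  have h3 := h2.cexp
  convert h3 using 1
  push_cast
  ring

theorem deriv_b (z : E 2) (φ : ℝ) : HasDerivAt (b z) (-a z φ) φ := by
  unfold a b
  have h1 := ((Real.hasDerivAt_sin φ).const_mul (z 0)).neg.add
    ((Real.hasDerivAt_cos φ).const_mul (z 1))
  exact h1.congr_deriv (by ring)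

/-- differentiation under the integral sign -/
theorem deriv_int (z : E 2) (g : ℝ → ℂ) (hg : Continuous g) (r : ℝ) :
    HasDerivAt (fun s : ℝ => ∫ φ in (-Real.pi)..Real.pi, g φ * w z s φ)
      (∫ φ in (-Real.pi)..Real.pi, g φ * (2 * Real.pi * Complex.I * (a z φ : ℂ) * w z r φ)) r := by
  have hac := cont_a z
  have key := intervalIntegral.hasDerivAt_integral_of_dominated_loc_of_deriv_le
    (μ := volume) (a := -Real.pi) (b := Real.pi) (s := Set.univ)
    (F := fun s φ => g φ * w z s φ)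
    (F' := fun s φ => g φ * (2 * Real.pi * Complex.I * (a z φ : ℂ) * w z s φ))
    (bound := fun φ => ‖g φ * (2 * Real.pi * Complex.I * (a z φ : ℂ))‖) (x₀ := r)
    Filter.univ_mem ?_ ?_ ?_ ?_ ?_ ?_
  · exact key.2
  · exact Eventually.of_forall fun s => (hg.mul (cont_w1 z s)).aestronglyMeasurable
  · exact (hg.mul (cont_w1 z r)).intervalIntegrable _ _
  · refine Continuous.aestronglyMeasurable ?_
    have := cont_w1 z r
    fun_prop
  · refine Eventually.of_forall fun φ _ s _ => ?_
    rw [← mul_assoc, norm_mul _ (w z s φ), norm_w, mul_one]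
  · refine Continuous.intervalIntegrable ?_ _ _
    fun_prop
  · refine Eventually.of_forall fun φ _ s _ => ?_
    exact (deriv_r z s φ).const_mul (g φ)

noncomputable def J (z : E 2) (r : ℝ) : ℂ := ∫ φ in (-Real.pi)..Real.pi, w z r φ

noncomputable def J1 (z : E 2) (r : ℝ) : ℂ :=
  ∫ φ in (-Real.pi)..Real.pi, (2 * Real.pi * Complex.I * (a z φ : ℂ)) * w z r φ

noncomputable def J2 (z : E 2) (r : ℝ) : ℂ :=
  ∫ φ in (-Real.pi)..Real.pi, (2 * Real.pi * Complex.I * (a z φ : ℂ)) *
    (2 * Real.pi * Complex.I * (a z φ : ℂ) * w z r φ)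

theorem dJ (z : E 2) (r : ℝ) : HasDerivAt (J z) (J1 z r) r := by
  have h := deriv_int z (fun _ => 1) continuous_const r
  simp only [one_mul] at h
  exact h

theorem dJ1 (z : E 2) (r : ℝ) : HasDerivAt (J1 z) (J2 z r) r := by
  have hac := cont_a z
  exact deriv_int z (fun φ => 2 * Real.pi * Complex.I * (a z φ : ℂ)) (by fun_prop) r

/-- integration by parts -/
theorem parts (z : E 2) (r : ℝ) :
    J1 z r + r * J2 z r = -(4 * Real.pi ^ 2 * ‖z‖ ^ 2 * (r * J z r)) := by
  have hac := cont_a z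
  have hbc := cont_b z
  have hwc := cont_w1 z r
  have h1 : ∀ φ, HasDerivAt (fun t => (b z t : ℂ) * w z r t)
      (((-a z φ : ℝ) : ℂ) * w z r φ +
        (b z φ : ℂ) * (2 * Real.pi * Complex.I * (r * b z φ : ℂ) * w z r φ)) φ := by
    intro φ
    exact (deriv_b z φ).ofReal_comp.mul (deriv_φ z r φ)
  have h2 : ∫ φ in (-Real.pi)..Real.pi, (((-a z φ : ℝ) : ℂ) * w z r φ +
        (b z φ : ℂ) * (2 * Real.pi * Complex.I * (r * b z φ : ℂ) * w z r φ)) = 0 := by
    rw [intervalIntegral.integral_eq_sub_of_hasDerivAt (fun φ _ => h1 φ)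
      (Continuous.intervalIntegrable (by fun_prop) _ _)]
    unfold w a b
    simp
  have h3 : J1 z r + r * J2 z r + 4 * Real.pi ^ 2 * ‖z‖ ^ 2 * (r * J z r) =
      (-(2 * Real.pi * Complex.I)) * ∫ φ in (-Real.pi)..Real.pi, (((-a z φ : ℝ) : ℂ) * w z r φ +
        (b z φ : ℂ) * (2 * Real.pi * Complex.I * (r * b z φ : ℂ) * w z r φ)) := by
    unfold J1 J2 J
    rw [← intervalIntegral.integral_const_mul, ← intervalIntegral.integral_const_mul,
      ← intervalIntegral.integral_const_mul, ← intervalIntegral.integral_const_mul,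
      ← intervalIntegral.integral_add (Continuous.intervalIntegrable (by fun_prop) _ _)
        (Continuous.intervalIntegrable (by fun_prop) _ _),
      ← intervalIntegral.integral_add (Continuous.intervalIntegrable (by fun_prop) _ _)
        (Continuous.intervalIntegrable (by fun_prop) _ _)]
    congr 1
    funext φ
    have hn : ((a z φ : ℂ)) ^ 2 + ((b z φ : ℂ)) ^ 2 = ((‖z‖ : ℂ)) ^ 2 := by
      exact_mod_cast congrArg (fun t : ℝ => (t : ℂ)) (norm_sq z φ)
    rw [← hn]
    push_cast
    linear_combination (4 * Real.pi ^ 2 * r * (a z φ : ℂ) ^ 2 * w z r φ +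
      4 * Real.pi ^ 2 * r * (b z φ : ℂ) ^ 2 * w z r φ) * Complex.I_sq
  rw [h2, mul_zero] at h3
  linear_combination h3

theorem D1_eq (z : E 2) (r : ℝ) : D1 r z = r * J z r := by
  unfold D1 J
  congr 1
  refine intervalIntegral.integral_congr fun φ _ => ?_
  exact ex_eq z r φ

theorem contJ (z : E 2) : Continuous (J z) :=
  continuous_iff_continuousAt.mpr fun r => (dJ z r).continuousAt

/-- the identity `R J' = -4 π² ‖z‖² ∫_0^R D1` -/
theorem ident (z : E 2) (R : ℝ) :
    R * J1 z R = -(4 * Real.pi ^ 2 * ‖z‖ ^ 2 * ∫ r in (0 : ℝ)..R, (r : ℂ) * J z r) := by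
  have hJ := contJ z
  have hd : ∀ r : ℝ, HasDerivAt (fun r : ℝ => (r : ℂ) * J1 z r +
      4 * Real.pi ^ 2 * ‖z‖ ^ 2 * ∫ s in (0 : ℝ)..r, (s : ℂ) * J z s) 0 r := by
    intro r
    have h1 : HasDerivAt (fun r : ℝ => (r : ℂ) * J1 z r) ((1 : ℝ) * J1 z r + r * J2 z r) r := by
      have h0 : HasDerivAt (fun r : ℝ => (r : ℂ)) ((1 : ℝ) : ℂ) r := (hasDerivAt_id r).ofReal_comp
      exact h0.mul (dJ1 z r)
    have h2 : HasDerivAt (fun r : ℝ => ∫ s in (0 : ℝ)..r, (s : ℂ) * J z s) (r * J z r) r := by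
      have hc : Continuous (fun s : ℝ => (s : ℂ) * J z s) := by fun_prop
      exact hc.integral_hasStrictDerivAt 0 r |>.hasDerivAt
    have h3 := h1.add (h2.const_mul (4 * Real.pi ^ 2 * ‖z‖ ^ 2 : ℂ))
    refine h3.congr_deriv ?_
    have := parts z r
    push_cast
    linear_combination this
  have hconst := is_const_of_deriv_eq_zero (fun r => (hd r).differentiableAt)
    (fun r => (hd r).deriv) R 0
  simp only [Complex.ofReal_zero, zero_mul, intervalIntegral.integral_same, mul_zero,
    add_zero] at hconst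
  linear_combination hconst

theorem norm_ev (θ : ℝ) : ‖ev θ‖ = 1 := by
  have h : ‖ev θ‖ ^ 2 = 1 := by
    rw [EuclideanSpace.norm_sq_eq, Fin.sum_univ_two]
    simp only [Real.norm_eq_abs, sq_abs]
    unfold ev
    simp
  have h0 := norm_nonneg (ev θ)
  nlinarith

theorem cont_ex (z : E 2) : Continuous (fun ζ : E 2 => ex z ζ) := by
  unfold ex
  fun_prop

/-- polar coordinates -/
theorem DD_eq (h1 : T_POLC) (z : E 2) (R : ℝ) (hR : 0 ≤ R) :
    DD R z = ∫ r in (0 : ℝ)..R, (r : ℂ) * J z r := by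
  have hm : MeasurableSet (Metric.closedBall (0 : E 2) R) := Metric.isClosed_closedBall.measurableSet
  have hi : Integrable ((Metric.closedBall (0 : E 2) R).indicator (fun ζ => ex z ζ)) := by
    rw [integrable_indicator_iff hm]
    exact (cont_ex z).continuousOn.integrableOn_compact (isCompact_closedBall 0 R)
  have h2 := h1.2 _ hi
  unfold DD
  rw [← integral_indicator hm, h2, intervalIntegral.integral_of_le hR,
    ← integral_indicator measurableSet_Ioi, ← integral_indicator measurableSet_Ioc]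
  congr 1
  funext r
  by_cases hr : 0 < r
  · rw [indicator_of_mem (show r ∈ Ioi (0 : ℝ) from hr)]
    have hn : ∀ θ, ‖r • ev θ‖ = r := by
      intro θ
      rw [norm_smul, norm_ev, mul_one, Real.norm_of_nonneg hr.le]
    by_cases hrR : r ≤ R
    · rw [indicator_of_mem (show r ∈ Ioc (0 : ℝ) R from ⟨hr, hrR⟩)]
      congr 1
      unfold J
      refine intervalIntegral.integral_congr fun θ _ => ?_
      have hmem : r • ev θ ∈ Metric.closedBall (0 : E 2) R := by
        rw [mem_closedBall_zero_iff, hn]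
        exact hrR
      change (Metric.closedBall (0 : E 2) R).indicator (fun ζ => ex z ζ) (r • ev θ) = w z r θ
      rw [indicator_of_mem hmem, ex_eq]
    · rw [indicator_of_notMem (show r ∉ Ioc (0 : ℝ) R from fun h => hrR h.2)]
      have : ∀ θ, (Metric.closedBall (0 : E 2) R).indicator (fun ζ => ex z ζ) (r • ev θ) = 0 := by
        intro θ
        apply indicator_of_notMem
        rw [mem_closedBall_zero_iff, hn]
        exact hrR
      simp [this]
  · rw [indicator_of_notMem (show r ∉ Ioi (0 : ℝ) from hr),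
      indicator_of_notMem (show r ∉ Ioc (0 : ℝ) R from fun h => hr h.1)]

end BES_

open BES_ in
theorem p_BES (h1 : T_POLC) : T_BES := by
  intro z R hR
  have hJ := contJ z
  constructor
  · have hc : Continuous (fun s : ℝ => (s : ℂ) * J z s) := by fun_prop
    have h2 : HasDerivAt (fun r : ℝ => ∫ s in (0 : ℝ)..r, (s : ℂ) * J z s) (D1 R z) R := by
      rw [D1_eq]
      exact hc.integral_hasStrictDerivAt 0 R |>.hasDerivAt
    refine h2.congr_of_eventuallyEq ?_
    filter_upwards [Ioi_mem_nhds hR] with r hr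
    exact DD_eq h1 z r (le_of_lt hr)
  · have h0 : HasDerivAt (fun r : ℝ => (r : ℂ)) ((1 : ℝ) : ℂ) R := (hasDerivAt_id R).ofReal_comp
    have h3 := h0.mul (dJ z R)
    have h4 : (fun r : ℝ => D1 r z) = (fun r : ℝ => (r : ℂ) * J z r) := by
      funext r
      exact D1_eq z r
    rw [h4]
    refine h3.congr_deriv ?_
    rw [DD_eq h1 z R hR.le, D1_eq]
    have h5 := ident z R
    have hR' : (R : ℂ) ≠ 0 := by exact_mod_cast hR.ne'
    rw [mul_div_cancel_left₀ _ hR']
    push_cast
    linear_combination h5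

end Pool.Agent.CRL
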