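import Pool.Agent.CRL.Targets

set_option autoImplicit false

/-!
# Block D2S: `S f R x` as a function of `R`
-/

namespace Pool.Agent.CRL

open MeasureTheory FourierTransform Set Filter Topology
open scoped ENNReal NNReal
open Pool.Agent.MBS (E ex S Sstar ex_norm ex_continuous)
open Pool.Agent.KSP (IE)
open Pool.Agent.CAR (e1)

namespace D2S_

theorem ev_continuous : Continuous ev := by
  unfold ev
  refine (PiLp.continuous_toLp 2 _).comp ?_
  refine continuous_pi fun i => ?_
  fin_cases i
  · exact Real.continuous_cos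
  · exact Real.continuous_sin

/-- The integrand of the Fourier transform, shifted. -/
theorem four_mul_ex (f : E 2 → ℂ) (x ξ : E 2) :
    𝓕 f ξ * ex x ξ = ∫ y, f y * ex (x - y) ξ := by
  rw [Real.fourier_eq', ← integral_mul_const]
  refine integral_congr_ae (ae_of_all _ fun y => ?_)
  simp only [ex, smul_eq_mul]
  rw [mul_right_comm, mul_comm _ (f y), ← Complex.exp_add]
  congr 2
  rw [inner_sub_left]
  push_cast
  ring

section gen

variable {X : Type*} [MeasurableSpace X] (μ : Measure X) [IsFiniteMeasure μ] (p : X → E 2)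

theorem ker_continuous (hp : Measurable p) : Continuous (fun z : E 2 => ∫ a, ex z (p a) ∂μ) := by
  refine continuous_of_dominated (bound := fun _ => 1) (fun z => ?_) (fun z => ?_)
    (integrable_const 1) ?_
  · have h1 : Continuous (fun ξ : E 2 => ex z ξ) :=
      ex_continuous.comp (continuous_const.prodMk continuous_id)
    exact (h1.measurable.comp hp).aestronglyMeasurable
  · exact ae_of_all _ fun a => (ex_norm _ _).le
  · exact ae_of_all _ fun a => ex_continuous.comp (continuous_id.prodMk continuous_const)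

theorem fub (hp : Measurable p) {f : E 2 → ℂ} (hf : Integrable f) (x : E 2) :
    ∫ a, 𝓕 f (p a) * ex x (p a) ∂μ = ∫ y, f y * ∫ a, ex (x - y) (p a) ∂μ := by
  have hm : Measurable (fun z : X × E 2 => ex (x - z.2) (p z.1)) :=
    ex_continuous.measurable.comp ((measurable_const.sub measurable_snd).prodMk
      (hp.comp measurable_fst))
  have hi : Integrable (Function.uncurry fun (a : X) (y : E 2) => f y * ex (x - y) (p a))
      (μ.prod volume) := by
    refine (hf.comp_snd μ).mul_bdd (c := 1) hm.aestronglyMeasurable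
      (ae_of_all _ fun z => (ex_norm _ _).le)
  calc ∫ a, 𝓕 f (p a) * ex x (p a) ∂μ
      = ∫ a, (∫ y, f y * ex (x - y) (p a)) ∂μ :=
        integral_congr_ae (ae_of_all _ fun a => four_mul_ex f x (p a))
    _ = ∫ y, ∫ a, f y * ex (x - y) (p a) ∂μ := integral_integral_swap hi
    _ = ∫ y, f y * ∫ a, ex (x - y) (p a) ∂μ :=
        integral_congr_ae (ae_of_all _ fun y => integral_const_mul _ _)

end gen

instance finBall (R : ℝ) :
    IsFiniteMeasure ((volume : Measure (E 2)).restrict (Metric.closedBall 0 R)) :=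
  ⟨by
    rw [Measure.restrict_apply_univ]
    exact measure_closedBall_lt_top⟩

theorem S_eq {f : E 2 → ℂ} (hf : Integrable f) (R : ℝ) (x : E 2) :
    S f R x = ∫ y, f y * DD R (x - y) := by
  unfold S DD
  exact fub _ id measurable_id hf x

theorem pi_le : -Real.pi ≤ Real.pi := by
  have := Real.pi_pos
  linarith

theorem circ_meas (R : ℝ) : Measurable (fun φ : ℝ => R • ev φ) :=
  (ev_continuous.const_smul R).measurable

theorem S1_eq {f : E 2 → ℂ} (hf : Integrable f) (R : ℝ) (x : E 2) :
    S1 f R x = ∫ y, f y * D1 R (x - y) := by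
  unfold S1 D1
  rw [intervalIntegral.integral_of_le pi_le,
    fub (volume.restrict (Ioc (-Real.pi) Real.pi)) (fun φ => R • ev φ) (circ_meas R) hf x,
    ← integral_const_mul]
  refine integral_congr_ae (ae_of_all _ fun y => ?_)
  simp only [intervalIntegral.integral_of_le pi_le]
  ring

theorem DD_cont (R : ℝ) : Continuous (DD R) :=
  ker_continuous (volume.restrict (Metric.closedBall (0 : E 2) R)) id measurable_id

theorem D1_cont (R : ℝ) : Continuous (D1 R) := by
  have h := ker_continuous (volume.restrict (Ioc (-Real.pi) Real.pi)) (fun φ => R • ev φ)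
    (circ_meas R)
  have h2 : D1 R = fun z => (R : ℂ) * ∫ φ in Ioc (-Real.pi) Real.pi, ex z (R • ev φ) := by
    funext z
    rw [D1, intervalIntegral.integral_of_le pi_le]
  rw [h2]
  exact continuous_const.mul h

/-- A bound for the disc kernel. -/
noncomputable def VB (R : ℝ) : ℝ := (volume (Metric.closedBall (0 : E 2) R)).toReal

theorem VB_nonneg (R : ℝ) : 0 ≤ VB R := ENNReal.toReal_nonneg

theorem DD_bound {r R : ℝ} (h : r ≤ R) (z : E 2) : ‖DD r z‖ ≤ VB R := by
  have h1 : ‖DD r z‖ ≤ 1 * (volume.real (Metric.closedBall (0 : E 2) r)) :=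
    norm_setIntegral_le_of_norm_le_const measure_closedBall_lt_top
      (fun ζ _ => (ex_norm _ _).le)
  have h2 : (volume.real (Metric.closedBall (0 : E 2) r)) ≤ VB R :=
    ENNReal.toReal_mono measure_closedBall_lt_top.ne
      (measure_mono (Metric.closedBall_subset_closedBall h))
  linarith

theorem D1_bound (r : ℝ) (z : E 2) : ‖D1 r z‖ ≤ |r| * (2 * Real.pi) := by
  unfold D1
  rw [norm_mul, Complex.norm_real, Real.norm_eq_abs]
  refine mul_le_mul_of_nonneg_left ?_ (abs_nonneg r)
  have h1 := intervalIntegral.norm_integral_le_of_norm_le_const (a := -Real.pi) (b := Real.pi)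
    (f := fun φ => ex z (r • ev φ)) (C := 1) (fun φ _ => (ex_norm _ _).le)
  rw [one_mul, sub_neg_eq_add, abs_of_nonneg (by have := Real.pi_pos; linarith)] at h1
  linarith

theorem int_mul {f : E 2 → ℂ} (hf : Integrable f) {K : E 2 → ℂ} (hK : Continuous K) {C : ℝ}
    (hC : ∀ z, ‖K z‖ ≤ C) (x : E 2) : Integrable (fun y => f y * K (x - y)) := by
  refine hf.mul_bdd (c := C) ?_ (ae_of_all _ fun y => hC _)
  exact (hK.comp (continuous_const.sub continuous_id)).aestronglyMeasurable

/-- A multiple of `f` by a function bounded by one on the support. -/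
theorem int_supp {f : E 2 → ℂ} (hf : Integrable f) (hs : ∀ y, f y ≠ 0 → ‖y‖ ≤ 1)
    {m : E 2 → ℂ} (hm : Continuous m) (hb : ∀ y : E 2, ‖y‖ ≤ 1 → ‖m y‖ ≤ 1) :
    Integrable (fun y => m y * f y) := by
  refine hf.mono (hm.aestronglyMeasurable.mul hf.1) (ae_of_all _ fun y => ?_)
  rw [norm_mul]
  by_cases h : f y = 0
  · simp [h]
  · have := mul_le_mul_of_nonneg_right (hb y (hs y h)) (norm_nonneg (f y))
    linarith

end D2S_

open D2S_ in
/-- The derivatives of the disc sums with respect to the radius. -/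
theorem p_D2S (h1 : T_BES) : T_D2S := by
  intro f hf hs x R hR
  have hfi := hf.int
  have hpi := Real.pi_pos
  have hnb : Ioo 0 (2 * R) ∈ 𝓝 R := Ioo_mem_nhds hR (by linarith)
  constructor
  · have key := hasDerivAt_integral_of_dominated_loc_of_deriv_le (μ := (volume : Measure (E 2)))
      (F := fun (r : ℝ) (y : E 2) => f y * DD r (x - y))
      (F' := fun (r : ℝ) (y : E 2) => f y * D1 r (x - y)) (x₀ := R)
      (bound := fun y => ‖f y‖ * (2 * R * (2 * Real.pi))) hnb
      (Eventually.of_forall fun r =>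
        (int_mul hfi (DD_cont r) (fun z => DD_bound (le_refl r) z) x).1)
      (int_mul hfi (DD_cont R) (fun z => DD_bound (le_refl R) z) x)
      (int_mul hfi (D1_cont R) (fun z => D1_bound R z) x).1
      (ae_of_all _ fun y r hr => by
        rw [norm_mul]
        refine mul_le_mul_of_nonneg_left ?_ (norm_nonneg _)
        refine (D1_bound r _).trans ?_
        rw [abs_of_pos hr.1]
        exact mul_le_mul_of_nonneg_right hr.2.le (by positivity))
      (hfi.norm.mul_const _)
      (ae_of_all _ fun y r hr => (h1 (x - y) r hr.1).1.const_mul (f y))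
    have e1 : (fun r => S f r x) = fun r => ∫ y, f y * DD r (x - y) :=
      funext fun r => S_eq hfi r x
    rw [e1, S1_eq hfi R x]
    exact key.2
  · have hbd : ∀ y : E 2, ∀ r ∈ Ioo 0 (2 * R),
        ‖f y * (D1 r (x - y) / r - 4 * Real.pi ^ 2 * ‖x - y‖ ^ 2 * DD r (x - y))‖ ≤
        ‖f y‖ * (2 * Real.pi + 4 * Real.pi ^ 2 * (‖x‖ + 1) ^ 2 * VB (2 * R)) := by
      intro y r hr
      rw [norm_mul]
      by_cases h0 : f y = 0
      · simp [h0]
      refine mul_le_mul_of_nonneg_left ?_ (norm_nonneg _)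
      have hy := hs y h0
      have hxy : ‖x - y‖ ≤ ‖x‖ + 1 := (norm_sub_le x y).trans (by linarith)
      refine (norm_sub_le _ _).trans (add_le_add ?_ ?_)
      · rw [norm_div, Complex.norm_real, Real.norm_eq_abs, div_le_iff₀ (abs_pos.2 hr.1.ne')]
        have := D1_bound r (x - y)
        linarith
      · rw [norm_mul, norm_mul, norm_mul, norm_pow, norm_pow, Complex.norm_real,
          Complex.norm_real, Real.norm_eq_abs, abs_of_pos hpi, norm_norm, Complex.norm_ofNat]
        have h3 := DD_bound hr.2.le (x - y)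
        have h4 : ‖x - y‖ ^ 2 ≤ (‖x‖ + 1) ^ 2 := by gcongr
        have h5 := VB_nonneg (2 * R)
        gcongr
    have hcm : ∀ r : ℝ, Continuous (fun y : E 2 =>
        D1 r (x - y) / r - 4 * Real.pi ^ 2 * ‖x - y‖ ^ 2 * DD r (x - y)) := by
      intro r
      have c1 : Continuous (fun y : E 2 => D1 r (x - y)) :=
        (D1_cont r).comp (continuous_const.sub continuous_id)
      have c2 : Continuous (fun y : E 2 => DD r (x - y)) :=
        (DD_cont r).comp (continuous_const.sub continuous_id)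
      have c3 : Continuous (fun y : E 2 => ((‖x - y‖ : ℝ) : ℂ)) :=
        Complex.continuous_ofReal.comp (continuous_const.sub continuous_id).norm
      exact (c1.div_const _).sub ((continuous_const.mul (c3.pow 2)).mul c2)
    have key := hasDerivAt_integral_of_dominated_loc_of_deriv_le (μ := (volume : Measure (E 2)))
      (F := fun (r : ℝ) (y : E 2) => f y * D1 r (x - y))
      (F' := fun (r : ℝ) (y : E 2) => f y * (D1 r (x - y) / r -
        4 * Real.pi ^ 2 * ‖x - y‖ ^ 2 * DD r (x - y))) (x₀ := R)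
      (bound := fun y => ‖f y‖ *
        (2 * Real.pi + 4 * Real.pi ^ 2 * (‖x‖ + 1) ^ 2 * VB (2 * R))) hnb
      (Eventually.of_forall fun r => (int_mul hfi (D1_cont r) (fun z => D1_bound r z) x).1)
      (int_mul hfi (D1_cont R) (fun z => D1_bound R z) x)
      (hfi.1.mul (hcm R).aestronglyMeasurable)
      (ae_of_all _ fun y r hr => hbd y r hr)
      (hfi.norm.mul_const _)
      (ae_of_all _ fun y r hr => (h1 (x - y) r hr.1).2.const_mul (f y))
    have e1 : (fun r => S1 f r x) = fun r => ∫ y, f y * D1 r (x - y) :=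
      funext fun r => S1_eq hfi r x
    rw [e1]
    have hc0 : ∀ i : Fin 2, Continuous (fun y : E 2 => ((y i : ℝ) : ℂ)) := fun i =>
      Complex.continuous_ofReal.comp (by fun_prop)
    have hle : ∀ (i : Fin 2) (y : E 2), ‖y‖ ≤ 1 → ‖((y i : ℝ) : ℂ)‖ ≤ 1 := by
      intro i y hy
      rw [Complex.norm_real]
      exact (PiLp.norm_apply_le y i).trans hy
    have i0 : Integrable (fun y : E 2 => ((y 0 : ℝ) : ℂ) * f y) :=
      int_supp hfi hs (hc0 0) (hle 0)
    have i1 : Integrable (fun y : E 2 => ((y 1 : ℝ) : ℂ) * f y) :=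
      int_supp hfi hs (hc0 1) (hle 1)
    have i2 : Integrable (fun y : E 2 => ((‖y‖ ^ 2 : ℝ) : ℂ) * f y) := by
      refine int_supp hfi hs (Complex.continuous_ofReal.comp (continuous_norm.pow 2)) ?_
      intro y hy
      rw [Complex.norm_real, norm_pow, norm_norm]
      exact pow_le_one₀ (norm_nonneg y) hy
    have hDb : ∀ z, ‖DD R z‖ ≤ VB R := fun z => DD_bound (le_refl R) z
    have j1 := int_mul hfi (D1_cont R) (fun z => D1_bound R z) x
    have j2 := int_mul hfi (DD_cont R) hDb x
    have j3 := int_mul i0 (DD_cont R) hDb x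
    have j4 := int_mul i1 (DD_cont R) hDb x
    have j5 := int_mul i2 (DD_cont R) hDb x
    rw [S1_eq hfi R x, S_eq hfi R x, S_eq i0 R x, S_eq i1 R x, S_eq i2 R x]
    have e2 : (∫ y, f y * D1 R (x - y)) / R -
        4 * Real.pi ^ 2 * ‖x‖ ^ 2 * (∫ y, f y * DD R (x - y)) +
        4 * Real.pi ^ 2 * (2 * x 0 * (∫ y : E 2, ((y 0 : ℝ) : ℂ) * f y * DD R (x - y)) +
          2 * x 1 * (∫ y : E 2, ((y 1 : ℝ) : ℂ) * f y * DD R (x - y)) -
          ∫ y : E 2, ((‖y‖ ^ 2 : ℝ) : ℂ) * f y * DD R (x - y)) =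
        ∫ y, f y * (D1 R (x - y) / R - 4 * Real.pi ^ 2 * ‖x - y‖ ^ 2 * DD R (x - y)) := by
      have k3 : Integrable (fun y : E 2 =>
          2 * (x 0 : ℂ) * (((y 0 : ℝ) : ℂ) * f y * DD R (x - y))) := j3.const_mul _
      have k4 : Integrable (fun y : E 2 =>
          2 * (x 1 : ℂ) * (((y 1 : ℝ) : ℂ) * f y * DD R (x - y))) := j4.const_mul _
      have k34 : Integrable (fun y : E 2 =>
          2 * (x 0 : ℂ) * (((y 0 : ℝ) : ℂ) * f y * DD R (x - y)) +
          2 * (x 1 : ℂ) * (((y 1 : ℝ) : ℂ) * f y * DD R (x - y))) := k3.add k4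
      have k345 : Integrable (fun y : E 2 =>
          2 * (x 0 : ℂ) * (((y 0 : ℝ) : ℂ) * f y * DD R (x - y)) +
          2 * (x 1 : ℂ) * (((y 1 : ℝ) : ℂ) * f y * DD R (x - y)) -
          ((‖y‖ ^ 2 : ℝ) : ℂ) * f y * DD R (x - y)) := k34.sub j5
      have kc : Integrable (fun y : E 2 => 4 * (Real.pi : ℂ) ^ 2 * (
          2 * (x 0 : ℂ) * (((y 0 : ℝ) : ℂ) * f y * DD R (x - y)) +
          2 * (x 1 : ℂ) * (((y 1 : ℝ) : ℂ) * f y * DD R (x - y)) -
          ((‖y‖ ^ 2 : ℝ) : ℂ) * f y * DD R (x - y))) := k345.const_mul _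
      have k1 : Integrable (fun y : E 2 => f y * D1 R (x - y) / (R : ℂ)) := j1.div_const _
      have k2 : Integrable (fun y : E 2 =>
          4 * (Real.pi : ℂ) ^ 2 * (‖x‖ : ℂ) ^ 2 * (f y * DD R (x - y))) := j2.const_mul _
      have k12 : Integrable (fun y : E 2 => f y * D1 R (x - y) / (R : ℂ) -
          4 * (Real.pi : ℂ) ^ 2 * (‖x‖ : ℂ) ^ 2 * (f y * DD R (x - y))) := k1.sub k2
      rw [← integral_div, ← integral_const_mul, ← integral_const_mul, ← integral_const_mul,
        ← integral_add k3 k4, ← integral_sub k34 j5, ← integral_const_mul,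
        ← integral_sub k1 k2, ← integral_add k12 kc]
      refine integral_congr_ae (ae_of_all _ fun y => ?_)
      have hxy : ((‖x - y‖ : ℝ) : ℂ) ^ 2 = ((‖x‖ : ℝ) : ℂ) ^ 2 -
          2 * (((x 0 : ℝ) : ℂ) * ((y 0 : ℝ) : ℂ) + ((x 1 : ℝ) : ℂ) * ((y 1 : ℝ) : ℂ)) +
          ((‖y‖ : ℝ) : ℂ) ^ 2 := by
        have h3 : ‖x - y‖ ^ 2 = ‖x‖ ^ 2 - 2 * (x 0 * y 0 + x 1 * y 1) + ‖y‖ ^ 2 := by
          rw [norm_sub_sq_real]
          congr 3
          rw [PiLp.inner_apply]
          simp [Fin.sum_univ_two, mul_comm]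
        exact_mod_cast congrArg (fun t : ℝ => (t : ℂ)) h3
      simp only [hxy]
      push_cast
      ring
    rw [e2]
    exact key.2

end Pool.Agent.CRL
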