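import Pool.Agent.CRL.Targets

set_option autoImplicit false

/-! CRL-EN: energy of the annulus multipliers. -/

namespace Pool.Agent.CRL

open MeasureTheory FourierTransform Set Filter Topology
open scoped ENNReal NNReal
open Pool.Agent.MBS (E ex S Sstar)
open Pool.Agent.KSP (IE)

namespace EN_

theorem dw_nonneg (n : ℕ) (R : ℝ) (ξ : E 2) : 0 ≤ dw n R ξ := by
  unfold dw; positivity

theorem dw_le_one (n : ℕ) (R : ℝ) (ξ : E 2) : dw n R ξ ≤ 1 := by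
  unfold dw
  refine inv_le_one_of_one_le₀ (one_le_pow₀ ?_)
  linarith [abs_nonneg (‖ξ‖ - R)]

theorem dw_cont (n : ℕ) : Continuous (fun p : ℝ × E 2 => dw n p.1 p.2) := by
  unfold dw
  refine Continuous.inv₀ (by fun_prop) (fun ξ => by positivity)

theorem dw_cont1 (n : ℕ) (R : ℝ) : Continuous (fun ξ : E 2 => dw n R ξ) := by
  unfold dw
  refine Continuous.inv₀ (by fun_prop) (fun ξ => by positivity)

theorem dw_cont2 (n : ℕ) (ξ : E 2) : Continuous (fun R : ℝ => dw n R ξ) := by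
  unfold dw
  refine Continuous.inv₀ (by fun_prop) (fun ξ => by positivity)

theorem dw_le (R M : ℝ) (h0 : 0 ≤ R) (hM : R ≤ M) (ξ : E 2) :
    dw 3 R ξ ≤ (1 + M) ^ 3 * (1 + ‖ξ‖) ^ (-(3 : ℝ)) := by
  have h1 : 1 + ‖ξ‖ ≤ (1 + M) * (1 + |‖ξ‖ - R|) := by
    have := le_abs_self (‖ξ‖ - R)
    nlinarith [abs_nonneg (‖ξ‖ - R)]
  have h2 : (1 + ‖ξ‖) ^ 3 ≤ ((1 + M) * (1 + |‖ξ‖ - R|)) ^ 3 :=
    pow_le_pow_left₀ (by positivity) h1 3
  rw [Real.rpow_neg (by positivity)]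
  have h3 : (1 + ‖ξ‖) ^ (3 : ℝ) = (1 + ‖ξ‖) ^ 3 := by norm_cast
  rw [h3]
  unfold dw
  rw [← div_eq_mul_inv, le_div_iff₀ (by positivity), inv_mul_le_iff₀ (by positivity)]
  rw [mul_pow] at h2
  linarith

theorem bint : Integrable (fun ξ : E 2 => (1 + ‖ξ‖) ^ (-(3 : ℝ))) := by
  refine integrable_one_add_norm ?_
  rw [finrank_euclideanSpace_fin]
  norm_num

/-- the integral of the one dimensional weight -/
noncomputable def K1 : ℝ≥0∞ := ∫⁻ t : ℝ, ENNReal.ofReal (((1 + |t|) ^ 2)⁻¹)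

theorem K1_lt : K1 < ⊤ := by
  have h : Integrable (fun t : ℝ => (1 + ‖t‖) ^ (-(2 : ℝ))) := by
    refine integrable_one_add_norm ?_
    rw [Module.finrank_self]
    norm_num
  have h2 := h.lintegral_lt_top
  unfold K1
  refine lt_of_le_of_lt (le_of_eq ?_) h2
  refine lintegral_congr fun t => ?_
  rw [Real.rpow_neg (by positivity), Real.norm_eq_abs]
  norm_cast

theorem K1_shift (a : ℝ) : ∫⁻ t : ℝ, ENNReal.ofReal (((1 + |a - t|) ^ 2)⁻¹) = K1 := by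
  unfold K1
  exact lintegral_sub_left_eq_self (fun t => ENNReal.ofReal (((1 + |t|) ^ 2)⁻¹)) a

theorem K1_shift2 (a : ℝ) : ∫⁻ t : ℝ, ENNReal.ofReal (((1 + |t - a|) ^ 2)⁻¹) = K1 := by
  rw [← K1_shift a]
  refine lintegral_congr fun t => ?_
  rw [abs_sub_comm]

theorem pow32 (s : ℝ) : ((1 + |s|) ^ 3)⁻¹ ≤ ((1 + |s|) ^ 2)⁻¹ := by
  refine inv_anti₀ (by positivity) (pow_le_pow_right₀ ?_ (by norm_num))
  linarith [abs_nonneg s]

theorem dw_int_R (ξ : E 2) (T : Set ℝ) :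
    ∫⁻ R in T, ENNReal.ofReal (dw 3 R ξ) ≤ K1 := by
  refine le_trans (setLIntegral_le_lintegral _ _) ?_
  rw [← K1_shift ‖ξ‖]
  exact lintegral_mono fun R => ENNReal.ofReal_le_ofReal (pow32 _)

theorem dw_int_ξ (h : T_POLC) (R : ℝ) (hR : 0 ≤ R) :
    ∫⁻ ξ : E 2, ENNReal.ofReal (dw 3 R ξ) ≤ ENNReal.ofReal (2 * Real.pi) *
      (ENNReal.ofReal (1 + R) * K1) := by
  rw [h.1 (fun ξ => ENNReal.ofReal (dw 3 R ξ)) (dw_cont1 3 R).measurable.ennreal_ofReal]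
  have hn : ∀ r : ℝ, 0 < r → ∀ θ : ℝ, ‖r • ev θ‖ = r := by
    intro r hr θ
    have : ‖ev θ‖ = 1 := by
      unfold ev
      rw [EuclideanSpace.norm_eq]
      simp
    rw [norm_smul, this, mul_one, Real.norm_eq_abs, abs_of_pos hr]
  have key : ∀ r ∈ Ioi (0 : ℝ), ∫⁻ θ in Ioc (-Real.pi) Real.pi,
      ENNReal.ofReal r * ENNReal.ofReal (dw 3 R (r • ev θ)) ≤
      ENNReal.ofReal (2 * Real.pi) * (ENNReal.ofReal (1 + R) *
        ENNReal.ofReal (((1 + |r - R|) ^ 2)⁻¹)) := by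
    intro r hr
    have hr0 : 0 < r := hr
    have e : ∀ θ : ℝ, ENNReal.ofReal r * ENNReal.ofReal (dw 3 R (r • ev θ)) ≤
        ENNReal.ofReal (1 + R) * ENNReal.ofReal (((1 + |r - R|) ^ 2)⁻¹) := by
      intro θ
      rw [← ENNReal.ofReal_mul hr0.le, ← ENNReal.ofReal_mul (by linarith)]
      refine ENNReal.ofReal_le_ofReal ?_
      unfold dw
      rw [hn r hr0]
      have h1 : r ≤ (1 + R) * (1 + |r - R|) := by
        have := le_abs_self (r - R)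
        nlinarith [abs_nonneg (r - R)]
      have h2 : 0 < 1 + |r - R| := by positivity
      rw [mul_inv_le_iff₀ (by positivity)]
      have h3 : (1 + R) * ((1 + |r - R|) ^ 2)⁻¹ * (1 + |r - R|) ^ 3 =
          (1 + R) * (1 + |r - R|) := by
        field_simp
      rw [h3]
      exact h1
    refine le_trans (lintegral_mono e) ?_
    rw [lintegral_const, Measure.restrict_apply_univ, Real.volume_Ioc, mul_comm]
    refine le_of_eq ?_
    congr 2
    ring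
  refine le_trans (setLIntegral_mono' measurableSet_Ioi key) ?_
  refine le_trans (setLIntegral_le_lintegral _ _) ?_
  rw [lintegral_const_mul' _ _ ENNReal.ofReal_ne_top, lintegral_const_mul' _ _ ENNReal.ofReal_ne_top,
    K1_shift2]

/-- multiplier families -/
structure KK (C A : ℝ) (k : ℝ → E 2 → ℂ) (F : E 2 → ℂ) : Prop where
  kc : Continuous (fun p : ℝ × E 2 => k p.1 p.2)
  kb : ∀ R, 0 ≤ R → ∀ ξ, ‖k R ξ‖ ≤ C * dw 3 R ξ
  Fc : Continuous F
  Fb : ∀ ξ, ‖F ξ‖ ≤ A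
  C0 : 0 ≤ C
  A0 : 0 ≤ A

variable {C A : ℝ} {k : ℝ → E 2 → ℂ} {F : E 2 → ℂ}

theorem KK.bd (h : KK C A k F) {R M : ℝ} (h0 : 0 ≤ R) (hM : R ≤ M) (ξ : E 2) :
    ‖k R ξ * F ξ‖ ≤ C * A * (1 + M) ^ 3 * (1 + ‖ξ‖) ^ (-(3 : ℝ)) := by
  have h1 := h.kb R h0 ξ
  have h2 := h.Fb ξ
  have h3 := dw_le R M h0 hM ξ
  have hC := h.C0
  have hA := h.A0
  rw [norm_mul]
  calc ‖k R ξ‖ * ‖F ξ‖ ≤ (C * dw 3 R ξ) * A :=
        mul_le_mul h1 h2 (norm_nonneg _) (mul_nonneg hC (dw_nonneg _ _ _))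
    _ ≤ (C * ((1 + M) ^ 3 * (1 + ‖ξ‖) ^ (-(3 : ℝ)))) * A := by gcongr
    _ = _ := by ring

theorem KK.k1c (h : KK C A k F) (R : ℝ) : Continuous (fun ξ => k R ξ * F ξ) :=
  (h.kc.comp (Continuous.prodMk_right R)).mul h.Fc

theorem KK.int (h : KK C A k F) {R : ℝ} (h0 : 0 ≤ R) : Integrable (fun ξ => k R ξ * F ξ) :=
  (bint.const_mul (C * A * (1 + R) ^ 3)).mono' (h.k1c R).aestronglyMeasurable
    (ae_of_all _ fun ξ => h.bd h0 le_rfl ξ)

theorem KK.bd2 (h : KK C A k F) {R : ℝ} (h0 : 0 ≤ R) (ξ : E 2) : ‖k R ξ * F ξ‖ ≤ C * A := by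
  have h1 := h.kb R h0 ξ
  have h2 := h.Fb ξ
  rw [norm_mul]
  refine mul_le_mul (le_trans h1 ?_) h2 (norm_nonneg _) h.C0
  calc C * dw 3 R ξ ≤ C * 1 := mul_le_mul_of_nonneg_left (dw_le_one _ _ _) h.C0
    _ = C := mul_one C

theorem KK.mem (h : KK C A k F) {R : ℝ} (h0 : 0 ≤ R) : MemLp (fun ξ => k R ξ * F ξ) 2 := by
  rw [memLp_two_iff_integrable_sq_norm (h.k1c R).aestronglyMeasurable]
  refine ((h.int h0).norm.const_mul (C * A)).mono'
    ((h.k1c R).norm.pow 2).aestronglyMeasurable (ae_of_all _ fun ξ => ?_)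
  rw [Real.norm_eq_abs, abs_of_nonneg (sq_nonneg _), pow_two]
  exact mul_le_mul_of_nonneg_right (h.bd2 h0 ξ) (norm_nonneg _)

theorem KK.gc (h : KK C A k F) :
    ContinuousOn (fun p : ℝ × E 2 => IE (fun ξ => k p.1 ξ * F ξ) p.2) (Ici 0 ×ˢ univ) := by
  intro p hp
  unfold IE
  have hev : ∀ᶠ q : ℝ × E 2 in 𝓝[Ici 0 ×ˢ univ] p, 0 ≤ q.1 ∧ q.1 ≤ p.1 + 1 := by
    have h1 : ∀ᶠ q : ℝ × E 2 in 𝓝[Ici 0 ×ˢ univ] p, q ∈ Ici (0 : ℝ) ×ˢ (univ : Set (E 2)) :=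
      self_mem_nhdsWithin
    have h2 : ∀ᶠ q : ℝ × E 2 in 𝓝[Ici 0 ×ˢ univ] p, q.1 < p.1 + 1 := by
      refine Filter.Eventually.filter_mono nhdsWithin_le_nhds ?_
      exact (isOpen_lt continuous_fst continuous_const).mem_nhds (by simp)
    filter_upwards [h1, h2] with q h3 h4
    exact ⟨h3.1, h4.le⟩
  refine continuousWithinAt_of_dominated
    (bound := fun ξ => C * A * (1 + (p.1 + 1)) ^ 3 * (1 + ‖ξ‖) ^ (-(3 : ℝ))) ?_ ?_ ?_ ?_
  · refine Eventually.of_forall fun q => ?_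
    exact ((h.k1c q.1).mul (Pool.Agent.KSP.FA2_.ex_meas q.2)).aestronglyMeasurable
  · filter_upwards [hev] with q hq
    refine ae_of_all _ fun ξ => ?_
    rw [norm_mul, Pool.Agent.MBS.ex_norm, mul_one]
    exact h.bd hq.1 hq.2 ξ
  · exact bint.const_mul _
  · refine ae_of_all _ fun ξ => ?_
    refine Continuous.continuousWithinAt ?_
    have h1 : Continuous (fun q : ℝ × E 2 => k q.1 ξ) :=
      h.kc.comp (continuous_fst.prodMk continuous_const)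
    have h2 : Continuous (fun q : ℝ × E 2 => ex q.2 ξ) :=
      Pool.Agent.MBS.ex_continuous.comp (continuous_snd.prodMk continuous_const)
    exact (h1.mul continuous_const).mul h2

theorem KK.gcx (h : KK C A k F) {R : ℝ} (h0 : 0 ≤ R) :
    Continuous (fun x : E 2 => IE (fun ξ => k R ξ * F ξ) x) := by
  rw [← continuousOn_univ]
  exact h.gc.comp (Continuous.prodMk_right R).continuousOn (fun x _ => ⟨h0, mem_univ _⟩)

theorem KK.fub (h : KK C A k F) {R : ℝ} (h0 : 0 ≤ R) (x : E 2) :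
    IE (fun ξ => (∫ r in (0 : ℝ)..R, k r ξ) * F ξ) x =
      ∫ r in (0 : ℝ)..R, IE (fun ξ => k r ξ * F ξ) x := by
  unfold IE
  have hi : Integrable (Function.uncurry fun (r : ℝ) (ξ : E 2) => k r ξ * F ξ * ex x ξ)
      ((volume.restrict (Ioc 0 R)).prod volume) := by
    have hb : Integrable (fun z : ℝ × E 2 => (C * A * (1 + R) ^ 3) *
        (1 + ‖z.2‖) ^ (-(3 : ℝ))) ((volume.restrict (Ioc 0 R)).prod volume) := by
      have hc : Integrable (fun _ : ℝ => C * A * (1 + R) ^ 3) (volume.restrict (Ioc 0 R)) :=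
        integrable_const _
      exact hc.mul_prod bint
    have hcont : Continuous (fun z : ℝ × E 2 => k z.1 z.2 * F z.2 * ex x z.2) :=
      (h.kc.mul (h.Fc.comp continuous_snd)).mul
        ((Pool.Agent.KSP.FA2_.ex_meas x).comp continuous_snd)
    refine hb.mono' hcont.aestronglyMeasurable ?_
    have hset : (volume.restrict (Ioc 0 R)).prod (volume : Measure (E 2)) =
        ((volume : Measure ℝ).prod (volume : Measure (E 2))).restrict (Ioc 0 R ×ˢ univ) := by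
      rw [← Measure.prod_restrict, Measure.restrict_univ]
    rw [hset]
    refine (ae_restrict_iff' (measurableSet_Ioc.prod MeasurableSet.univ)).2
      (ae_of_all _ fun z hz => ?_)
    have hz1 := hz.1
    rw [Function.uncurry_apply_pair, norm_mul, Pool.Agent.MBS.ex_norm, mul_one]
    exact h.bd hz1.1.le hz1.2 z.2
  rw [intervalIntegral.integral_of_le h0, integral_integral_swap hi]
  refine integral_congr_ae (ae_of_all _ fun ξ => ?_)
  simp only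
  rw [intervalIntegral.integral_of_le h0, mul_assoc, ← integral_mul_const]
  refine integral_congr_ae (ae_of_all _ fun r => ?_)
  simp only
  ring

theorem KK.en (h : KK C A k F) {R : ℝ} (h0 : 0 ≤ R) :
    ∫⁻ x, ‖IE (fun ξ => k R ξ * F ξ) x‖ₑ ^ 2 ≤
      ∫⁻ ξ, ENNReal.ofReal (C ^ 2) * (ENNReal.ofReal (dw 3 R ξ) * ‖F ξ‖ₑ ^ 2) := by
  rw [Pool.Agent.KSP.FA2_.plancherelIE (h.int h0) (h.mem h0)]
  refine lintegral_mono fun ξ => ?_
  rw [← mul_assoc, ← ENNReal.ofReal_mul (sq_nonneg C)]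
  rw [enorm_mul, mul_pow]
  refine mul_le_mul_left ?_ _
  rw [Pool.Agent.KSP.FA2_.enorm_sq]
  refine ENNReal.ofReal_le_ofReal ?_
  calc ‖k R ξ‖ ^ 2 ≤ (C * dw 3 R ξ) ^ 2 := pow_le_pow_left₀ (norm_nonneg _) (h.kb R h0 ξ) 2
    _ = C ^ 2 * (dw 3 R ξ * dw 3 R ξ) := by ring
    _ ≤ C ^ 2 * (dw 3 R ξ * 1) := by
        refine mul_le_mul_of_nonneg_left ?_ (sq_nonneg C)
        exact mul_le_mul_of_nonneg_left (dw_le_one _ _ _) (dw_nonneg _ _ _)
    _ = _ := by ring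

/-- Tonelli for two families -/
theorem ton {k' : ℝ → E 2 → ℂ} (h : KK C A k F) (h' : KK C A k' F) {T : Set ℝ}
    (hT : MeasurableSet T) (hT0 : T ⊆ Ici 0) :
    ∫⁻ x, ∫⁻ R in T, (‖IE (fun ξ => k R ξ * F ξ) x‖ₑ ^ 2 + ‖IE (fun ξ => k' R ξ * F ξ) x‖ₑ ^ 2) ≤
      ∫⁻ R in T, 2 * ∫⁻ ξ, ENNReal.ofReal (C ^ 2) * (ENNReal.ofReal (dw 3 R ξ) * ‖F ξ‖ₑ ^ 2) := by
  have hm : AEMeasurable (Function.uncurry fun (R : ℝ) (x : E 2) =>
      (‖IE (fun ξ => k R ξ * F ξ) x‖ₑ ^ 2 + ‖IE (fun ξ => k' R ξ * F ξ) x‖ₑ ^ 2))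
      ((volume.restrict T).prod volume) := by
    have hset : (volume.restrict T).prod (volume : Measure (E 2)) =
        ((volume : Measure ℝ).prod (volume : Measure (E 2))).restrict (T ×ˢ univ) := by
      rw [← Measure.prod_restrict, Measure.restrict_univ]
    rw [hset]
    have hs : T ×ˢ (univ : Set (E 2)) ⊆ Ici 0 ×ˢ univ := prod_mono hT0 le_rfl
    have m1 := (h.gc.mono hs).aemeasurable (μ := (volume : Measure ℝ).prod (volume : Measure (E 2)))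
      (hT.prod MeasurableSet.univ)
    have m2 := (h'.gc.mono hs).aemeasurable (μ := (volume : Measure ℝ).prod (volume : Measure (E 2)))
      (hT.prod MeasurableSet.univ)
    exact (m1.enorm.pow_const 2).add (m2.enorm.pow_const 2)
  rw [← lintegral_lintegral_swap hm]
  refine setLIntegral_mono' hT fun R hR => ?_
  have hR0 : 0 ≤ R := hT0 hR
  rw [lintegral_add_left ((h.gcx hR0).enorm.measurable.pow_const 2), two_mul]
  exact add_le_add (h.en hR0) (h'.en hR0)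

theorem f_cont {f : E 2 → ℂ} (hf : Nice f) : Continuous (𝓕 f) :=
  VectorFourier.fourierIntegral_continuous (V := E 2) (W := E 2)
    Real.continuous_fourierChar (L := innerₗ (E 2)) continuous_inner hf.int

theorem f_bd {f : E 2 → ℂ} (ξ : E 2) : ‖𝓕 f ξ‖ ≤ ∫ x, ‖f x‖ := by
  exact VectorFourier.norm_fourierIntegral_le_integral_norm Real.fourierChar volume
    (innerₗ (E 2)) f ξ

theorem f_bde {f : E 2 → ℂ} (hf : Nice f) (ξ : E 2) : ‖𝓕 f ξ‖ₑ ≤ ∫⁻ x, ‖f x‖ₑ := by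
  rw [← ofReal_integral_norm_eq_lintegral_enorm hf.int, ← ofReal_norm]
  exact ENNReal.ofReal_le_ofReal (f_bd ξ)

end EN_

open EN_ in
theorem p_EN (h1 : T_MM) (h2 : T_POLC) : T_EN := by
  intro ψ B hψ
  obtain ⟨hprim, hcont, C, hC, hb⟩ := h1 ψ B hψ
  have hK := K1_lt
  set K : ℝ≥0 := K1.toNNReal with hKd
  have hKe : (K : ℝ≥0∞) = K1 := ENNReal.coe_toNNReal hK.ne
  refine ⟨2 * (C ^ 2).toNNReal * K * (1 + (2 * Real.pi).toNNReal), fun f hf => ?_⟩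
  set A : ℝ := ∫ x, ‖f x‖ with hA
  have hA0 : 0 ≤ A := integral_nonneg fun x => norm_nonneg _
  set kk : ℝ → E 2 → ℂ := fun R ξ => ∫ r in (0 : ℝ)..R, m1 ψ r ξ with hkk
  have H1 : KK C A (m1 ψ) (𝓕 f) :=
    ⟨hcont, fun R hR ξ => (hb R ξ hR).2, f_cont hf, fun ξ => f_bd ξ, hC.le, hA0⟩
  have hkkc : Continuous (fun p : ℝ × E 2 => kk p.1 p.2) := by
    have hc : Continuous (Function.uncurry fun (p : ℝ × E 2) (r : ℝ) => m1 ψ r p.2) :=
      hcont.comp (continuous_snd.prodMk (continuous_snd.comp continuous_fst))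
    exact intervalIntegral.continuous_parametric_intervalIntegral_of_continuous hc continuous_fst
  have H0 : KK C A kk (𝓕 f) := by
    refine ⟨hkkc, fun R hR ξ => ?_, f_cont hf, fun ξ => f_bd ξ, hC.le, hA0⟩
    simp only [hkk]
    rw [← hprim R hR ξ]
    exact (hb R ξ hR).1
  have hFF : ∀ R : ℝ, 0 ≤ R → ∀ x, FF ψ f R x = IE (fun ξ => kk R ξ * 𝓕 f ξ) x := by
    intro R hR x
    unfold FF
    congr 1
    funext ξ
    rw [hprim R hR ξ]
  have main : ∀ T : Set ℝ, MeasurableSet T → T ⊆ Ici 0 →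
      ∫⁻ x, ∫⁻ R in T, (‖FF ψ f R x‖ₑ ^ 2 + ‖F1 ψ f R x‖ₑ ^ 2) ≤
      ∫⁻ R in T, 2 * ∫⁻ ξ, ENNReal.ofReal (C ^ 2) *
        (ENNReal.ofReal (dw 3 R ξ) * ‖𝓕 f ξ‖ₑ ^ 2) := by
    intro T hT hT0
    refine le_trans (le_of_eq ?_) (ton H0 H1 hT hT0)
    refine lintegral_congr fun x => ?_
    refine setLIntegral_congr_fun hT fun R hR => ?_
    rw [hFF R (hT0 hR) x]
    rfl
  have hFm : Measurable (fun ξ : E 2 => ‖𝓕 f ξ‖ₑ ^ 2) :=
    (f_cont hf).enorm.measurable.pow_const 2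
  have hdm : Measurable (fun p : ℝ × E 2 => ENNReal.ofReal (dw 3 p.1 p.2)) :=
    (dw_cont 3).measurable.ennreal_ofReal
  refine ⟨H1.gc, ?_, ?_, ?_⟩
  · intro x R hR
    rw [hFF R hR x]
    exact H1.fub hR x
  · refine le_trans (main (Ioi 0) measurableSet_Ioi Ioi_subset_Ici_self) ?_
    rw [lintegral_const_mul' _ _ (by norm_num)]
    have e1 : ∫⁻ R in Ioi (0 : ℝ), ∫⁻ ξ, ENNReal.ofReal (C ^ 2) *
        (ENNReal.ofReal (dw 3 R ξ) * ‖𝓕 f ξ‖ₑ ^ 2) =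
        ∫⁻ ξ, ∫⁻ R in Ioi (0 : ℝ), ENNReal.ofReal (C ^ 2) *
        (ENNReal.ofReal (dw 3 R ξ) * ‖𝓕 f ξ‖ₑ ^ 2) := by
      refine lintegral_lintegral_swap ?_
      exact ((hdm.mul (hFm.comp measurable_snd)).const_mul _).aemeasurable
    rw [e1]
    have e2 : ∀ ξ : E 2, ∫⁻ R in Ioi (0 : ℝ), ENNReal.ofReal (C ^ 2) *
        (ENNReal.ofReal (dw 3 R ξ) * ‖𝓕 f ξ‖ₑ ^ 2) ≤
        ENNReal.ofReal (C ^ 2) * K1 * ‖𝓕 f ξ‖ₑ ^ 2 := by
      intro ξ
      rw [lintegral_const_mul' _ _ ENNReal.ofReal_ne_top, mul_assoc]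
      refine mul_le_mul_right ?_ _
      rw [lintegral_mul_const _ (dw_cont2 3 ξ).measurable.ennreal_ofReal]
      exact mul_le_mul_left (dw_int_R ξ _) _
    refine le_trans (mul_le_mul_right (lintegral_mono e2) _) ?_
    rw [lintegral_const_mul _ hFm, Pool.Agent.KSP.FA2_.plancherel hf.int hf.sq, ← mul_assoc]
    refine mul_le_mul_left ?_ _
    rw [← hKe]
    push_cast
    have : (ENNReal.ofReal (C ^ 2)) = ((C ^ 2).toNNReal : ℝ≥0∞) := rfl
    rw [this]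
    calc 2 * (((C ^ 2).toNNReal : ℝ≥0∞) * (K : ℝ≥0∞)) =
        2 * ((C ^ 2).toNNReal : ℝ≥0∞) * K * 1 := by ring
      _ ≤ _ := mul_le_mul_right le_self_add _
  · intro R0 hR0
    refine le_trans (main (Ioc 0 R0) measurableSet_Ioc (fun R hR => hR.1.le)) ?_
    set N : ℝ≥0∞ := ∫⁻ x, ‖f x‖ₑ with hN
    have e2 : ∀ R ∈ Ioc (0 : ℝ) R0, 2 * ∫⁻ ξ, ENNReal.ofReal (C ^ 2) *
        (ENNReal.ofReal (dw 3 R ξ) * ‖𝓕 f ξ‖ₑ ^ 2) ≤
        2 * (ENNReal.ofReal (C ^ 2) * ((ENNReal.ofReal (2 * Real.pi) *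
      (ENNReal.ofReal (1 + R0) * K1)) * N ^ 2)) := by
      intro R hR
      refine mul_le_mul_right ?_ _
      rw [lintegral_const_mul' _ _ ENNReal.ofReal_ne_top]
      refine mul_le_mul_right ?_ _
      have e3 : ∫⁻ ξ, ENNReal.ofReal (dw 3 R ξ) * ‖𝓕 f ξ‖ₑ ^ 2 ≤
          ∫⁻ ξ, ENNReal.ofReal (dw 3 R ξ) * N ^ 2 :=
        lintegral_mono fun ξ => mul_le_mul_right (pow_le_pow_left' (f_bde hf ξ) 2) _
      refine le_trans e3 ?_
      rw [lintegral_mul_const _ (dw_cont1 3 R).measurable.ennreal_ofReal]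
      refine mul_le_mul_left ?_ _
      refine le_trans (dw_int_ξ h2 R hR.1.le) ?_
      refine mul_le_mul_right ?_ _
      refine mul_le_mul_left ?_ _
      exact ENNReal.ofReal_le_ofReal (by linarith [hR.2])
    refine le_trans (setLIntegral_mono' measurableSet_Ioc e2) ?_
    rw [lintegral_const, Measure.restrict_apply_univ, Real.volume_Ioc, sub_zero]
    have e4 : ENNReal.ofReal (1 + R0) * ENNReal.ofReal R0 ≤ ENNReal.ofReal ((1 + R0) ^ 2) := by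
      rw [← ENNReal.ofReal_mul (by linarith)]
      refine ENNReal.ofReal_le_ofReal ?_
      nlinarith
    rw [← hKe]
    push_cast
    have e5 : (ENNReal.ofReal (C ^ 2)) = ((C ^ 2).toNNReal : ℝ≥0∞) := rfl
    have e6 : (ENNReal.ofReal (2 * Real.pi)) = ((2 * Real.pi).toNNReal : ℝ≥0∞) := rfl
    rw [e5, e6]
    calc 2 * (((C ^ 2).toNNReal : ℝ≥0∞) * ((((2 * Real.pi).toNNReal : ℝ≥0∞) *
        (ENNReal.ofReal (1 + R0) * K)) * N ^ 2)) * ENNReal.ofReal R0 =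
        (2 * ((C ^ 2).toNNReal : ℝ≥0∞) * K * ((2 * Real.pi).toNNReal : ℝ≥0∞)) *
        (ENNReal.ofReal (1 + R0) * ENNReal.ofReal R0) * N ^ 2 := by ring
      _ ≤ _ := by
        refine mul_le_mul_left ?_ _
        refine mul_le_mul' ?_ e4
        exact mul_le_mul_right le_add_self _

end Pool.Agent.CRL
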