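import Pool.Agent.CRL.H47

set_option autoImplicit false

/-!
# CRL: GLB, the global inequality
-/

namespace Pool.Agent.CRL

open MeasureTheory FourierTransform Set Filter Topology
open scoped ENNReal NNReal
open Pool.Agent.MBS (E ex S Sstar)
open Pool.Agent.KSP (IE)
open Pool.Agent.CAR (e1 T_CARL)

namespace GLB_

open H47_

theorem meas_sh (j : ℤ) : MeasurableSet (sh j) :=
  (measurableSet_le measurable_const measurable_norm).inter
    (measurableSet_lt measurable_norm measurable_const)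

theorem sh_disj {i j : ℤ} (h : i ≠ j) : Disjoint (sh i) (sh j) := by
  rw [Set.disjoint_left]
  rintro x ⟨h1, h2⟩ ⟨h3, h4⟩
  rcases lt_or_gt_of_ne h with h5 | h5
  · have : (2 : ℝ) ^ (i + 1) ≤ (2 : ℝ) ^ j := zpow_le_zpow_right₀ (by norm_num) (by omega)
    linarith
  · have : (2 : ℝ) ^ (j + 1) ≤ (2 : ℝ) ^ i := zpow_le_zpow_right₀ (by norm_num) (by omega)
    linarith

theorem sh_cover {x : E 2} (hx : x ≠ 0) : ∃ j : ℤ, x ∈ sh j := by
  obtain ⟨n, hn⟩ := exists_mem_Ico_zpow (x := ‖x‖) (y := (2 : ℝ)) (norm_pos_iff.2 hx)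
    (by norm_num)
  exact ⟨n, hn.1, hn.2⟩

theorem one_le_wk (k : ℤ) : 1 ≤ ENNReal.ofReal (wk k) := by
  rw [← ENNReal.ofReal_one]
  refine ENNReal.ofReal_le_ofReal ?_
  unfold wk
  have h1 := Pool.Agent.KSP.FA2_.log3_ge (abs_nonneg (k : ℝ))
  exact one_le_pow₀ (Pool.Agent.KSP.FA2_.log3_ge (le_trans zero_le_one h1))

theorem sq_le_NN (hMODB : T_MODB) {f : E 2 → ℂ} (hf : Nice f) : ∫⁻ x, ‖f x‖ₑ ^ 2 ≤ NN f := by
  rw [← (hMODB f hf).1]
  unfold NN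
  refine ENNReal.tsum_le_tsum fun k => ?_
  calc ∫⁻ x, ‖amode k f x‖ₑ ^ 2 = 1 * ∫⁻ x, ‖amode k f x‖ₑ ^ 2 := (one_mul _).symm
    _ ≤ _ := mul_le_mul_left (one_le_wk k) _

/-- the weights of the far part -/
noncomputable def ww (n : ℤ) : ℝ≥0∞ := (ENNReal.ofReal ((2 : ℝ) ^ (-|(n : ℝ)| / 4))) ^ (1 / 2 : ℝ)

theorem ww_eq (n : ℤ) : ww n = ENNReal.ofReal (((2 : ℝ) ^ (-(1 / 8) : ℝ)) ^ n.natAbs) := by
  unfold ww
  rw [ENNReal.ofReal_rpow_of_nonneg (by positivity) (by norm_num), ← Real.rpow_mul (by norm_num),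
    ← Real.rpow_natCast, ← Real.rpow_mul (by norm_num)]
  congr 2
  rw [Nat.cast_natAbs, Int.cast_abs]
  ring

theorem ww_sum : ∑' n, ww n ≠ ⊤ := by
  have hr : (2 : ℝ) ^ (-(1 / 8) : ℝ) < 1 := Real.rpow_lt_one_of_one_lt_of_neg (by norm_num)
    (by norm_num)
  have hr0 : 0 ≤ (2 : ℝ) ^ (-(1 / 8) : ℝ) := by positivity
  have h1 := summable_geometric_of_lt_one hr0 hr
  have h2 : Summable (fun n : ℤ => ((2 : ℝ) ^ (-(1 / 8) : ℝ)) ^ n.natAbs) := by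
    refine Summable.of_nat_of_neg ?_ ?_
    · exact h1.congr fun n => by simp
    · exact h1.congr fun n => by simp
  simp only [ww_eq]
  exact h2.tsum_ofReal_ne_top

theorem young (a b : ℤ → ℝ≥0∞) : ∑' j, ∑' i, ww (i - j) * (a i * b j) ≤
    (∑' n, ww n) * ((∑' i, a i ^ 2) ^ (1 / 2 : ℝ) * (∑' j, b j ^ 2) ^ (1 / 2 : ℝ)) := by
  have e1 : ∀ j, ∑' i, ww (i - j) * (a i * b j) = ∑' n, ww n * (a (n + j) * b j) := by
    intro j
    rw [← (Equiv.addRight j).tsum_eq]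
    refine tsum_congr fun n => ?_
    simp
  simp only [e1]
  rw [ENNReal.tsum_comm, ← ENNReal.tsum_mul_right]
  refine ENNReal.tsum_le_tsum fun n => ?_
  rw [ENNReal.tsum_mul_left]
  refine mul_le_mul_right ?_ _
  refine (cs_tsum (fun j => a (n + j)) b).trans (le_of_eq ?_)
  congr 2
  exact (Equiv.addLeft n).tsum_eq (fun i => a i ^ 2)

end GLB_

open GLB_ H47_ in
/-- GLB -/
theorem p_GLB (hNBJ : T_NBJ) (hOFF : T_OFF) (hSHN : T_SHN) (hSUB : T_SUB) (hMODB : T_MODB) :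
    T_GLB := by
  intro hC hL
  obtain ⟨C1, h1⟩ := hNBJ hC hL
  obtain ⟨C2, h2⟩ := hOFF
  set K : ℝ≥0∞ := C1 * (3 : ℝ≥0∞) ^ (1 / 2 : ℝ) + (C2 : ℝ≥0∞) ^ (1 / 2 : ℝ) * ∑' n, ww n with hK
  have hKt : K ≠ ⊤ := by
    rw [hK]
    refine ENNReal.add_ne_top.2 ⟨ENNReal.mul_ne_top ENNReal.coe_ne_top ?_,
      ENNReal.mul_ne_top ?_ ww_sum⟩
    · exact ENNReal.rpow_ne_top_of_nonneg (by norm_num) (by norm_num)
    · exact ENNReal.rpow_ne_top_of_nonneg (by norm_num) ENNReal.coe_ne_top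
  refine ⟨K.toNNReal, ?_⟩
  intro f A hf hA hAt
  rw [ENNReal.coe_toNNReal hKt]
  set nr : ℤ → E 2 → ℂ := fun j => (sh (j - 1) ∪ sh j ∪ sh (j + 1)).indicator f with hnr
  have hnrN : ∀ j, Nice (nr j) := fun j =>
    nice_ind hf (((meas_sh _).union (meas_sh _)).union (meas_sh _))
  set fi : ℤ → E 2 → ℂ := fun i => (sh i).indicator f with hfi
  have hfiN : ∀ i, Nice (fi i) := fun i => nice_ind hf (meas_sh i)
  set a : ℤ → ℝ≥0∞ := fun i => (∫⁻ x, ‖fi i x‖ₑ ^ 2) ^ (1 / 2 : ℝ) with ha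
  set b : ℤ → ℝ≥0∞ := fun j => volume (A ∩ sh j) ^ (1 / 2 : ℝ) with hb
  have hAj : ∀ j, MeasurableSet (A ∩ sh j) := fun j => hA.inter (meas_sh j)
  -- the sums of squares
  have hbs : ∑' j, b j ^ 2 ≤ volume A := by
    simp only [hb, half_sq]
    rw [← measure_iUnion (fun i j hij => (sh_disj hij).mono inter_subset_right
      inter_subset_right) hAj]
    exact measure_mono (iUnion_subset fun j => inter_subset_left)
  have has : ∑' i, a i ^ 2 ≤ NN f := by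
    simp only [ha, half_sq]
    exact (hSHN f hf).2.trans (sq_le_NN hMODB hf)
  have hns : ∑' j, NN (nr j) ≤ 3 * NN f := (hSHN f hf).1
  -- far terms
  have hfar : ∀ i j : ℤ, (∫⁻ x in A ∩ sh j, if 2 ≤ |i - j| then Sstar (fi i) x else 0) ≤
      (C2 : ℝ≥0∞) ^ (1 / 2 : ℝ) * (ww (i - j) * (a i * b j)) := by
    intro i j
    by_cases hij : 2 ≤ |i - j|
    · simp only [if_pos hij]
      have g1 := cs_set (Sstar_meas (hfiN i)) (A ∩ sh j)
      have g2 : ∫⁻ x in A ∩ sh j, Sstar (fi i) x ^ 2 ≤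
          C2 * ENNReal.ofReal ((2 : ℝ) ^ (-(|i - j| : ℝ) / 4)) * ∫⁻ x, ‖fi i x‖ₑ ^ 2 := by
        refine (lintegral_mono_set inter_subset_right).trans (h2 i j (fi i) hij (hfiN i) ?_)
        intro y hy
        by_contra hn
        exact hy (indicator_of_notMem hn f)
      refine g1.trans ?_
      calc (∫⁻ x in A ∩ sh j, Sstar (fi i) x ^ 2) ^ (1 / 2 : ℝ) *
            volume (A ∩ sh j) ^ (1 / 2 : ℝ)
          ≤ (C2 * ENNReal.ofReal ((2 : ℝ) ^ (-(|i - j| : ℝ) / 4)) *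
            ∫⁻ x, ‖fi i x‖ₑ ^ 2) ^ (1 / 2 : ℝ) * volume (A ∩ sh j) ^ (1 / 2 : ℝ) :=
            mul_le_mul_left (ENNReal.rpow_le_rpow g2 (by norm_num)) _
        _ = (C2 : ℝ≥0∞) ^ (1 / 2 : ℝ) * (ww (i - j) * (a i * b j)) := by
            rw [ENNReal.mul_rpow_of_nonneg _ _ (by norm_num),
              ENNReal.mul_rpow_of_nonneg _ _ (by norm_num)]
            simp only [ww, ha, hb, Int.cast_sub]
            ring
    · simp only [if_neg hij, lintegral_zero]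
      exact zero_le
  -- one shell
  have hone : ∀ j : ℤ, ∫⁻ x in A ∩ sh j, Sstar f x ≤
      C1 * (NN (nr j) ^ (1 / 2 : ℝ) * b j) +
        ∑' i, (C2 : ℝ≥0∞) ^ (1 / 2 : ℝ) * (ww (i - j) * (a i * b j)) := by
    intro j
    have g1 : ∫⁻ x in A ∩ sh j, Sstar f x ≤ ∫⁻ x in A ∩ sh j, (Sstar (nr j) x +
        ∑' i : ℤ, if 2 ≤ |i - j| then Sstar (fi i) x else 0) :=
      setLIntegral_mono_ae' (hAj j) (ae_of_all _ fun x _ => hSUB f j x hf)
    rw [lintegral_add_left (Sstar_meas (hnrN j))] at g1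
    have hm : ∀ i : ℤ, AEMeasurable (fun x => if 2 ≤ |i - j| then Sstar (fi i) x else 0)
        (volume.restrict (A ∩ sh j)) := by
      intro i
      by_cases hij : 2 ≤ |i - j|
      · simp only [if_pos hij]
        exact (Sstar_meas (hfiN i)).aemeasurable
      · simp only [if_neg hij]
        exact aemeasurable_const
    rw [lintegral_tsum hm] at g1
    refine g1.trans (add_le_add ?_ (ENNReal.tsum_le_tsum fun i => hfar i j))
    have g2 := h1 j (nr j) (A ∩ sh j) (hnrN j) (hAj j) inter_subset_right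
    rw [mul_assoc] at g2
    exact g2
  -- all shells
  have hall : ∫⁻ x in A, Sstar f x ≤ ∑' j, ∫⁻ x in A ∩ sh j, Sstar f x := by
    have hsub : A ⊆ {(0 : E 2)} ∪ ⋃ j, A ∩ sh j := by
      intro x hx
      by_cases h0 : x = 0
      · left; exact h0
      · right
        obtain ⟨j, hj⟩ := sh_cover h0
        exact mem_iUnion.2 ⟨j, hx, hj⟩
    calc ∫⁻ x in A, Sstar f x ≤ ∫⁻ x in {(0 : E 2)} ∪ ⋃ j, A ∩ sh j, Sstar f x :=
          lintegral_mono_set hsub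
      _ ≤ (∫⁻ x in {(0 : E 2)}, Sstar f x) + ∫⁻ x in ⋃ j, A ∩ sh j, Sstar f x :=
          lintegral_union_le _ _ _
      _ = ∫⁻ x in ⋃ j, A ∩ sh j, Sstar f x := by
          rw [setLIntegral_measure_zero _ _ (measure_singleton _), zero_add]
      _ ≤ _ := lintegral_iUnion_le _ _
  have hnear : ∑' j, C1 * (NN (nr j) ^ (1 / 2 : ℝ) * b j) ≤
      C1 * (3 : ℝ≥0∞) ^ (1 / 2 : ℝ) * (NN f ^ (1 / 2 : ℝ) * volume A ^ (1 / 2 : ℝ)) := by
    rw [ENNReal.tsum_mul_left, mul_assoc]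
    refine mul_le_mul_right ?_ _
    refine (cs_tsum (fun j => NN (nr j) ^ (1 / 2 : ℝ)) b).trans ?_
    simp only [half_sq]
    calc (∑' j, NN (nr j)) ^ (1 / 2 : ℝ) * (∑' j, b j ^ 2) ^ (1 / 2 : ℝ)
        ≤ (3 * NN f) ^ (1 / 2 : ℝ) * volume A ^ (1 / 2 : ℝ) :=
          mul_le_mul' (ENNReal.rpow_le_rpow hns (by norm_num))
            (ENNReal.rpow_le_rpow hbs (by norm_num))
      _ = _ := by rw [ENNReal.mul_rpow_of_nonneg _ _ (by norm_num), mul_assoc]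
  have hfars : ∑' j, ∑' i, (C2 : ℝ≥0∞) ^ (1 / 2 : ℝ) * (ww (i - j) * (a i * b j)) ≤
      (C2 : ℝ≥0∞) ^ (1 / 2 : ℝ) * (∑' n, ww n) *
        (NN f ^ (1 / 2 : ℝ) * volume A ^ (1 / 2 : ℝ)) := by
    simp only [ENNReal.tsum_mul_left]
    rw [mul_assoc]
    refine mul_le_mul_right ?_ _
    refine (young a b).trans (mul_le_mul_right ?_ _)
    exact mul_le_mul' (ENNReal.rpow_le_rpow has (by norm_num))
      (ENNReal.rpow_le_rpow hbs (by norm_num))
  calc ∫⁻ x in A, Sstar f x ≤ ∑' j, ∫⁻ x in A ∩ sh j, Sstar f x := hall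
    _ ≤ ∑' j, (C1 * (NN (nr j) ^ (1 / 2 : ℝ) * b j) +
        ∑' i, (C2 : ℝ≥0∞) ^ (1 / 2 : ℝ) * (ww (i - j) * (a i * b j))) :=
        ENNReal.tsum_le_tsum hone
    _ = ∑' j, C1 * (NN (nr j) ^ (1 / 2 : ℝ) * b j) +
        ∑' j, ∑' i, (C2 : ℝ≥0∞) ^ (1 / 2 : ℝ) * (ww (i - j) * (a i * b j)) :=
        ENNReal.tsum_add
    _ ≤ _ := add_le_add hnear hfars
    _ = K * NN f ^ (1 / 2 : ℝ) * volume A ^ (1 / 2 : ℝ) := by rw [hK]; ring

end Pool.Agent.CRL
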