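import Pool.Agent.CRL.Targets3
import Pool.Agent.CRL.P_GLB

set_option autoImplicit false

/-!
# CRL: GLBS, the global strong inequality
-/

namespace Pool.Agent.CRL

open MeasureTheory FourierTransform Set Filter Topology
open scoped ENNReal NNReal
open Pool.Agent.MBS (E ex S Sstar)
open Pool.Agent.KSP (IE)
open Pool.Agent.CAR (e1 T_CARL)

namespace GLBS_

open H47_ GLB_

theorem sq_add_le (p q : ℝ≥0∞) : (p + q) ^ 2 ≤ 2 * (p ^ 2 + q ^ 2) := by
  have h := ENNReal.rpow_add_le_mul_rpow_add_rpow p q (p := 2) (by norm_num)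
  have e : (2 : ℝ≥0∞) ^ ((2 : ℝ) - 1) = 2 := by norm_num
  rw [e] at h
  simpa only [ENNReal.rpow_two] using h

theorem cs_w (t w : ℤ → ℝ≥0∞) (h0 : ∀ i, w i ≠ 0) (ht : ∀ i, w i ≠ ⊤) :
    (∑' i, t i) ^ 2 ≤ (∑' i, w i) * ∑' i, (w i)⁻¹ * t i ^ 2 := by
  have h := cs_tsum (fun i => w i ^ (1 / 2 : ℝ)) (fun i => (w i)⁻¹ ^ (1 / 2 : ℝ) * t i)
  have e1 : ∀ i, w i ^ (1 / 2 : ℝ) * ((w i)⁻¹ ^ (1 / 2 : ℝ) * t i) = t i := by
    intro i
    rw [← mul_assoc, ← ENNReal.mul_rpow_of_nonneg _ _ (by norm_num),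
      ENNReal.mul_inv_cancel (h0 i) (ht i), ENNReal.one_rpow, one_mul]
  simp only [e1, half_sq, mul_pow] at h
  calc (∑' i, t i) ^ 2 ≤ ((∑' i, w i) ^ (1 / 2 : ℝ) *
        (∑' i, (w i)⁻¹ * t i ^ 2) ^ (1 / 2 : ℝ)) ^ 2 := by gcongr
    _ = _ := by rw [mul_pow, half_sq, half_sq]

theorem ww_sq (n : ℤ) : ww n ^ 2 = ENNReal.ofReal ((2 : ℝ) ^ (-|(n : ℝ)| / 4)) := by
  unfold ww
  exact half_sq _

theorem ww_ne_zero (n : ℤ) : ww n ≠ 0 := by
  rw [ww_eq]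
  simp only [ne_eq, ENNReal.ofReal_eq_zero, not_le]
  positivity

theorem ww_ne_top (n : ℤ) : ww n ≠ ⊤ := by
  rw [ww_eq]
  exact ENNReal.ofReal_ne_top

theorem ww_shift (i : ℤ) : ∑' j, ww (i - j) = ∑' n, ww n :=
  (Equiv.subLeft i).tsum_eq ww

end GLBS_

open GLB_ H47_ GLBS_ in
/-- GLBS -/
theorem p_GLBS (h1 : T_NBJS) (h2 : T_OFF) (h3 : T_SHN) (h4 : T_SUB) (h5 : T_MODB) : T_GLBS := by
  intro hC hL
  obtain ⟨C1, hN⟩ := h1 hC hL
  obtain ⟨C2, hO⟩ := h2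
  set W : ℝ≥0∞ := ∑' n, ww n with hW
  have hWt : W ≠ ⊤ := ww_sum
  set K : ℝ≥0∞ := 2 * (C1 * 3) + 2 * W * (C2 * W) with hK
  have hKt : K ≠ ⊤ := by
    rw [hK]
    exact ENNReal.add_ne_top.2 ⟨ENNReal.mul_ne_top (by norm_num)
      (ENNReal.mul_ne_top ENNReal.coe_ne_top (by norm_num)),
      ENNReal.mul_ne_top (ENNReal.mul_ne_top (by norm_num) hWt)
        (ENNReal.mul_ne_top ENNReal.coe_ne_top hWt)⟩
  refine ⟨K.toNNReal, ?_⟩
  intro f hf
  rw [ENNReal.coe_toNNReal hKt]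
  set nr : ℤ → E 2 → ℂ := fun j => (sh (j - 1) ∪ sh j ∪ sh (j + 1)).indicator f with hnr
  have hnrN : ∀ j, Nice (nr j) := fun j =>
    nice_ind hf (((meas_sh _).union (meas_sh _)).union (meas_sh _))
  set fi : ℤ → E 2 → ℂ := fun i => (sh i).indicator f with hfi
  have hfiN : ∀ i, Nice (fi i) := fun i => nice_ind hf (meas_sh i)
  set a : ℤ → ℝ≥0∞ := fun i => ∫⁻ x, ‖fi i x‖ₑ ^ 2 with ha
  have has : ∑' i, a i ≤ NN f := (h3 f hf).2.trans (sq_le_NN h5 hf)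
  have hns : ∑' j, NN (nr j) ≤ 3 * NN f := (h3 f hf).1
  set t : ℤ → ℤ → E 2 → ℝ≥0∞ := fun j i x => if 2 ≤ |i - j| then Sstar (fi i) x else 0 with ht
  have htm : ∀ j i, Measurable (t j i) := by
    intro j i
    simp only [ht]
    by_cases hij : 2 ≤ |i - j|
    · simp only [if_pos hij]
      exact Sstar_meas (hfiN i)
    · simp only [if_neg hij]
      exact measurable_const
  -- far terms
  have hfar : ∀ i j : ℤ, (ww (i - j))⁻¹ * ∫⁻ x in sh j, t j i x ^ 2 ≤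
      C2 * (ww (i - j) * a i) := by
    intro i j
    by_cases hij : 2 ≤ |i - j|
    · have g2 : ∫⁻ x in sh j, t j i x ^ 2 ≤ C2 * ww (i - j) ^ 2 * a i := by
        simp only [ht, if_pos hij]
        refine (hO i j (fi i) hij (hfiN i) ?_).trans (le_of_eq ?_)
        · intro y hy
          by_contra hn
          exact hy (indicator_of_notMem hn f)
        · rw [ww_sq]
          simp only [Int.cast_sub, ha]
      calc (ww (i - j))⁻¹ * ∫⁻ x in sh j, t j i x ^ 2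
          ≤ (ww (i - j))⁻¹ * (C2 * ww (i - j) ^ 2 * a i) := by gcongr
        _ = ((ww (i - j))⁻¹ * ww (i - j)) * (C2 * (ww (i - j) * a i)) := by ring
        _ = _ := by
            rw [ENNReal.inv_mul_cancel (ww_ne_zero _) (ww_ne_top _), one_mul]
    · simp only [ht, if_neg hij]
      simp
  -- one shell
  have hone : ∀ j : ℤ, ∫⁻ x in sh j, Sstar f x ^ 2 ≤
      2 * (C1 * NN (nr j)) + 2 * W * ∑' i, C2 * (ww (i - j) * a i) := by
    intro j
    have g1 : ∫⁻ x in sh j, Sstar f x ^ 2 ≤ ∫⁻ x in sh j, (2 * Sstar (nr j) x ^ 2 +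
        2 * W * ∑' i : ℤ, (ww (i - j))⁻¹ * t j i x ^ 2) := by
      refine setLIntegral_mono_ae' (meas_sh j) (ae_of_all _ fun x _ => ?_)
      have g2 : Sstar f x ≤ Sstar (nr j) x + ∑' i, t j i x := h4 f j x hf
      have g3 := cs_w (fun i => t j i x) (fun i => ww (i - j)) (fun i => ww_ne_zero _)
        (fun i => ww_ne_top _)
      have g4 : ∑' i, ww (i - j) = W := (Equiv.subRight j).tsum_eq ww
      rw [g4] at g3
      calc Sstar f x ^ 2 ≤ (Sstar (nr j) x + ∑' i, t j i x) ^ 2 := by gcongr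
        _ ≤ 2 * (Sstar (nr j) x ^ 2 + (∑' i, t j i x) ^ 2) := sq_add_le _ _
        _ ≤ 2 * (Sstar (nr j) x ^ 2 + W * ∑' i, (ww (i - j))⁻¹ * t j i x ^ 2) := by gcongr
        _ = _ := by ring
    refine g1.trans ?_
    rw [lintegral_add_left (((Sstar_meas (hnrN j)).pow_const 2).const_mul 2),
      lintegral_const_mul _ ((Sstar_meas (hnrN j)).pow_const 2)]
    have hm : ∀ i : ℤ, Measurable (fun x => (ww (i - j))⁻¹ * t j i x ^ 2) := fun i =>
      ((htm j i).pow_const 2).const_mul _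
    rw [lintegral_const_mul _ (Measurable.tsum hm), lintegral_tsum fun i =>
      (hm i).aemeasurable]
    refine add_le_add ?_ ?_
    · gcongr
      exact hN j (nr j) (hnrN j)
    · refine mul_le_mul_right (ENNReal.tsum_le_tsum fun i => ?_) _
      rw [lintegral_const_mul _ ((htm j i).pow_const 2)]
      exact hfar i j
  -- all shells
  have hall : ∫⁻ x, Sstar f x ^ 2 ≤ ∑' j, ∫⁻ x in sh j, Sstar f x ^ 2 := by
    have hsub : (univ : Set (E 2)) ⊆ {(0 : E 2)} ∪ ⋃ j, sh j := by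
      intro x _
      by_cases h0 : x = 0
      · left; exact h0
      · right
        obtain ⟨j, hj⟩ := sh_cover h0
        exact mem_iUnion.2 ⟨j, hj⟩
    calc ∫⁻ x, Sstar f x ^ 2 = ∫⁻ x in univ, Sstar f x ^ 2 := by rw [setLIntegral_univ]
      _ ≤ ∫⁻ x in {(0 : E 2)} ∪ ⋃ j, sh j, Sstar f x ^ 2 := lintegral_mono_set hsub
      _ ≤ (∫⁻ x in {(0 : E 2)}, Sstar f x ^ 2) + ∫⁻ x in ⋃ j, sh j, Sstar f x ^ 2 :=
          lintegral_union_le _ _ _
      _ = ∫⁻ x in ⋃ j, sh j, Sstar f x ^ 2 := by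
          rw [setLIntegral_measure_zero _ _ (measure_singleton _), zero_add]
      _ ≤ _ := lintegral_iUnion_le _ _
  have hfars : ∑' j, ∑' i, C2 * (ww (i - j) * a i) ≤ C2 * W * NN f := by
    rw [ENNReal.tsum_comm]
    have e1 : ∀ i, ∑' j, (C2 : ℝ≥0∞) * (ww (i - j) * a i) = C2 * W * a i := by
      intro i
      rw [ENNReal.tsum_mul_left, ENNReal.tsum_mul_right, ww_shift, ← mul_assoc]
    simp only [e1, ENNReal.tsum_mul_left]
    gcongr
  calc ∫⁻ x, Sstar f x ^ 2 ≤ ∑' j, ∫⁻ x in sh j, Sstar f x ^ 2 := hall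
    _ ≤ ∑' j, (2 * (C1 * NN (nr j)) + 2 * W * ∑' i, C2 * (ww (i - j) * a i)) :=
        ENNReal.tsum_le_tsum hone
    _ = 2 * (C1 * ∑' j, NN (nr j)) + 2 * W * ∑' j, ∑' i, C2 * (ww (i - j) * a i) := by
        rw [ENNReal.tsum_add, ENNReal.tsum_mul_left, ENNReal.tsum_mul_left,
          ENNReal.tsum_mul_left]
    _ ≤ 2 * (C1 * (3 * NN f)) + 2 * W * (C2 * W * NN f) := by gcongr
    _ = K * NN f := by rw [hK]; ring

end Pool.Agent.CRL
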