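import Pool.Agent.CRL.Targets2

set_option autoImplicit false

/-!
# CRL: joint measurability of the maximal truncated integrals on rays (target HM)
-/

namespace Pool.Agent.CRL

open MeasureTheory FourierTransform Set Filter Topology
open scoped ENNReal NNReal
open Pool.Agent.MBS (E ex S Sstar)
open Pool.Agent.CAR (e1)

namespace HM_

/-- The integrand. -/
noncomputable def G (g : E 2 → ℂ) (θ ρ r : ℝ) : ℂ := (Real.sqrt r : ℂ) * g (r • ev θ) * e1 (r * ρ)

lemma ev_cont : Continuous ev := by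
  unfold ev
  have h : Continuous fun θ : ℝ => (![Real.cos θ, Real.sin θ] : Fin 2 → ℝ) := by
    refine continuous_pi fun i => ?_
    fin_cases i
    · exact Real.continuous_cos
    · exact Real.continuous_sin
  exact (PiLp.continuous_toLp 2 _).comp h

lemma e1_cont : Continuous e1 := by unfold e1; fun_prop

lemma e1_norm (x : ℝ) : ‖e1 x‖ = 1 := by
  unfold e1
  have : (2 * Real.pi * Complex.I * (x : ℂ) : ℂ) = ((2 * Real.pi * x : ℝ) : ℂ) * Complex.I := by
    push_cast; ring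
  rw [this, Complex.norm_exp_ofReal_mul_I]

lemma G_meas {g : E 2 → ℂ} (hg : Measurable g) :
    Measurable fun q : (ℝ × ℝ) × ℝ => G g q.1.1 q.1.2 q.2 := by
  unfold G
  refine Measurable.mul (Measurable.mul ?_ (hg.comp ?_)) ?_
  · exact (Complex.continuous_ofReal.comp (Real.continuous_sqrt.comp continuous_snd)).measurable
  · exact (continuous_snd.smul (ev_cont.comp (continuous_fst.comp continuous_fst))).measurable
  · exact (e1_cont.comp (continuous_snd.mul (continuous_snd.comp continuous_fst))).measurable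

lemma pt (r x : ℝ) (hr : 0 ≤ r) : Real.sqrt r * x ≤ 1 + r * x ^ 2 := by
  have h2 : (Real.sqrt r * x) ^ 2 = r * x ^ 2 := by rw [mul_pow, Real.sq_sqrt hr]
  rw [← h2]
  nlinarith [sq_nonneg (Real.sqrt r * x - 1)]

lemma ci_norm (t : ℝ) : ‖ci t‖ = 1 := by unfold ci; rw [Complex.norm_exp_ofReal_mul_I]

lemma G_le {K : ℕ} {g : E 2 → ℂ} {c : ℤ → ℝ → ℂ} (h : Ang K g c) (θ ρ r : ℝ) (hr0 : 0 < r) :
    ‖G g θ ρ r‖ ≤ ∑ k ∈ Finset.Icc (-(K : ℤ)) K, (1 + r * ‖c k r‖ ^ 2) := by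
  have h0 : ‖G g θ ρ r‖ = Real.sqrt r * ‖∑ k ∈ Finset.Icc (-(K : ℤ)) K, c k r * ci (k * θ)‖ := by
    unfold G
    rw [norm_mul, e1_norm, mul_one, norm_mul, h.eq r hr0 θ, Complex.norm_real,
      Real.norm_of_nonneg (Real.sqrt_nonneg r)]
  rw [h0]
  have h1 : ‖∑ k ∈ Finset.Icc (-(K : ℤ)) K, c k r * ci (k * θ)‖ ≤
      ∑ k ∈ Finset.Icc (-(K : ℤ)) K, ‖c k r‖ := by
    refine (norm_sum_le _ _).trans (le_of_eq (Finset.sum_congr rfl fun k _ => ?_))
    rw [norm_mul, ci_norm, mul_one]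
  refine (mul_le_mul_of_nonneg_left h1 (Real.sqrt_nonneg r)).trans ?_
  rw [Finset.mul_sum]
  exact Finset.sum_le_sum fun k _ => pt r _ hr0.le

lemma aux1 {c : ℤ → ℝ → ℂ} {a R : ℝ} (ha : 0 ≤ a) (k : ℤ)
    (hs : IntegrableOn (fun r => r * ‖c k r‖ ^ 2) (Ioi 0)) :
    Integrable (fun r : ℝ => r * ‖c k r‖ ^ 2) (volume.restrict (Ioc a R)) :=
  hs.mono_set fun _ hr => lt_of_le_of_lt ha hr.1

lemma aux2 {c : ℤ → ℝ → ℂ} {a R : ℝ} (k : ℤ)
    (h3 : Integrable (fun r : ℝ => r * ‖c k r‖ ^ 2) (volume.restrict (Ioc a R))) :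
    Integrable (fun r : ℝ => 1 + r * ‖c k r‖ ^ 2) (volume.restrict (Ioc a R)) := by
  have h2 : Integrable (fun _ : ℝ => (1 : ℝ)) (volume.restrict (Ioc a R)) :=
      integrable_const 1
  exact h2.add h3

lemma aux3 (K : ℕ) {c : ℤ → ℝ → ℂ} {a R : ℝ}
    (h1 : ∀ k : ℤ, Integrable (fun r : ℝ => 1 + r * ‖c k r‖ ^ 2) (volume.restrict (Ioc a R))) :
    Integrable (fun r : ℝ => ∑ k ∈ Finset.Icc (-(K : ℤ)) K,
      (1 + r * ‖c k r‖ ^ 2)) (volume.restrict (Ioc a R)) :=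
    integrable_finsetSum _ fun k _ => h1 k

lemma G_meas' {g : E 2 → ℂ} (hg : Measurable g) (θ ρ : ℝ) : Measurable (G g θ ρ) := by
  have h1 : Measurable fun r : ℝ => (((θ, ρ), r) : (ℝ × ℝ) × ℝ) :=
    measurable_const.prodMk measurable_id
  exact (G_meas hg).comp h1

lemma G_int {K : ℕ} {g : E 2 → ℂ} {c : ℤ → ℝ → ℂ} (h : Ang K g c) (θ ρ a R : ℝ) (ha : 0 ≤ a) :
    IntegrableOn (G g θ ρ) (Ioc a R) := by
  have hb := aux3 K (a := a) (R := R) fun k => aux2 k (aux1 ha k (h.sq k))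
  have hm : Measurable (G g θ ρ) := G_meas' h.meas θ ρ
  refine Integrable.mono' hb hm.aestronglyMeasurable ?_
  rw [ae_restrict_iff' measurableSet_Ioc]
  refine ae_of_all _ ?_
  intro r hr
  exact G_le h θ ρ r (lt_of_le_of_lt ha hr.1)

lemma part_cont {K : ℕ} {g : E 2 → ℂ} {c : ℤ → ℝ → ℂ} (h : Ang K g c) (θ ρ a : ℝ) (ha : 0 ≤ a) :
    Continuous fun R : ℝ => ∫ r in Ioc a R, G g θ ρ r := by
  have hI : ∀ x y : ℝ, IntervalIntegrable ((Ioi a).indicator (G g θ ρ)) volume x y := by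
    intro x y
    rw [intervalIntegrable_iff]
    have h1 : IntegrableOn (G g θ ρ) (Ioc a (max x y)) := G_int h θ ρ a _ ha
    have h2 : IntegrableOn (G g θ ρ) (uIoc x y ∩ Ioi a) := by
      refine h1.mono_set ?_
      rintro r ⟨hr1, hr2⟩
      exact ⟨hr2, hr1.2⟩
    rw [IntegrableOn, integrable_indicator_iff measurableSet_Ioi, IntegrableOn,
      Measure.restrict_restrict measurableSet_Ioi, inter_comm]
    exact h2
  have hc := intervalIntegral.continuous_primitive hI a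
  convert hc using 2 with R
  rcases le_total a R with hR | hR
  · rw [intervalIntegral.integral_of_le hR]
    refine setIntegral_congr_fun measurableSet_Ioc fun r hr => ?_
    rw [indicator_of_mem (show r ∈ Ioi a from hr.1)]
  · rw [Ioc_eq_empty (not_lt.2 hR), intervalIntegral.integral_of_ge hR]
    have : ∫ r in Ioc R a, (Ioi a).indicator (G g θ ρ) r = ∫ r in Ioc R a, (0 : ℂ) := by
      refine setIntegral_congr_fun measurableSet_Ioc fun r hr => ?_
      rw [indicator_of_notMem (show r ∉ Ioi a from not_lt.2 hr.2)]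
    rw [this]
    simp

lemma sup_rat {F : ℝ → ℂ} (hF : Continuous F) : (⨆ R : ℝ, ‖F R‖ₑ) = ⨆ q : ℚ, ‖F (q : ℝ)‖ₑ := by
  refine le_antisymm (iSup_le fun R => ?_) (iSup_le fun q => le_iSup (fun R : ℝ => ‖F R‖ₑ) (q : ℝ))
  exact Rat.isDenseEmbedding_coe_real.dense.induction_on R
    (isClosed_le hF.enorm continuous_const) fun q => le_iSup (fun q : ℚ => ‖F (q : ℝ)‖ₑ) q

end HM_

open HM_ in
/-- HM. -/
theorem p_HM : T_HM := by
  intro K g c a ha h
  have h0 : (fun p : ℝ × ℝ => HH g a p.1 p.2) =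
      fun p : ℝ × ℝ => ⨆ q : ℚ, ‖∫ r in Ioc a (q : ℝ), G g p.1 p.2 r‖ₑ := by
    funext p
    exact sup_rat (part_cont h p.1 p.2 a ha)
  rw [h0]
  refine Measurable.iSup fun q => Measurable.enorm ?_
  exact ((G_meas h.meas).stronglyMeasurable.integral_prod_right'
    (ν := volume.restrict (Ioc a (q : ℝ)))).measurable


end Pool.Agent.CRL
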