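import Pool.Agent.CRL.Targets2

set_option autoImplicit false

/-!
# CRL: the log log inequality for frequencies below a power of the angular degree (target LLK)
-/

namespace Pool.Agent.CRL

open MeasureTheory FourierTransform Set Filter Topology
open scoped ENNReal NNReal
open Pool.Agent.MBS (E ex S Sstar)

namespace LLK_

lemma log_bd (K x : ℝ) (hK : 0 ≤ K) (hx : 0 ≤ x) (hxK : x ≤ K ^ 4) :
    Real.log (3 + Real.log (3 + x)) ≤ 2 * Real.log (3 + Real.log (3 + K)) := by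
  have hL0 : 0 ≤ Real.log (3 + K) := Real.log_nonneg (by linarith)
  have h1 : Real.log (3 + x) ≤ 4 * Real.log (3 + K) := by
    have : Real.log ((3 + K) ^ 4) = 4 * Real.log (3 + K) := by
      rw [Real.log_pow]; norm_num
    rw [← this]
    refine Real.log_le_log (by linarith) ?_
    nlinarith [pow_nonneg hK 2, pow_nonneg hK 3, pow_nonneg hK 4]
  have h0 : 0 ≤ Real.log (3 + x) := Real.log_nonneg (by linarith)
  have h2 : Real.log ((3 + Real.log (3 + K)) ^ 2) = 2 * Real.log (3 + Real.log (3 + K)) := by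
    rw [Real.log_pow]; norm_num
  rw [← h2]
  refine Real.log_le_log (by linarith) ?_
  nlinarith [sq_nonneg (Real.log (3 + K))]

lemma log_nn (x : ℝ) (hx : 0 ≤ x) : 0 ≤ Real.log (3 + Real.log (3 + x)) := by
  have h0 : 0 ≤ Real.log (3 + x) := Real.log_nonneg (by linarith)
  exact Real.log_nonneg (by linarith)

lemma shell_compact : IsCompact {x : E 2 | 1 ≤ ‖x‖ ∧ ‖x‖ ≤ 2} := by
  have h1 : IsClosed {x : E 2 | 1 ≤ ‖x‖ ∧ ‖x‖ ≤ 2} :=
    (isClosed_le continuous_const continuous_norm).inter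
      (isClosed_le continuous_norm continuous_const)
  refine (isCompact_closedBall (0 : E 2) 2).of_isClosed_subset h1 ?_
  intro x hx
  rw [mem_closedBall_zero_iff]
  exact hx.2

lemma cover : ∃ t : Finset (E 2), {x : E 2 | 1 ≤ ‖x‖ ∧ ‖x‖ ≤ 2} ⊆
    ⋃ x ∈ t, Metric.closedBall x 1 := by
  obtain ⟨t, -, ht⟩ := shell_compact.elim_nhds_subcover (fun x => Metric.closedBall x 1)
    fun x _ => Metric.closedBall_mem_nhds x one_pos
  exact ⟨t, ht⟩

lemma lint_le (t : Finset (E 2)) (F : E 2 → ℝ≥0∞) :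
    ∫⁻ x in ⋃ y ∈ t, Metric.closedBall y 1, F x ≤ ∑ y ∈ t, ∫⁻ x in Metric.closedBall y 1, F x := by
  classical
  induction t using Finset.induction_on with
  | empty => simp
  | insert a s ha ih =>
    rw [Finset.sum_insert ha, Finset.set_biUnion_insert]
    exact (lintegral_union_le _ _ _).trans (add_le_add_right ih _)

end LLK_

open LLK_ in
/-- LLK. -/
theorem p_LLK : T_LLK := by
  rintro ⟨C, hC⟩
  obtain ⟨t, ht⟩ := cover
  refine ⟨(t.card : ℝ≥0) * C * 2 ^ 12, fun K g hK hg hs => ?_⟩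
  set F : E 2 → ℝ≥0∞ := fun x =>
    (⨆ (R : ℝ) (_ : 0 < R), ‖∫ ξ in Metric.closedBall (0 : E 2) R, g ξ * ex x ξ‖ₑ) ^ 2 with hF
  set L : ℝ := Real.log (3 + Real.log (3 + (K : ℝ))) with hL
  have hL0 : 0 ≤ L := log_nn _ (Nat.cast_nonneg K)
  have h1 : ∀ y : E 2, ∫⁻ x in Metric.closedBall y 1, F x ≤
      C * (2 ^ 12 * ENNReal.ofReal (L ^ 12) * ∫⁻ ξ, ‖g ξ‖ₑ ^ 2) := by
    intro y
    refine (hC g y hg).trans ?_
    gcongr
    rw [← lintegral_const_mul _ (by fun_prop)]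
    refine lintegral_mono fun ξ => ?_
    rcases eq_or_ne (g ξ) 0 with h0 | h0
    · simp [h0]
    · rw [mul_comm]
      refine mul_le_mul_left ?_ _
      have h2 := log_bd K ‖ξ‖ (Nat.cast_nonneg K) (norm_nonneg ξ) (hs ξ h0)
      have h3 := log_nn ‖ξ‖ (norm_nonneg ξ)
      have h4 : Real.log (3 + Real.log (3 + ‖ξ‖)) ^ 12 ≤ 2 ^ 12 * L ^ 12 := by
        rw [← mul_pow]
        exact pow_le_pow_left₀ h3 h2 12
      refine (ENNReal.ofReal_le_ofReal h4).trans (le_of_eq ?_)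
      rw [ENNReal.ofReal_mul (by positivity)]
      congr 1
      norm_num
  calc ∫⁻ x in {x : E 2 | 1 ≤ ‖x‖ ∧ ‖x‖ ≤ 2}, F x
      ≤ ∫⁻ x in ⋃ y ∈ t, Metric.closedBall y 1, F x := lintegral_mono_set ht
    _ ≤ ∑ y ∈ t, ∫⁻ x in Metric.closedBall y 1, F x := lint_le t F
    _ ≤ ∑ y ∈ t, C * (2 ^ 12 * ENNReal.ofReal (L ^ 12) * ∫⁻ ξ, ‖g ξ‖ₑ ^ 2) :=
        Finset.sum_le_sum fun y _ => h1 y
    _ = _ := by
        rw [Finset.sum_const, nsmul_eq_mul]
        push_cast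
        ring


end Pool.Agent.CRL
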