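import Pool.Agent.CRL.Targets

set_option autoImplicit false

/-!
# MM: the annulus multipliers, decay and continuity
-/

namespace Pool.Agent.CRL

open MeasureTheory FourierTransform Set Filter Topology
open scoped ENNReal NNReal
open Pool.Agent.MBS (E ex S Sstar)
open Pool.Agent.KSP (IE)
open Pool.Agent.CAR (e1)

namespace MM_

lemma ev_norm (θ : ℝ) : ‖ev θ‖ = 1 := by
  rw [EuclideanSpace.norm_eq]
  simp [ev, Fin.sum_univ_two]

lemma cont_ev : Continuous ev := by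
  unfold ev
  refine (PiLp.continuous_toLp 2 _).comp ?_
  refine continuous_pi fun i => ?_
  fin_cases i
  · simpa using Real.continuous_cos
  · simpa using Real.continuous_sin

lemma ev_per (θ : ℝ) : ev (θ + 2 * Real.pi) = ev θ := by
  unfold ev
  rw [Real.cos_add_two_pi, Real.sin_add_two_pi]

lemma norm_smul_ev {r : ℝ} (hr : 0 ≤ r) (θ : ℝ) : ‖r • ev θ‖ = r := by
  rw [norm_smul, ev_norm, mul_one, Real.norm_eq_abs, abs_of_nonneg hr]

/-- polar form of a vector -/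
lemma polar (ξ : E 2) : ∃ α : ℝ, ξ 0 = ‖ξ‖ * Real.cos α ∧ ξ 1 = ‖ξ‖ * Real.sin α := by
  have h : ‖ξ‖ = ‖(⟨ξ 0, ξ 1⟩ : ℂ)‖ := by
    rw [EuclideanSpace.norm_eq, Complex.norm_def, Complex.normSq_mk]
    simp [Fin.sum_univ_two, sq]
  refine ⟨Complex.arg ⟨ξ 0, ξ 1⟩, ?_, ?_⟩
  · rw [h, Complex.norm_mul_cos_arg]
  · rw [h, Complex.norm_mul_sin_arg]

lemma dist_sq (ξ : E 2) (R φ : ℝ) :
    ‖ξ - R • ev φ‖ ^ 2 = (ξ 0 - R * Real.cos φ) ^ 2 + (ξ 1 - R * Real.sin φ) ^ 2 := by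
  rw [EuclideanSpace.norm_sq_eq, Fin.sum_univ_two]
  simp [ev]

lemma quad (a R c : ℝ) (ha : 0 ≤ a) (hR : 0 ≤ R) (h1 : -1 ≤ c) (h2 : c ≤ 1) :
    R ^ 2 * ((1 - c) / 2) ≤ a ^ 2 + R ^ 2 - 2 * a * R * c := by
  rcases le_total c 0 with h | h
  · have : 0 ≤ a * R * (-c) := mul_nonneg (mul_nonneg ha hR) (by linarith)
    nlinarith [sq_nonneg a, mul_nonneg (sq_nonneg R) (by linarith : (0 : ℝ) ≤ 1 + c)]
  · nlinarith [sq_nonneg (a - R * c), mul_nonneg (sq_nonneg R) (mul_nonneg (sub_nonneg.2 h2) h),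
      mul_nonneg (sq_nonneg R) (sub_nonneg.2 h2)]

/-- the distance from a point to the circle of radius `R` at the angle `α + t` -/
lemma dist_lower {ξ : E 2} {α : ℝ} (h0 : ξ 0 = ‖ξ‖ * Real.cos α) (h1 : ξ 1 = ‖ξ‖ * Real.sin α)
    {R : ℝ} (hR : 0 ≤ R) {t : ℝ} (ht : |t| ≤ Real.pi) :
    (R / Real.pi * t) ^ 2 ≤ ‖ξ - R • ev (α + t)‖ ^ 2 := by
  have hs : ‖ξ - R • ev (α + t)‖ ^ 2 = ‖ξ‖ ^ 2 + R ^ 2 - 2 * ‖ξ‖ * R * Real.cos t := by
    rw [dist_sq, h0, h1]
    have e1 : Real.cos t = Real.cos (α + t) * Real.cos α + Real.sin (α + t) * Real.sin α := by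
      rw [← Real.cos_sub]; congr 1; ring
    rw [e1]
    linear_combination ‖ξ‖ ^ 2 * Real.sin_sq_add_cos_sq α +
      R ^ 2 * Real.sin_sq_add_cos_sq (α + t)
  rw [hs]
  refine le_trans ?_ (quad ‖ξ‖ R (Real.cos t) (norm_nonneg _) hR (Real.neg_one_le_cos t)
    (Real.cos_le_one t))
  have e2 : (1 - Real.cos t) / 2 = Real.sin (t / 2) ^ 2 := by
    have := Real.cos_two_mul (t / 2)
    rw [show 2 * (t / 2) = t by ring] at this
    rw [this]
    have h3 := Real.sin_sq_add_cos_sq (t / 2)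
    linarith
  rw [e2]
  have h4 : (t / Real.pi) ^ 2 ≤ Real.sin (t / 2) ^ 2 := by
    have h5 : |t| / Real.pi ≤ Real.sin (|t| / 2) := by
      have := Real.mul_le_sin (x := |t| / 2) (by positivity) (by linarith)
      calc |t| / Real.pi = 2 / Real.pi * (|t| / 2) := by ring
        _ ≤ _ := this
    have h6 : Real.sin (|t| / 2) ^ 2 = Real.sin (t / 2) ^ 2 := by
      rcases abs_choice t with h | h
      · rw [h]
      · rw [h, neg_div, Real.sin_neg, neg_sq]
    rw [← h6, ← sq_abs, abs_div, abs_of_pos Real.pi_pos]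
    exact pow_le_pow_left₀ (by positivity) h5 2
  calc (R / Real.pi * t) ^ 2 = R ^ 2 * (t / Real.pi) ^ 2 := by ring
    _ ≤ _ := mul_le_mul_of_nonneg_left h4 (sq_nonneg R)

/-- `R ∫ (1+|ξ-Re_φ|)^(-2) dφ ≤ π²` -/
lemma arc_int (ξ : E 2) {R : ℝ} (hR : 0 ≤ R) :
    R * ∫ φ in (-Real.pi)..Real.pi, ((1 + ‖ξ - R • ev φ‖) ^ 2)⁻¹ ≤ Real.pi ^ 2 := by
  obtain ⟨α, h0, h1⟩ := polar ξ
  have hc : Continuous fun φ => ((1 + ‖ξ - R • ev φ‖) ^ 2)⁻¹ := by
    refine Continuous.inv₀ ?_ fun φ => by positivity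
    have := cont_ev
    fun_prop
  have hper : Function.Periodic (fun φ => ((1 + ‖ξ - R • ev φ‖) ^ 2)⁻¹) (2 * Real.pi) := by
    intro φ
    simp only [ev_per]
  have e1 : ∫ φ in (-Real.pi)..Real.pi, ((1 + ‖ξ - R • ev φ‖) ^ 2)⁻¹ =
      ∫ t in (-Real.pi)..Real.pi, ((1 + ‖ξ - R • ev (α + t)‖) ^ 2)⁻¹ := by
    have h2 := hper.intervalIntegral_add_eq (-Real.pi) (α + -Real.pi)
    rw [show -Real.pi + 2 * Real.pi = Real.pi by ring,
      show α + -Real.pi + 2 * Real.pi = α + Real.pi by ring] at h2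
    rw [h2, ← intervalIntegral.integral_comp_add_left
      (fun φ => ((1 + ‖ξ - R • ev φ‖) ^ 2)⁻¹) α]
  have hpi := Real.pi_pos
  have e2 : ∫ t in (-Real.pi)..Real.pi, ((1 + ‖ξ - R • ev (α + t)‖) ^ 2)⁻¹ ≤
      ∫ t in (-Real.pi)..Real.pi, (1 + (R / Real.pi * t) ^ 2)⁻¹ := by
    refine intervalIntegral.integral_mono_on (by linarith) ?_ ?_ fun t ht => ?_
    · exact (hc.comp (continuous_const.add continuous_id)).intervalIntegrable _ _
    · refine Continuous.intervalIntegrable ?_ _ _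
      exact Continuous.inv₀ (by fun_prop) fun t => by positivity
    · have h3 := dist_lower h0 h1 hR (abs_le.2 ht)
      refine inv_anti₀ (by positivity) ?_
      nlinarith [norm_nonneg (ξ - R • ev (α + t))]
  rw [e1]
  calc R * ∫ t in (-Real.pi)..Real.pi, ((1 + ‖ξ - R • ev (α + t)‖) ^ 2)⁻¹
      ≤ R * ∫ t in (-Real.pi)..Real.pi, (1 + (R / Real.pi * t) ^ 2)⁻¹ :=
        mul_le_mul_of_nonneg_left e2 hR
    _ = Real.pi * ((R / Real.pi) * ∫ t in (-Real.pi)..Real.pi, (1 + (R / Real.pi * t) ^ 2)⁻¹) := by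
        field_simp
    _ = Real.pi * (Real.arctan R - Real.arctan (-R)) := by
        have h5 := intervalIntegral.mul_integral_comp_mul_left (a := -Real.pi) (b := Real.pi)
          (f := fun x : ℝ => (1 + x ^ 2)⁻¹) (c := R / Real.pi)
        rw [h5, integral_inv_one_add_sq, div_mul_cancel₀ _ hpi.ne', mul_neg,
          div_mul_cancel₀ _ hpi.ne']
    _ ≤ Real.pi ^ 2 := by
        have h4 := Real.arctan_lt_pi_div_two R
        rw [Real.arctan_neg]
        nlinarith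

/-- the integral of `(1+|ζ|)^(-7)` -/
noncomputable def I7 : ℝ := ∫ ζ : E 2, ((1 + ‖ζ‖) ^ 7)⁻¹

lemma int7 : Integrable fun ζ : E 2 => ((1 + ‖ζ‖) ^ 7)⁻¹ := by
  have h := integrable_one_add_norm (E := E 2) (μ := volume) (r := 7) (by
    rw [finrank_euclideanSpace]; norm_num)
  refine h.congr (Eventually.of_forall fun ζ => ?_)
  have h1 : (0 : ℝ) ≤ 1 + ‖ζ‖ := by positivity
  show (1 + ‖ζ‖) ^ (-7 : ℝ) = _
  rw [Real.rpow_neg h1]
  congr 1
  exact_mod_cast Real.rpow_natCast (1 + ‖ζ‖) 7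

lemma I7_nonneg : 0 ≤ I7 := integral_nonneg fun ζ => by positivity

lemma B_nonneg {ψ : E 2 → ℂ} {B : ℝ} (h : Psi ψ B) : 0 ≤ B := by
  have := h.dec 0
  simp only [norm_zero, add_zero, one_pow, inv_one, mul_one] at this
  exact (norm_nonneg _).trans this

lemma psi_int {ψ : E 2 → ℂ} {B : ℝ} (h : Psi ψ B) : Integrable ψ := by
  refine (int7.const_mul B).mono' h.cont.aestronglyMeasurable (Eventually.of_forall fun ζ => ?_)
  refine (h.dec ζ).trans (mul_le_mul_of_nonneg_left ?_ (B_nonneg h))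
  refine inv_anti₀ (by positivity) ?_
  exact pow_le_pow_right₀ (by linarith [norm_nonneg ζ]) (by norm_num)

lemma psi_int' {ψ : E 2 → ℂ} {B : ℝ} (h : Psi ψ B) (ξ : E 2) :
    Integrable fun ζ => ψ (ξ - ζ) := (psi_int h).comp_sub_left ξ

lemma tail {ψ : E 2 → ℂ} {B : ℝ} (h : Psi ψ B) (ξ : E 2) {A : Set (E 2)} (hA : MeasurableSet A)
    {s : ℝ} (hs : 0 ≤ s) (hAs : ∀ ζ ∈ A, s ≤ ‖ξ - ζ‖) :
    ‖∫ ζ in A, ψ (ξ - ζ)‖ ≤ B * I7 * ((1 + s) ^ 3)⁻¹ := by
  have hi : Integrable fun ζ : E 2 => B * ((1 + s) ^ 3)⁻¹ * ((1 + ‖ξ - ζ‖) ^ 7)⁻¹ :=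
    (int7.comp_sub_left ξ).const_mul _
  calc ‖∫ ζ in A, ψ (ξ - ζ)‖ ≤ ∫ ζ in A, ‖ψ (ξ - ζ)‖ := norm_integral_le_integral_norm _
    _ ≤ ∫ ζ in A, B * ((1 + s) ^ 3)⁻¹ * ((1 + ‖ξ - ζ‖) ^ 7)⁻¹ := by
        refine setIntegral_mono_on (psi_int' h ξ).norm.integrableOn hi.integrableOn hA
          fun ζ hζ => ?_
        refine (h.dec _).trans ?_
        rw [mul_assoc, ← mul_inv]
        refine mul_le_mul_of_nonneg_left ?_ (B_nonneg h)
        refine inv_anti₀ (by positivity) ?_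
        have h1 := hAs ζ hζ
        calc (1 + s) ^ 3 * (1 + ‖ξ - ζ‖) ^ 7 ≤ (1 + ‖ξ - ζ‖) ^ 3 * (1 + ‖ξ - ζ‖) ^ 7 := by
              gcongr
          _ = _ := by ring
    _ ≤ ∫ ζ, B * ((1 + s) ^ 3)⁻¹ * ((1 + ‖ξ - ζ‖) ^ 7)⁻¹ :=
        setIntegral_le_integral hi (Eventually.of_forall fun ζ => by
          have := B_nonneg h
          positivity)
    _ = B * I7 * ((1 + s) ^ 3)⁻¹ := by
        rw [integral_const_mul, integral_sub_left_eq_self (fun ζ : E 2 => ((1 + ‖ζ‖) ^ 7)⁻¹)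
          volume ξ]
        unfold I7
        ring

lemma mm_bound {ψ : E 2 → ℂ} {B : ℝ} (h : Psi ψ B) (R : ℝ) (ξ : E 2) :
    ‖mm ψ R ξ‖ ≤ B * I7 * dw 3 R ξ := by
  unfold mm dw
  rcases le_total R ‖ξ‖ with hR | hR
  · refine tail h ξ Metric.isClosed_closedBall.measurableSet (abs_nonneg _) fun ζ hζ => ?_
    rw [abs_of_nonneg (by linarith)]
    have h1 : ‖ζ‖ ≤ R := by simpa using hζ
    have h2 := norm_sub_norm_le ξ ζ
    linarith
  · have h1 := integral_add_compl (μ := volume) (s := Metric.closedBall (0 : E 2) R)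
      Metric.isClosed_closedBall.measurableSet (psi_int' h ξ)
    rw [integral_sub_left_eq_self ψ volume ξ, h.int0] at h1
    rw [eq_neg_of_add_eq_zero_left h1, norm_neg]
    refine tail h ξ Metric.isClosed_closedBall.measurableSet.compl (abs_nonneg _) fun ζ hζ => ?_
    rw [abs_of_nonpos (by linarith)]
    have h1 : R < ‖ζ‖ := by simpa using hζ
    have h2 := norm_sub_norm_le ζ ξ
    rw [norm_sub_rev] at h2
    linarith

lemma m1_bound {ψ : E 2 → ℂ} {B : ℝ} (h : Psi ψ B) {R : ℝ} (hR : 0 ≤ R) (ξ : E 2) :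
    ‖m1 ψ R ξ‖ ≤ B * Real.pi ^ 2 * dw 3 R ξ := by
  have hpi := Real.pi_pos
  have hB := B_nonneg h
  have hce := cont_ev
  have hcp := h.cont
  have hc : Continuous fun φ => ((1 + ‖ξ - R • ev φ‖) ^ 2)⁻¹ := by
    refine Continuous.inv₀ ?_ fun φ => by positivity
    fun_prop
  unfold m1 dw
  rw [norm_mul, Complex.norm_real, Real.norm_eq_abs, abs_of_nonneg hR]
  set s := |‖ξ‖ - R| with hs
  calc R * ‖∫ φ in (-Real.pi)..Real.pi, ψ (ξ - R • ev φ)‖
      ≤ R * ∫ φ in (-Real.pi)..Real.pi, ‖ψ (ξ - R • ev φ)‖ :=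
        mul_le_mul_of_nonneg_left
          (intervalIntegral.norm_integral_le_integral_norm (by linarith)) hR
    _ ≤ R * ∫ φ in (-Real.pi)..Real.pi,
          B * ((1 + s) ^ 3)⁻¹ * ((1 + ‖ξ - R • ev φ‖) ^ 2)⁻¹ := by
        refine mul_le_mul_of_nonneg_left ?_ hR
        refine intervalIntegral.integral_mono_on (by linarith) ?_ ?_ fun t ht => ?_
        · exact Continuous.intervalIntegrable (by fun_prop) _ _
        · exact (hc.const_mul _).intervalIntegrable _ _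
        · refine (h.dec _).trans ?_
          rw [mul_assoc, ← mul_inv]
          refine mul_le_mul_of_nonneg_left ?_ hB
          refine inv_anti₀ (by positivity) ?_
          have h1 : s ≤ ‖ξ - R • ev t‖ := by
            have := abs_norm_sub_norm_le ξ (R • ev t)
            rwa [norm_smul_ev hR] at this
          calc (1 + s) ^ 3 * (1 + ‖ξ - R • ev t‖) ^ 2
              ≤ (1 + ‖ξ - R • ev t‖) ^ 3 * (1 + ‖ξ - R • ev t‖) ^ 2 := by gcongr
            _ = (1 + ‖ξ - R • ev t‖) ^ 5 := by ring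
            _ ≤ _ := pow_le_pow_right₀ (by linarith [norm_nonneg (ξ - R • ev t)]) (by norm_num)
    _ = B * ((1 + s) ^ 3)⁻¹ * (R * ∫ φ in (-Real.pi)..Real.pi,
          ((1 + ‖ξ - R • ev φ‖) ^ 2)⁻¹) := by
        rw [intervalIntegral.integral_const_mul]
        ring
    _ ≤ B * ((1 + s) ^ 3)⁻¹ * Real.pi ^ 2 :=
        mul_le_mul_of_nonneg_left (arc_int ξ hR) (by positivity)
    _ = B * Real.pi ^ 2 * ((1 + s) ^ 3)⁻¹ := by ring

lemma polar_mm (hP : T_POLC) {ψ : E 2 → ℂ} {B : ℝ} (h : Psi ψ B) {R : ℝ} (hR : 0 ≤ R)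
    (ξ : E 2) : mm ψ R ξ = ∫ r in (0 : ℝ)..R, m1 ψ r ξ := by
  have h1 := hP.2 ((Metric.closedBall (0 : E 2) R).indicator fun ζ => ψ (ξ - ζ))
    ((psi_int' h ξ).indicator Metric.isClosed_closedBall.measurableSet)
  rw [integral_indicator Metric.isClosed_closedBall.measurableSet] at h1
  unfold mm
  rw [h1, intervalIntegral.integral_of_le hR, ← Ioi_inter_Iic, ← integral_indicator
    measurableSet_Ioi, ← integral_indicator (measurableSet_Ioi.inter measurableSet_Iic)]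
  congr 1
  ext r
  by_cases hr : 0 < r
  · rw [indicator_of_mem (by exact hr)]
    by_cases hr2 : r ≤ R
    · rw [indicator_of_mem (by exact ⟨hr, hr2⟩)]
      unfold m1
      congr 1
      refine intervalIntegral.integral_congr fun θ _ => ?_
      refine indicator_of_mem ?_ _
      rw [mem_closedBall_zero_iff, norm_smul_ev hr.le]
      exact hr2
    · rw [indicator_of_notMem (by
        rintro ⟨-, h3⟩
        exact hr2 h3)]
      have : ∫ θ in (-Real.pi)..Real.pi, (Metric.closedBall (0 : E 2) R).indicator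
          (fun ζ => ψ (ξ - ζ)) (r • ev θ) = 0 := by
        refine (intervalIntegral.integral_congr (g := fun _ => (0 : ℂ)) fun θ _ => ?_).trans
          intervalIntegral.integral_zero
        refine indicator_of_notMem ?_ _
        rw [mem_closedBall_zero_iff, norm_smul_ev hr.le]
        exact hr2
      rw [this, mul_zero]
  · rw [indicator_of_notMem (by exact hr), indicator_of_notMem (by
      rintro ⟨h3, -⟩
      exact hr h3)]

end MM_

open MM_ in
theorem p_MM (h1 : T_POLC) : T_MM := by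
  intro ψ B h
  have hB := B_nonneg h
  refine ⟨fun R hR ξ => polar_mm h1 h hR ξ, ?_, ?_⟩
  · have hce := cont_ev
    have hcp := h.cont
    unfold m1
    refine (Complex.continuous_ofReal.comp continuous_fst).mul ?_
    have hq : Continuous fun q : (ℝ × E 2) × ℝ => ψ (q.1.2 - q.1.1 • ev q.2) := by fun_prop
    exact intervalIntegral.continuous_parametric_intervalIntegral_of_continuous' (μ := volume)
      (f := fun (p : ℝ × E 2) (φ : ℝ) => ψ (p.2 - p.1 • ev φ)) hq _ _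
  · refine ⟨B * (I7 + Real.pi ^ 2) + 1, ?_, fun R ξ hR => ?_⟩
    · have := I7_nonneg
      positivity
    · have hd : 0 ≤ dw 3 R ξ := by unfold dw; positivity
      have h2 := I7_nonneg
      constructor
      · refine (mm_bound h R ξ).trans (mul_le_mul_of_nonneg_right ?_ hd)
        have : 0 ≤ B * Real.pi ^ 2 := by positivity
        nlinarith
      · refine (m1_bound h hR ξ).trans (mul_le_mul_of_nonneg_right ?_ hd)
        have : 0 ≤ B * I7 := by positivity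
        nlinarith

end Pool.Agent.CRL
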