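import Pool.Agent.CRL.Targets2

set_option autoImplicit false

/-!
# MODB: Parseval for the angular modes
-/

namespace Pool.Agent.CRL

open MeasureTheory FourierTransform Set Filter Topology
open scoped ENNReal NNReal
open Pool.Agent.MBS (E ex S Sstar)

namespace MODB_

/-- the `k`-th coefficient of a function on the circle -/
noncomputable def cf (g : ℝ → ℂ) (k : ℤ) : ℂ :=
  ((2 * Real.pi)⁻¹ : ℝ) * ∫ θ in (-Real.pi)..Real.pi, g θ * ci (-(k * θ))

lemma pp : -Real.pi < Real.pi := by linarith [Real.pi_pos]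

lemma norm_ci (t : ℝ) : ‖ci t‖ = 1 := by
  unfold ci
  exact Complex.norm_exp_ofReal_mul_I t

lemma cf_eq (g : ℝ → ℂ) (k : ℤ) : fourierCoeffOn pp g k = cf g k := by
  rw [fourierCoeffOn_eq_integral]
  unfold cf
  have e1 : (1 / (Real.pi - -Real.pi) : ℝ) = (2 * Real.pi)⁻¹ := by
    rw [one_div]
    congr 1
    ring
  rw [e1, Complex.real_smul]
  congr 1
  refine intervalIntegral.integral_congr fun θ _ => ?_
  show fourier (-k) ((θ : ℝ) : AddCircle (Real.pi - -Real.pi)) • g θ = g θ * ci (-(k * θ))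
  rw [fourier_coe_apply, smul_eq_mul, mul_comm]
  congr 1
  unfold ci
  congr 1
  have h : (Real.pi : ℂ) ≠ 0 := by exact_mod_cast Real.pi_ne_zero
  push_cast
  rw [sub_neg_eq_add]
  field_simp
  ring

/-- Parseval -/
lemma parseval (g : ℝ → ℂ) (hg : MemLp g 2 (volume.restrict (Ioc (-Real.pi) Real.pi))) :
    ∑' k : ℤ, ENNReal.ofReal (2 * Real.pi) * ‖cf g k‖ₑ ^ 2 =
      ∫⁻ θ in Ioc (-Real.pi) Real.pi, ‖g θ‖ₑ ^ 2 := by
  have h := hasSum_sq_fourierCoeffOn pp hg
  simp only [cf_eq] at h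
  have hint : Integrable (fun θ => ‖g θ‖ ^ 2) (volume.restrict (Ioc (-Real.pi) Real.pi)) :=
    hg.integrable_norm_pow (by norm_num)
  have e1 : ∫⁻ θ in Ioc (-Real.pi) Real.pi, ‖g θ‖ₑ ^ 2 =
      ENNReal.ofReal (∫ θ in (-Real.pi)..Real.pi, ‖g θ‖ ^ 2) := by
    rw [intervalIntegral.integral_of_le pp.le,
      ofReal_integral_eq_lintegral_ofReal hint (ae_of_all _ fun θ => by positivity)]
    refine lintegral_congr fun θ => ?_
    rw [ENNReal.ofReal_pow (norm_nonneg _), ofReal_norm]
  have e2 : ∑' k : ℤ, ‖cf g k‖ₑ ^ 2 = ENNReal.ofReal (∑' k : ℤ, ‖cf g k‖ ^ 2) := by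
    rw [ENNReal.ofReal_tsum_of_nonneg (fun k => by positivity) h.summable]
    refine tsum_congr fun k => ?_
    rw [ENNReal.ofReal_pow (norm_nonneg _), ofReal_norm]
  rw [ENNReal.tsum_mul_left, e2, h.tsum_eq, e1, ← ENNReal.ofReal_mul (by positivity)]
  congr 1
  rw [smul_eq_mul, ← mul_assoc]
  have h3 : 2 * Real.pi * (Real.pi - -Real.pi)⁻¹ = 1 := by
    have := Real.pi_ne_zero
    field_simp
    ring
  rw [h3, one_mul]

lemma ci_add (s t : ℝ) : ci (s + t) = ci s * ci t := by
  unfold ci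
  rw [← Complex.exp_add]
  congr 1
  push_cast
  ring

lemma continuous_ci : Continuous ci := by
  unfold ci
  fun_prop

/-- orthogonality -/
lemma integral_ci (n : ℤ) : ∫ θ in (-Real.pi)..Real.pi, ci (n * θ) =
    if n = 0 then ((2 * Real.pi : ℝ) : ℂ) else 0 := by
  split_ifs with h
  · subst h
    simp only [Int.cast_zero, zero_mul]
    have e1 : ci 0 = 1 := by simp [ci]
    rw [e1, intervalIntegral.integral_const]
    simp
    ring
  · have hn : ((n : ℂ) * Complex.I) ≠ 0 := by
      apply mul_ne_zero _ Complex.I_ne_zero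
      exact_mod_cast h
    have e1 : ∀ θ : ℝ, ci (n * θ) = Complex.exp (((n : ℂ) * Complex.I) * θ) := by
      intro θ
      unfold ci
      congr 1
      push_cast
      ring
    simp only [e1]
    rw [integral_exp_mul_complex hn]
    have e2 : Complex.exp (((n : ℂ) * Complex.I) * (Real.pi : ℝ)) =
        Complex.exp (((n : ℂ) * Complex.I) * ((-Real.pi : ℝ) : ℂ)) := by
      have e3 : ((n : ℂ) * Complex.I) * (Real.pi : ℝ) =
          ((n : ℂ) * Complex.I) * ((-Real.pi : ℝ) : ℂ) + n * (2 * Real.pi * Complex.I) := by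
        push_cast
        ring
      rw [e3, Complex.exp_add, Complex.exp_int_mul_two_pi_mul_I, mul_one]
    rw [e2, sub_self, zero_div]

lemma cf_poly (F : Finset ℤ) (c : ℤ → ℂ) (k : ℤ) :
    cf (fun θ => ∑ j ∈ F, c j * ci (j * θ)) k = if k ∈ F then c k else 0 := by
  unfold cf
  have e1 : ∀ θ : ℝ, (∑ j ∈ F, c j * ci (j * θ)) * ci (-(k * θ)) =
      ∑ j ∈ F, c j * ci (((j - k : ℤ) : ℝ) * θ) := by
    intro θ
    rw [Finset.sum_mul]
    refine Finset.sum_congr rfl fun j _ => ?_
    rw [mul_assoc, ← ci_add]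
    congr 2
    push_cast
    ring
  simp only [e1]
  rw [intervalIntegral.integral_finsetSum]
  · have e2 : ∀ j ∈ F, ∫ θ in (-Real.pi)..Real.pi, c j * ci (((j - k : ℤ) : ℝ) * θ) =
        if j = k then c k * ((2 * Real.pi : ℝ) : ℂ) else 0 := by
      intro j _
      rw [intervalIntegral.integral_const_mul, integral_ci]
      by_cases h : j = k
      · subst h
        simp
      · have h1 : j - k ≠ 0 := sub_ne_zero.mpr h
        rw [if_neg h1, if_neg h, mul_zero]
    rw [Finset.sum_congr rfl e2, Finset.sum_ite_eq']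
    split_ifs with h
    · have hp : ((2 * Real.pi : ℝ) : ℂ) ≠ 0 := by
        exact_mod_cast (by positivity : (0 : ℝ) < 2 * Real.pi).ne'
      push_cast at hp ⊢
      field_simp
    · rw [mul_zero]
  · intro j _
    apply Continuous.intervalIntegrable
    exact continuous_const.mul (continuous_ci.comp (continuous_const.mul continuous_id))

lemma memLp_poly (F : Finset ℤ) (c : ℤ → ℂ) :
    MemLp (fun θ : ℝ => ∑ j ∈ F, c j * ci (j * θ)) 2
      (volume.restrict (Ioc (-Real.pi) Real.pi)) := by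
  refine MemLp.of_bound ?_ (∑ j ∈ F, ‖c j‖) (ae_of_all _ fun θ => ?_)
  · refine Continuous.aestronglyMeasurable ?_
    exact continuous_finsetSum _ fun j _ =>
      continuous_const.mul (continuous_ci.comp (continuous_const.mul continuous_id))
  · refine (norm_sum_le _ _).trans (Finset.sum_le_sum fun j _ => ?_)
    rw [norm_mul, norm_ci, mul_one]

lemma p2 (F : Finset ℤ) (c : ℤ → ℂ) :
    ∫⁻ θ in Ioc (-Real.pi) Real.pi, ‖∑ j ∈ F, c j * ci (j * θ)‖ₑ ^ 2 =
      ∑ k ∈ F, ENNReal.ofReal (2 * Real.pi) * ‖c k‖ₑ ^ 2 := by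
  rw [← parseval _ (memLp_poly F c)]
  simp only [cf_poly]
  rw [tsum_eq_sum (s := F)]
  · refine Finset.sum_congr rfl fun k hk => ?_
    rw [if_pos hk]
  · intro k hk
    rw [if_neg hk]
    simp

lemma p3 (g : ℝ → ℂ) (hg : MemLp g 2 (volume.restrict (Ioc (-Real.pi) Real.pi)))
    (F : Finset ℤ) :
    (∫⁻ θ in Ioc (-Real.pi) Real.pi, ‖g θ - ∑ j ∈ F, cf g j * ci (j * θ)‖ₑ ^ 2) +
      ∑ k ∈ F, ENNReal.ofReal (2 * Real.pi) * ‖cf g k‖ₑ ^ 2 =
      ∫⁻ θ in Ioc (-Real.pi) Real.pi, ‖g θ‖ₑ ^ 2 := by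
  have hp := memLp_poly F (cf g)
  have h1 : ∀ k, cf (fun θ => g θ - ∑ j ∈ F, cf g j * ci (j * θ)) k =
      if k ∈ F then 0 else cf g k := by
    intro k
    have h2 : cf (fun θ => g θ - ∑ j ∈ F, cf g j * ci (j * θ)) k =
        cf g k - cf (fun θ => ∑ j ∈ F, cf g j * ci (j * θ)) k := by
      unfold cf
      rw [← mul_sub, ← intervalIntegral.integral_sub]
      · congr 1
        refine intervalIntegral.integral_congr fun θ _ => ?_
        show (g θ - _) * _ = g θ * _ - _ * _
        rw [sub_mul]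
      · rw [intervalIntegrable_iff_integrableOn_Ioc_of_le pp.le]
        have hi : IntegrableOn g (Ioc (-Real.pi) Real.pi) := hg.integrable (by norm_num)
        refine Integrable.mul_bdd (c := 1) hi ?_ (ae_of_all _ fun θ => ?_)
        · exact (continuous_ci.comp
            (continuous_const.mul continuous_id).neg).aestronglyMeasurable
        · exact (norm_ci _).le
      · apply Continuous.intervalIntegrable
        refine Continuous.mul ?_ (continuous_ci.comp (continuous_const.mul continuous_id).neg)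
        exact continuous_finsetSum _ fun j _ =>
          continuous_const.mul (continuous_ci.comp (continuous_const.mul continuous_id))
    rw [h2, cf_poly]
    split_ifs with h
    · exact sub_self _
    · exact sub_zero _
  have h3 := parseval _ (hg.sub hp)
  have h4 := parseval g hg
  have h3' : ∑' k : ℤ, (if k ∈ F then 0 else ENNReal.ofReal (2 * Real.pi) * ‖cf g k‖ₑ ^ 2) =
      ∫⁻ θ in Ioc (-Real.pi) Real.pi, ‖g θ - ∑ j ∈ F, cf g j * ci (j * θ)‖ₑ ^ 2 := by
    have e0 : (g - fun θ : ℝ => ∑ j ∈ F, cf g j * ci (j * θ)) =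
        fun θ => g θ - ∑ j ∈ F, cf g j * ci (j * θ) := rfl
    rw [e0] at h3
    rw [← h3]
    refine tsum_congr fun k => ?_
    rw [h1]
    split_ifs
    · simp
    · rfl
  have h5 : ∑ k ∈ F, ENNReal.ofReal (2 * Real.pi) * ‖cf g k‖ₑ ^ 2 =
      ∑' k : ℤ, (if k ∈ F then ENNReal.ofReal (2 * Real.pi) * ‖cf g k‖ₑ ^ 2 else 0) := by
    rw [tsum_eq_sum (s := F)]
    · refine Finset.sum_congr rfl fun k hk => ?_
      rw [if_pos hk]
    · intro k hk
      rw [if_neg hk]
  rw [← h3', h5, ← ENNReal.tsum_add, ← h4]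
  refine tsum_congr fun k => ?_
  split_ifs <;> simp

lemma rot_ev (θ r : ℝ) : rot θ (r • ev 0) = r • ev θ := by
  ext i
  fin_cases i
  · simp [rot, ev, mul_comm]
  · simp [rot, ev, mul_comm]

lemma cont_ev : Continuous ev := by
  unfold ev
  refine (PiLp.continuous_toLp 2 _).comp ?_
  refine continuous_pi fun i => ?_
  fin_cases i
  · exact Real.continuous_cos
  · exact Real.continuous_sin

lemma c_eq (k : ℤ) (f : E 2 → ℂ) (r : ℝ) :
    amode k f (r • ev 0) = cf (fun θ => f (r • ev θ)) k := by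
  unfold amode cf
  simp only [rot_ev]

end MODB_

open MODB_ in
theorem p_MODB (h1 : T_POLC) (h2 : T_MODA) : T_MODB := by
  intro f hf
  have hm : ∀ k, Measurable (amode k f) := fun k => (h2 k f hf).1.meas
  set c : ℤ → ℝ → ℂ := fun k r => amode k f (r • ev 0) with hc
  have hcm : ∀ k, Measurable (c k) := fun k =>
    (hm k).comp ((continuous_id.smul continuous_const).measurable)
  have hval : ∀ k (r θ : ℝ), amode k f (r • ev θ) = c k r * ci (k * θ) := by
    intro k r θ
    rw [← rot_ev, (h2 k f hf).2.1 θ (r • ev 0), mul_comm]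
  have hcc : ∀ k (r : ℝ), c k r = cf (fun θ => f (r • ev θ)) k := fun k r => c_eq k f r
  -- the two variable functions
  have hev : Measurable fun p : ℝ × ℝ => p.1 • ev p.2 :=
    (continuous_fst.smul (cont_ev.comp continuous_snd)).measurable
  have polar : ∀ u : E 2 → ℂ, Measurable u → ∫⁻ x, ‖u x‖ₑ ^ 2 =
      ∫⁻ r in Ioi (0 : ℝ), ENNReal.ofReal r *
        ∫⁻ θ in Ioc (-Real.pi) Real.pi, ‖u (r • ev θ)‖ₑ ^ 2 := by
    intro u hu
    rw [h1.1 (fun x => ‖u x‖ₑ ^ 2) (hu.enorm.pow_const 2)]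
    refine lintegral_congr fun r => ?_
    rw [lintegral_const_mul]
    have : Measurable fun θ : ℝ => u (r • ev θ) :=
      hu.comp (hev.comp measurable_prodMk_left)
    exact this.enorm.pow_const 2
  set H : ℤ → ℝ → ℝ≥0∞ := fun k r =>
    ENNReal.ofReal r * (ENNReal.ofReal (2 * Real.pi) * ‖c k r‖ₑ ^ 2) with hH
  have hHm : ∀ k, Measurable (H k) := fun k =>
    ENNReal.measurable_ofReal.mul (((hcm k).enorm.pow_const 2).const_mul _)
  have hmode : ∀ k, ∫⁻ x, ‖amode k f x‖ₑ ^ 2 = ∫⁻ r in Ioi (0 : ℝ), H k r := by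
    intro k
    rw [polar _ (hm k)]
    refine lintegral_congr fun r => ?_
    simp only [hH]
    congr 1
    have := p2 {k} (fun j => c j r)
    simp only [Finset.sum_singleton] at this
    rw [← this]
    refine lintegral_congr fun θ => ?_
    rw [hval]
  -- a.e. radius
  have hsq : ∀ᵐ r ∂(volume.restrict (Ioi (0 : ℝ))),
      MemLp (fun θ => f (r • ev θ)) 2 (volume.restrict (Ioc (-Real.pi) Real.pi)) := by
    have hfin : ∫⁻ r in Ioi (0 : ℝ), ENNReal.ofReal r *
        ∫⁻ θ in Ioc (-Real.pi) Real.pi, ‖f (r • ev θ)‖ₑ ^ 2 < ∞ := by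
      rw [← polar f hf.meas]
      have h3 := hf.sq.eLpNorm_lt_top
      rw [eLpNorm_lt_top_iff_lintegral_rpow_enorm_lt_top (by norm_num) (by norm_num)] at h3
      simpa using h3
    have hmeas : Measurable fun r : ℝ => ENNReal.ofReal r *
        ∫⁻ θ in Ioc (-Real.pi) Real.pi, ‖f (r • ev θ)‖ₑ ^ 2 := by
      refine ENNReal.measurable_ofReal.mul ?_
      have h4 : Measurable fun p : ℝ × ℝ => ‖f (p.1 • ev p.2)‖ₑ ^ 2 :=
        (hf.meas.comp hev).enorm.pow_const 2
      exact h4.lintegral_prod_right'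
    have h5 := ae_lt_top hmeas hfin.ne
    filter_upwards [h5, ae_restrict_mem measurableSet_Ioi] with r hr hr0
    have hr1 : ENNReal.ofReal r ≠ 0 := by
      rw [Ne, ENNReal.ofReal_eq_zero, not_le]
      exact hr0
    have h6 : ∫⁻ θ in Ioc (-Real.pi) Real.pi, ‖f (r • ev θ)‖ₑ ^ 2 < ∞ := by
      by_contra h7
      rw [not_lt, top_le_iff] at h7
      rw [h7, ENNReal.mul_top hr1] at hr
      exact lt_irrefl _ hr
    have h8 : Measurable fun θ : ℝ => f (r • ev θ) :=
      hf.meas.comp (hev.comp measurable_prodMk_left)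
    refine ⟨h8.aestronglyMeasurable, ?_⟩
    rw [eLpNorm_lt_top_iff_lintegral_rpow_enorm_lt_top (by norm_num) (by norm_num)]
    simpa using h6
  refine ⟨?_, ?_, ?_⟩
  · simp only [hmode]
    rw [← lintegral_tsum (fun k => (hHm k).aemeasurable), polar f hf.meas]
    refine lintegral_congr_ae ?_
    filter_upwards [hsq] with r hr
    rw [← parseval _ hr]
    simp only [hH]
    rw [ENNReal.tsum_mul_left]
    congr 1
    refine tsum_congr fun k => ?_
    rw [hcc]
  · intro F
    simp only [hmode]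
    rw [← lintegral_finsetSum _ (fun k _ => hHm k),
      polar _ (Finset.measurable_sum _ fun k _ => hm k)]
    refine lintegral_congr fun r => ?_
    simp only [hH]
    rw [← Finset.mul_sum, ← p2 F (fun j => c j r)]
    congr 1
    refine lintegral_congr fun θ => ?_
    simp only [hval]
  · intro F
    simp only [hmode]
    rw [← lintegral_finsetSum _ (fun k _ => hHm k),
      polar (fun x => f x - ∑ k ∈ F, amode k f x)
        (hf.meas.sub (Finset.measurable_sum _ fun k _ => hm k)), polar f hf.meas,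
      ← lintegral_add_right _ (Finset.measurable_sum _ fun k _ => hHm k)]
    refine lintegral_congr_ae ?_
    filter_upwards [hsq] with r hr
    rw [← p3 _ hr F]
    simp only [hH]
    rw [← Finset.mul_sum, ← mul_add]
    congr 2
    · refine lintegral_congr fun θ => ?_
      simp only [hval, hcc]
    · refine Finset.sum_congr rfl fun k _ => ?_
      rw [hcc]

end Pool.Agent.CRL
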