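import Pool.Agent.CRL.H47

set_option autoImplicit false

/-!
# CRL: NB, the sum over the blocks of angular frequencies
-/

namespace Pool.Agent.CRL

open MeasureTheory FourierTransform Set Filter Topology
open scoped ENNReal NNReal
open Pool.Agent.MBS (E ex S Sstar)
open Pool.Agent.KSP (IE)
open Pool.Agent.CAR (e1 T_CARL)

namespace NB_

open H47_

/-- the iterated logarithm -/
noncomputable def LL (t : ℝ) : ℝ := Real.log (3 + Real.log (3 + t))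

theorem LL_ge {t : ℝ} (ht : 0 ≤ t) : 1 ≤ LL t :=
  Pool.Agent.KSP.FA2_.log3_ge (le_trans zero_le_one (Pool.Agent.KSP.FA2_.log3_ge ht))

/-- the largest angular frequency of the block `n` -/
noncomputable def Kn (n : ℕ) : ℕ := ⌊Real.exp (Real.exp ((2 : ℝ) ^ (n + 1)) - 3) - 3⌋₊

theorem big (n : ℕ) : 1 ≤ Real.exp (Real.exp ((2 : ℝ) ^ (n + 1)) - 3) - 3 := by
  have h1 : (2 : ℝ) ≤ 2 ^ (n + 1) := by
    have : (1 : ℝ) ≤ 2 ^ n := one_le_pow₀ (by norm_num)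
    rw [pow_succ]; linarith
  have h2 : (7 : ℝ) ≤ Real.exp 2 := by
    have h3 := Real.exp_one_gt_d9
    have h4 : Real.exp 2 = Real.exp 1 * Real.exp 1 := by rw [← Real.exp_add]; norm_num
    rw [h4]
    nlinarith
  have h3 : (7 : ℝ) ≤ Real.exp ((2 : ℝ) ^ (n + 1)) := h2.trans (Real.exp_le_exp.2 h1)
  have h4 := Real.add_one_le_exp (Real.exp ((2 : ℝ) ^ (n + 1)) - 3)
  linarith

theorem one_le_Kn (n : ℕ) : 1 ≤ Kn n := Nat.le_floor (by simpa using big n)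

theorem LL_Kn (n : ℕ) : LL (Kn n) ≤ (2 : ℝ) ^ (n + 1) := by
  have h1 : ((Kn n : ℕ) : ℝ) ≤ Real.exp (Real.exp ((2 : ℝ) ^ (n + 1)) - 3) - 3 :=
    Nat.floor_le (le_trans zero_le_one (big n))
  have h0 : (0 : ℝ) ≤ (Kn n : ℝ) := Nat.cast_nonneg _
  have h2 : Real.log (3 + Kn n) ≤ Real.exp ((2 : ℝ) ^ (n + 1)) - 3 := by
    rw [Real.log_le_iff_le_exp (by linarith)]
    linarith
  have h3 := Pool.Agent.KSP.FA2_.log3_ge h0
  unfold LL
  rw [Real.log_le_iff_le_exp (by linarith)]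
  linarith

theorem le_Kn {n : ℕ} {k : ℤ} (h : LL |(k : ℝ)| < (2 : ℝ) ^ (n + 1)) : |k| ≤ (Kn n : ℤ) := by
  have h0 : (0 : ℝ) ≤ |(k : ℝ)| := abs_nonneg _
  have h3 := Pool.Agent.KSP.FA2_.log3_ge h0
  unfold LL at h
  rw [Real.log_lt_iff_lt_exp (by linarith)] at h
  have h2 : Real.log (3 + |(k : ℝ)|) < Real.exp ((2 : ℝ) ^ (n + 1)) - 3 := by linarith
  rw [Real.log_lt_iff_lt_exp (by linarith)] at h2
  have h4 : ((k.natAbs : ℕ) : ℝ) ≤ Real.exp (Real.exp ((2 : ℝ) ^ (n + 1)) - 3) - 3 := by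
    rw [Nat.cast_natAbs, Int.cast_abs]
    linarith
  have h5 : k.natAbs ≤ Kn n := Nat.le_floor h4
  rw [← Int.natCast_natAbs]
  exact_mod_cast h5

open Classical in
/-- the blocks -/
noncomputable def FF' (n : ℕ) : Finset ℤ :=
  (Finset.Icc (-(Kn n : ℤ)) (Kn n)).filter
    (fun k => (2 : ℝ) ^ n ≤ LL |(k : ℝ)| ∧ LL |(k : ℝ)| < (2 : ℝ) ^ (n + 1))

theorem mem_FF {n : ℕ} {k : ℤ} :
    k ∈ FF' n ↔ (2 : ℝ) ^ n ≤ LL |(k : ℝ)| ∧ LL |(k : ℝ)| < (2 : ℝ) ^ (n + 1) := by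
  unfold FF'
  rw [Finset.mem_filter, Finset.mem_Icc]
  constructor
  · exact fun h => h.2
  · intro h
    have := abs_le.1 (le_Kn h.2)
    exact ⟨this, h⟩

theorem FF_abs {n : ℕ} {k : ℤ} (h : k ∈ FF' n) : |k| ≤ (Kn n : ℤ) := le_Kn (mem_FF.1 h).2

theorem FF_disj {n m : ℕ} (h : n ≠ m) : Disjoint (FF' n) (FF' m) := by
  rw [Finset.disjoint_left]
  intro k h1 h2
  rw [mem_FF] at h1 h2
  rcases lt_or_gt_of_ne h with h3 | h3
  · have : (2 : ℝ) ^ (n + 1) ≤ (2 : ℝ) ^ m := pow_le_pow_right₀ (by norm_num) h3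
    linarith [h1.2, h2.1]
  · have : (2 : ℝ) ^ (m + 1) ≤ (2 : ℝ) ^ n := pow_le_pow_right₀ (by norm_num) h3
    linarith [h2.2, h1.1]

theorem FF_cover (k : ℤ) : ∃ n, k ∈ FF' n := by
  obtain ⟨n, h1, h2⟩ := exists_nat_pow_near (LL_ge (abs_nonneg (k : ℝ)))
    (show (1 : ℝ) < 2 by norm_num)
  exact ⟨n, mem_FF.2 ⟨h1, h2⟩⟩

/-- the union of the first blocks -/
noncomputable def GG (N : ℕ) : Finset ℤ := (Finset.range N).biUnion FF'

theorem GG_sum {M : Type*} [AddCommMonoid M] (g : ℤ → M) (N : ℕ) :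
    ∑ k ∈ GG N, g k = ∑ n ∈ Finset.range N, ∑ k ∈ FF' n, g k := by
  unfold GG
  exact Finset.sum_biUnion fun i _ j _ hij => FF_disj hij

theorem GG_mono : Monotone GG := by
  intro a b hab
  unfold GG
  exact Finset.biUnion_subset_biUnion_of_subset_left _ (Finset.range_mono hab)

theorem GG_tendsto : Tendsto GG atTop atTop := by
  refine Filter.tendsto_atTop_finset_of_monotone GG_mono fun k => ?_
  obtain ⟨n, hn⟩ := FF_cover k
  exact ⟨n + 1, Finset.mem_biUnion.2 ⟨n, Finset.mem_range.2 (by omega), hn⟩⟩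

theorem tsum_FF_le (g : ℤ → ℝ≥0∞) : ∑' n, ∑ k ∈ FF' n, g k ≤ ∑' k, g k := by
  refine ENNReal.tsum_le_of_sum_range_le fun N => ?_
  rw [← GG_sum]
  exact ENNReal.sum_le_tsum _

/-- a trivial bound of the operator -/
theorem S_le {h : E 2 → ℂ} (hh : Nice h) (R : ℝ) (x : E 2) :
    ‖S h R x‖ₑ ≤ (∫⁻ y, ‖h y‖ₑ ^ 2) ^ (1 / 2 : ℝ) *
      volume (Metric.closedBall (0 : E 2) R) ^ (1 / 2 : ℝ) := by
  have h1 : ‖S h R x‖ₑ ≤ ∫⁻ ξ in Metric.closedBall (0 : E 2) R, ‖𝓕 h ξ‖ₑ := by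
    unfold S
    refine (enorm_integral_le_lintegral_enorm _).trans (le_of_eq ?_)
    refine lintegral_congr fun ξ => ?_
    rw [enorm_mul]
    have : ‖ex x ξ‖ₑ = 1 := by
      rw [← ofReal_norm, Pool.Agent.MBS.ex_norm, ENNReal.ofReal_one]
    rw [this, mul_one]
  refine h1.trans ((cs_set (F_cont hh).measurable.enorm _).trans ?_)
  refine mul_le_mul_left (ENNReal.rpow_le_rpow ?_ (by norm_num)) _
  rw [← Pool.Agent.KSP.FA2_.plancherel hh.int hh.sq]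
  exact setLIntegral_le_lintegral _ _

theorem sq_ne_top {f : E 2 → ℂ} (hf : Nice f) : ∫⁻ x, ‖f x‖ₑ ^ 2 ≠ ⊤ := by
  have h := lintegral_rpow_enorm_lt_top_of_eLpNorm_lt_top (p := 2) (by norm_num) (by norm_num)
    hf.sq.2
  simpa using h.ne

/-- the block of `f` -/
noncomputable def PP (f : E 2 → ℂ) (n : ℕ) (x : E 2) : ℂ := ∑ k ∈ FF' n, amode k f x

theorem PP_nice (hMODA : T_MODA) {f : E 2 → ℂ} (hf : Nice f) (n : ℕ) : Nice (PP f n) :=
  nice_sum (FF' n) (fun k => amode k f) fun k _ => (hMODA k f hf).1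

/-- pointwise subadditivity -/
theorem sub_pt (hMODA : T_MODA) (hMODB : T_MODB) {f : E 2 → ℂ} (hf : Nice f) (x : E 2) :
    Sstar f x ≤ ∑' n, Sstar (PP f n) x := by
  refine iSup_le fun R => iSup_le fun hR => ?_
  have hP := PP_nice hMODA hf
  have hG : ∀ N, Nice (fun y => ∑ k ∈ GG N, amode k f y) := fun N =>
    nice_sum (GG N) (fun k => amode k f) fun k _ => (hMODA k f hf).1
  set rest : ℕ → ℝ≥0∞ := fun N => ∫⁻ y, ‖f y - ∑ k ∈ GG N, amode k f y‖ₑ ^ 2 with hrest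
  have h1 : ∀ N, ‖S f R x‖ₑ ≤ ∑' n, Sstar (PP f n) x +
      rest N ^ (1 / 2 : ℝ) * volume (Metric.closedBall (0 : E 2) R) ^ (1 / 2 : ℝ) := by
    intro N
    have hr : Nice (fun y => f y - ∑ k ∈ GG N, amode k f y) := nice_sub hf (hG N)
    have e1 : S f R x = ∑ n ∈ Finset.range N, S (PP f n) R x +
        S (fun y => f y - ∑ k ∈ GG N, amode k f y) R x := by
      have h2 := S_add (hG N) hr R x
      have h3 : (fun y => ∑ k ∈ GG N, amode k f y +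
          (f y - ∑ k ∈ GG N, amode k f y)) = f := by
        funext y
        ring
      rw [h3] at h2
      rw [h2]
      congr 1
      have h4 : (fun y => ∑ k ∈ GG N, amode k f y) =
          fun y => ∑ n ∈ Finset.range N, PP f n y := by
        funext y
        rw [GG_sum]
        rfl
      rw [h4]
      exact S_sum _ _ (fun n _ => hP n) R x
    rw [e1]
    refine (enorm_add_le _ _).trans (add_le_add ?_ (S_le hr R x))
    refine (enorm_sum_le _ _).trans ?_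
    refine (Finset.sum_le_sum fun n _ => enorm_le_Sstar hR x).trans ?_
    exact ENNReal.sum_le_tsum _
  have hm : Tendsto rest atTop (𝓝 0) := by
    set T : ℝ≥0∞ := ∫⁻ y, ‖f y‖ₑ ^ 2 with hT
    have hTt : T ≠ ⊤ := sq_ne_top hf
    obtain ⟨m1, -, m3⟩ := hMODB f hf
    have g1 : Tendsto (fun N => ∑ k ∈ GG N, ∫⁻ y, ‖amode k f y‖ₑ ^ 2) atTop (𝓝 T) := by
      have g2 := (ENNReal.summable (f := fun k : ℤ => ∫⁻ y, ‖amode k f y‖ₑ ^ 2)).hasSum
      rw [m1] at g2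
      exact g2.comp GG_tendsto
    have g3 : ∀ N, rest N = T - ∑ k ∈ GG N, ∫⁻ y, ‖amode k f y‖ₑ ^ 2 := by
      intro N
      refine ENNReal.eq_sub_of_add_eq ?_ (m3 (GG N))
      refine ne_top_of_le_ne_top hTt ?_
      rw [hT, ← m3 (GG N)]
      exact le_add_self
    have g4 : rest = fun N => T - ∑ k ∈ GG N, ∫⁻ y, ‖amode k f y‖ₑ ^ 2 := funext g3
    rw [g4]
    have g5 := ENNReal.Tendsto.sub (tendsto_const_nhds (x := T) (f := atTop)) g1 (Or.inl hTt)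
    simpa using g5
  have hlim : Tendsto (fun N => ∑' n, Sstar (PP f n) x +
      rest N ^ (1 / 2 : ℝ) * volume (Metric.closedBall (0 : E 2) R) ^ (1 / 2 : ℝ)) atTop
      (𝓝 (∑' n, Sstar (PP f n) x + 0 ^ (1 / 2 : ℝ) *
        volume (Metric.closedBall (0 : E 2) R) ^ (1 / 2 : ℝ))) := by
    refine tendsto_const_nhds.add (ENNReal.Tendsto.mul_const
      (((ENNReal.continuous_rpow_const (y := (1 / 2 : ℝ))).tendsto 0).comp hm) (Or.inr ?_))
    exact ENNReal.rpow_ne_top_of_nonneg (by norm_num) measure_closedBall_lt_top.ne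
  have h5 := ge_of_tendsto' hlim h1
  rw [ENNReal.zero_rpow_of_pos (by norm_num), zero_mul, add_zero] at h5
  exact h5

/-- the two weights of Cauchy–Schwarz -/
noncomputable def uu (n : ℕ) : ℝ≥0∞ := ENNReal.ofReal (64 / Real.sqrt ((2 : ℝ) ^ n))

noncomputable def vv (n : ℕ) : ℝ≥0∞ := ENNReal.ofReal (((2 : ℝ) ^ n) ^ 6 * Real.sqrt ((2 : ℝ) ^ n))

theorem uv (n : ℕ) : ENNReal.ofReal (LL (Kn n) ^ 6) ≤ uu n * vv n := by
  unfold uu vv
  rw [← ENNReal.ofReal_mul (by positivity)]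
  refine ENNReal.ofReal_le_ofReal ?_
  have h0 : 0 ≤ LL (Kn n) := le_trans zero_le_one (LL_ge (Nat.cast_nonneg _))
  have hs : 0 < Real.sqrt ((2 : ℝ) ^ n) := Real.sqrt_pos.2 (by positivity)
  have e1 : 64 / Real.sqrt ((2 : ℝ) ^ n) * (((2 : ℝ) ^ n) ^ 6 * Real.sqrt ((2 : ℝ) ^ n)) =
      ((2 : ℝ) ^ (n + 1)) ^ 6 := by
    field_simp
    ring
  rw [e1]
  exact pow_le_pow_left₀ h0 (LL_Kn n) 6

theorem uu_sum : ∑' n, uu n ^ 2 ≠ ⊤ := by
  have e1 : ∀ n, uu n ^ 2 = ENNReal.ofReal (4096 * (1 / 2 : ℝ) ^ n) := by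
    intro n
    unfold uu
    rw [← ENNReal.ofReal_pow (by positivity), div_pow, Real.sq_sqrt (by positivity)]
    congr 1
    rw [one_div, inv_pow, div_eq_mul_inv]
    norm_num
  simp only [e1]
  have h1 : Summable (fun n : ℕ => 4096 * (1 / 2 : ℝ) ^ n) :=
    (summable_geometric_of_lt_one (by norm_num) (by norm_num)).mul_left _
  exact h1.tsum_ofReal_ne_top

theorem vv_sq (n : ℕ) : vv n ^ 2 = ENNReal.ofReal (((2 : ℝ) ^ n) ^ 13) := by
  unfold vv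
  rw [← ENNReal.ofReal_pow (by positivity), mul_pow, Real.sq_sqrt (by positivity)]
  congr 1
  ring

end NB_

open NB_ H47_ in
/-- NB -/
theorem p_NB (hND : T_ND) (hMODA : T_MODA) (hMODB : T_MODB) (hANG : T_ANG) : T_NB := by
  intro hC hL
  obtain ⟨C1, h1⟩ := hND hC hL
  set K : ℝ≥0∞ := C1 * (∑' n, uu n ^ 2) ^ (1 / 2 : ℝ) with hK
  have hKt : K ≠ ⊤ := ENNReal.mul_ne_top ENNReal.coe_ne_top
    (ENNReal.rpow_ne_top_of_nonneg (by norm_num) uu_sum)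
  refine ⟨K.toNNReal, ?_⟩
  intro f A hf hA hA2
  rw [ENNReal.coe_toNNReal hKt]
  have hP := PP_nice hMODA hf
  set q : ℕ → ℝ≥0∞ := fun n => (∫⁻ x, ‖PP f n x‖ₑ ^ 2) ^ (1 / 2 : ℝ) with hq
  set v : ℝ≥0∞ := volume A ^ (1 / 2 : ℝ) with hv
  have hone : ∀ n, ∫⁻ x in A, Sstar (PP f n) x ≤ C1 * v * (uu n * (vv n * q n)) := by
    intro n
    obtain ⟨c, hc⟩ := hANG f (Kn n) (FF' n) hf fun k hk => FF_abs hk
    have g1 := h1 (Kn n) (PP f n) c A (one_le_Kn n) (hP n) hc hA hA2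
    refine g1.trans ?_
    have g2 : ENNReal.ofReal (Real.log (3 + Real.log (3 + (Kn n : ℝ))) ^ 6) ≤ uu n * vv n := uv n
    calc C1 * ENNReal.ofReal (Real.log (3 + Real.log (3 + (Kn n : ℝ))) ^ 6) * q n * v
        ≤ C1 * (uu n * vv n) * q n * v := by gcongr
      _ = C1 * v * (uu n * (vv n * q n)) := by ring
  have hNN : ∑' n, (vv n * q n) ^ 2 ≤ NN f := by
    have g1 : ∀ n, (vv n * q n) ^ 2 ≤
        ∑ k ∈ FF' n, ENNReal.ofReal (wk k) * ∫⁻ x, ‖amode k f x‖ₑ ^ 2 := by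
      intro n
      have g2 : q n ^ 2 = ∑ k ∈ FF' n, ∫⁻ x, ‖amode k f x‖ₑ ^ 2 := by
        simp only [hq, half_sq]
        exact (hMODB f hf).2.1 (FF' n)
      rw [mul_pow, vv_sq, g2, Finset.mul_sum]
      refine Finset.sum_le_sum fun k hk => mul_le_mul_left (ENNReal.ofReal_le_ofReal ?_) _
      exact pow_le_pow_left₀ (by positivity) (mem_FF.1 hk).1 13
    exact (ENNReal.tsum_le_tsum g1).trans (tsum_FF_le _)
  calc ∫⁻ x in A, Sstar f x ≤ ∫⁻ x in A, ∑' n, Sstar (PP f n) x :=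
        lintegral_mono fun x => sub_pt hMODA hMODB hf x
    _ = ∑' n, ∫⁻ x in A, Sstar (PP f n) x :=
        lintegral_tsum fun n => (Sstar_meas (hP n)).aemeasurable
    _ ≤ ∑' n, C1 * v * (uu n * (vv n * q n)) := ENNReal.tsum_le_tsum hone
    _ = C1 * v * ∑' n, uu n * (vv n * q n) := ENNReal.tsum_mul_left
    _ ≤ C1 * v * ((∑' n, uu n ^ 2) ^ (1 / 2 : ℝ) * (∑' n, (vv n * q n) ^ 2) ^ (1 / 2 : ℝ)) :=
        mul_le_mul_right (cs_tsum _ _) _
    _ ≤ C1 * v * ((∑' n, uu n ^ 2) ^ (1 / 2 : ℝ) * NN f ^ (1 / 2 : ℝ)) :=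
        mul_le_mul_right (mul_le_mul_right (ENNReal.rpow_le_rpow hNN (by norm_num)) _) _
    _ = K * NN f ^ (1 / 2 : ℝ) * v := by rw [hK]; ring

end Pool.Agent.CRL
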