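import Pool.Agent.CRL.Targets2
import Pool.Agent.MBS.J8

set_option autoImplicit false

/-!
# CRL, target NBJ: the dyadic shells, by scaling
-/

namespace Pool.Agent.CRL

open MeasureTheory FourierTransform Set Filter Topology
open scoped ENNReal NNReal
open Pool.Agent.MBS (E ex S Sstar)

namespace NBJ_

/-- the dilated function -/
def ds (c : ℝ) (f : E 2 → ℂ) (y : E 2) : ℂ := f (c • y)

theorem nice {c : ℝ} (hc : 0 < c) {f : E 2 → ℂ} (hf : Nice f) : Nice (ds c f) := by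
  have h1 : Measurable (ds c f) := hf.meas.comp (measurable_const_smul c)
  refine ⟨h1, hf.int.comp_smul hc.ne', ?_⟩
  rw [memLp_two_iff_integrable_sq_norm h1.aestronglyMeasurable]
  have h2 := (memLp_two_iff_integrable_sq_norm hf.meas.aestronglyMeasurable).1 hf.sq
  exact h2.comp_smul hc.ne'

theorem fourier {c : ℝ} (hc : 0 < c) (f : E 2 → ℂ) (ξ : E 2) :
    𝓕 (ds c f) ξ = ((c⁻¹) ^ 2 : ℝ) • 𝓕 f (c⁻¹ • ξ) := by
  have h1 := Pool.Agent.MBS.J8.fourier_dil (inv_pos.2 hc) f ξ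
  have h2 : Pool.Agent.MBS.dil c⁻¹ f = ds c f := by
    funext x
    unfold Pool.Agent.MBS.dil ds
    rw [inv_inv]
  rw [h2] at h1
  exact h1

theorem ex_scale {c : ℝ} (hc : 0 < c) (x ξ : E 2) : ex (c • x) (c⁻¹ • ξ) = ex x ξ := by
  unfold ex
  rw [real_inner_smul_left, real_inner_smul_right, mul_inv_cancel_left₀ hc.ne']

theorem S_scale {c : ℝ} (hc : 0 < c) (f : E 2 → ℂ) (R : ℝ) (x : E 2) :
    S (ds c f) R x = S f (R / c) (c • x) := by
  unfold S
  rw [← integral_indicator Metric.isClosed_closedBall.measurableSet,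
    ← integral_indicator Metric.isClosed_closedBall.measurableSet]
  set G : E 2 → ℂ := (Metric.closedBall (0 : E 2) (R / c)).indicator
    (fun η => 𝓕 f η * ex (c • x) η) with hG
  have h1 := Measure.integral_comp_inv_smul_of_nonneg (volume : Measure (E 2)) G hc.le
  rw [finrank_euclideanSpace_fin] at h1
  have h2 : ∀ ξ : E 2, (Metric.closedBall (0 : E 2) R).indicator
      (fun ξ => 𝓕 (ds c f) ξ * ex x ξ) ξ = ((c⁻¹) ^ 2 : ℝ) • G (c⁻¹ • ξ) := by
    intro ξ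
    have h3 : c⁻¹ • ξ ∈ Metric.closedBall (0 : E 2) (R / c) ↔
        ξ ∈ Metric.closedBall (0 : E 2) R := by
      rw [mem_closedBall_zero_iff, mem_closedBall_zero_iff, norm_smul,
        Real.norm_of_nonneg (inv_pos.2 hc).le, ← div_eq_inv_mul]
      exact div_le_div_iff_of_pos_right hc
    by_cases h4 : ξ ∈ Metric.closedBall (0 : E 2) R
    · rw [indicator_of_mem h4, hG, indicator_of_mem (h3.2 h4), fourier hc, ex_scale hc,
        smul_mul_assoc]
    · rw [indicator_of_notMem h4, hG, indicator_of_notMem (fun h => h4 (h3.1 h)), smul_zero]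
  rw [integral_congr_ae (Filter.Eventually.of_forall h2), integral_smul, h1, smul_smul]
  have h5 : (c⁻¹) ^ 2 * c ^ 2 = 1 := by
    rw [← mul_pow, inv_mul_cancel₀ hc.ne', one_pow]
  rw [h5, one_smul]

theorem Sstar_scale {c : ℝ} (hc : 0 < c) (f : E 2 → ℂ) (x : E 2) :
    Sstar (ds c f) x = Sstar f (c • x) := by
  unfold Sstar
  apply le_antisymm
  · refine iSup₂_le fun R hR => ?_
    rw [S_scale hc]
    exact le_iSup₂_of_le (R / c) (div_pos hR hc) le_rfl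
  · refine iSup₂_le fun R hR => ?_
    refine le_iSup₂_of_le (R * c) (mul_pos hR hc) ?_
    rw [S_scale hc, mul_div_cancel_right₀ _ hc.ne']

theorem rot_smul (c θ : ℝ) (x : E 2) : rot θ (c • x) = c • rot θ x := by
  ext i
  fin_cases i <;> simp [rot] <;> ring

theorem amode_scale (c : ℝ) (k : ℤ) (f : E 2 → ℂ) (x : E 2) :
    amode k (ds c f) x = amode k f (c • x) := by
  unfold amode ds
  simp only [rot_smul]

theorem NN_scale {c : ℝ} (hc : 0 < c) (f : E 2 → ℂ) :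
    NN (ds c f) = ENNReal.ofReal ((c ^ 2)⁻¹) * NN f := by
  unfold NN
  rw [← ENNReal.tsum_mul_left]
  refine tsum_congr fun k => ?_
  have h1 := Pool.Agent.MBS.J8.lint_smul hc (fun x : E 2 => ‖amode k f x‖ₑ ^ 2)
  simp only [amode_scale]
  rw [h1]
  ring

end NBJ_

open NBJ_ in
theorem p_NBJ (h1 : T_NB) : T_NBJ := by
  intro hC hL
  obtain ⟨C, hCC⟩ := h1 hC hL
  refine ⟨C, fun j f A hf hA hAj => ?_⟩
  set c : ℝ := (2 : ℝ) ^ j with hc
  have hc0 : 0 < c := by positivity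
  set B : Set (E 2) := (fun x : E 2 => c • x) ⁻¹' A with hB
  have hBm : MeasurableSet B := measurable_const_smul c hA
  have hB1 : ∀ x ∈ B, 1 ≤ ‖x‖ ∧ ‖x‖ ≤ 2 := by
    intro x hx
    have h2 : c • x ∈ sh j := hAj hx
    obtain ⟨h3, h4⟩ := h2
    rw [norm_smul, Real.norm_of_nonneg hc0.le, ← hc] at h3
    rw [norm_smul, Real.norm_of_nonneg hc0.le, zpow_add₀ two_ne_zero, zpow_one, ← hc] at h4
    constructor
    · by_contra h5
      nlinarith [not_le.1 h5]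
    · by_contra h5
      nlinarith [not_le.1 h5]
  have h2 := hCC (ds c f) B (nice hc0 hf) hBm hB1
  have h3 : ∫⁻ x in B, Sstar (ds c f) x =
      ENNReal.ofReal ((c ^ 2)⁻¹) * ∫⁻ x in A, Sstar f x := by
    simp only [Sstar_scale hc0]
    exact Pool.Agent.MBS.J8.setLint_smul hc0 (fun x => Sstar f x) B A hBm hA
      (fun x => Iff.rfl)
  have h4 : volume B = ENNReal.ofReal ((c ^ 2)⁻¹) * volume A := by
    have h5 := Pool.Agent.MBS.J8.setLint_smul (n := 2) hc0 (fun _ => 1) B A hBm hA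
      (fun x => Iff.rfl)
    simpa using h5
  rw [h3, NN_scale hc0, h4] at h2
  set κ : ℝ≥0∞ := ENNReal.ofReal ((c ^ 2)⁻¹) with hκ
  have hκ0 : κ ≠ 0 := by
    rw [hκ, Ne, ENNReal.ofReal_eq_zero, not_le]
    positivity
  have hκt : κ ≠ ⊤ := ENNReal.ofReal_ne_top
  have h6 : κ ^ (1 / 2 : ℝ) * κ ^ (1 / 2 : ℝ) = κ := by
    rw [← ENNReal.rpow_add _ _ hκ0 hκt]
    norm_num
  rw [ENNReal.mul_rpow_of_nonneg _ _ (by norm_num), ENNReal.mul_rpow_of_nonneg _ _ (by norm_num)]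
    at h2
  have h7 : (C : ℝ≥0∞) * (κ ^ (1 / 2 : ℝ) * NN f ^ (1 / 2 : ℝ)) *
      (κ ^ (1 / 2 : ℝ) * volume A ^ (1 / 2 : ℝ)) =
      κ * (C * NN f ^ (1 / 2 : ℝ) * volume A ^ (1 / 2 : ℝ)) := by
    calc (C : ℝ≥0∞) * (κ ^ (1 / 2 : ℝ) * NN f ^ (1 / 2 : ℝ)) *
        (κ ^ (1 / 2 : ℝ) * volume A ^ (1 / 2 : ℝ))
        = (κ ^ (1 / 2 : ℝ) * κ ^ (1 / 2 : ℝ)) *
          (C * NN f ^ (1 / 2 : ℝ) * volume A ^ (1 / 2 : ℝ)) := by ring
      _ = _ := by rw [h6]
  rw [h7] at h2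
  exact (ENNReal.mul_le_mul_iff_right hκ0 hκt).1 h2

end Pool.Agent.CRL
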