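import Pool.Agent.CRL.Targets3
import Pool.Agent.CRL.P_NBJ

set_option autoImplicit false

/-!
# CRL, target NBJS: the dyadic shells, strong form, by scaling
-/

namespace Pool.Agent.CRL

open MeasureTheory FourierTransform Set Filter Topology
open scoped ENNReal NNReal
open Pool.Agent.MBS (E ex S Sstar)

open NBJ_ in
theorem p_NBJS (h1 : T_NBS) : T_NBJS := by
  intro hC hL
  obtain ⟨C, hCC⟩ := h1 hC hL
  refine ⟨C, fun j f hf => ?_⟩
  set c : ℝ := (2 : ℝ) ^ j with hc
  have hc0 : 0 < c := by positivity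
  have hA : MeasurableSet (sh j) :=
    (measurableSet_le measurable_const measurable_norm).inter
      (measurableSet_lt measurable_norm measurable_const)
  set B : Set (E 2) := (fun x : E 2 => c • x) ⁻¹' sh j with hB
  have hBm : MeasurableSet B := measurable_const_smul c hA
  have hB1 : B ⊆ {x : E 2 | 1 ≤ ‖x‖ ∧ ‖x‖ ≤ 2} := by
    intro x hx
    obtain ⟨h3, h4⟩ : c • x ∈ sh j := hx
    rw [norm_smul, Real.norm_of_nonneg hc0.le, ← hc] at h3
    rw [norm_smul, Real.norm_of_nonneg hc0.le, zpow_add₀ two_ne_zero, zpow_one, ← hc] at h4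
    constructor
    · by_contra h5
      nlinarith [not_le.1 h5]
    · by_contra h5
      nlinarith [not_le.1 h5]
  have h2 : ∫⁻ x in B, Sstar (ds c f) x ^ 2 ≤ C * NN (ds c f) :=
    (lintegral_mono_set hB1).trans (hCC (ds c f) (nice hc0 hf))
  have h3 : ∫⁻ x in B, Sstar (ds c f) x ^ 2 =
      ENNReal.ofReal ((c ^ 2)⁻¹) * ∫⁻ x in sh j, Sstar f x ^ 2 := by
    simp only [Sstar_scale hc0]
    exact Pool.Agent.MBS.J8.setLint_smul hc0 (fun x => Sstar f x ^ 2) B (sh j) hBm hA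
      (fun x => Iff.rfl)
  rw [h3, NN_scale hc0] at h2
  set κ : ℝ≥0∞ := ENNReal.ofReal ((c ^ 2)⁻¹) with hκ
  have hκ0 : κ ≠ 0 := by
    rw [hκ, Ne, ENNReal.ofReal_eq_zero, not_le]
    positivity
  have hκt : κ ≠ ⊤ := ENNReal.ofReal_ne_top
  have h7 : (C : ℝ≥0∞) * (κ * NN f) = κ * (C * NN f) := by ring
  rw [h7] at h2
  exact (ENNReal.mul_le_mul_iff_right hκ0 hκt).1 h2

end Pool.Agent.CRL
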