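import Pool.Agent.CRL.Targets2

set_option autoImplicit false

/-!
# CRL: auxiliary facts for the assembly (GLB, NB)
-/

namespace Pool.Agent.CRL.H47_

open MeasureTheory FourierTransform Set Filter Topology
open scoped ENNReal NNReal
open Pool.Agent.MBS (E ex S Sstar)
open Pool.Agent.KSP (IE)

/-! ### the operator -/

theorem F_cont {f : E 2 → ℂ} (hf : Nice f) : Continuous (𝓕 f) :=
  VectorFourier.fourierIntegral_continuous Real.continuous_fourierChar
    (by exact continuous_inner) hf.int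

theorem F_onBall {f : E 2 → ℂ} (hf : Nice f) (R : ℝ) :
    IntegrableOn (𝓕 f) (Metric.closedBall (0 : E 2) R) :=
  (F_cont hf).continuousOn.integrableOn_compact (isCompact_closedBall _ _)

theorem S_cont {f : E 2 → ℂ} (hf : Nice f) (R : ℝ) : Continuous (fun x => S f R x) :=
  Pool.Agent.KSP.FA2_.BI_cont (g := 𝓕 f) (F_onBall hf R)

theorem Sstar_meas {f : E 2 → ℂ} (hf : Nice f) : Measurable (Sstar f) := by
  refine LowerSemicontinuous.measurable ?_
  refine lowerSemicontinuous_iSup fun R => lowerSemicontinuous_iSup fun _ => ?_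
  exact (S_cont hf R).enorm.lowerSemicontinuous

theorem nice_zero : Nice (fun _ : E 2 => (0 : ℂ)) :=
  ⟨measurable_const, integrable_zero _ _ _, MemLp.zero'⟩

theorem nice_add {f g : E 2 → ℂ} (hf : Nice f) (hg : Nice g) : Nice (fun x => f x + g x) :=
  ⟨hf.meas.add hg.meas, hf.int.add hg.int, hf.sq.add hg.sq⟩

theorem nice_sub {f g : E 2 → ℂ} (hf : Nice f) (hg : Nice g) : Nice (fun x => f x - g x) :=
  ⟨hf.meas.sub hg.meas, hf.int.sub hg.int, hf.sq.sub hg.sq⟩

theorem nice_sum {ι : Type*} (F : Finset ι) (f : ι → E 2 → ℂ) (hf : ∀ i ∈ F, Nice (f i)) :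
    Nice (fun x => ∑ i ∈ F, f i x) := by
  classical
  induction F using Finset.induction_on with
  | empty =>
    simp only [Finset.sum_empty]
    exact nice_zero
  | insert a F ha ih =>
    have h1 := ih fun i hi => hf i (Finset.mem_insert_of_mem hi)
    have h2 := nice_add (hf a (Finset.mem_insert_self a F)) h1
    simpa only [Finset.sum_insert ha] using h2

theorem nice_ind {f : E 2 → ℂ} (hf : Nice f) {s : Set (E 2)} (hs : MeasurableSet s) :
    Nice (s.indicator f) :=
  ⟨hf.meas.indicator hs, hf.int.indicator hs, hf.sq.indicator hs⟩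

theorem S_add {f g : E 2 → ℂ} (hf : Nice f) (hg : Nice g) (R : ℝ) (x : E 2) :
    S (fun x => f x + g x) R x = S f R x + S g R x := by
  unfold S
  rw [← integral_add (Pool.Agent.KSP.FA2_.intEx (F_onBall hf R) x)
    (Pool.Agent.KSP.FA2_.intEx (F_onBall hg R) x)]
  refine setIntegral_congr_fun measurableSet_closedBall fun ξ _ => ?_
  have h1 : 𝓕 (fun x => f x + g x) ξ = 𝓕 f ξ + 𝓕 g ξ := by
    have h2 := VectorFourier.fourierIntegral_add (μ := (volume : Measure (E 2)))
      (L := innerₗ (E 2)) Real.continuous_fourierChar (by exact continuous_inner) hf.int hg.int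
    exact congrFun h2 ξ
  simp only [h1]
  ring

theorem S_zero (R : ℝ) (x : E 2) : S (fun _ : E 2 => (0 : ℂ)) R x = 0 := by
  have h := S_add nice_zero nice_zero R x
  simpa using h

theorem S_sum {ι : Type*} (F : Finset ι) (f : ι → E 2 → ℂ) (hf : ∀ i ∈ F, Nice (f i)) (R : ℝ)
    (x : E 2) : S (fun x => ∑ i ∈ F, f i x) R x = ∑ i ∈ F, S (f i) R x := by
  classical
  induction F using Finset.induction_on with
  | empty =>
    simp only [Finset.sum_empty]
    exact S_zero R x
  | insert a F ha ih =>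
    have h1 := ih fun i hi => hf i (Finset.mem_insert_of_mem hi)
    have h2 := S_add (hf a (Finset.mem_insert_self a F))
      (nice_sum F f fun i hi => hf i (Finset.mem_insert_of_mem hi)) R x
    simp only [Finset.sum_insert ha]
    rw [h2, h1]

theorem enorm_le_Sstar {f : E 2 → ℂ} {R : ℝ} (hR : 0 < R) (x : E 2) :
    ‖S f R x‖ₑ ≤ Sstar f x :=
  le_iSup_of_le R (le_iSup_of_le hR (le_refl _))

/-! ### Cauchy–Schwarz -/

theorem cs_lint {α : Type*} [MeasurableSpace α] (μ : Measure α) {f g : α → ℝ≥0∞}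
    (hf : AEMeasurable f μ) (hg : AEMeasurable g μ) :
    ∫⁻ a, f a * g a ∂μ ≤ (∫⁻ a, f a ^ 2 ∂μ) ^ (1 / 2 : ℝ) * (∫⁻ a, g a ^ 2 ∂μ) ^ (1 / 2 : ℝ) := by
  have h := ENNReal.lintegral_mul_le_Lp_mul_Lq μ Real.HolderConjugate.two_two hf hg
  simp only [ENNReal.rpow_two] at h
  exact h

theorem cs_tsum {ι : Type*} (f g : ι → ℝ≥0∞) :
    ∑' i, f i * g i ≤ (∑' i, f i ^ 2) ^ (1 / 2 : ℝ) * (∑' i, g i ^ 2) ^ (1 / 2 : ℝ) := by
  let _ : MeasurableSpace ι := ⊤
  have hf : AEMeasurable f Measure.count := Measurable.aemeasurable measurable_from_top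
  have hg : AEMeasurable g Measure.count := Measurable.aemeasurable measurable_from_top
  have h := cs_lint Measure.count hf hg
  have _ : MeasurableSingletonClass ι := ⟨fun _ => trivial⟩
  rw [lintegral_count, lintegral_count, lintegral_count] at h
  exact h

theorem sq_half (x : ℝ≥0∞) : (x ^ 2) ^ (1 / 2 : ℝ) = x := by
  rw [← ENNReal.rpow_natCast, ← ENNReal.rpow_mul]
  norm_num

theorem half_sq (x : ℝ≥0∞) : (x ^ (1 / 2 : ℝ)) ^ 2 = x := by
  rw [← ENNReal.rpow_natCast, ← ENNReal.rpow_mul]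
  norm_num

/-- Cauchy–Schwarz on a set -/
theorem cs_set {f : E 2 → ℝ≥0∞} (hf : Measurable f) (A : Set (E 2)) :
    ∫⁻ x in A, f x ≤ (∫⁻ x in A, f x ^ 2) ^ (1 / 2 : ℝ) * volume A ^ (1 / 2 : ℝ) := by
  have h := cs_lint (volume.restrict A) hf.aemeasurable
    (measurable_const (a := (1 : ℝ≥0∞))).aemeasurable
  simpa using h

end Pool.Agent.CRL.H47_
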