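import Pool.Agent.CRL.Targets3
import Pool.Agent.CRL.H47

set_option autoImplicit false

/-!
# CRL-NBS: sum over the blocks of angular frequencies, strong form
-/

namespace Pool.Agent.CRL

open MeasureTheory FourierTransform Set Filter Topology
open scoped ENNReal NNReal
open Pool.Agent.MBS (E ex S Sstar)
open Pool.Agent.KSP (IE)

namespace NBS_

open H47_

/-! ### blocks -/

def kk (n : ℕ) : ℕ := 2 ^ (2 ^ (2 ^ n))

noncomputable def AA (n : ℕ) : Finset ℤ := Finset.Icc (-(kk n : ℤ)) (kk n)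

noncomputable def BB : ℕ → Finset ℤ
  | 0 => AA 0
  | n + 1 => AA (n + 1) \ AA n

theorem kk_mono : Monotone kk := by
  intro a b h
  unfold kk
  exact Nat.pow_le_pow_right (by norm_num) (Nat.pow_le_pow_right (by norm_num)
    (Nat.pow_le_pow_right (by norm_num) h))

theorem one_le_kk (n : ℕ) : 1 ≤ kk n := Nat.one_le_two_pow

theorem mem_AA {n : ℕ} {k : ℤ} : k ∈ AA n ↔ |k| ≤ kk n := by
  unfold AA; rw [Finset.mem_Icc, abs_le]

theorem AA_mono : Monotone AA := by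
  intro a b h k hk
  rw [mem_AA] at hk ⊢
  exact hk.trans (by exact_mod_cast kk_mono h)

theorem BB_sub (n : ℕ) : BB n ⊆ AA n := by
  cases n with
  | zero => exact subset_rfl
  | succ n => exact Finset.sdiff_subset

theorem BB_uniq {m n : ℕ} {k : ℤ} (hm : k ∈ BB m) (hn : k ∈ BB n) : m = n := by
  wlog h : m < n with H
  · rcases lt_trichotomy m n with h1 | h1 | h1
    · exact absurd h1 h
    · exact h1
    · exact (H hn hm h1).symm
  obtain ⟨j, rfl⟩ : ∃ j, n = j + 1 := ⟨n - 1, by omega⟩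
  have h1 : k ∉ AA j := (Finset.mem_sdiff.1 hn).2
  exact absurd (AA_mono (by omega : m ≤ j) (BB_sub m hm)) h1

theorem sum_AA {M : Type*} [AddCommMonoid M] (a : ℤ → M) (n : ℕ) :
    ∑ k ∈ AA (n + 1), a k = (∑ k ∈ AA n, a k) + ∑ k ∈ BB (n + 1), a k := by
  have h := Finset.sum_sdiff (f := a) (AA_mono (Nat.le_succ n))
  rw [add_comm] at h
  exact h.symm

/-! ### numbers -/

theorem up (n : ℕ) : Real.log (3 + Real.log (3 + (kk n : ℝ))) ≤ 3 * 2 ^ n := by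
  have hl2 : Real.log 2 ≤ 1 := by linarith [Real.log_two_lt_d9]
  have hl0 : 0 < Real.log 2 := Real.log_pos (by norm_num)
  set m : ℕ := 2 ^ n with hm
  have hm1 : 1 ≤ m := Nat.one_le_two_pow
  have hm1' : (1 : ℝ) ≤ m := by exact_mod_cast hm1
  set y : ℕ := 2 ^ m with hy
  have hy2 : 2 ≤ y := by
    calc 2 = 2 ^ 1 := by norm_num
      _ ≤ 2 ^ m := Nat.pow_le_pow_right (by norm_num) hm1
  have hy2' : (2 : ℝ) ≤ y := by exact_mod_cast hy2
  have hk4 : 4 ≤ kk n := by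
    unfold kk
    calc 4 = 2 ^ 2 := by norm_num
      _ ≤ 2 ^ y := Nat.pow_le_pow_right (by norm_num) hy2
  have hk4' : (4 : ℝ) ≤ kk n := by exact_mod_cast hk4
  have hkl : Real.log (kk n : ℝ) = y * Real.log 2 := by
    have : (kk n : ℝ) = (2 : ℝ) ^ y := by unfold kk; push_cast; rfl
    rw [this, Real.log_pow]
  have h1 : Real.log (3 + (kk n : ℝ)) ≤ 1 + y := by
    calc Real.log (3 + (kk n : ℝ)) ≤ Real.log (2 * kk n) :=
          Real.log_le_log (by positivity) (by linarith)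
      _ = Real.log 2 + y * Real.log 2 := by
          rw [Real.log_mul (by norm_num) (by positivity), hkl]
      _ ≤ 1 + y := by nlinarith
  have h2 : 0 ≤ Real.log (3 + (kk n : ℝ)) := Real.log_nonneg (by linarith)
  have hyl : Real.log (y : ℝ) = m * Real.log 2 := by
    have : (y : ℝ) = (2 : ℝ) ^ m := by rw [hy]; push_cast; rfl
    rw [this, Real.log_pow]
  calc Real.log (3 + Real.log (3 + (kk n : ℝ))) ≤ Real.log (4 * y) :=
        Real.log_le_log (by linarith) (by linarith)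
    _ = Real.log 4 + m * Real.log 2 := by
        rw [Real.log_mul (by norm_num) (by positivity), hyl]
    _ = (m + 2) * Real.log 2 := by
        rw [show (4 : ℝ) = 2 ^ 2 by norm_num, Real.log_pow]; push_cast; ring
    _ ≤ 3 * m := by nlinarith
    _ = 3 * 2 ^ n := by rw [hm]; push_cast; rfl

theorem lo (n : ℕ) {k : ℤ} (hk : (kk n : ℤ) < |k|) :
    (2 : ℝ) ^ (n + 1) / 8 ≤ Real.log (3 + Real.log (3 + |(k : ℝ)|)) := by
  have hl2 : 1 / 2 ≤ Real.log 2 := by linarith [Real.log_two_gt_d9]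
  set m : ℕ := 2 ^ n with hm
  have hm1 : 1 ≤ m := Nat.one_le_two_pow
  have hm1' : (1 : ℝ) ≤ m := by exact_mod_cast hm1
  set y : ℕ := 2 ^ m with hy
  have hy1 : 1 ≤ y := Nat.one_le_two_pow
  have hy1' : (1 : ℝ) ≤ y := by exact_mod_cast hy1
  have hk' : (kk n : ℝ) < |(k : ℝ)| := by exact_mod_cast hk
  have hk0 : (1 : ℝ) ≤ kk n := by exact_mod_cast one_le_kk n
  have hkl : Real.log (kk n : ℝ) = y * Real.log 2 := by
    have : (kk n : ℝ) = (2 : ℝ) ^ y := by unfold kk; push_cast; rfl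
    rw [this, Real.log_pow]
  have h1 : (y : ℝ) / 2 ≤ Real.log (3 + |(k : ℝ)|) := by
    calc (y : ℝ) / 2 ≤ y * Real.log 2 := by nlinarith
      _ = Real.log (kk n : ℝ) := hkl.symm
      _ ≤ Real.log (3 + |(k : ℝ)|) := Real.log_le_log (by linarith) (by linarith)
  have hyl : Real.log (y : ℝ) = m * Real.log 2 := by
    have : (y : ℝ) = (2 : ℝ) ^ m := by rw [hy]; push_cast; rfl
    rw [this, Real.log_pow]
  have h2 : (m : ℝ) / 2 ≤ 2 * Real.log (3 + (y : ℝ) / 2) := by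
    have h3 : Real.log ((3 + (y : ℝ) / 2) ^ 2) = 2 * Real.log (3 + (y : ℝ) / 2) := by
      rw [Real.log_pow]; push_cast; ring
    rw [← h3]
    calc (m : ℝ) / 2 ≤ m * Real.log 2 := by nlinarith
      _ = Real.log (y : ℝ) := hyl.symm
      _ ≤ _ := Real.log_le_log (by linarith) (by nlinarith)
  have h4 : Real.log (3 + (y : ℝ) / 2) ≤ Real.log (3 + Real.log (3 + |(k : ℝ)|)) :=
    Real.log_le_log (by positivity) (by linarith)
  have h5 : (2 : ℝ) ^ (n + 1) = 2 * m := by rw [hm]; push_cast; ring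
  rw [h5]
  linarith

theorem weight {n : ℕ} {k : ℤ} (hk : k ∈ BB n) :
    (2 : ℝ) ^ n * Real.log (3 + Real.log (3 + (kk n : ℝ))) ^ 12 ≤ (3 ^ 12 * 8 ^ 13) * wk k := by
  have h0 : 0 ≤ Real.log (3 + Real.log (3 + (kk n : ℝ))) := by
    have h1 := Pool.Agent.KSP.FA2_.log3_ge (Nat.cast_nonneg (α := ℝ) (kk n))
    have := Pool.Agent.KSP.FA2_.log3_ge (le_trans zero_le_one h1)
    linarith
  have h1 : (2 : ℝ) ^ n * Real.log (3 + Real.log (3 + (kk n : ℝ))) ^ 12 ≤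
      3 ^ 12 * ((2 : ℝ) ^ n) ^ 13 := by
    calc (2 : ℝ) ^ n * Real.log (3 + Real.log (3 + (kk n : ℝ))) ^ 12
        ≤ (2 : ℝ) ^ n * (3 * 2 ^ n) ^ 12 :=
          mul_le_mul_of_nonneg_left (pow_le_pow_left₀ h0 (up n) 12) (by positivity)
      _ = _ := by ring
  refine h1.trans ?_
  have h2 : (2 : ℝ) ^ n / 8 ≤ Real.log (3 + Real.log (3 + |(k : ℝ)|)) := by
    cases n with
    | zero =>
      have h3 := Pool.Agent.KSP.FA2_.log3_ge (abs_nonneg (k : ℝ))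
      have h4 := Pool.Agent.KSP.FA2_.log3_ge (le_trans zero_le_one h3)
      norm_num
      linarith
    | succ n =>
      refine lo n ?_
      have h3 : k ∉ AA n := (Finset.mem_sdiff.1 hk).2
      rw [mem_AA, not_le] at h3
      exact h3
  have h5 : ((2 : ℝ) ^ n / 8) ^ 13 ≤ wk k := by
    unfold wk
    exact pow_le_pow_left₀ (by positivity) h2 13
  calc 3 ^ 12 * ((2 : ℝ) ^ n) ^ 13 = (3 ^ 12 * 8 ^ 13) * ((2 : ℝ) ^ n / 8) ^ 13 := by ring
    _ ≤ _ := mul_le_mul_of_nonneg_left h5 (by positivity)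

/-! ### pointwise subadditivity -/

noncomputable def PP (f : E 2 → ℂ) (n : ℕ) (x : E 2) : ℂ := ∑ k ∈ BB n, amode k f x

noncomputable def QQ (f : E 2 → ℂ) (n : ℕ) (x : E 2) : ℂ := ∑ k ∈ AA n, amode k f x

theorem norm_ex (x ξ : E 2) : ‖ex x ξ‖ = 1 := by
  unfold ex
  rw [show (2 * (Real.pi : ℂ) * Complex.I * ((inner ℝ x ξ : ℝ) : ℂ)) =
    ((2 * Real.pi * inner ℝ x ξ : ℝ) : ℂ) * Complex.I by push_cast; ring]
  exact Complex.norm_exp_ofReal_mul_I _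

theorem S_le {h : E 2 → ℂ} (hh : Nice h) (R : ℝ) (x : E 2) :
    ‖S h R x‖ₑ ≤ (∫⁻ x, ‖h x‖ₑ ^ 2) ^ (1 / 2 : ℝ) *
      volume (Metric.closedBall (0 : E 2) R) ^ (1 / 2 : ℝ) := by
  have h1 : Measurable (fun ξ => ‖𝓕 h ξ‖ₑ) := (F_cont hh).enorm.measurable
  calc ‖S h R x‖ₑ ≤ ∫⁻ ξ in Metric.closedBall (0 : E 2) R, ‖𝓕 h ξ * ex x ξ‖ₑ :=
        enorm_integral_le_lintegral_enorm _
    _ = ∫⁻ ξ in Metric.closedBall (0 : E 2) R, ‖𝓕 h ξ‖ₑ := by
        refine lintegral_congr fun ξ => ?_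
        rw [enorm_mul, ← ofReal_norm (ex x ξ), norm_ex, ENNReal.ofReal_one, mul_one]
    _ ≤ (∫⁻ ξ in Metric.closedBall (0 : E 2) R, ‖𝓕 h ξ‖ₑ ^ 2) ^ (1 / 2 : ℝ) *
        volume (Metric.closedBall (0 : E 2) R) ^ (1 / 2 : ℝ) := cs_set h1 _
    _ ≤ _ := by
        refine mul_le_mul_left (ENNReal.rpow_le_rpow ?_ (by norm_num)) _
        rw [← Pool.Agent.KSP.FA2_.plancherel hh.int hh.sq]
        exact setLIntegral_le_lintegral _ _

section point

variable {f : E 2 → ℂ} (hf : Nice f) (hN : ∀ k, Nice (amode k f))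

include hN in
theorem nice_PP (n : ℕ) : Nice (PP f n) := nice_sum (BB n) (fun k => amode k f) fun k _ => hN k

include hN in
theorem nice_QQ (n : ℕ) : Nice (QQ f n) := nice_sum (AA n) (fun k => amode k f) fun k _ => hN k

include hN in
theorem S_QQ (n : ℕ) {R : ℝ} (hR : 0 < R) (x : E 2) :
    ‖S (QQ f n) R x‖ₑ ≤ ∑ i ∈ Finset.range (n + 1), Sstar (PP f i) x := by
  induction n with
  | zero =>
    simp only [zero_add, Finset.range_one, Finset.sum_singleton]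
    exact enorm_le_Sstar hR x
  | succ n ih =>
    have h1 : QQ f (n + 1) = fun x => QQ f n x + PP f (n + 1) x := by
      funext x
      exact sum_AA (fun k => amode k f x) n
    rw [h1, S_add (nice_QQ hN n) (nice_PP hN (n + 1)), Finset.sum_range_succ]
    exact (enorm_add_le _ _).trans (add_le_add ih (enorm_le_Sstar hR x))

include hf in
theorem tail_zero (hB : T_MODB) :
    Tendsto (fun n => ∫⁻ x, ‖f x - QQ f n x‖ₑ ^ 2) atTop (𝓝 0) := by
  obtain ⟨h1, -, h3⟩ := hB f hf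
  set T : ℝ≥0∞ := ∫⁻ x, ‖f x‖ₑ ^ 2 with hT
  have hTf : T ≠ ⊤ := by
    rw [hT, Pool.Agent.KSP.FA2_.int_sq hf.sq]; exact ENNReal.ofReal_ne_top
  have hAA : Tendsto AA atTop atTop := by
    refine tendsto_atTop_finset_of_monotone AA_mono fun k => ⟨k.natAbs, ?_⟩
    rw [mem_AA]
    have h4 : k.natAbs ≤ kk k.natAbs := by
      unfold kk
      have q : ∀ j : ℕ, j ≤ 2 ^ j := fun j => Nat.lt_two_pow_self.le
      exact (q _).trans ((q _).trans (q _))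
    have h5 : |k| = (k.natAbs : ℤ) := (Int.natCast_natAbs k).symm
    rw [h5]
    exact_mod_cast h4
  have h4 : Tendsto (fun n => ∑ k ∈ AA n, ∫⁻ x, ‖amode k f x‖ₑ ^ 2) atTop (𝓝 T) := by
    rw [← h1]
    exact (ENNReal.summable.hasSum.comp hAA)
  have h5 : ∀ n, ∫⁻ x, ‖f x - QQ f n x‖ₑ ^ 2 =
      T - ∑ k ∈ AA n, ∫⁻ x, ‖amode k f x‖ₑ ^ 2 := by
    intro n
    have h6 := h3 (AA n)
    have h7 : ∑ k ∈ AA n, ∫⁻ x, ‖amode k f x‖ₑ ^ 2 ≠ ⊤ :=
      ne_top_of_le_ne_top hTf (by rw [← h6]; exact le_add_self)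
    exact ENNReal.eq_sub_of_add_eq h7 h6
  simp_rw [h5]
  have h8 := ENNReal.Tendsto.sub (tendsto_const_nhds (x := T)) h4 (Or.inl hTf)
  rwa [tsub_self] at h8

include hf hN in
theorem Sstar_le (hB : T_MODB) (x : E 2) : Sstar f x ≤ ∑' n, Sstar (PP f n) x := by
  refine iSup_le fun R => iSup_le fun hR => ?_
  set V : ℝ≥0∞ := volume (Metric.closedBall (0 : E 2) R) ^ (1 / 2 : ℝ) with hV
  have hVf : V ≠ ⊤ :=
    ENNReal.rpow_ne_top_of_nonneg (by norm_num) measure_closedBall_lt_top.ne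
  have h1 : ∀ n, ‖S f R x‖ₑ ≤ (∑' n, Sstar (PP f n) x) +
      (∫⁻ x, ‖f x - QQ f n x‖ₑ ^ 2) ^ (1 / 2 : ℝ) * V := by
    intro n
    have h2 := S_add (nice_QQ hN n) (nice_sub hf (nice_QQ hN n)) R x
    have h3 : (fun x => QQ f n x + (f x - QQ f n x)) = f := by funext x; ring
    rw [h3] at h2
    rw [h2]
    refine (enorm_add_le _ _).trans (add_le_add ?_ (S_le (nice_sub hf (nice_QQ hN n)) R x))
    exact (S_QQ hN n hR x).trans (ENNReal.sum_le_tsum _)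
  have h2 : Tendsto (fun n => (∑' n, Sstar (PP f n) x) +
      (∫⁻ x, ‖f x - QQ f n x‖ₑ ^ 2) ^ (1 / 2 : ℝ) * V) atTop
      (𝓝 ((∑' n, Sstar (PP f n) x) + 0)) := by
    refine tendsto_const_nhds.add ?_
    have h3 := (ENNReal.continuous_rpow_const (y := (1 / 2 : ℝ))).tendsto 0 |>.comp
      (tail_zero hf hB)
    rw [ENNReal.zero_rpow_of_pos (by norm_num)] at h3
    have h4 := ENNReal.Tendsto.mul_const h3 (Or.inr hVf)
    rwa [zero_mul] at h4
  rw [add_zero] at h2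
  exact ge_of_tendsto' h2 h1

end point

/-- `(Σ a_n)² ≤ 2 Σ 2^n a_n²` -/
theorem sq_tsum (a : ℕ → ℝ≥0∞) : (∑' n, a n) ^ 2 ≤ 2 * ∑' n, 2 ^ n * a n ^ 2 := by
  set c : ℝ≥0∞ := (2⁻¹ : ℝ≥0∞) ^ (1 / 2 : ℝ) with hc
  set d : ℝ≥0∞ := (2 : ℝ≥0∞) ^ (1 / 2 : ℝ) with hd
  have hcd : c * d = 1 := by
    rw [hc, hd, ← ENNReal.mul_rpow_of_nonneg _ _ (by norm_num),
      ENNReal.inv_mul_cancel (by norm_num) (by norm_num), ENNReal.one_rpow]
  have hc2 : c ^ 2 = 2⁻¹ := half_sq _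
  have hd2 : d ^ 2 = 2 := half_sq _
  have h1 : ∀ n, a n = c ^ n * (d ^ n * a n) := fun n => by
    rw [← mul_assoc, ← mul_pow, hcd, one_pow, one_mul]
  have h2 := cs_tsum (fun n => c ^ n) (fun n => d ^ n * a n)
  simp only [← h1] at h2
  have h3 : ∑' n : ℕ, (c ^ n) ^ 2 = 2 := by
    have : ∀ n : ℕ, (c ^ n) ^ 2 = (2⁻¹ : ℝ≥0∞) ^ n := fun n => by
      rw [← pow_mul, mul_comm, pow_mul, hc2]
    simp_rw [this]
    rw [ENNReal.tsum_geometric, ENNReal.one_sub_inv_two, inv_inv]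
  have h4 : ∀ n : ℕ, (d ^ n * a n) ^ 2 = 2 ^ n * a n ^ 2 := fun n => by
    rw [mul_pow, ← pow_mul, mul_comm n 2, pow_mul, hd2]
  simp only [h3, h4] at h2
  calc (∑' n, a n) ^ 2 ≤ ((2 : ℝ≥0∞) ^ (1 / 2 : ℝ) *
        (∑' n, 2 ^ n * a n ^ 2) ^ (1 / 2 : ℝ)) ^ 2 := pow_le_pow_left' h2 2
    _ = _ := by rw [mul_pow, half_sq, half_sq]

/-- each frequency lies in at most one block -/
theorem sum_blocks (a : ℤ → ℝ≥0∞) : ∑' n, ∑ k ∈ BB n, a k ≤ ∑' k, a k := by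
  classical
  have h1 : ∀ n, ∑ k ∈ BB n, a k = ∑' k, if k ∈ BB n then a k else 0 := by
    intro n
    rw [tsum_eq_sum (s := BB n) fun k hk => if_neg hk]
    exact Finset.sum_congr rfl fun k hk => (if_pos hk).symm
  simp_rw [h1]
  rw [ENNReal.tsum_comm]
  refine ENNReal.tsum_le_tsum fun k => ?_
  by_cases h : ∃ n, k ∈ BB n
  · obtain ⟨n, hn⟩ := h
    rw [tsum_eq_single n fun m hm => if_neg fun h => hm (BB_uniq h hn)]
    rw [if_pos hn]
  · push Not at h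
    simp [h]

theorem main (h1 : T_NDS) (h2 : T_MODA) (h3 : T_MODB) (h4 : T_ANG) : T_NBS := by
  intro hC hL
  obtain ⟨C, hN⟩ := h1 hC hL
  refine ⟨2 * C * (3 ^ 12 * 8 ^ 13), fun f hf => ?_⟩
  have hn : ∀ k, Nice (amode k f) := fun k => (h2 k f hf).1
  have hblock : ∀ n, (2 : ℝ≥0∞) ^ n * ∫⁻ x in {x : E 2 | 1 ≤ ‖x‖ ∧ ‖x‖ ≤ 2}, Sstar (PP f n) x ^ 2 ≤
      C * (3 ^ 12 * 8 ^ 13) *
        ∑ k ∈ BB n, ENNReal.ofReal (wk k) * ∫⁻ x, ‖amode k f x‖ₑ ^ 2 := by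
    intro n
    obtain ⟨c, hc⟩ := h4 f (kk n) (BB n) hf fun k hk => mem_AA.1 (BB_sub n hk)
    have q1 := hN (kk n) (PP f n) c (one_le_kk n) (nice_PP hn n) hc
    have q2 : ∫⁻ x, ‖PP f n x‖ₑ ^ 2 = ∑ k ∈ BB n, ∫⁻ x, ‖amode k f x‖ₑ ^ 2 :=
      (h3 f hf).2.1 (BB n)
    rw [q2] at q1
    calc (2 : ℝ≥0∞) ^ n * ∫⁻ x in {x : E 2 | 1 ≤ ‖x‖ ∧ ‖x‖ ≤ 2}, Sstar (PP f n) x ^ 2
        ≤ (2 : ℝ≥0∞) ^ n * (C * ENNReal.ofReal (Real.log (3 + Real.log (3 + kk n)) ^ 12) *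
          ∑ k ∈ BB n, ∫⁻ x, ‖amode k f x‖ₑ ^ 2) := mul_le_mul_right q1 _
      _ = C * ∑ k ∈ BB n, ENNReal.ofReal ((2 : ℝ) ^ n *
          Real.log (3 + Real.log (3 + kk n)) ^ 12) * ∫⁻ x, ‖amode k f x‖ₑ ^ 2 := by
          have q4 : ENNReal.ofReal ((2 : ℝ) ^ n) = 2 ^ n := by
            rw [ENNReal.ofReal_pow (by norm_num), ENNReal.ofReal_ofNat]
          rw [← Finset.mul_sum, ENNReal.ofReal_mul (by positivity), q4]
          ring
      _ ≤ C * ∑ k ∈ BB n, ENNReal.ofReal ((3 ^ 12 * 8 ^ 13) * wk k) *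
          ∫⁻ x, ‖amode k f x‖ₑ ^ 2 := by
          refine mul_le_mul_right (Finset.sum_le_sum fun k hk => ?_) _
          exact mul_le_mul_left (ENNReal.ofReal_le_ofReal (weight hk)) _
      _ = _ := by
          have q3 : ∀ k, ENNReal.ofReal ((3 ^ 12 * 8 ^ 13) * wk k) =
              (3 ^ 12 * 8 ^ 13) * ENNReal.ofReal (wk k) := fun k => by
            rw [ENNReal.ofReal_mul (by positivity)]
            congr 1
            norm_num
          simp_rw [q3]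
          rw [mul_assoc (C : ℝ≥0∞)]
          congr 1
          rw [Finset.mul_sum]
          exact Finset.sum_congr rfl fun k _ => by ring
  calc ∫⁻ x in {x : E 2 | 1 ≤ ‖x‖ ∧ ‖x‖ ≤ 2}, Sstar f x ^ 2
      ≤ ∫⁻ x in {x : E 2 | 1 ≤ ‖x‖ ∧ ‖x‖ ≤ 2}, 2 * ∑' n, 2 ^ n * Sstar (PP f n) x ^ 2 := by
        refine lintegral_mono fun x => ?_
        exact (pow_le_pow_left' (Sstar_le hf hn h3 x) 2).trans (sq_tsum _)
    _ = 2 * ∑' n, (2 : ℝ≥0∞) ^ n *
        ∫⁻ x in {x : E 2 | 1 ≤ ‖x‖ ∧ ‖x‖ ≤ 2}, Sstar (PP f n) x ^ 2 := by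
        rw [lintegral_const_mul' _ _ (by norm_num), lintegral_tsum fun n =>
          (((Sstar_meas (nice_PP hn n)).pow_const 2).const_mul _).aemeasurable]
        congr 1
        refine tsum_congr fun n => ?_
        exact lintegral_const_mul' _ _ (ENNReal.pow_ne_top (by norm_num))
    _ ≤ 2 * ∑' n, C * (3 ^ 12 * 8 ^ 13) *
        ∑ k ∈ BB n, ENNReal.ofReal (wk k) * ∫⁻ x, ‖amode k f x‖ₑ ^ 2 :=
        mul_le_mul_right (ENNReal.tsum_le_tsum hblock) _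
    _ ≤ 2 * (C * (3 ^ 12 * 8 ^ 13) * NN f) := by
        rw [ENNReal.tsum_mul_left]
        refine mul_le_mul_right (mul_le_mul_right ?_ _) _
        exact sum_blocks _
    _ = _ := by push_cast; ring

end NBS_

theorem p_NBS (h1 : T_NDS) (h2 : T_MODA) (h3 : T_MODB) (h4 : T_ANG) : T_NBS :=
  NBS_.main h1 h2 h3 h4

end Pool.Agent.CRL
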