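import Pool.Agent.CRL.Targets2

set_option autoImplicit false

/-!
# CRL: weak type (target WT)
-/

namespace Pool.Agent.CRL

open MeasureTheory FourierTransform Set Filter Topology
open scoped ENNReal NNReal
open Pool.Agent.MBS (E ex S Sstar ex_norm ex_continuous)

namespace WT_

lemma fourier_cont {g : E 2 → ℂ} (hg : Integrable g) : Continuous (𝓕 g) :=
  VectorFourier.fourierIntegral_continuous Real.continuous_fourierChar
    (by simp only [innerₗ_apply_apply]; fun_prop) hg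

lemma S_cont {f : E 2 → ℂ} (hf : Integrable f) (R : ℝ) : Continuous (S f R) := by
  have hF := fourier_cont hf
  refine continuous_of_dominated (F := fun x ξ => 𝓕 f ξ * ex x ξ) (bound := fun ξ => ‖𝓕 f ξ‖)
    (fun x => ?_) (fun x => ae_of_all _ fun ξ => ?_) ?_ (ae_of_all _ fun ξ => ?_)
  · exact (hF.mul (ex_continuous.comp (continuous_const.prodMk continuous_id))).aestronglyMeasurable
  · rw [norm_mul, ex_norm, mul_one]
  · exact hF.norm.continuousOn.integrableOn_compact (isCompact_closedBall _ _)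
  · exact continuous_const.mul (ex_continuous.comp (continuous_id.prodMk continuous_const))

lemma Sstar_meas {f : E 2 → ℂ} (hf : Integrable f) : Measurable (Sstar f) := by
  unfold Sstar
  refine LowerSemicontinuous.measurable ?_
  refine lowerSemicontinuous_iSup fun R => lowerSemicontinuous_iSup fun _ => ?_
  exact (S_cont hf R).enorm.lowerSemicontinuous

/-- The arithmetic. -/
lemma arith (C : ℝ≥0) (N l V : ℝ≥0∞) (hl : 0 < l) (hl' : l ≠ ⊤) (hV : V ≠ ⊤)
    (h : l * V ≤ C * N ^ (1 / 2 : ℝ) * V ^ (1 / 2 : ℝ)) :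
    V ≤ ((C ^ 2 : ℝ≥0) : ℝ≥0∞) * N / l ^ 2 := by
  rcases eq_or_ne V 0 with h0 | h0
  · rw [h0]; exact zero_le
  have hs : ∀ x : ℝ≥0∞, (x ^ (1 / 2 : ℝ)) ^ 2 = x := fun x => by
    rw [← ENNReal.rpow_natCast, ← ENNReal.rpow_mul]
    norm_num
  have hV0 : V ^ (1 / 2 : ℝ) ≠ 0 := by
    intro h1
    have := hs V
    rw [h1] at this
    exact h0 (by rw [← this]; norm_num)
  have hV1 : V ^ (1 / 2 : ℝ) ≠ ⊤ := ENNReal.rpow_ne_top_of_nonneg (by norm_num) hV
  have h1 : l * V ^ (1 / 2 : ℝ) ≤ C * N ^ (1 / 2 : ℝ) := by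
    rw [← ENNReal.mul_le_mul_iff_left hV0 hV1]
    calc l * V ^ (1 / 2 : ℝ) * V ^ (1 / 2 : ℝ) = l * (V ^ (1 / 2 : ℝ)) ^ 2 := by ring
      _ = l * V := by rw [hs]
      _ ≤ _ := h
  have h2 : (l * V ^ (1 / 2 : ℝ)) ^ 2 ≤ (C * N ^ (1 / 2 : ℝ)) ^ 2 := pow_le_pow_left' h1 2
  rw [mul_pow, mul_pow, hs, hs] at h2
  have hl2 : l ^ 2 ≠ 0 := pow_ne_zero 2 hl.ne'
  have hl3 : l ^ 2 ≠ ⊤ := ENNReal.pow_ne_top hl'
  rw [ENNReal.le_div_iff_mul_le (Or.inl hl2) (Or.inl hl3), mul_comm V]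
  calc l ^ 2 * V ≤ (C : ℝ≥0∞) ^ 2 * N := h2
    _ = ((C ^ 2 : ℝ≥0) : ℝ≥0∞) * N := by rw [ENNReal.coe_pow]

end WT_

open WT_ in
/-- WT. -/
theorem p_WT (h1 : T_GLB) : T_WT := by
  intro hC hL
  obtain ⟨C, hG⟩ := h1 hC hL
  refine ⟨C ^ 2, fun f l hf hl => ?_⟩
  rcases eq_or_ne l ⊤ with hl' | hl'
  · have : {x | l < Sstar f x} = ∅ := by
      ext x
      simp [hl']
    rw [this, measure_empty]
    exact zero_le
  have hm : MeasurableSet {x | l < Sstar f x} :=
    measurableSet_lt measurable_const (Sstar_meas hf.int)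
  set A : ℕ → Set (E 2) := fun n => {x | l < Sstar f x} ∩ Metric.ball (0 : E 2) n with hA
  have hAm : ∀ n, MeasurableSet (A n) := fun n => hm.inter Metric.isOpen_ball.measurableSet
  have hAf : ∀ n, volume (A n) ≠ ⊤ := fun n =>
    ((measure_mono inter_subset_right).trans_lt measure_ball_lt_top).ne
  have hU : {x | l < Sstar f x} = ⋃ n, A n := by
    rw [hA, ← inter_iUnion, Metric.iUnion_ball_nat, inter_univ]
  have hmono : Monotone A := fun m n hmn =>
    inter_subset_inter_right _ (Metric.ball_subset_ball (by exact_mod_cast hmn))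
  rw [hU, hmono.measure_iUnion]
  refine iSup_le fun n => arith C (NN f) l (volume (A n)) hl hl' (hAf n) ?_
  calc l * volume (A n) = ∫⁻ _ in A n, l := by rw [setLIntegral_const]
    _ ≤ ∫⁻ x in A n, Sstar f x := setLIntegral_mono' (hAm n) fun x hx => le_of_lt hx.1
    _ ≤ _ := hG f (A n) hf (hAm n) (hAf n)

end Pool.Agent.CRL

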