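import Pool.Agent.CRL.Targets2
import Pool.Agent.CRL.P_WT

set_option autoImplicit false

/-!
# CRL: functions of bounded angular degree on the unit shell (target ND)
-/

namespace Pool.Agent.CRL

open MeasureTheory FourierTransform Set Filter Topology
open scoped ENNReal NNReal
open Pool.Agent.MBS (E ex S Sstar ex_norm ex_continuous)
open Pool.Agent.CAR (T_CARL)

namespace ND_

lemma plancherel {f : E 2 → ℂ} (h1 : Integrable f) (h2 : MemLp f 2) :
    ∫⁻ ξ, ‖𝓕 f ξ‖ₑ ^ 2 = ∫⁻ x, ‖f x‖ₑ ^ 2 := by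
  have h := Pool.Agent.H25.Plancherel.eLpNorm_fourier_eq h1 h2
  rw [eLpNorm_eq_lintegral_rpow_enorm_toReal (by norm_num) (by norm_num),
    eLpNorm_eq_lintegral_rpow_enorm_toReal (by norm_num) (by norm_num)] at h
  simp only [ENNReal.toReal_ofNat, ENNReal.rpow_ofNat] at h
  exact ENNReal.rpow_left_injective (by norm_num) h

/-- The low frequency part. -/
noncomputable def lo (B : ℝ) (F : E 2 → ℂ) : E 2 → ℂ := (Metric.closedBall (0 : E 2) B).indicator F

lemma F_int {F : E 2 → ℂ} (hF : Continuous F) (x : E 2) (R : ℝ) :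
    IntegrableOn (fun ξ => F ξ * ex x ξ) (Metric.closedBall (0 : E 2) R) :=
  (hF.mul (ex_continuous.comp (continuous_const.prodMk continuous_id))).continuousOn
    |>.integrableOn_compact (isCompact_closedBall _ _)

lemma lo_eq {F : E 2 → ℂ} {B R : ℝ} (h : R ≤ B) (x : E 2) :
    ∫ ξ in Metric.closedBall (0 : E 2) R, F ξ * ex x ξ =
      ∫ ξ in Metric.closedBall (0 : E 2) R, lo B F ξ * ex x ξ := by
  refine setIntegral_congr_fun measurableSet_closedBall fun ξ hξ => ?_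
  simp only [lo]
  rw [indicator_of_mem (Metric.closedBall_subset_closedBall h hξ)]

lemma split {F : E 2 → ℂ} (hF : Continuous F) {B R : ℝ} (h : B < R) (x : E 2) :
    ∫ ξ in Metric.closedBall (0 : E 2) R, F ξ * ex x ξ =
      (∫ ξ in Metric.closedBall (0 : E 2) B, F ξ * ex x ξ) +
      ∫ ξ in Metric.closedBall (0 : E 2) R \ Metric.closedBall 0 B, F ξ * ex x ξ := by
  have hu : Metric.closedBall (0 : E 2) R =
      Metric.closedBall 0 B ∪ (Metric.closedBall (0 : E 2) R \ Metric.closedBall 0 B) :=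
    (union_sdiff_cancel (Metric.closedBall_subset_closedBall h.le)).symm
  conv_lhs => rw [hu]
  exact setIntegral_union disjoint_sdiff_right
    (measurableSet_closedBall.diff measurableSet_closedBall) (F_int hF x B)
    ((F_int hF x R).mono_set sdiff_subset)

/-- The two maximal functions. -/
noncomputable def M1 (g : E 2 → ℂ) (x : E 2) : ℝ≥0∞ :=
  ⨆ (R : ℝ) (_ : 0 < R), ‖∫ ξ in Metric.closedBall (0 : E 2) R, g ξ * ex x ξ‖ₑ

noncomputable def M2 (B : ℝ) (F : E 2 → ℂ) (x : E 2) : ℝ≥0∞ :=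
  ⨆ R : ℝ, ‖∫ ξ in Metric.closedBall (0 : E 2) R \ Metric.closedBall 0 B, F ξ * ex x ξ‖ₑ

lemma Sstar_le {f : E 2 → ℂ} (hF : Continuous (𝓕 f)) {B : ℝ} (hB : 0 < B) (x : E 2) :
    Sstar f x ≤ M1 (lo B (𝓕 f)) x + M2 B (𝓕 f) x := by
  unfold Sstar
  refine iSup_le fun R => iSup_le fun hR => ?_
  unfold S
  rcases le_or_gt R B with h | h
  · rw [lo_eq h x]
    refine le_trans ?_ le_self_add
    exact le_iSup₂_of_le (f := fun (R : ℝ) (_ : 0 < R) =>
      ‖∫ ξ in Metric.closedBall (0 : E 2) R, lo B (𝓕 f) ξ * ex x ξ‖ₑ) R hR le_rfl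
  · rw [split hF h x]
    refine (enorm_add_le _ _).trans (add_le_add ?_ ?_)
    · rw [lo_eq le_rfl x]
      exact le_iSup₂_of_le (f := fun (R : ℝ) (_ : 0 < R) =>
        ‖∫ ξ in Metric.closedBall (0 : E 2) R, lo B (𝓕 f) ξ * ex x ξ‖ₑ) B hB le_rfl
    · exact le_iSup (fun R : ℝ => ‖∫ ξ in Metric.closedBall (0 : E 2) R \
        Metric.closedBall 0 B, 𝓕 f ξ * ex x ξ‖ₑ) R

lemma lo_int {F : E 2 → ℂ} (hF : Continuous F) (B : ℝ) : Integrable (lo B F) := by
  unfold lo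
  rw [integrable_indicator_iff measurableSet_closedBall]
  exact hF.continuousOn.integrableOn_compact (isCompact_closedBall _ _)

lemma M1_meas {g : E 2 → ℂ} (hg : Integrable g) : Measurable (M1 g) := by
  unfold M1
  refine LowerSemicontinuous.measurable ?_
  refine lowerSemicontinuous_iSup fun R => lowerSemicontinuous_iSup fun _ => ?_
  refine (Continuous.enorm ?_).lowerSemicontinuous
  refine continuous_of_dominated (F := fun x ξ => g ξ * ex x ξ) (bound := fun ξ => ‖g ξ‖)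
    (fun x => ?_) (fun x => ae_of_all _ fun ξ => ?_) hg.norm.integrableOn (ae_of_all _ fun ξ => ?_)
  · exact hg.aestronglyMeasurable.restrict.mul
      (ex_continuous.comp (continuous_const.prodMk continuous_id)).aestronglyMeasurable
  · rw [norm_mul, ex_norm, mul_one]
  · exact continuous_const.mul (ex_continuous.comp (continuous_id.prodMk continuous_const))

lemma cs {M : E 2 → ℝ≥0∞} (hM : Measurable M) (A : Set (E 2)) :
    ∫⁻ x in A, M x ≤ (∫⁻ x in A, M x ^ 2) ^ (1 / 2 : ℝ) * volume A ^ (1 / 2 : ℝ) := by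
  have h := ENNReal.lintegral_mul_le_Lp_mul_Lq (volume.restrict A)
    (p := 2) (q := 2) (by constructor <;> norm_num) hM.aemeasurable
    (aemeasurable_const (b := (1 : ℝ≥0∞)))
  simp only [Pi.mul_apply, mul_one, ENNReal.rpow_ofNat, one_pow, lintegral_one,
    Measure.restrict_apply_univ] at h
  exact h

lemma L_one (K : ℕ) : 1 ≤ Real.log (3 + Real.log (3 + (K : ℝ))) := by
  have h0 : 0 ≤ Real.log (3 + (K : ℝ)) :=
    Real.log_nonneg (by have := Nat.cast_nonneg (α := ℝ) K; linarith)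
  rw [Real.le_log_iff_exp_le (by linarith)]
  have := Real.exp_one_lt_d9
  linarith

lemma pw (C : ℝ≥0) (L : ℝ) (_ : 0 ≤ L) (N : ℝ≥0∞) :
    (C * ENNReal.ofReal (L ^ 12) * N) ^ (1 / 2 : ℝ) =
      ((C ^ (1 / 2 : ℝ) : ℝ≥0) : ℝ≥0∞) * ENNReal.ofReal (L ^ 6) * N ^ (1 / 2 : ℝ) := by
  rw [ENNReal.mul_rpow_of_nonneg _ _ (by norm_num), ENNReal.mul_rpow_of_nonneg _ _ (by norm_num),
    ENNReal.coe_rpow_of_nonneg _ (by norm_num)]
  congr 2
  rw [ENNReal.ofReal_rpow_of_nonneg (by positivity) (by norm_num)]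
  congr 1
  rw [show L ^ 12 = (L ^ 6) ^ 2 by ring, ← Real.sqrt_eq_rpow, Real.sqrt_sq (by positivity)]

end ND_

open ND_ in
/-- ND. -/
theorem p_ND (h1 : T_LLK) (h2 : T_PI) : T_ND := by
  intro hC hL
  obtain ⟨C1, H1⟩ := h1 hL
  obtain ⟨C2, H2⟩ := h2 hC
  refine ⟨C1 ^ (1 / 2 : ℝ) + C2, fun K f c A hK hf hA hAm hAs => ?_⟩
  have hF : Continuous (𝓕 f) := WT_.fourier_cont hf.int
  set B : ℝ := (K : ℝ) ^ 4 with hB
  have hB0 : 0 < B := by
    have : (0 : ℝ) < K := by exact_mod_cast hK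
    positivity
  set L : ℝ := Real.log (3 + Real.log (3 + (K : ℝ))) with hLd
  have hL1 : 1 ≤ L := L_one K
  set g : E 2 → ℂ := lo B (𝓕 f) with hg
  have hgi : Integrable g := lo_int hF B
  have hgm : Measurable g := hF.measurable.indicator measurableSet_closedBall
  have hgs : ∀ ξ, g ξ ≠ 0 → ‖ξ‖ ≤ (K : ℝ) ^ 4 := by
    intro ξ hξ
    by_contra hcon
    refine hξ ?_
    rw [hg]
    unfold lo
    exact indicator_of_notMem (fun h => hcon (by rwa [mem_closedBall_zero_iff] at h)) _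
  set N : ℝ≥0∞ := ∫⁻ x, ‖f x‖ₑ ^ 2 with hN
  have hgN : ∫⁻ ξ, ‖g ξ‖ₑ ^ 2 ≤ N := by
    rw [hN, ← plancherel hf.int hf.sq]
    refine lintegral_mono fun ξ => ?_
    simp only [hg, lo]
    gcongr
    exact enorm_indicator_le_enorm_self _ _
  have e1 : ∫⁻ x in A, M1 g x ≤
      ((C1 ^ (1 / 2 : ℝ) : ℝ≥0) : ℝ≥0∞) * ENNReal.ofReal (L ^ 6) * N ^ (1 / 2 : ℝ) *
        volume A ^ (1 / 2 : ℝ) := by
    refine (cs (M1_meas hgi) A).trans ?_
    rw [← pw C1 L (by linarith) N]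
    refine mul_le_mul_left ?_ _
    refine ENNReal.rpow_le_rpow ?_ (by norm_num)
    calc ∫⁻ x in A, M1 g x ^ 2 ≤ ∫⁻ x in {x : E 2 | 1 ≤ ‖x‖ ∧ ‖x‖ ≤ 2}, M1 g x ^ 2 :=
          lintegral_mono_set fun x hx => hAs x hx
      _ ≤ C1 * ENNReal.ofReal (L ^ 12) * ∫⁻ ξ, ‖g ξ‖ₑ ^ 2 := H1 K g hK hgm hgs
      _ ≤ C1 * ENNReal.ofReal (L ^ 12) * N := by gcongr
  have e2 : ∫⁻ x in A, M2 B (𝓕 f) x ≤
      C2 * ENNReal.ofReal (L ^ 6) * N ^ (1 / 2 : ℝ) * volume A ^ (1 / 2 : ℝ) := by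
    refine (H2 K (𝓕 f) c A hK hA hAm hAs).trans ?_
    rw [plancherel hf.int hf.sq]
    refine mul_le_mul_left (mul_le_mul_left ?_ _) _
    have : (1 : ℝ≥0∞) ≤ ENNReal.ofReal (L ^ 6) := by
      rw [← ENNReal.ofReal_one]
      exact ENNReal.ofReal_le_ofReal (one_le_pow₀ hL1)
    calc (C2 : ℝ≥0∞) = C2 * 1 := (mul_one _).symm
      _ ≤ _ := by gcongr
  calc ∫⁻ x in A, Sstar f x ≤ ∫⁻ x in A, (M1 g x + M2 B (𝓕 f) x) :=
        lintegral_mono fun x => Sstar_le hF hB0 x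
    _ = (∫⁻ x in A, M1 g x) + ∫⁻ x in A, M2 B (𝓕 f) x := lintegral_add_left (M1_meas hgi) _
    _ ≤ _ := add_le_add e1 e2
    _ = _ := by
        push_cast
        ring


end Pool.Agent.CRL
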