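import Pool.Agent.CRL.Targets3

set_option autoImplicit false

/-!
# CRL-NDS: functions of angular degree `K`, strong form
-/

namespace Pool.Agent.CRL

open MeasureTheory FourierTransform Set Filter Topology
open scoped ENNReal NNReal
open Pool.Agent.MBS (E ex S Sstar)
open Pool.Agent.KSP (IE)
open Pool.Agent.CAR (e1)

namespace NDS_

theorem fourier_cont {f : E 2 → ℂ} (hf : Integrable f) : Continuous (𝓕 f) := by
  have := VectorFourier.fourierIntegral_continuous (V := E 2) (W := E 2)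
      Real.continuous_fourierChar (L := innerₗ (E 2)) continuous_inner hf
  exact this

theorem add_sq (a b : ℝ≥0∞) : (a + b) ^ 2 ≤ 4 * (a ^ 2 + b ^ 2) := by
  have h1 : a + b ≤ 2 * max a b := by
    rw [two_mul]
    exact add_le_add (le_max_left _ _) (le_max_right _ _)
  have h2 : (max a b) ^ 2 ≤ a ^ 2 + b ^ 2 := by
    rcases le_total a b with h | h
    · rw [max_eq_right h]; exact le_add_self
    · rw [max_eq_left h]; exact le_self_add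
  calc (a + b) ^ 2 ≤ (2 * max a b) ^ 2 := by gcongr
    _ = 4 * (max a b) ^ 2 := by rw [mul_pow]; norm_num
    _ ≤ _ := by gcongr

/-- the part of `h` in a ball -/
noncomputable def cut (h : E 2 → ℂ) (ρ : ℝ) : E 2 → ℂ :=
  (Metric.closedBall (0 : E 2) ρ).indicator h

theorem split {h : E 2 → ℂ} (hc : Continuous h) (R ρ : ℝ) (x : E 2) :
    ∫ ξ in Metric.closedBall (0 : E 2) R, h ξ * ex x ξ =
      (∫ ξ in Metric.closedBall (0 : E 2) R, cut h ρ ξ * ex x ξ) +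
      ∫ ξ in Metric.closedBall (0 : E 2) R \ Metric.closedBall 0 ρ, h ξ * ex x ξ := by
  have hint : IntegrableOn (fun ξ => h ξ * ex x ξ) (Metric.closedBall (0 : E 2) R) := by
    have hcc : Continuous (fun ξ => h ξ * ex x ξ) :=
      hc.mul (Pool.Agent.MBS.ex_continuous.comp (Continuous.prodMk_right x))
    exact hcc.continuousOn.integrableOn_compact (isCompact_closedBall _ _)
  have e1 : ∀ ξ, cut h ρ ξ * ex x ξ =
      (Metric.closedBall (0 : E 2) ρ).indicator (fun ξ => h ξ * ex x ξ) ξ := by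
    intro ξ
    unfold cut
    by_cases hξ : ξ ∈ Metric.closedBall (0 : E 2) ρ
    · rw [indicator_of_mem hξ, indicator_of_mem hξ]
    · rw [indicator_of_notMem hξ, indicator_of_notMem hξ, zero_mul]
  simp only [e1]
  rw [setIntegral_indicator measurableSet_closedBall,
    integral_inter_add_sdiff measurableSet_closedBall hint]

theorem one_le_log (K : ℕ) : 1 ≤ Real.log (3 + Real.log (3 + K)) := by
  have hK : (0 : ℝ) ≤ K := Nat.cast_nonneg K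
  have h0 : 0 ≤ Real.log (3 + K) := Real.log_nonneg (by linarith)
  rw [Real.le_log_iff_exp_le (by linarith)]
  linarith [Real.exp_one_lt_d9]

end NDS_

theorem p_NDS (h1 : T_LLK) (h2 : T_PIS) : T_NDS := by
  intro hC hL
  obtain ⟨C1, h1⟩ := h1 hL
  obtain ⟨C2, h2⟩ := h2 hC
  refine ⟨4 * (C1 + C2), fun K f c hK hf hA => ?_⟩
  set L : ℝ≥0∞ := ENNReal.ofReal (Real.log (3 + Real.log (3 + K)) ^ 12) with hLdef
  have hL1 : 1 ≤ L := by
    rw [hLdef, ← ENNReal.ofReal_one]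
    exact ENNReal.ofReal_le_ofReal (one_le_pow₀ (NDS_.one_le_log K))
  have hc := NDS_.fourier_cont hf.int
  set g : E 2 → ℂ := NDS_.cut (𝓕 f) ((K : ℝ) ^ 4) with hg
  have hgm : Measurable g := hc.measurable.indicator measurableSet_closedBall
  have hgs : ∀ ξ, g ξ ≠ 0 → ‖ξ‖ ≤ (K : ℝ) ^ 4 := by
    intro ξ hξ
    have := mem_of_indicator_ne_zero hξ
    simpa using this
  have hgle : ∀ ξ, ‖g ξ‖ₑ ^ 2 ≤ ‖𝓕 f ξ‖ₑ ^ 2 := by
    intro ξ
    by_cases hξ : ξ ∈ Metric.closedBall (0 : E 2) ((K : ℝ) ^ 4)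
    · rw [hg, NDS_.cut, indicator_of_mem hξ]
    · rw [hg, NDS_.cut, indicator_of_notMem hξ]
      simp
  have hpl : ∫⁻ ξ, ‖𝓕 f ξ‖ₑ ^ 2 = ∫⁻ x, ‖f x‖ₑ ^ 2 :=
    Pool.Agent.KSP.FA2_.plancherel hf.int hf.sq
  have hfin : ∫⁻ x, ‖f x‖ₑ ^ 2 ≠ ⊤ := by
    rw [Pool.Agent.KSP.FA2_.int_sq hf.sq]
    exact ENNReal.ofReal_ne_top
  have hgP : ∫⁻ ξ, ‖g ξ‖ₑ ^ 2 ≤ ∫⁻ x, ‖f x‖ₑ ^ 2 := (lintegral_mono hgle).trans hpl.le
  have hA1 := h1 K g hK hgm hgs
  have hB1 := h2 K (𝓕 f) c hK hA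
  set A : E 2 → ℝ≥0∞ := fun x =>
    ⨆ (R : ℝ) (_ : 0 < R), ‖∫ ξ in Metric.closedBall (0 : E 2) R, g ξ * ex x ξ‖ₑ with hAdef
  set B : E 2 → ℝ≥0∞ := fun x => ⨆ R : ℝ,
      ‖∫ ξ in Metric.closedBall (0 : E 2) R \ Metric.closedBall 0 ((K : ℝ) ^ 4),
        𝓕 f ξ * ex x ξ‖ₑ with hBdef
  have hAm : Measurable A :=
    Pool.Agent.KSP.FA2_.Mx_meas hgm (ne_top_of_le_ne_top hfin hgP)
  have hpt : ∀ x, Sstar f x ^ 2 ≤ 4 * (A x ^ 2 + B x ^ 2) := by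
    intro x
    have h3 : Sstar f x ≤ A x + B x := by
      unfold Sstar
      refine iSup₂_le fun R hR => ?_
      unfold S
      rw [NDS_.split hc R ((K : ℝ) ^ 4) x]
      refine (enorm_add_le _ _).trans (add_le_add ?_ ?_)
      · exact le_iSup₂ (f := fun (R : ℝ) (_ : 0 < R) =>
          ‖∫ ξ in Metric.closedBall (0 : E 2) R, g ξ * ex x ξ‖ₑ) R hR
      · exact le_iSup (fun R : ℝ =>
          ‖∫ ξ in Metric.closedBall (0 : E 2) R \ Metric.closedBall 0 ((K : ℝ) ^ 4),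
            𝓕 f ξ * ex x ξ‖ₑ) R
    calc Sstar f x ^ 2 ≤ (A x + B x) ^ 2 := by gcongr
      _ ≤ _ := NDS_.add_sq _ _
  calc ∫⁻ x in {x : E 2 | 1 ≤ ‖x‖ ∧ ‖x‖ ≤ 2}, Sstar f x ^ 2
      ≤ ∫⁻ x in {x : E 2 | 1 ≤ ‖x‖ ∧ ‖x‖ ≤ 2}, 4 * (A x ^ 2 + B x ^ 2) :=
        lintegral_mono hpt
    _ = 4 * ((∫⁻ x in {x : E 2 | 1 ≤ ‖x‖ ∧ ‖x‖ ≤ 2}, A x ^ 2) +
        ∫⁻ x in {x : E 2 | 1 ≤ ‖x‖ ∧ ‖x‖ ≤ 2}, B x ^ 2) := by
        rw [lintegral_const_mul' _ _ (by norm_num), lintegral_add_left (hAm.pow_const 2)]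
    _ ≤ 4 * (C1 * L * (∫⁻ x, ‖f x‖ₑ ^ 2) + C2 * L * ∫⁻ x, ‖f x‖ₑ ^ 2) := by
        gcongr
        · refine hA1.trans ?_
          gcongr
        · refine hB1.trans ?_
          rw [hpl]
          calc (C2 : ℝ≥0∞) * ∫⁻ x, ‖f x‖ₑ ^ 2 = C2 * 1 * ∫⁻ x, ‖f x‖ₑ ^ 2 := by rw [mul_one]
            _ ≤ _ := by gcongr
    _ = _ := by
        push_cast
        ring

end Pool.Agent.CRL
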