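import Pool.Agent.CRL.Targets
import Pool.Agent.MBS.J8
import Pool.Agent.MBS.J13

set_option autoImplicit false

/-!
# OFF: the off-diagonal shells, by scaling
-/

namespace Pool.Agent.CRL

open MeasureTheory FourierTransform Set Filter Topology
open scoped ENNReal NNReal
open Pool.Agent.MBS (E ex S Sstar dil)

namespace OFF_

/-- scaling of the disc sums -/
theorem S_dil {c : ℝ} (hc : 0 < c) (R : ℝ) (f : E 2 → ℂ) (x : E 2) :
    S (dil c f) R x = S f (c * R) (c⁻¹ • x) := by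
  have e : ∀ (h : E 2 → ℂ) (r : ℝ) (y : E 2), S h r y =
      ∫ ξ, (Metric.closedBall (0 : E 2) r).indicator (fun ξ => 𝓕 h ξ * ex y ξ) ξ := by
    intro h r y
    rw [integral_indicator measurableSet_closedBall]; rfl
  rw [e, e]
  have h := Measure.integral_comp_smul_of_nonneg (volume : Measure (E 2))
    ((Metric.closedBall (0 : E 2) (c * R)).indicator (fun ξ => 𝓕 f ξ * ex (c⁻¹ • x) ξ)) c
    (hR := hc.le)
  rw [finrank_euclideanSpace_fin] at h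
  set J := ∫ ξ, (Metric.closedBall (0 : E 2) (c * R)).indicator
    (fun ξ => 𝓕 f ξ * ex (c⁻¹ • x) ξ) ξ with hJ
  rw [show J = (c ^ 2 : ℝ) • ((c ^ 2 : ℝ)⁻¹ • J) from by
      rw [smul_smul, mul_inv_cancel₀ (by positivity), one_smul], ← h, ← integral_smul]
  refine integral_congr_ae (Filter.Eventually.of_forall fun ξ => ?_)
  have hm : ξ ∈ Metric.closedBall (0 : E 2) R ↔ c • ξ ∈ Metric.closedBall (0 : E 2) (c * R) := by
    rw [mem_closedBall_zero_iff, mem_closedBall_zero_iff, norm_smul, Real.norm_of_nonneg hc.le,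
      mul_le_mul_iff_right₀ hc]
  show (Metric.closedBall (0 : E 2) R).indicator _ ξ =
    (c ^ 2 : ℝ) • (Metric.closedBall (0 : E 2) (c * R)).indicator _ (c • ξ)
  by_cases hξ : ξ ∈ Metric.closedBall (0 : E 2) R
  · rw [indicator_of_mem hξ, indicator_of_mem (hm.1 hξ)]
    rw [MBS.J8.fourier_dil hc, ← MBS.J8.ex_dil (c := c) x (c • ξ), smul_smul,
      inv_mul_cancel₀ hc.ne', one_smul]
    simp only [Complex.real_smul]
    ring
  · rw [indicator_of_notMem hξ, indicator_of_notMem (fun h' => hξ (hm.2 h')), smul_zero]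

theorem Sstar_dil {c : ℝ} (hc : 0 < c) (f : E 2 → ℂ) (x : E 2) :
    Sstar (dil c f) x = Sstar f (c⁻¹ • x) := by
  unfold Sstar
  refine le_antisymm (iSup₂_le fun R hR => ?_) (iSup₂_le fun R hR => ?_)
  · rw [S_dil hc]
    exact le_iSup₂ (f := fun (r : ℝ) (_ : 0 < r) => ‖S f r (c⁻¹ • x)‖ₑ) (c * R) (by positivity)
  · have h := S_dil hc (c⁻¹ * R) f x
    rw [mul_inv_cancel_left₀ hc.ne'] at h
    rw [← h]
    exact le_iSup₂ (f := fun (r : ℝ) (_ : 0 < r) => ‖S (dil c f) r x‖ₑ) (c⁻¹ * R) (by positivity)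

theorem nice_dil {c : ℝ} (hc : 0 < c) {f : E 2 → ℂ} (hf : Nice f) : Nice (dil c f) :=
  ⟨MBS.J8.dil_meas hf.meas, MBS.J8.dil_int hc hf.int, MBS.J8.dil_memLp hc hf.meas hf.sq⟩

/-- measurability of the supremum over large radii -/
theorem meas_sup {f : E 2 → ℂ} (hf : Integrable f) (R0 : ℝ) :
    Measurable (fun x => ⨆ R ∈ Ici R0, ‖S f R x‖ₑ) := by
  have e : (fun x => ⨆ R ∈ Ici R0, ‖S f R x‖ₑ) =
      fun x => ⨆ (q : ℚ) (_ : R0 < (q : ℝ)), ‖S f q x‖ₑ := by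
    ext x
    apply le_antisymm
    · refine iSup₂_le fun R hR => ?_
      refine le_of_forall_lt fun c hc' => ?_
      have h1 : Tendsto (fun r => ‖S f r x‖ₑ) (𝓝[>] R) (𝓝 ‖S f R x‖ₑ) :=
        (MBS.J13.S_cont hf x).tendsto.enorm
      have h2 : ∀ᶠ r in 𝓝[>] R, c < ‖S f r x‖ₑ := h1.eventually_const_lt hc'
      obtain ⟨u, hu, hu'⟩ := mem_nhdsGT_iff_exists_Ioo_subset.1 h2
      obtain ⟨q, hq1, hq2⟩ := exists_rat_btwn (show R < u from hu)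
      have h3 : c < ‖S f q x‖ₑ := hu' ⟨hq1, hq2⟩
      exact h3.trans_le (le_iSup₂ (f := fun (q : ℚ) (_ : R0 < (q : ℝ)) => ‖S f q x‖ₑ) q
        (lt_of_le_of_lt hR hq1))
    · refine iSup₂_le fun q hq => ?_
      exact le_iSup₂ (f := fun (R : ℝ) (_ : R ∈ Ici R0) => ‖S f R x‖ₑ) (q : ℝ) hq.le
  rw [e]
  refine Measurable.iSup fun q => Measurable.iSup fun hq => ?_
  exact (MBS.J13.S_meas hf q).enorm

/-- from the unit scale to the scale `c` -/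
theorem scale {c : ℝ} (hc : 0 < c) (f : E 2 → ℂ) (A B : Set (E 2)) (hA : MeasurableSet A)
    (hB : MeasurableSet B) (hAB : ∀ x, x ∈ A ↔ c • x ∈ B) (K : ℝ≥0∞)
    (h : ∫⁻ x in A, Sstar (dil c⁻¹ f) x ^ 2 ≤ K * ∫⁻ x, ‖dil c⁻¹ f x‖ₑ ^ 2) :
    ∫⁻ x in B, Sstar f x ^ 2 ≤ K * ∫⁻ x, ‖f x‖ₑ ^ 2 := by
  have hc' : 0 < c⁻¹ := inv_pos.2 hc
  have h1 : ∫⁻ x in A, Sstar (dil c⁻¹ f) x ^ 2 =
      ENNReal.ofReal ((c ^ 2)⁻¹) * ∫⁻ x in B, Sstar f x ^ 2 := by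
    rw [← MBS.J8.setLint_smul hc (fun x => Sstar f x ^ 2) A B hA hB hAB]
    refine lintegral_congr fun x => ?_
    rw [Sstar_dil hc', inv_inv]
  have h2 : ∫⁻ x, ‖dil c⁻¹ f x‖ₑ ^ 2 = ENNReal.ofReal ((c ^ 2)⁻¹) * ∫⁻ x, ‖f x‖ₑ ^ 2 := by
    rw [MBS.J8.dil_lint hc', inv_pow]
  rw [h1, h2] at h
  have h3 := mul_le_mul_right h (ENNReal.ofReal (c ^ 2))
  rw [← mul_assoc, MBS.J8.ofReal_inv_cancel' hc, one_mul] at h3
  refine h3.trans (le_of_eq ?_)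
  rw [mul_left_comm K, ← mul_assoc, MBS.J8.ofReal_inv_cancel' hc, one_mul]

theorem sh_meas (j : ℤ) : MeasurableSet (sh j) := by
  unfold sh
  have h1 : Measurable (fun x : E 2 => ‖x‖) := measurable_norm
  exact (measurableSet_le measurable_const h1).inter (measurableSet_lt h1 measurable_const)

theorem two_pos' (j : ℤ) : (0 : ℝ) < 2 ^ j := zpow_pos (by norm_num) j

/-- the unit shell at scale `2^j` -/
theorem sh_iff (j : ℤ) (x : E 2) : ((2 : ℝ) ^ j) • x ∈ sh j ↔ 1 ≤ ‖x‖ ∧ ‖x‖ < 2 := by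
  have h := two_pos' j
  unfold sh
  rw [mem_ofPred_eq, norm_smul, Real.norm_of_nonneg h.le, zpow_add₀ (by norm_num), zpow_one,
    mul_lt_mul_iff_right₀ h, le_mul_iff_one_le_right h]

theorem ball_of_sh {i j : ℤ} {x : E 2} (h : ((2 : ℝ) ^ j) • x ∈ sh i) :
    ‖x‖ ≤ (2 : ℝ) ^ (i + 1 - j) := by
  have hp := two_pos' j
  have h2 := h.2
  rw [norm_smul, Real.norm_of_nonneg hp.le] at h2
  have e : (2 : ℝ) ^ (i + 1) = 2 ^ j * 2 ^ (i + 1 - j) := by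
    rw [← zpow_add₀ (by norm_num)]; congr 1; ring
  rw [e] at h2
  exact (lt_of_mul_lt_mul_left h2 hp.le).le

theorem r_le {i j : ℤ} (h : i + 2 ≤ j) : (2 : ℝ) ^ (i + 1 - j) ≤ 1 / 2 := by
  have : (2 : ℝ) ^ (i + 1 - j) ≤ 2 ^ (-1 : ℤ) := zpow_le_zpow_right₀ (by norm_num) (by omega)
  refine this.trans (le_of_eq ?_)
  norm_num

/-- the fourth root -/
theorem root4 {i j : ℤ} (h : i + 2 ≤ j) : Real.sqrt (Real.sqrt ((2 : ℝ) ^ (i + 1 - j))) ≤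
    2 * (2 : ℝ) ^ (-(j - i : ℝ) / 4) := by
  have e : (2 : ℝ) ^ (i + 1 - j) = (2 : ℝ) ^ ((1 : ℝ) + -(j - i : ℝ)) := by
    rw [← Real.rpow_intCast]; congr 1; push_cast; ring
  have h2 : (0 : ℝ) ≤ 2 := by norm_num
  rw [e, Real.sqrt_eq_rpow, Real.sqrt_eq_rpow, ← Real.rpow_mul h2, ← Real.rpow_mul h2]
  have e2 : ((1 : ℝ) + -(j - i : ℝ)) * (1 / 2) * (1 / 2) = 1 / 4 + -(j - i : ℝ) / 4 := by ring
  rw [e2, Real.rpow_add (by norm_num)]
  refine mul_le_mul_of_nonneg_right ?_ (by positivity)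
  calc (2 : ℝ) ^ (1 / 4 : ℝ) ≤ 2 ^ (1 : ℝ) := Real.rpow_le_rpow_of_exponent_le (by norm_num)
        (by norm_num)
    _ = 2 := Real.rpow_one 2

theorem le_root4 {r : ℝ} (h0 : 0 ≤ r) (h1 : r ≤ 1) : r ≤ Real.sqrt (Real.sqrt r) := by
  have h2 : r ≤ Real.sqrt r := Real.le_sqrt_of_sq_le (by nlinarith)
  exact h2.trans (Real.sqrt_le_sqrt h2)

end OFF_

open OFF_ in
theorem p_OFF (h1 : T_OFFI) (h2 : T_OFFA) (h3 : T_OFFB) : T_OFF := by
  obtain ⟨C1, h1⟩ := h1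
  obtain ⟨C2, h2⟩ := h2
  obtain ⟨C3, h3⟩ := h3
  refine ⟨2 * (C1 + C2 + C3), ?_⟩
  intro i j f hij hf hs
  have hcast : (((2 * (C1 + C2 + C3) : ℝ≥0)) : ℝ≥0∞) =
      2 * ((C1 : ℝ≥0∞) + C2 + C3) := by push_cast; rfl
  rw [hcast]
  rcases le_total i j with hle | hle
  · -- `i ≤ j - 2`
    have hij' : i + 2 ≤ j := by rw [abs_of_nonpos (by omega)] at hij; omega
    have habs : |(i : ℝ) - j| = j - i := by
      have : (i : ℝ) ≤ j := by exact_mod_cast hle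
      rw [abs_of_nonpos (by linarith)]; ring
    rw [habs]
    set c : ℝ := (2 : ℝ) ^ j with hc0
    have hc : 0 < c := two_pos' j
    set r : ℝ := (2 : ℝ) ^ (i + 1 - j) with hr0
    have hr : 0 < r := two_pos' _
    have hr2 : r ≤ 1 / 2 := r_le hij'
    have hn := nice_dil (inv_pos.2 hc) hf
    have hsup : ∀ y, dil c⁻¹ f y ≠ 0 → ‖y‖ ≤ r := by
      intro y hy
      have : f (c • y) ≠ 0 := by
        have h := hy; unfold dil at h; rwa [inv_inv] at h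
      exact ball_of_sh (hs _ this)
    have ha := h2 r _ hr hr2 hn hsup
    have hb := h3 r _ hr hr2 hn hsup
    refine scale hc f {x | 1 ≤ ‖x‖ ∧ ‖x‖ < 2} (sh j) ?_ (sh_meas j)
      (fun x => (sh_iff j x).symm) _ ?_
    · have h1 : Measurable (fun x : E 2 => ‖x‖) := measurable_norm
      exact (measurableSet_le measurable_const h1).inter (measurableSet_lt h1 measurable_const)
    · set F := dil c⁻¹ f with hF
      have hpt : ∀ x, Sstar F x ^ 2 ≤ (⨆ R ∈ Ioc 0 (Real.sqrt r)⁻¹, ‖S F R x‖ₑ) ^ 2 +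
          (⨆ R ∈ Ici (Real.sqrt r)⁻¹, ‖S F R x‖ₑ) ^ 2 := by
        intro x
        have h4 : Sstar F x ≤ max (⨆ R ∈ Ioc 0 (Real.sqrt r)⁻¹, ‖S F R x‖ₑ)
            (⨆ R ∈ Ici (Real.sqrt r)⁻¹, ‖S F R x‖ₑ) := by
          unfold Sstar
          refine iSup₂_le fun R hR => ?_
          rcases le_total R (Real.sqrt r)⁻¹ with h | h
          · exact le_max_of_le_left
              (le_iSup₂ (f := fun (R : ℝ) (_ : R ∈ Ioc 0 (Real.sqrt r)⁻¹) => ‖S F R x‖ₑ) R ⟨hR, h⟩)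
          · exact le_max_of_le_right
              (le_iSup₂ (f := fun (R : ℝ) (_ : R ∈ Ici (Real.sqrt r)⁻¹) => ‖S F R x‖ₑ) R h)
        rcases le_max_iff.1 h4 with h | h
        · exact (pow_le_pow_left₀ (by positivity) h 2).trans le_self_add
        · exact (pow_le_pow_left₀ (by positivity) h 2).trans le_add_self
      calc ∫⁻ x in {x | 1 ≤ ‖x‖ ∧ ‖x‖ < 2}, Sstar F x ^ 2
          ≤ ∫⁻ x in {x : E 2 | 1 ≤ ‖x‖ ∧ ‖x‖ ≤ 2}, Sstar F x ^ 2 :=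
            lintegral_mono_set (fun x hx => ⟨hx.1, hx.2.le⟩)
        _ ≤ ∫⁻ x in {x : E 2 | 1 ≤ ‖x‖ ∧ ‖x‖ ≤ 2},
            ((⨆ R ∈ Ioc 0 (Real.sqrt r)⁻¹, ‖S F R x‖ₑ) ^ 2 +
              (⨆ R ∈ Ici (Real.sqrt r)⁻¹, ‖S F R x‖ₑ) ^ 2) := lintegral_mono fun x => hpt x
        _ = (∫⁻ x in {x : E 2 | 1 ≤ ‖x‖ ∧ ‖x‖ ≤ 2},
              (⨆ R ∈ Ioc 0 (Real.sqrt r)⁻¹, ‖S F R x‖ₑ) ^ 2) +
            ∫⁻ x in {x : E 2 | 1 ≤ ‖x‖ ∧ ‖x‖ ≤ 2},
              (⨆ R ∈ Ici (Real.sqrt r)⁻¹, ‖S F R x‖ₑ) ^ 2 :=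
            lintegral_add_right _ ((meas_sup hn.int _).pow_const 2)
        _ ≤ C2 * ENNReal.ofReal r * (∫⁻ x, ‖F x‖ₑ ^ 2) +
            C3 * ENNReal.ofReal (Real.sqrt (Real.sqrt r)) * ∫⁻ x, ‖F x‖ₑ ^ 2 :=
            add_le_add ha hb
        _ ≤ C2 * ENNReal.ofReal (Real.sqrt (Real.sqrt r)) * (∫⁻ x, ‖F x‖ₑ ^ 2) +
            C3 * ENNReal.ofReal (Real.sqrt (Real.sqrt r)) * ∫⁻ x, ‖F x‖ₑ ^ 2 := by
            gcongr
            exact le_root4 hr.le (by linarith)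
        _ = (C2 + C3) * ENNReal.ofReal (Real.sqrt (Real.sqrt r)) * ∫⁻ x, ‖F x‖ₑ ^ 2 := by ring
        _ ≤ (C1 + C2 + C3) * ENNReal.ofReal (2 * (2 : ℝ) ^ (-(j - i : ℝ) / 4)) *
              ∫⁻ x, ‖F x‖ₑ ^ 2 := by
            gcongr
            · exact le_add_self
            · exact root4 hij'
        _ = 2 * ((C1 : ℝ≥0∞) + C2 + C3) * ENNReal.ofReal ((2 : ℝ) ^ (-(j - i : ℝ) / 4)) *
              ∫⁻ x, ‖F x‖ₑ ^ 2 := by
            rw [ENNReal.ofReal_mul (by norm_num), ENNReal.ofReal_ofNat]; ring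
  · -- `j ≤ i - 2`
    have hij' : j + 2 ≤ i := by rw [abs_of_nonneg (by omega)] at hij; omega
    have habs : |(i : ℝ) - j| = i - j := by
      have : (j : ℝ) ≤ i := by exact_mod_cast hle
      rw [abs_of_nonneg (by linarith)]
    rw [habs]
    set c : ℝ := (2 : ℝ) ^ i with hc0
    have hc : 0 < c := two_pos' i
    set r : ℝ := (2 : ℝ) ^ (j + 1 - i) with hr0
    have hr : 0 < r := two_pos' _
    have hr2 : r ≤ 1 / 2 := r_le hij'
    have hn := nice_dil (inv_pos.2 hc) hf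
    have hsup : ∀ y, dil c⁻¹ f y ≠ 0 → 1 ≤ ‖y‖ ∧ ‖y‖ ≤ 2 := by
      intro y hy
      have : f (c • y) ≠ 0 := by
        have h := hy; unfold dil at h; rwa [inv_inv] at h
      have h := (sh_iff i y).1 (hs _ this)
      exact ⟨h.1, h.2.le⟩
    have ha := h1 r _ hr hr2 hn hsup
    have hmeas : MeasurableSet {x : E 2 | c • x ∈ sh j} :=
      (measurable_const_smul c) (sh_meas j)
    refine scale hc f {x | c • x ∈ sh j} (sh j) hmeas (sh_meas j) (fun x => Iff.rfl) _ ?_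
    set F := dil c⁻¹ f with hF
    calc ∫⁻ x in {x | c • x ∈ sh j}, Sstar F x ^ 2
        ≤ ∫⁻ x in Metric.closedBall (0 : E 2) r, Sstar F x ^ 2 := by
          refine lintegral_mono_set (fun x hx => ?_)
          rw [mem_closedBall_zero_iff]
          exact ball_of_sh hx
      _ ≤ C1 * ENNReal.ofReal r * ∫⁻ x, ‖F x‖ₑ ^ 2 := ha
      _ ≤ (C1 + C2 + C3) * ENNReal.ofReal (2 * (2 : ℝ) ^ (-(i - j : ℝ) / 4)) *
            ∫⁻ x, ‖F x‖ₑ ^ 2 := by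
          gcongr
          · rw [add_assoc]; exact le_self_add
          · exact (le_root4 hr.le (by linarith)).trans (root4 hij')
      _ = 2 * ((C1 : ℝ≥0∞) + C2 + C3) * ENNReal.ofReal ((2 : ℝ) ^ (-(i - j : ℝ) / 4)) *
            ∫⁻ x, ‖F x‖ₑ ^ 2 := by
          rw [ENNReal.ofReal_mul (by norm_num), ENNReal.ofReal_ofNat]; ring

end Pool.Agent.CRL
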