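import Pool.Agent.CRL.Targets
import Pool.Agent.MBS.J3

set_option autoImplicit false

/-!
# OFFB: large radii, oscillator lemma
-/

namespace Pool.Agent.CRL

open MeasureTheory FourierTransform Set Filter Topology
open scoped ENNReal NNReal
open Pool.Agent.MBS (E ex S Sstar)
open Pool.Agent.KSP (IE)
open Pool.Agent.CAR (e1)

namespace OFFB_

lemma enorm_sq (z : ℂ) : ‖z‖ₑ ^ 2 = ENNReal.ofReal (‖z‖ ^ 2) := by
  rw [← ofReal_norm, ENNReal.ofReal_pow (norm_nonneg _)]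

/-- the oscillator lemma on `[R, R+L]` -/
lemma osc (F F1 F2 : ℝ → ℂ) (w R L : ℝ) (hL : 0 < L) (hR : 0 < R)
    (hc : ContinuousOn F2 (Ioi 0))
    (hF : ∀ t, 0 < t → HasDerivAt F (F1 t) t) (hF1 : ∀ t, 0 < t → HasDerivAt F1 (F2 t) t) :
    ‖F R‖ₑ ^ 2 ≤ ∫⁻ t in Ioc R (R + L), (ENNReal.ofReal (162 / L) * ‖F t‖ₑ ^ 2 +
      ENNReal.ofReal (2 * L ^ 3) * ‖F2 t + ((w ^ 2 : ℝ) : ℂ) * F t‖ₑ ^ 2) := by
  have hab : R < R + L := by linarith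
  have hsub : Icc R (R + L) ⊆ Ioi (0 : ℝ) := fun t ht => lt_of_lt_of_le hR ht.1
  have hcF : ContinuousOn F (Icc R (R + L)) := fun t ht =>
    (hF t (hsub ht)).continuousAt.continuousWithinAt
  have hcF2 : ContinuousOn F2 (Icc R (R + L)) := hc.mono hsub
  have h1 := Pool.Agent.MBS.ode_bound F F1 F2 w R (R + L) hab hcF2
    (fun t ht => hF t (hsub ht)) (fun t ht => hF1 t (hsub ht)) R ⟨le_rfl, hab.le⟩
  have hL' : R + L - R = L := by ring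
  rw [hL'] at h1
  obtain ⟨G, hG⟩ : ∃ G : ℝ → ℂ, G = fun t => F2 t + ((w ^ 2 : ℝ) : ℂ) * F t := ⟨_, rfl⟩
  have hcG : ContinuousOn G (Icc R (R + L)) := by
    rw [hG]; exact hcF2.add (continuousOn_const.mul hcF)
  have h1' : ‖F R‖ ≤ ∫ t in R..(R + L), (9 / L * ‖F t‖ + L * ‖G t‖) := by
    rw [hG]; exact h1
  have hch : ContinuousOn (fun t => 9 / L * ‖F t‖ + L * ‖G t‖) (Icc R (R + L)) :=
    (continuousOn_const.mul hcF.norm).add (continuousOn_const.mul hcG.norm)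
  have h2 := Pool.Agent.MBS.sq_integral_le (fun t => 9 / L * ‖F t‖ + L * ‖G t‖) R (R + L) hab hch
  rw [hL'] at h2
  have h3 : ‖F R‖ ^ 2 ≤ ∫ t in Ioc R (R + L), L * (9 / L * ‖F t‖ + L * ‖G t‖) ^ 2 := by
    calc ‖F R‖ ^ 2 ≤ (∫ t in R..(R + L), (9 / L * ‖F t‖ + L * ‖G t‖)) ^ 2 :=
          pow_le_pow_left₀ (norm_nonneg _) h1' 2
      _ ≤ L * ∫ t in R..(R + L), (9 / L * ‖F t‖ + L * ‖G t‖) ^ 2 := h2
      _ = ∫ t in R..(R + L), L * (9 / L * ‖F t‖ + L * ‖G t‖) ^ 2 := by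
          rw [intervalIntegral.integral_const_mul]
      _ = ∫ t in Ioc R (R + L), L * (9 / L * ‖F t‖ + L * ‖G t‖) ^ 2 :=
          intervalIntegral.integral_of_le hab.le
  have hint : IntegrableOn (fun t => L * (9 / L * ‖F t‖ + L * ‖G t‖) ^ 2) (Ioc R (R + L)) :=
    ((continuousOn_const.mul (hch.pow 2)).integrableOn_Icc).mono_set Ioc_subset_Icc_self
  have h4 : ENNReal.ofReal (∫ t in Ioc R (R + L), L * (9 / L * ‖F t‖ + L * ‖G t‖) ^ 2) =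
      ∫⁻ t in Ioc R (R + L), ENNReal.ofReal (L * (9 / L * ‖F t‖ + L * ‖G t‖) ^ 2) :=
    ofReal_integral_eq_lintegral_ofReal hint (Eventually.of_forall fun t => by positivity)
  rw [enorm_sq]
  refine (ENNReal.ofReal_le_ofReal h3).trans ?_
  rw [h4]
  refine lintegral_mono fun t => ?_
  have e1 : F2 t + ((w ^ 2 : ℝ) : ℂ) * F t = G t := by rw [hG]
  rw [e1, enorm_sq, enorm_sq, ← ENNReal.ofReal_mul (by positivity),
    ← ENNReal.ofReal_mul (by positivity), ← ENNReal.ofReal_add (by positivity) (by positivity)]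
  refine ENNReal.ofReal_le_ofReal ?_
  have h5 : (9 / L * ‖F t‖ + L * ‖G t‖) ^ 2 ≤ 2 * ((9 / L * ‖F t‖) ^ 2 + (L * ‖G t‖) ^ 2) := by
    nlinarith [sq_nonneg (9 / L * ‖F t‖ - L * ‖G t‖)]
  have h6 : L * (2 * ((9 / L * ‖F t‖) ^ 2 + (L * ‖G t‖) ^ 2)) =
      162 / L * ‖F t‖ ^ 2 + 2 * L ^ 3 * ‖G t‖ ^ 2 := by
    field_simp
    ring
  rw [← h6]
  exact mul_le_mul_of_nonneg_left h5 hL.le

/-- multiplication by a bounded function -/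
lemma mulnice {f : E 2 → ℂ} {r : ℝ} (hr : 0 < r) (hr2 : r ≤ 1 / 2) (hf : Nice f)
    (hs : ∀ y, f y ≠ 0 → ‖y‖ ≤ r) (m : E 2 → ℂ) (hm : Measurable m)
    (hb : ∀ y, ‖y‖ ≤ r → ‖m y‖ ≤ r) :
    Nice (fun y => m y * f y) ∧ (∀ y, m y * f y ≠ 0 → ‖y‖ ≤ r) ∧
      ∫⁻ y, ‖m y * f y‖ₑ ^ 2 ≤ ENNReal.ofReal (r ^ 2) * ∫⁻ y, ‖f y‖ₑ ^ 2 := by
  have hb' : ∀ y, ‖m y * f y‖ ≤ r * ‖f y‖ := by
    intro y
    by_cases h : f y = 0
    · simp [h]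
    · rw [norm_mul]
      exact mul_le_mul_of_nonneg_right (hb y (hs y h)) (norm_nonneg _)
  have hb1 : ∀ y, ‖m y * f y‖ ≤ ‖f y‖ := fun y =>
    (hb' y).trans (by nlinarith [norm_nonneg (f y)])
  have hmeas : Measurable (fun y => m y * f y) := hm.mul hf.meas
  refine ⟨⟨hmeas, hf.int.mono hmeas.aestronglyMeasurable (Eventually.of_forall hb1),
    hf.sq.of_le hmeas.aestronglyMeasurable (Eventually.of_forall hb1)⟩, ?_, ?_⟩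
  · intro y hy
    exact hs y fun h => hy (by rw [h, mul_zero])
  · rw [← lintegral_const_mul' _ _ ENNReal.ofReal_ne_top]
    refine lintegral_mono fun y => ?_
    rw [enorm_sq, enorm_sq, ← ENNReal.ofReal_mul (by positivity)]
    refine ENNReal.ofReal_le_ofReal ?_
    rw [← mul_pow]
    exact pow_le_pow_left₀ (norm_nonneg _) (hb' y) 2

/-- the energy density -/
noncomputable def AA (ψ h : E 2 → ℂ) (t : ℝ) (x : E 2) : ℝ≥0∞ :=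
  ‖FF ψ h t x‖ₑ ^ 2 + ‖F1 ψ h t x‖ₑ ^ 2

lemma meas_AA (ψ f : E 2 → ℂ)
    (hc : ContinuousOn (fun p : ℝ × E 2 => F1 ψ f p.1 p.2) (Ici 0 ×ˢ univ))
    (hFF : ∀ (x : E 2) (R : ℝ), 0 ≤ R → FF ψ f R x = ∫ r in (0 : ℝ)..R, F1 ψ f r x) :
    ∃ H : ℝ × E 2 → ℝ≥0∞, Measurable H ∧ ∀ t x, 0 ≤ t → H (t, x) = AA ψ f t x := by
  classical
  obtain ⟨G1, hG1⟩ : ∃ G1 : ℝ × E 2 → ℂ, G1 = (Ici (0 : ℝ) ×ˢ (univ : Set (E 2))).piecewise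
    (fun p => F1 ψ f p.1 p.2) (fun _ => 0) := ⟨_, rfl⟩
  have hG1m : Measurable G1 := by
    rw [hG1]
    exact hc.measurable_piecewise continuousOn_const (measurableSet_Ici.prod MeasurableSet.univ)
  have hG1e : ∀ t x, 0 ≤ t → G1 (t, x) = F1 ψ f t x := by
    intro t x ht
    rw [hG1]
    exact piecewise_eq_of_mem _ _ _ (show (t, x) ∈ Ici (0 : ℝ) ×ˢ (univ : Set (E 2)) from
      ⟨ht, mem_univ _⟩)
  obtain ⟨K, hK⟩ : ∃ K : (ℝ × E 2) × ℝ → ℂ, K = fun q =>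
    indicator {q : (ℝ × E 2) × ℝ | 0 < q.2 ∧ q.2 ≤ q.1.1} (fun q => G1 (q.2, q.1.2)) q := ⟨_, rfl⟩
  have hKm : Measurable K := by
    rw [hK]
    refine Measurable.indicator ?_ ?_
    · exact hG1m.comp (measurable_snd.prodMk (measurable_snd.comp measurable_fst))
    · exact (measurableSet_lt measurable_const measurable_snd).inter
        (measurableSet_le measurable_snd (measurable_fst.comp measurable_fst))
  have hG0m : Measurable (fun p : ℝ × E 2 => ∫ s, K (p, s)) :=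
    (hKm.stronglyMeasurable.integral_prod_right').measurable
  have hG0e : ∀ t x, 0 ≤ t → ∫ s, K ((t, x), s) = FF ψ f t x := by
    intro t x ht
    rw [hFF x t ht, intervalIntegral.integral_of_le ht, ← integral_indicator measurableSet_Ioc]
    refine integral_congr_ae (Eventually.of_forall fun s => ?_)
    by_cases hs : s ∈ Ioc 0 t
    · have e1 : K ((t, x), s) = G1 (s, x) := by
        rw [hK]
        exact indicator_of_mem (show ((t, x), s) ∈ {q : (ℝ × E 2) × ℝ | 0 < q.2 ∧ q.2 ≤ q.1.1}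
          from ⟨hs.1, hs.2⟩) _
      show K ((t, x), s) = _
      rw [indicator_of_mem hs, e1, hG1e s x hs.1.le]
    · have e1 : K ((t, x), s) = 0 := by
        rw [hK]
        exact indicator_of_notMem (fun h => hs ⟨h.1, h.2⟩) _
      show K ((t, x), s) = _
      rw [indicator_of_notMem hs, e1]
  refine ⟨fun p => ‖∫ s, K (p, s)‖ₑ ^ 2 + ‖G1 p‖ₑ ^ 2,
    (hG0m.enorm.pow_const 2).add (hG1m.enorm.pow_const 2), ?_⟩
  intro t x ht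
  unfold AA
  rw [← hG0e t x ht, ← hG1e t x ht]


lemma far (r : ℝ) (hr2 : r ≤ 1 / 2) (x y : E 2) (hx : 1 ≤ ‖x‖ ∧ ‖x‖ ≤ 2) (h : ‖y‖ ≤ r) :
    1 / 2 ≤ ‖x - y‖ ∧ ‖x - y‖ ≤ 5 / 2 := by
  have h1 := norm_sub_norm_le x y
  have h2 := norm_sub_le x y
  constructor
  · linarith [hx.1]
  · linarith [hx.2]

lemma hasD (Φ : ℝ → E 2 → ℂ)
    (hc : ContinuousOn (fun p : ℝ × E 2 => Φ p.1 p.2) (Ici 0 ×ˢ univ)) (x : E 2) (t : ℝ)
    (ht : 0 < t) :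
    HasDerivAt (fun R => ∫ s in (0 : ℝ)..R, Φ s x) (Φ t x) t := by
  have hcx : ContinuousOn (fun s => Φ s x) (Ici 0) := by
    have hp : Continuous (fun s : ℝ => ((s, x) : ℝ × E 2)) := by fun_prop
    exact ContinuousOn.comp (g := fun p : ℝ × E 2 => Φ p.1 p.2) (f := fun s : ℝ => (s, x)) hc
      hp.continuousOn (fun s hs => ⟨hs, mem_univ _⟩)
  refine intervalIntegral.integral_hasDerivAt_right ?_ ?_ ?_
  · refine ContinuousOn.intervalIntegrable ?_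
    rw [uIcc_of_le ht.le]
    exact hcx.mono fun s hs => hs.1
  · exact (hcx.mono Ioi_subset_Ici_self).stronglyMeasurableAtFilter isOpen_Ioi t ht
  · exact hcx.continuousAt (Ici_mem_nhds ht)

lemma S1_eq (ψ : E 2 → ℂ) (B : ℝ) (hψ : Psi ψ B) (h2 : T_SM) (h4 : T_D2S) (f : E 2 → ℂ)
    (hf : Nice f) (r : ℝ) (hr2 : r ≤ 1 / 2) (hs : ∀ y, f y ≠ 0 → ‖y‖ ≤ r)
    (hc : ContinuousOn (fun p : ℝ × E 2 => F1 ψ f p.1 p.2) (Ici 0 ×ˢ univ))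
    (hFF : ∀ (x : E 2) (R : ℝ), 0 ≤ R → FF ψ f R x = ∫ r in (0 : ℝ)..R, F1 ψ f r x)
    (x : E 2) (hx : 1 ≤ ‖x‖ ∧ ‖x‖ ≤ 2) :
    (∀ t, 0 ≤ t → S f t x = FF ψ f t x) ∧ ∀ t, 0 < t → S1 f t x = F1 ψ f t x := by
  have hS : ∀ t, 0 ≤ t → S f t x = FF ψ f t x :=
    h2 ψ B hψ f hf x fun y hy => far r hr2 x y hx (hs y hy)
  refine ⟨hS, fun t ht => ?_⟩
  have hd1 : HasDerivAt (fun R => S f R x) (S1 f t x) t :=
    (h4 f hf (fun y hy => (hs y hy).trans (by linarith)) x t ht).1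
  have hd3 : HasDerivAt (fun R => S f R x) (F1 ψ f t x) t := by
    refine (hasD (F1 ψ f) hc x t ht).congr_of_eventuallyEq ?_
    filter_upwards [Ioi_mem_nhds ht] with s hs'
    rw [hS s (le_of_lt hs'), hFF x s (le_of_lt hs')]
  exact HasDerivAt.unique hd1 hd3


/-- pointwise bound of the integrand -/
lemma ptw (q t X x0 x1 : ℝ) (a b c0 c1 c2 : ℂ) (hq : 0 < q)
    (ht : (q ^ 2)⁻¹ ≤ t) (h0 : |x0| ≤ 2) (h1 : |x1| ≤ 2) :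
    ENNReal.ofReal (162 / q⁻¹) * ‖a‖ₑ ^ 2 + ENNReal.ofReal (2 * q⁻¹ ^ 3) *
      ‖(b / t - 4 * Real.pi ^ 2 * X ^ 2 * a + 4 * Real.pi ^ 2 * (2 * x0 * c0 + 2 * x1 * c1 - c2)) +
        (((2 * Real.pi * X) ^ 2 : ℝ) : ℂ) * a‖ₑ ^ 2 ≤
      ENNReal.ofReal (162 * q) * (‖a‖ₑ ^ 2 + ‖b‖ₑ ^ 2) + ENNReal.ofReal (204800 * q⁻¹ ^ 3) *
        (‖c0‖ₑ ^ 2 + ‖c1‖ₑ ^ 2 + ‖c2‖ₑ ^ 2) := by
  have hq2 : 0 < (q ^ 2)⁻¹ := by positivity
  have ht0 : 0 < t := lt_of_lt_of_le hq2 ht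
  have hti : 1 / t ≤ q ^ 2 := by
    rw [one_div]
    exact inv_le_of_inv_le₀ (by positivity) ht
  have e : (b / t - 4 * Real.pi ^ 2 * X ^ 2 * a + 4 * Real.pi ^ 2 * (2 * x0 * c0 + 2 * x1 * c1 - c2)) +
        (((2 * Real.pi * X) ^ 2 : ℝ) : ℂ) * a =
      b / t + (4 * Real.pi ^ 2 * 2 * x0 : ℝ) * c0 + (4 * Real.pi ^ 2 * 2 * x1 : ℝ) * c1 -
        (4 * Real.pi ^ 2 : ℝ) * c2 := by
    push_cast
    ring
  rw [e]
  have hpi : Real.pi ^ 2 ≤ 10 := by nlinarith [Real.pi_lt_d2, Real.pi_pos]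
  have hb : ‖b / t‖ ≤ q ^ 2 * ‖b‖ := by
    rw [norm_div, Complex.norm_real, Real.norm_eq_abs, abs_of_pos ht0, div_eq_mul_one_div, mul_comm]
    exact mul_le_mul_of_nonneg_right hti (norm_nonneg _)
  have hx : ∀ y : ℝ, |y| ≤ 2 → ∀ c : ℂ, ‖((4 * Real.pi ^ 2 * 2 * y : ℝ) : ℂ) * c‖ ≤ 160 * ‖c‖ := by
    intro y hy c
    rw [norm_mul, Complex.norm_real, Real.norm_eq_abs, abs_mul, abs_of_nonneg (by positivity)]
    refine mul_le_mul_of_nonneg_right ?_ (norm_nonneg _)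
    nlinarith [abs_nonneg y, sq_nonneg Real.pi]
  have hc2 : ‖((4 * Real.pi ^ 2 : ℝ) : ℂ) * c2‖ ≤ 160 * ‖c2‖ := by
    rw [norm_mul, Complex.norm_real, Real.norm_eq_abs, abs_of_nonneg (by positivity)]
    refine mul_le_mul_of_nonneg_right ?_ (norm_nonneg _)
    linarith
  have hN : ‖b / t + (4 * Real.pi ^ 2 * 2 * x0 : ℝ) * c0 + (4 * Real.pi ^ 2 * 2 * x1 : ℝ) * c1 -
        (4 * Real.pi ^ 2 : ℝ) * c2‖ ≤ q ^ 2 * ‖b‖ + 160 * ‖c0‖ + 160 * ‖c1‖ + 160 * ‖c2‖ := by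
    refine (norm_sub_le _ _).trans (add_le_add ((norm_add_le _ _).trans (add_le_add
      ((norm_add_le _ _).trans (add_le_add hb (hx x0 h0 c0))) (hx x1 h1 c1))) hc2)
  have hN2 : ‖b / t + (4 * Real.pi ^ 2 * 2 * x0 : ℝ) * c0 + (4 * Real.pi ^ 2 * 2 * x1 : ℝ) * c1 -
        (4 * Real.pi ^ 2 : ℝ) * c2‖ ^ 2 ≤
      4 * (q ^ 4 * ‖b‖ ^ 2) + 102400 * (‖c0‖ ^ 2 + ‖c1‖ ^ 2 + ‖c2‖ ^ 2) := by
    refine (pow_le_pow_left₀ (norm_nonneg _) hN 2).trans ?_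
    obtain ⟨B, hB⟩ : ∃ B : ℝ, B = q ^ 2 * ‖b‖ := ⟨_, rfl⟩
    have hB2 : q ^ 4 * ‖b‖ ^ 2 = B ^ 2 := by rw [hB]; ring
    rw [hB2, ← hB]
    nlinarith [sq_nonneg (B - 160 * ‖c0‖), sq_nonneg (B - 160 * ‖c1‖), sq_nonneg (B - 160 * ‖c2‖),
      sq_nonneg (‖c0‖ - ‖c1‖), sq_nonneg (‖c0‖ - ‖c2‖), sq_nonneg (‖c1‖ - ‖c2‖)]
  simp only [enorm_sq]
  rw [← ENNReal.ofReal_add (by positivity) (by positivity),
    ← ENNReal.ofReal_add (by positivity) (by positivity),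
    ← ENNReal.ofReal_add (by positivity) (by positivity),
    ← ENNReal.ofReal_mul (by positivity), ← ENNReal.ofReal_mul (by positivity),
    ← ENNReal.ofReal_mul (by positivity), ← ENNReal.ofReal_mul (by positivity),
    ← ENNReal.ofReal_add (by positivity) (by positivity),
    ← ENNReal.ofReal_add (by positivity) (by positivity)]
  refine ENNReal.ofReal_le_ofReal ?_
  have hm := mul_le_mul_of_nonneg_left hN2 (show (0 : ℝ) ≤ 2 * q⁻¹ ^ 3 by positivity)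
  refine (add_le_add_right hm _).trans ?_
  have e1 : 2 * q⁻¹ ^ 3 * (4 * (q ^ 4 * ‖b‖ ^ 2) + 102400 * (‖c0‖ ^ 2 + ‖c1‖ ^ 2 + ‖c2‖ ^ 2)) =
      8 * q * ‖b‖ ^ 2 + 204800 * q⁻¹ ^ 3 * (‖c0‖ ^ 2 + ‖c1‖ ^ 2 + ‖c2‖ ^ 2) := by
    field_simp
    ring
  have e2 : 162 / q⁻¹ * ‖a‖ ^ 2 = 162 * q * ‖a‖ ^ 2 := by
    rw [div_inv_eq_mul]
  rw [e1, e2]
  nlinarith [mul_nonneg hq.le (sq_nonneg ‖b‖)]


lemma per_x (ψ : E 2 → ℂ) (B : ℝ) (hψ : Psi ψ B) (h2 : T_SM) (h4 : T_D2S)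
    (hE : ∀ g : E 2 → ℂ, Nice g →
      ContinuousOn (fun p : ℝ × E 2 => F1 ψ g p.1 p.2) (Ici 0 ×ˢ univ) ∧
      ∀ (x : E 2) (R : ℝ), 0 ≤ R → FF ψ g R x = ∫ r in (0 : ℝ)..R, F1 ψ g r x)
    (q : ℝ) (hq : 0 < q) (hr2 : q ^ 4 ≤ 1 / 2) (f f0 f1 f2 : E 2 → ℂ)
    (e0 : f0 = fun y => (y 0 : ℂ) * f y) (e1 : f1 = fun y => (y 1 : ℂ) * f y)
    (e2 : f2 = fun y => ((‖y‖ ^ 2 : ℝ) : ℂ) * f y)
    (hf : Nice f) (n0 : Nice f0) (n1 : Nice f1) (n2 : Nice f2)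
    (hs : ∀ y, f y ≠ 0 → ‖y‖ ≤ q ^ 4) (s0 : ∀ y, f0 y ≠ 0 → ‖y‖ ≤ q ^ 4)
    (s1 : ∀ y, f1 y ≠ 0 → ‖y‖ ≤ q ^ 4) (s2 : ∀ y, f2 y ≠ 0 → ‖y‖ ≤ q ^ 4)
    (x : E 2) (hx : 1 ≤ ‖x‖ ∧ ‖x‖ ≤ 2) (R : ℝ) (hR : (q ^ 2)⁻¹ ≤ R) :
    ‖S f R x‖ₑ ^ 2 ≤ ∫⁻ t in Ioi (0 : ℝ), (ENNReal.ofReal (162 * q) * AA ψ f t x +
      ENNReal.ofReal (204800 * q⁻¹ ^ 3) * (AA ψ f0 t x + AA ψ f1 t x + AA ψ f2 t x)) := by
  have hR0 : 0 < R := lt_of_lt_of_le (by positivity) hR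
  have hle : ∀ g : E 2 → ℂ, (∀ y, g y ≠ 0 → ‖y‖ ≤ q ^ 4) → ∀ y, g y ≠ 0 → ‖y‖ ≤ 1 :=
    fun g hg y hy => (hg y hy).trans (by linarith)
  have hDS : ∀ g : E 2 → ℂ, Nice g → (∀ y, g y ≠ 0 → ‖y‖ ≤ q ^ 4) →
      ContinuousOn (fun t : ℝ => S g t x) (Ioi 0) := by
    intro g hg hgs t ht
    exact ((h4 g hg (hle g hgs) x t ht).1).continuousAt.continuousWithinAt
  have hD1 : ContinuousOn (fun t : ℝ => S1 f t x) (Ioi 0) := by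
    intro t ht
    exact ((h4 f hf (hle f hs) x t ht).2).continuousAt.continuousWithinAt
  have hcc : ContinuousOn (fun t : ℝ => S1 f t x / t - 4 * Real.pi ^ 2 * ‖x‖ ^ 2 * S f t x +
    4 * Real.pi ^ 2 * (2 * x 0 * S f0 t x + 2 * x 1 * S f1 t x - S f2 t x)) (Ioi 0) := by
    refine ContinuousOn.add (ContinuousOn.sub (ContinuousOn.div hD1
      Complex.continuous_ofReal.continuousOn ?_) (continuousOn_const.mul (hDS f hf hs)))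
      (continuousOn_const.mul (((continuousOn_const.mul (hDS f0 n0 s0)).add
        (continuousOn_const.mul (hDS f1 n1 s1))).sub (hDS f2 n2 s2)))
    intro t ht
    exact Complex.ofReal_ne_zero.mpr (ne_of_gt ht)
  have hosc := osc (fun t => S f t x) (fun t => S1 f t x)
    (fun t => S1 f t x / t - 4 * Real.pi ^ 2 * ‖x‖ ^ 2 * S f t x +
    4 * Real.pi ^ 2 * (2 * x 0 * S f0 t x + 2 * x 1 * S f1 t x - S f2 t x))
    (2 * Real.pi * ‖x‖) R q⁻¹ (by positivity) hR0 hcc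
    (fun t ht => (h4 f hf (hle f hs) x t ht).1)
    (fun t ht => by
      have h := (h4 f hf (hle f hs) x t ht).2
      rw [← e0, ← e1, ← e2] at h
      exact h)
  refine hosc.trans ?_
  have hx0 : |x 0| ≤ 2 := (PiLp.norm_apply_le x 0).trans hx.2
  have hx1 : |x 1| ≤ 2 := (PiLp.norm_apply_le x 1).trans hx.2
  have hSf := S1_eq ψ B hψ h2 h4 f hf (q ^ 4) hr2 hs (hE f hf).1 (hE f hf).2 x hx
  have hSf0 := S1_eq ψ B hψ h2 h4 f0 n0 (q ^ 4) hr2 s0 (hE f0 n0).1 (hE f0 n0).2 x hx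
  have hSf1 := S1_eq ψ B hψ h2 h4 f1 n1 (q ^ 4) hr2 s1 (hE f1 n1).1 (hE f1 n1).2 x hx
  have hSf2 := S1_eq ψ B hψ h2 h4 f2 n2 (q ^ 4) hr2 s2 (hE f2 n2).1 (hE f2 n2).2 x hx
  have hmono : ∫⁻ t in Ioc R (R + q⁻¹), (ENNReal.ofReal (162 * q) * AA ψ f t x +
      ENNReal.ofReal (204800 * q⁻¹ ^ 3) * (AA ψ f0 t x + AA ψ f1 t x + AA ψ f2 t x)) ≤
      ∫⁻ t in Ioi (0 : ℝ), (ENNReal.ofReal (162 * q) * AA ψ f t x +
      ENNReal.ofReal (204800 * q⁻¹ ^ 3) * (AA ψ f0 t x + AA ψ f1 t x + AA ψ f2 t x)) :=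
    lintegral_mono_set fun t ht => lt_trans hR0 ht.1
  refine le_trans (setLIntegral_mono' measurableSet_Ioc fun t ht => ?_) hmono
  have ht0 : 0 < t := lt_trans hR0 ht.1
  refine (ptw q t ‖x‖ (x 0) (x 1) (S f t x) (S1 f t x) (S f0 t x) (S f1 t x) (S f2 t x) hq
    (hR.trans ht.1.le) hx0 hx1).trans ?_
  refine add_le_add ?_ (mul_le_mul_right ?_ _)
  · rw [hSf.1 t ht0.le, hSf.2 t ht0]
    exact le_rfl
  · rw [hSf0.1 t ht0.le, hSf1.1 t ht0.le, hSf2.1 t ht0.le]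
    exact add_le_add (add_le_add le_self_add le_self_add) le_self_add

lemma sup_sq {u : ℝ → ℝ≥0∞} {s : Set ℝ} {Z : ℝ≥0∞} (h : ∀ R ∈ s, u R ^ 2 ≤ Z) :
    (⨆ R ∈ s, u R) ^ 2 ≤ Z := by
  have h1 : (⨆ R ∈ s, u R) ≤ Z ^ ((2 : ℝ)⁻¹) := by
    refine iSup₂_le fun R hR => ?_
    rw [ENNReal.le_rpow_inv_iff (by norm_num)]
    have := h R hR
    rwa [← ENNReal.rpow_natCast] at this
  rw [ENNReal.le_rpow_inv_iff (by norm_num)] at h1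
  rw [← ENNReal.rpow_natCast]
  exact h1

lemma lin4 {α : Type*} [MeasurableSpace α] (μ : Measure α) (g g0 g1 g2 : α → ℝ≥0∞)
    (mg : Measurable g) (m0 : Measurable g0) (m1 : Measurable g1) (m2 : Measurable g2)
    (c1 c2 : ℝ≥0∞) :
    ∫⁻ a, (c1 * g a + c2 * (g0 a + g1 a + g2 a)) ∂μ =
      c1 * (∫⁻ a, g a ∂μ) + c2 * ((∫⁻ a, g0 a ∂μ) + (∫⁻ a, g1 a ∂μ) + ∫⁻ a, g2 a ∂μ) := by
  have a1 : ∫⁻ a, (g0 a + g1 a + g2 a) ∂μ =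
      (∫⁻ a, g0 a ∂μ) + (∫⁻ a, g1 a ∂μ) + ∫⁻ a, g2 a ∂μ := by
    rw [lintegral_add_left (show Measurable fun a => g0 a + g1 a from m0.add m1),
      lintegral_add_left m0]
  rw [lintegral_add_left (mg.const_mul c1), lintegral_const_mul _ mg,
    lintegral_const_mul c2 (show Measurable fun a => g0 a + g1 a + g2 a from (m0.add m1).add m2),
    a1]

lemma lint4 (H H0 H1 H2 : ℝ × E 2 → ℝ≥0∞) (mH : Measurable H) (m0 : Measurable H0)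
    (m1 : Measurable H1) (m2 : Measurable H2) (c1 c2 : ℝ≥0∞) :
    ∫⁻ x, ∫⁻ t in Ioi (0 : ℝ), (c1 * H (t, x) + c2 * (H0 (t, x) + H1 (t, x) + H2 (t, x))) =
      c1 * (∫⁻ x, ∫⁻ t in Ioi (0 : ℝ), H (t, x)) + c2 * ((∫⁻ x, ∫⁻ t in Ioi (0 : ℝ), H0 (t, x)) +
        (∫⁻ x, ∫⁻ t in Ioi (0 : ℝ), H1 (t, x)) + ∫⁻ x, ∫⁻ t in Ioi (0 : ℝ), H2 (t, x)) := by
  have hm : ∀ G : ℝ × E 2 → ℝ≥0∞, Measurable G → ∀ x, Measurable fun t => G (t, x) :=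
    fun G hG x => hG.comp (measurable_id.prodMk measurable_const)
  have hi : ∀ G : ℝ × E 2 → ℝ≥0∞, Measurable G →
      Measurable fun x => ∫⁻ t in Ioi (0 : ℝ), G (t, x) :=
    fun G hG => hG.lintegral_prod_left'
  rw [← lin4 volume _ _ _ _ (hi H mH) (hi H0 m0) (hi H1 m1) (hi H2 m2) c1 c2]
  refine lintegral_congr fun x => ?_
  exact lin4 _ _ _ _ _ (hm H mH x) (hm H0 m0 x) (hm H1 m1 x) (hm H2 m2 x) c1 c2

end OFFB_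

open OFFB_ in
theorem p_OFFB (h1 : T_PSI) (h2 : T_SM) (h3 : T_EN) (h4 : T_D2S) : T_OFFB := by
  obtain ⟨ψ, B, hψ⟩ := h1
  obtain ⟨C, hC⟩ := h3 ψ B hψ
  refine ⟨614562 * C, fun r f hr hr2 hf hs => ?_⟩
  obtain ⟨q, hq⟩ : ∃ q : ℝ, q = Real.sqrt (Real.sqrt r) := ⟨_, rfl⟩
  have hq0 : 0 < q := by rw [hq]; exact Real.sqrt_pos.mpr (Real.sqrt_pos.mpr hr)
  have hq2 : Real.sqrt r = q ^ 2 := by rw [hq, Real.sq_sqrt (Real.sqrt_nonneg _)]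
  have hq4 : r = q ^ 4 := by
    have h := Real.sq_sqrt hr.le
    rw [hq2] at h
    rw [← h]; ring
  rw [← hq, hq2]
  subst hq4
  clear hq hq2
  have hq1 : q ≤ 1 := by
    by_contra h
    have h' : 1 ≤ q := (not_le.mp h).le
    have := one_le_pow₀ h' (n := 4)
    linarith
  -- the three auxiliary functions
  obtain ⟨f0, e0⟩ : ∃ f0 : E 2 → ℂ, f0 = fun y => (y 0 : ℂ) * f y := ⟨_, rfl⟩
  obtain ⟨f1, e1⟩ : ∃ f1 : E 2 → ℂ, f1 = fun y => (y 1 : ℂ) * f y := ⟨_, rfl⟩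
  obtain ⟨f2, e2⟩ : ∃ f2 : E 2 → ℂ, f2 = fun y => ((‖y‖ ^ 2 : ℝ) : ℂ) * f y := ⟨_, rfl⟩
  have hc : ∀ i : Fin 2, Measurable (fun y : E 2 => ((y i : ℝ) : ℂ)) := by
    intro i
    have : Continuous (fun y : E 2 => ((y i : ℝ) : ℂ)) := by fun_prop
    exact this.measurable
  have hb : ∀ i : Fin 2, ∀ y : E 2, ‖y‖ ≤ q ^ 4 → ‖((y i : ℝ) : ℂ)‖ ≤ q ^ 4 := by
    intro i y hy
    rw [Complex.norm_real]
    exact (PiLp.norm_apply_le y i).trans hy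
  obtain ⟨n0, s0, i0⟩ := mulnice hr hr2 hf hs (fun y => ((y 0 : ℝ) : ℂ)) (hc 0) (hb 0)
  obtain ⟨n1, s1, i1⟩ := mulnice hr hr2 hf hs (fun y => ((y 1 : ℝ) : ℂ)) (hc 1) (hb 1)
  have hc2 : Measurable (fun y : E 2 => ((‖y‖ ^ 2 : ℝ) : ℂ)) := by
    have : Continuous (fun y : E 2 => ((‖y‖ ^ 2 : ℝ) : ℂ)) := by fun_prop
    exact this.measurable
  obtain ⟨n2, s2, i2⟩ := mulnice hr hr2 hf hs (fun y => ((‖y‖ ^ 2 : ℝ) : ℂ)) hc2 (by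
    intro y hy
    rw [Complex.norm_real, Real.norm_eq_abs, abs_of_nonneg (by positivity)]
    nlinarith [norm_nonneg y])
  rw [← e0] at n0
  rw [← e1] at n1
  rw [← e2] at n2
  have s0' : ∀ y, f0 y ≠ 0 → ‖y‖ ≤ q ^ 4 := by rw [e0]; exact s0
  have s1' : ∀ y, f1 y ≠ 0 → ‖y‖ ≤ q ^ 4 := by rw [e1]; exact s1
  have s2' : ∀ y, f2 y ≠ 0 → ‖y‖ ≤ q ^ 4 := by rw [e2]; exact s2
  obtain ⟨N, hN⟩ : ∃ N : ℝ≥0∞, N = ∫⁻ x, ‖f x‖ₑ ^ 2 := ⟨_, rfl⟩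
  have i0' : ∫⁻ y, ‖f0 y‖ₑ ^ 2 ≤ ENNReal.ofReal ((q ^ 4) ^ 2) * N := by rw [e0, hN]; exact i0
  have i1' : ∫⁻ y, ‖f1 y‖ₑ ^ 2 ≤ ENNReal.ofReal ((q ^ 4) ^ 2) * N := by rw [e1, hN]; exact i1
  have i2' : ∫⁻ y, ‖f2 y‖ₑ ^ 2 ≤ ENNReal.ofReal ((q ^ 4) ^ 2) * N := by rw [e2, hN]; exact i2
  have hE : ∀ g : E 2 → ℂ, Nice g →
      ContinuousOn (fun p : ℝ × E 2 => F1 ψ g p.1 p.2) (Ici 0 ×ˢ univ) ∧
      ∀ (x : E 2) (R : ℝ), 0 ≤ R → FF ψ g R x = ∫ r in (0 : ℝ)..R, F1 ψ g r x :=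
    fun g hg => ⟨(hC g hg).1, (hC g hg).2.1⟩
  have hEN : ∀ g : E 2 → ℂ, Nice g →
      ∫⁻ x, ∫⁻ R in Ioi (0 : ℝ), AA ψ g R x ≤ C * ∫⁻ x, ‖g x‖ₑ ^ 2 :=
    fun g hg => (hC g hg).2.2.1
  obtain ⟨H, mH, hH⟩ := meas_AA ψ f (hE f hf).1 (hE f hf).2
  obtain ⟨H0, mH0, hH0⟩ := meas_AA ψ f0 (hE f0 n0).1 (hE f0 n0).2
  obtain ⟨H1, mH1, hH1⟩ := meas_AA ψ f1 (hE f1 n1).1 (hE f1 n1).2
  obtain ⟨H2, mH2, hH2⟩ := meas_AA ψ f2 (hE f2 n2).1 (hE f2 n2).2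
  have hI : ∀ (g : E 2 → ℂ) (G : ℝ × E 2 → ℝ≥0∞), (∀ t x, 0 ≤ t → G (t, x) = AA ψ g t x) →
      ∫⁻ x, ∫⁻ t in Ioi (0 : ℝ), G (t, x) = ∫⁻ x, ∫⁻ t in Ioi (0 : ℝ), AA ψ g t x := by
    intro g G hG
    refine lintegral_congr fun x => ?_
    exact setLIntegral_congr_fun measurableSet_Ioi fun t ht => hG t x (le_of_lt ht)
  have hms : MeasurableSet {x : E 2 | 1 ≤ ‖x‖ ∧ ‖x‖ ≤ 2} :=
    (measurableSet_le measurable_const measurable_norm).inter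
      (measurableSet_le measurable_norm measurable_const)
  calc ∫⁻ x in {x : E 2 | 1 ≤ ‖x‖ ∧ ‖x‖ ≤ 2}, (⨆ R ∈ Ici (q ^ 2)⁻¹, ‖S f R x‖ₑ) ^ 2
      ≤ ∫⁻ x in {x : E 2 | 1 ≤ ‖x‖ ∧ ‖x‖ ≤ 2}, ∫⁻ t in Ioi (0 : ℝ),
        (ENNReal.ofReal (162 * q) * AA ψ f t x +
        ENNReal.ofReal (204800 * q⁻¹ ^ 3) * (AA ψ f0 t x + AA ψ f1 t x + AA ψ f2 t x)) := by
        refine setLIntegral_mono' hms fun x hx => sup_sq fun R hR => ?_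
        exact per_x ψ B hψ h2 h4 hE q hq0 hr2 f f0 f1 f2 e0 e1 e2 hf n0 n1 n2 hs s0' s1' s2' x hx R hR
    _ ≤ ∫⁻ x, ∫⁻ t in Ioi (0 : ℝ), (ENNReal.ofReal (162 * q) * AA ψ f t x +
        ENNReal.ofReal (204800 * q⁻¹ ^ 3) * (AA ψ f0 t x + AA ψ f1 t x + AA ψ f2 t x)) :=
        setLIntegral_le_lintegral _ _
    _ = ∫⁻ x, ∫⁻ t in Ioi (0 : ℝ), (ENNReal.ofReal (162 * q) * H (t, x) +
        ENNReal.ofReal (204800 * q⁻¹ ^ 3) * (H0 (t, x) + H1 (t, x) + H2 (t, x))) := by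
        refine lintegral_congr fun x => ?_
        refine setLIntegral_congr_fun measurableSet_Ioi fun t ht => ?_
        show _ = _
        rw [hH t x (le_of_lt ht), hH0 t x (le_of_lt ht), hH1 t x (le_of_lt ht),
          hH2 t x (le_of_lt ht)]
    _ = ENNReal.ofReal (162 * q) * (∫⁻ x, ∫⁻ t in Ioi (0 : ℝ), AA ψ f t x) +
        ENNReal.ofReal (204800 * q⁻¹ ^ 3) * ((∫⁻ x, ∫⁻ t in Ioi (0 : ℝ), AA ψ f0 t x) +
        (∫⁻ x, ∫⁻ t in Ioi (0 : ℝ), AA ψ f1 t x) + ∫⁻ x, ∫⁻ t in Ioi (0 : ℝ), AA ψ f2 t x) := by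
        rw [lint4 H H0 H1 H2 mH mH0 mH1 mH2, hI f H hH, hI f0 H0 hH0, hI f1 H1 hH1, hI f2 H2 hH2]
    _ ≤ ENNReal.ofReal (162 * q) * (C * N) +
        ENNReal.ofReal (204800 * q⁻¹ ^ 3) * (C * (ENNReal.ofReal ((q ^ 4) ^ 2) * N) +
        C * (ENNReal.ofReal ((q ^ 4) ^ 2) * N) + C * (ENNReal.ofReal ((q ^ 4) ^ 2) * N)) := by
        refine add_le_add (mul_le_mul_right ((hEN f hf).trans_eq (by rw [hN])) _)
          (mul_le_mul_right (add_le_add (add_le_add ?_ ?_) ?_) _)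
        · exact (hEN f0 n0).trans (mul_le_mul_right i0' _)
        · exact (hEN f1 n1).trans (mul_le_mul_right i1' _)
        · exact (hEN f2 n2).trans (mul_le_mul_right i2' _)
    _ = ENNReal.ofReal (162 * q + 614400 * q⁻¹ ^ 3 * (q ^ 4) ^ 2) * (C * N) := by
        rw [ENNReal.ofReal_add (by positivity) (by positivity), add_mul]
        congr 1
        have e3 : ENNReal.ofReal (614400 * q⁻¹ ^ 3 * (q ^ 4) ^ 2) =
            3 * (ENNReal.ofReal (204800 * q⁻¹ ^ 3) * ENNReal.ofReal ((q ^ 4) ^ 2)) := by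
          rw [← ENNReal.ofReal_mul (by positivity), show (3 : ℝ≥0∞) = ENNReal.ofReal 3 by norm_num,
            ← ENNReal.ofReal_mul (by positivity)]
          congr 1
          ring
        rw [e3]
        ring
    _ ≤ ENNReal.ofReal (614562 * q) * (C * N) := by
        refine mul_le_mul_left (ENNReal.ofReal_le_ofReal ?_) _
        have e4 : 614400 * q⁻¹ ^ 3 * (q ^ 4) ^ 2 = 614400 * q ^ 5 := by
          field_simp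
        rw [e4]
        have h5 : q ^ 5 ≤ q := by
          calc q ^ 5 ≤ q ^ 1 := pow_le_pow_of_le_one hq0.le hq1 (by norm_num)
            _ = q := pow_one q
        linarith
    _ = ↑(614562 * C) * ENNReal.ofReal q * N := by
        rw [ENNReal.ofReal_mul (by norm_num), ENNReal.coe_mul]
        have e5 : ENNReal.ofReal 614562 = ((614562 : ℝ≥0) : ℝ≥0∞) := by norm_num
        rw [e5]
        ring
    _ = ↑(614562 * C) * ENNReal.ofReal q * ∫⁻ x, ‖f x‖ₑ ^ 2 := by rw [hN]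



end Pool.Agent.CRL
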