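import Pool.Agent.CRL.Targets

set_option autoImplicit false

/-!
# CRL, block OFFI: `f` on the unit shell, `x` near the origin
-/

namespace Pool.Agent.CRL

open MeasureTheory FourierTransform Set Filter Topology
open scoped ENNReal NNReal
open Pool.Agent.MBS (E ex S Sstar)
open Pool.Agent.KSP (IE)

namespace OFFI_

/-- `|Φ(R)|² ≤ ∫_0^∞ (|Φ|² + |Φ'|²)` for `Φ(R) = ∫_0^R g`. -/
theorem sup_sq {g : ℝ → ℂ} (hg : Continuous g) {R : ℝ} (hR : 0 ≤ R) :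
    ‖∫ t in (0 : ℝ)..R, g t‖ₑ ^ 2 ≤
      ∫⁻ t in Ioi (0 : ℝ), (‖∫ s in (0 : ℝ)..t, g s‖ₑ ^ 2 + ‖g t‖ₑ ^ 2) := by
  set F : ℝ → ℂ := fun t => ∫ s in (0 : ℝ)..t, g s with hF
  have hd : ∀ t, HasDerivAt F (g t) t := fun t =>
    intervalIntegral.integral_hasDerivAt_right (hg.intervalIntegrable _ _)
      (hg.stronglyMeasurableAtFilter _ _) hg.continuousAt
  have hFc : Continuous F := continuous_iff_continuousAt.2 fun t => (hd t).continuousAt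
  have hd2 : ∀ t, HasDerivAt (fun t => ‖F t‖ ^ 2) (2 * inner ℝ (F t) (g t)) t := fun t =>
    (hd t).norm_sq
  have hcont : Continuous fun t => 2 * inner ℝ (F t) (g t) :=
    continuous_const.mul (hFc.inner hg)
  have hftc : ∫ t in (0 : ℝ)..R, 2 * inner ℝ (F t) (g t) = ‖F R‖ ^ 2 - ‖F 0‖ ^ 2 :=
    intervalIntegral.integral_eq_sub_of_hasDerivAt (fun t _ => hd2 t)
      (hcont.intervalIntegrable _ _)
  have hF0 : F 0 = 0 := by simp [hF]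
  rw [hF0, norm_zero, zero_pow two_ne_zero, sub_zero] at hftc
  have hcont2 : Continuous fun t => ‖F t‖ ^ 2 + ‖g t‖ ^ 2 := (hFc.norm.pow 2).add (hg.norm.pow 2)
  have hle : ‖F R‖ ^ 2 ≤ ∫ t in (0 : ℝ)..R, (‖F t‖ ^ 2 + ‖g t‖ ^ 2) := by
    rw [← hftc]
    refine intervalIntegral.integral_mono_on hR (hcont.intervalIntegrable _ _)
      (hcont2.intervalIntegrable _ _) fun t _ => ?_
    have h1 : inner ℝ (F t) (g t) ≤ ‖F t‖ * ‖g t‖ := real_inner_le_norm _ _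
    nlinarith [sq_nonneg (‖F t‖ - ‖g t‖)]
  have e1 : ‖F R‖ₑ ^ 2 = ENNReal.ofReal (‖F R‖ ^ 2) := by
    rw [ENNReal.ofReal_pow (norm_nonneg _), ofReal_norm]
  rw [e1]
  refine (ENNReal.ofReal_le_ofReal hle).trans ?_
  rw [intervalIntegral.integral_of_le hR, ofReal_integral_eq_lintegral_ofReal
    (hcont2.integrableOn_Ioc) (ae_of_all _ fun t => by positivity)]
  have hsub : Ioc (0 : ℝ) R ⊆ Ioi 0 := Ioc_subset_Ioi_self
  refine (lintegral_mono_set hsub).trans (lintegral_mono fun t => ?_)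
  rw [ENNReal.ofReal_add (by positivity) (by positivity), ENNReal.ofReal_pow (norm_nonneg _),
    ENNReal.ofReal_pow (norm_nonneg _), ofReal_norm, ofReal_norm]

theorem iSup_sq_le {ι : Sort*} (a : ι → ℝ≥0∞) (W : ℝ≥0∞) (h : ∀ i, a i ^ 2 ≤ W) :
    (⨆ i, a i) ^ 2 ≤ W := by
  have h1 : ∀ i, a i ≤ W ^ (1 / 2 : ℝ) := by
    intro i
    have h2 : a i = (a i ^ 2) ^ (1 / 2 : ℝ) := by
      rw [← ENNReal.rpow_natCast, ← ENNReal.rpow_mul]
      norm_num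
    rw [h2]
    exact ENNReal.rpow_le_rpow (h i) (by norm_num)
  calc (⨆ i, a i) ^ 2 ≤ (W ^ (1 / 2 : ℝ)) ^ 2 := by
        gcongr
        exact iSup_le h1
    _ = W := by
        rw [← ENNReal.rpow_natCast, ← ENNReal.rpow_mul]
        norm_num

theorem prim_cont (G : E 2 → ℝ → ℂ) (hG : Continuous (fun p : E 2 × ℝ => G p.1 p.2)) :
    Continuous (fun p : E 2 × ℝ => ∫ t in (0 : ℝ)..p.2, G p.1 t) := by
  have h0 : Continuous (fun q : (E 2 × ℝ) × ℝ => ((q.1.1, q.2) : E 2 × ℝ)) := by fun_prop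
  have h1 : Continuous (Function.uncurry fun (p : E 2 × ℝ) (t : ℝ) => G p.1 t) := hG.comp h0
  exact intervalIntegral.continuous_parametric_intervalIntegral_of_continuous h1 continuous_snd

theorem dw_nonneg (n : ℕ) (R : ℝ) (ξ : E 2) : 0 ≤ dw n R ξ := by
  unfold dw
  positivity

theorem dw_continuous (n : ℕ) : Continuous fun p : ℝ × E 2 => dw n p.1 p.2 := by
  unfold dw
  refine Continuous.inv₀ (by fun_prop) fun p => ?_
  positivity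

theorem dw_le {R : ℝ} (hR : 0 ≤ R) (ξ : E 2) :
    dw 3 R ξ ≤ (1 + R) ^ 3 * (1 + ‖ξ‖) ^ (-(3 : ℝ)) := by
  have h1 : 0 < 1 + |‖ξ‖ - R| := by positivity
  have h2 : 0 < 1 + ‖ξ‖ := by positivity
  have e : (1 + ‖ξ‖) ^ (-(3 : ℝ)) = ((1 + ‖ξ‖) ^ 3)⁻¹ := by
    rw [Real.rpow_neg h2.le]
    norm_cast
  rw [e]
  unfold dw
  have h3 : 1 + ‖ξ‖ ≤ (1 + R) * (1 + |‖ξ‖ - R|) := by
    have := le_abs_self (‖ξ‖ - R)
    have h4 : 0 ≤ R * |‖ξ‖ - R| := by positivity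
    nlinarith
  have h5 : (1 + ‖ξ‖) ^ 3 ≤ (1 + R) ^ 3 * (1 + |‖ξ‖ - R|) ^ 3 := by
    rw [← mul_pow]
    exact pow_le_pow_left₀ h2.le h3 3
  rw [inv_eq_one_div, inv_eq_one_div, mul_one_div, div_le_div_iff₀ (by positivity) (by positivity),
    one_mul]
  exact h5

theorem dw3_int {R : ℝ} (hR : 0 ≤ R) : Integrable fun ξ : E 2 => dw 3 R ξ := by
  have h := integrable_one_add_norm (E := E 2) (μ := (volume : Measure (E 2))) (r := 3)
    (by rw [finrank_euclideanSpace_fin]; norm_num)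
  refine Integrable.mono' (h.const_mul ((1 + R) ^ 3)) ?_ (ae_of_all _ fun ξ => ?_)
  · exact ((dw_continuous 3).comp (Continuous.prodMk_right R)).aestronglyMeasurable
  · rw [Real.norm_eq_abs, abs_of_nonneg (dw_nonneg _ _ _)]
    exact dw_le hR ξ

/-- integral of the weight over the radius -/
theorem dw4_R (ξ : E 2) : ∫⁻ R, ENNReal.ofReal (dw 4 R ξ) =
    ∫⁻ t : ℝ, ENNReal.ofReal ((1 + |t|) ^ 4)⁻¹ := by
  unfold dw
  exact lintegral_sub_left_eq_self (fun t : ℝ => ENNReal.ofReal ((1 + |t|) ^ 4)⁻¹) ‖ξ‖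

theorem c0_fin : ∫⁻ t : ℝ, ENNReal.ofReal ((1 + |t|) ^ 4)⁻¹ ≠ ⊤ := by
  have h := integrable_one_add_norm (E := ℝ) (μ := (volume : Measure ℝ)) (r := 4)
    (by rw [Module.finrank_self]; norm_num)
  have h2 := h.lintegral_lt_top
  refine ne_of_lt (lt_of_le_of_lt (lintegral_mono fun t => ?_) h2)
  refine ENNReal.ofReal_le_ofReal (le_of_eq ?_)
  have h3 : (0 : ℝ) ≤ 1 + ‖t‖ := by positivity
  rw [Real.rpow_neg h3, Real.norm_eq_abs]
  norm_cast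

theorem fourier_cont {f : E 2 → ℂ} (hf : Integrable f) : Continuous (𝓕 f) :=
  VectorFourier.fourierIntegral_continuous (V := E 2) (W := E 2)
    Real.continuous_fourierChar (L := innerₗ (E 2)) continuous_inner hf

theorem fourier_bd (f : E 2 → ℂ) (ξ : E 2) : ‖𝓕 f ξ‖ ≤ ∫ y, ‖f y‖ :=
  VectorFourier.norm_fourierIntegral_le_integral_norm _ _ _ _ _

/-- The multiplier times the Fourier transform. -/
theorem nice_mul {m : E 2 → ℂ} (hm : Continuous m) {C R : ℝ} (hR : 0 ≤ R)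
    (hmC : ∀ ξ, ‖m ξ‖ ≤ C * dw 3 R ξ) {f : E 2 → ℂ} (hf : Nice f) :
    Nice (fun ξ => m ξ * 𝓕 f ξ) := by
  have hc : Continuous fun ξ => m ξ * 𝓕 f ξ := hm.mul (fourier_cont hf.int)
  set M := ∫ y, ‖f y‖ with hM
  have hM0 : 0 ≤ M := integral_nonneg fun _ => norm_nonneg _
  have hC : 0 ≤ C := by
    by_contra hcon
    push Not at hcon
    have h1 := hmC 0
    have h2 : 0 < dw 3 R 0 := by unfold dw; positivity
    have h3 := norm_nonneg (m 0)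
    nlinarith
  have hb : ∀ ξ, ‖m ξ * 𝓕 f ξ‖ ≤ M * (C * dw 3 R ξ) := by
    intro ξ
    rw [norm_mul, mul_comm]
    exact mul_le_mul (fourier_bd f ξ) (hmC ξ) (norm_nonneg _) hM0
  have hint : Integrable fun ξ => m ξ * 𝓕 f ξ :=
    Integrable.mono' (((dw3_int hR).const_mul C).const_mul M) hc.aestronglyMeasurable
      (ae_of_all _ hb)
  have hone : ∀ ξ, ‖m ξ * 𝓕 f ξ‖ ≤ M * C := by
    intro ξ
    refine (hb ξ).trans ?_
    have h1 : dw 3 R ξ ≤ 1 := by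
      unfold dw
      refine inv_le_one_of_one_le₀ (one_le_pow₀ ?_)
      have := abs_nonneg (‖ξ‖ - R)
      linarith
    have : C * dw 3 R ξ ≤ C * 1 := mul_le_mul_of_nonneg_left h1 hC
    nlinarith
  refine ⟨hc.measurable, hint, ?_⟩
  rw [memLp_two_iff_integrable_sq_norm hc.aestronglyMeasurable]
  refine Integrable.mono' (hint.norm.const_mul (M * C)) (hc.norm.pow 2).aestronglyMeasurable
    (ae_of_all _ fun ξ => ?_)
  rw [Real.norm_eq_abs, abs_of_nonneg (by positivity), pow_two]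
  exact mul_le_mul_of_nonneg_right (hone ξ) (norm_nonneg _)

/-- One radius. -/
theorem one_radius {CL : ℝ≥0}
    (hL : ∀ (u : E 2 → ℂ) (R r : ℝ), Nice u → 0 < r → r ≤ 1 →
      ∫⁻ x in Metric.closedBall (0 : E 2) r, ‖IE u x‖ₑ ^ 2 ≤
        CL * ENNReal.ofReal r * ∫⁻ ξ, ‖u ξ‖ₑ ^ 2 * ENNReal.ofReal ((1 + |‖ξ‖ - R|) ^ 2))
    {m : E 2 → ℂ} (hm : Continuous m) {C R : ℝ} (hR : 0 ≤ R)
    (hmC : ∀ ξ, ‖m ξ‖ ≤ C * dw 3 R ξ) {f : E 2 → ℂ} (hf : Nice f) {r : ℝ} (hr : 0 < r)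
    (hr1 : r ≤ 1) :
    ∫⁻ x in Metric.closedBall (0 : E 2) r, ‖IE (fun ξ => m ξ * 𝓕 f ξ) x‖ₑ ^ 2 ≤
      CL * ENNReal.ofReal r * (ENNReal.ofReal (C ^ 2) *
        ∫⁻ ξ, ENNReal.ofReal (dw 4 R ξ) * ‖𝓕 f ξ‖ₑ ^ 2) := by
  refine (hL _ R r (nice_mul hm hR hmC hf) hr hr1).trans ?_
  refine mul_le_mul_right ?_ _
  rw [← lintegral_const_mul' _ _ ENNReal.ofReal_ne_top]
  refine lintegral_mono fun ξ => ?_
  have h1 : 0 < 1 + |‖ξ‖ - R| := by positivity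
  have e1 : ‖m ξ * 𝓕 f ξ‖ₑ ^ 2 = ENNReal.ofReal (‖m ξ‖ ^ 2) * ‖𝓕 f ξ‖ₑ ^ 2 := by
    rw [enorm_mul, mul_pow, ENNReal.ofReal_pow (norm_nonneg _), ofReal_norm]
  simp only
  rw [e1]
  have h2 : ‖m ξ‖ ^ 2 * (1 + |‖ξ‖ - R|) ^ 2 ≤ C ^ 2 * dw 4 R ξ := by
    have h3 : ‖m ξ‖ ^ 2 ≤ (C * dw 3 R ξ) ^ 2 := pow_le_pow_left₀ (norm_nonneg _) (hmC ξ) 2
    calc ‖m ξ‖ ^ 2 * (1 + |‖ξ‖ - R|) ^ 2 ≤ (C * dw 3 R ξ) ^ 2 * (1 + |‖ξ‖ - R|) ^ 2 :=
          mul_le_mul_of_nonneg_right h3 (by positivity)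
      _ = C ^ 2 * dw 4 R ξ := by
          unfold dw
          field_simp
  calc ENNReal.ofReal (‖m ξ‖ ^ 2) * ‖𝓕 f ξ‖ₑ ^ 2 * ENNReal.ofReal ((1 + |‖ξ‖ - R|) ^ 2)
      = ENNReal.ofReal (‖m ξ‖ ^ 2 * (1 + |‖ξ‖ - R|) ^ 2) * ‖𝓕 f ξ‖ₑ ^ 2 := by
        rw [ENNReal.ofReal_mul (by positivity)]
        ring
    _ ≤ ENNReal.ofReal (C ^ 2 * dw 4 R ξ) * ‖𝓕 f ξ‖ₑ ^ 2 :=
        mul_le_mul_left (ENNReal.ofReal_le_ofReal h2) _
    _ = ENNReal.ofReal (C ^ 2) * (ENNReal.ofReal (dw 4 R ξ) * ‖𝓕 f ξ‖ₑ ^ 2) := by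
        rw [ENNReal.ofReal_mul (by positivity)]
        ring

theorem joint_meas {F : E 2 → ℂ} (hF : Continuous F) :
    Measurable fun p : ℝ × E 2 => ENNReal.ofReal (dw 4 p.1 p.2) * ‖F p.2‖ₑ ^ 2 :=
  ((dw_continuous 4).measurable.ennreal_ofReal).mul
    ((hF.measurable.comp measurable_snd).enorm.pow_const 2)

theorem A_meas {F : E 2 → ℂ} (hF : Continuous F) :
    Measurable fun R : ℝ => ∫⁻ ξ : E 2, ENNReal.ofReal (dw 4 R ξ) * ‖F ξ‖ₑ ^ 2 :=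
  (joint_meas hF).lintegral_prod_right'

theorem A_int {F : E 2 → ℂ} (hF : Continuous F) :
    ∫⁻ R : ℝ, ∫⁻ ξ : E 2, ENNReal.ofReal (dw 4 R ξ) * ‖F ξ‖ₑ ^ 2 =
      (∫⁻ t : ℝ, ENNReal.ofReal ((1 + |t|) ^ 4)⁻¹) * ∫⁻ ξ, ‖F ξ‖ₑ ^ 2 := by
  rw [lintegral_lintegral_swap (joint_meas hF).aemeasurable]
  have e : ∀ ξ : E 2, ∫⁻ R : ℝ, ENNReal.ofReal (dw 4 R ξ) * ‖F ξ‖ₑ ^ 2 =
      (∫⁻ t : ℝ, ENNReal.ofReal ((1 + |t|) ^ 4)⁻¹) * ‖F ξ‖ₑ ^ 2 := by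
    intro ξ
    have hcR : Continuous fun R : ℝ => dw 4 R ξ := by
      unfold dw
      refine Continuous.inv₀ (by fun_prop) fun p => ?_
      positivity
    have hmR : Measurable fun R : ℝ => ENNReal.ofReal (dw 4 R ξ) := hcR.measurable.ennreal_ofReal
    rw [lintegral_mul_const _ hmR, dw4_R]
  rw [lintegral_congr e, lintegral_const_mul' _ _ c0_fin]

end OFFI_

open OFFI_ in
theorem p_OFFI (h1 : T_PSI) (h2 : T_MM) (h3 : T_SM) (h4 : T_EN) (h5 : T_LE) : T_OFFI := by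
  obtain ⟨ψ, B, hψ⟩ := h1
  obtain ⟨hmm, hm1c, CM, hCM0, hCM⟩ := h2 ψ B hψ
  obtain ⟨CE, hE⟩ := h4 ψ B hψ
  obtain ⟨CL, hL⟩ := h5
  set c0 : ℝ≥0∞ := ∫⁻ t : ℝ, ENNReal.ofReal ((1 + |t|) ^ 4)⁻¹ with hc0
  refine ⟨2 * CL * Real.toNNReal (CM ^ 2) * c0.toNNReal, ?_⟩
  intro r f hr hr2 hf hsupp
  obtain ⟨hFc, hFF, -, -⟩ := hE f hf
  set g : E 2 → ℝ → ℂ := fun x t => F1 ψ f (max t 0) x with hgdef
  have hg : Continuous (fun p : E 2 × ℝ => g p.1 p.2) := by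
    refine hFc.comp_continuous (f := fun p : E 2 × ℝ => ((max p.2 0, p.1) : ℝ × E 2))
      (by fun_prop) fun p => ?_
    exact Set.mk_mem_prod (show (0 : ℝ) ≤ max p.2 0 from le_max_right _ _) (mem_univ _)
  have hgx : ∀ x, Continuous (g x) := fun x => hg.comp (Continuous.prodMk_right x)
  set Φ : E 2 → ℝ → ℂ := fun x R => ∫ t in (0 : ℝ)..R, g x t with hΦdef
  have hΦ : Continuous (fun p : E 2 × ℝ => Φ p.1 p.2) := prim_cont g hg
  have hgF : ∀ x R, 0 ≤ R → g x R = F1 ψ f R x := by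
    intro x R hR
    simp only [hgdef, max_eq_left hR]
  have hΦF : ∀ x R, 0 ≤ R → Φ x R = FF ψ f R x := by
    intro x R hR
    rw [hFF x R hR]
    refine intervalIntegral.integral_congr fun t ht => ?_
    rw [uIcc_of_le hR] at ht
    exact hgF x t ht.1
  have hpt : ∀ x ∈ Metric.closedBall (0 : E 2) r, Sstar f x ^ 2 ≤
      ∫⁻ R in Ioi (0 : ℝ), (‖Φ x R‖ₑ ^ 2 + ‖g x R‖ₑ ^ 2) := by
    intro x hx
    rw [mem_closedBall_zero_iff] at hx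
    have hS : ∀ R : ℝ, 0 < R → S f R x = Φ x R := by
      intro R hR
      rw [hΦF x R hR.le]
      refine h3 ψ B hψ f hf x (fun y hy => ?_) R hR.le
      obtain ⟨y1, y2⟩ := hsupp y hy
      constructor
      · have := norm_sub_norm_le y x
        rw [norm_sub_rev] at this
        linarith
      · have := norm_sub_le x y
        linarith
    unfold Sstar
    refine iSup_sq_le _ _ fun R => iSup_sq_le _ _ fun hR => ?_
    rw [hS R hR]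
    exact sup_sq (hgx x) hR.le
  have hmmc : ∀ R : ℝ, 0 ≤ R → Continuous (mm ψ R) := by
    intro R hR
    have e : mm ψ R = fun ξ => ∫ t in (0 : ℝ)..R, m1 ψ t ξ := funext fun ξ => hmm R hR ξ
    rw [e]
    have h0 : Continuous (fun q : E 2 × ℝ => ((q.2, q.1) : ℝ × E 2)) := by fun_prop
    have h := prim_cont (fun ξ t => m1 ψ t ξ) (hm1c.comp h0)
    exact h.comp (Continuous.prodMk_left R)
  have hr1 : r ≤ 1 := by linarith
  set A : ℝ → ℝ≥0∞ := fun R => ∫⁻ ξ, ENNReal.ofReal (dw 4 R ξ) * ‖𝓕 f ξ‖ₑ ^ 2 with hA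
  have hrad : ∀ R ∈ Ioi (0 : ℝ), ∫⁻ x in Metric.closedBall (0 : E 2) r,
      (‖Φ x R‖ₑ ^ 2 + ‖g x R‖ₑ ^ 2) ≤
        2 * (CL * ENNReal.ofReal r * (ENNReal.ofReal (CM ^ 2) * A R)) := by
    intro R hR
    have hR0 : 0 ≤ R := le_of_lt hR
    have hm : Measurable fun x => ‖Φ x R‖ₑ ^ 2 :=
      ((hΦ.comp (Continuous.prodMk_left R)).enorm.measurable).pow_const 2
    rw [lintegral_add_left hm, two_mul]
    refine add_le_add ?_ ?_
    · refine le_trans (le_of_eq ?_) (one_radius hL (hmmc R hR0) hR0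
        (fun ξ => (hCM R ξ hR0).1) hf hr hr1)
      refine lintegral_congr fun x => ?_
      rw [hΦF x R hR0]
      rfl
    · refine le_trans (le_of_eq ?_) (one_radius hL
        (hm1c.comp (Continuous.prodMk_right R)) hR0 (fun ξ => (hCM R ξ hR0).2) hf hr hr1)
      refine lintegral_congr fun x => ?_
      rw [hgF x R hR0]
      rfl
  have hFm : Continuous (𝓕 f) := fourier_cont hf.int
  have hAm : Measurable A := A_meas hFm
  have hAint : ∫⁻ R, A R = c0 * ∫⁻ x, ‖f x‖ₑ ^ 2 := by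
    rw [← Pool.Agent.KSP.FA2_.plancherel hf.int hf.sq]
    exact A_int hFm
  have hc0' : (c0.toNNReal : ℝ≥0∞) = c0 := ENNReal.coe_toNNReal c0_fin
  calc ∫⁻ x in Metric.closedBall (0 : E 2) r, Sstar f x ^ 2
      ≤ ∫⁻ x in Metric.closedBall (0 : E 2) r,
          ∫⁻ R in Ioi (0 : ℝ), (‖Φ x R‖ₑ ^ 2 + ‖g x R‖ₑ ^ 2) :=
        setLIntegral_mono' Metric.isClosed_closedBall.measurableSet hpt
    _ = ∫⁻ R in Ioi (0 : ℝ), ∫⁻ x in Metric.closedBall (0 : E 2) r,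
          (‖Φ x R‖ₑ ^ 2 + ‖g x R‖ₑ ^ 2) := by
        refine lintegral_lintegral_swap ?_
        exact (((hΦ.measurable.enorm.pow_const 2).add
          (hg.measurable.enorm.pow_const 2))).aemeasurable
    _ ≤ ∫⁻ R in Ioi (0 : ℝ),
          2 * (CL * ENNReal.ofReal r * (ENNReal.ofReal (CM ^ 2) * A R)) :=
        setLIntegral_mono' measurableSet_Ioi hrad
    _ ≤ ∫⁻ R : ℝ, 2 * (CL * ENNReal.ofReal r * (ENNReal.ofReal (CM ^ 2) * A R)) :=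
        setLIntegral_le_lintegral _ _
    _ = 2 * (CL * ENNReal.ofReal r * (ENNReal.ofReal (CM ^ 2) * ∫⁻ R : ℝ, A R)) := by
        rw [lintegral_const_mul _ ((hAm.const_mul _).const_mul _),
          lintegral_const_mul _ (hAm.const_mul _), lintegral_const_mul _ hAm]
    _ = _ := by
        rw [hAint]
        push_cast
        rw [hc0']
        have e : ((Real.toNNReal (CM ^ 2) : ℝ≥0) : ℝ≥0∞) = ENNReal.ofReal (CM ^ 2) := rfl
        rw [e]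
        ring

end Pool.Agent.CRL
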