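import Pool.Agent.CRL.Targets

set_option autoImplicit false

/-!
# POLC: polar coordinates on the Euclidean plane
-/

namespace Pool.Agent.CRL

open MeasureTheory FourierTransform Set Filter Topology
open scoped ENNReal NNReal
open Pool.Agent.MBS (E ex S Sstar)

namespace POLC_

/-- the equivalence of `ℝ × ℝ` with the Euclidean plane -/
noncomputable def eqv : ℝ × ℝ ≃ᵐ E 2 :=
  MeasurableEquiv.finTwoArrow.symm.trans (MeasurableEquiv.toLp 2 (Fin 2 → ℝ))

theorem mp : MeasurePreserving eqv (volume : Measure (ℝ × ℝ)) (volume : Measure (E 2)) := by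
  have h1 := (volume_preserving_finTwoArrow ℝ).symm MeasurableEquiv.finTwoArrow
  have h2 := (EuclideanSpace.volume_preserving_symm_measurableEquiv_toLp (Fin 2)).symm
  exact h2.comp h1

theorem eqv_polar (p : ℝ × ℝ) : eqv (polarCoord.symm p) = p.1 • ev p.2 := by
  ext i
  fin_cases i <;> simp [eqv, ev, polarCoord, MeasurableEquiv.finTwoArrow]

theorem lint (F : E 2 → ℝ≥0∞) (hF : Measurable F) :
    ∫⁻ x, F x = ∫⁻ r in Ioi (0 : ℝ), ∫⁻ θ in Ioc (-Real.pi) Real.pi,
      ENNReal.ofReal r * F (r • ev θ) := by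
  rw [← mp.lintegral_comp hF, ← lintegral_comp_polarCoord_symm]
  simp_rw [eqv_polar, smul_eq_mul]
  have ht : polarCoord.target = Ioi (0 : ℝ) ×ˢ Ioo (-Real.pi) Real.pi := rfl
  rw [ht, Measure.volume_eq_prod, ← Measure.prod_restrict, lintegral_prod]
  · refine lintegral_congr fun r => ?_
    rw [Measure.restrict_congr_set Ioo_ae_eq_Ioc]
  · have hc : Continuous (fun p : ℝ × ℝ => p.1 • ev p.2) := by
      have h : (fun p : ℝ × ℝ => p.1 • ev p.2) =
          fun p => !₂[p.1 * Real.cos p.2, p.1 * Real.sin p.2] := by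
        funext p
        ext i
        fin_cases i <;> simp [ev]
      rw [h]
      fun_prop
    exact ((ENNReal.measurable_ofReal.comp measurable_fst).mul
      (hF.comp hc.measurable)).aemeasurable

theorem intg (F : E 2 → ℂ) (hF : Integrable F) :
    ∫ x, F x = ∫ r in Ioi (0 : ℝ), (r : ℂ) * ∫ θ in (-Real.pi)..Real.pi, F (r • ev θ) := by
  have h1 : ∫ x, F x = ∫ p : ℝ × ℝ, F (eqv p) :=
    (mp.integral_comp eqv.measurableEmbedding F).symm
  have hi : Integrable (fun p : ℝ × ℝ => F (eqv p)) :=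
    (mp.integrable_comp_emb eqv.measurableEmbedding).2 hF
  have ht : polarCoord.target = Ioi (0 : ℝ) ×ˢ Ioo (-Real.pi) Real.pi := rfl
  have h2 : IntegrableOn (fun p : ℝ × ℝ => p.1 • F (eqv (polarCoord.symm p)))
      (Ioi (0 : ℝ) ×ˢ Ioo (-Real.pi) Real.pi) := by
    have h3 := (integrableOn_image_iff_integrableOn_abs_det_fderiv_smul (volume : Measure (ℝ × ℝ))
      polarCoord.open_target.measurableSet
      (fun p _ => (hasFDerivAt_polarCoord_symm p).hasFDerivWithinAt) polarCoord.symm.injOn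
      (fun p : ℝ × ℝ => F (eqv p))).1 hi.integrableOn
    rw [ht] at h3
    refine h3.congr_fun ?_ (measurableSet_Ioi.prod measurableSet_Ioo)
    intro p hp
    show |(fderivPolarCoordSymm p).det| • _ = _
    rw [det_fderivPolarCoordSymm, abs_of_pos hp.1]
  rw [h1, ← integral_comp_polarCoord_symm, ht, Measure.volume_eq_prod, setIntegral_prod _ h2]
  refine integral_congr_ae (Eventually.of_forall fun r => ?_)
  show ∫ θ in Ioo (-Real.pi) Real.pi, r • F (eqv (polarCoord.symm (r, θ))) = _
  simp_rw [eqv_polar]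
  rw [integral_smul, intervalIntegral.integral_of_le (by linarith [Real.pi_pos]),
    integral_Ioc_eq_integral_Ioo, Complex.real_smul]

end POLC_

theorem p_POLC : T_POLC := ⟨POLC_.lint, POLC_.intg⟩

end Pool.Agent.CRL
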