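import Pool.Agent.CRL.Targets2
import Pool.Agent.CRL.P_POLC

set_option autoImplicit false

/-!
# CRL, target PI: the large radii, integration over the set
-/

namespace Pool.Agent.CRL

open MeasureTheory FourierTransform Set Filter Topology
open scoped ENNReal NNReal
open Pool.Agent.MBS (E ex S Sstar)
open Pool.Agent.KSP (IE)
open Pool.Agent.CAR (e1 T_CARL)

namespace PI_

theorem continuous_ev : Continuous ev := by
  have h : ev = fun θ => !₂[Real.cos θ, Real.sin θ] := rfl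
  rw [h]
  fun_prop

theorem continuous_smul_ev : Continuous (fun p : ℝ × ℝ => p.1 • ev p.2) :=
  continuous_fst.smul (continuous_ev.comp continuous_snd)

theorem ev_per (θ : ℝ) : ev (θ + 2 * Real.pi) = ev θ := by
  ext i
  fin_cases i <;> simp [ev]

/-- the argument -/
noncomputable def Ar (x : E 2) : ℝ := Complex.arg ((x 0 : ℂ) + (x 1 : ℂ) * Complex.I)

theorem measurable_Ar : Measurable Ar := by
  unfold Ar
  refine Complex.measurable_arg.comp ?_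
  have h0 : Measurable (fun x : E 2 => x 0) := by fun_prop
  have h1 : Measurable (fun x : E 2 => x 1) := by fun_prop
  exact (Complex.measurable_ofReal.comp h0).add
    ((Complex.measurable_ofReal.comp h1).mul measurable_const)

theorem Ar_polar {r θ : ℝ} (hr : 0 < r) (hθ : θ ∈ Ioc (-Real.pi) Real.pi) :
    Ar (r • ev θ) = θ := by
  have h := Complex.arg_mul_cos_add_sin_mul_I hr hθ
  have h2 : (((r • ev θ) 0 : ℝ) : ℂ) + (((r • ev θ) 1 : ℝ) : ℂ) * Complex.I =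
      r * (Complex.cos θ + Complex.sin θ * Complex.I) := by
    simp [ev]
    ring
  unfold Ar
  rw [h2, h]

theorem norm_polar {r θ : ℝ} (hr : 0 < r) : ‖r • ev θ‖ = r := by
  rw [norm_smul, Real.norm_of_nonneg hr.le]
  have : ‖ev θ‖ = 1 := by
    rw [EuclideanSpace.norm_eq]
    simp [ev]
  rw [this, mul_one]

theorem polar_Ar (x : E 2) : x = ‖x‖ • ev (Ar x) := by
  have h := Complex.norm_mul_cos_add_sin_mul_I ((x 0 : ℂ) + (x 1 : ℂ) * Complex.I)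
  have hn : ‖(x 0 : ℂ) + (x 1 : ℂ) * Complex.I‖ = ‖x‖ := by
    rw [EuclideanSpace.norm_eq, Complex.norm_add_mul_I]
    simp
  rw [hn] at h
  have hre := congrArg Complex.re h
  have him := congrArg Complex.im h
  simp only [← Complex.ofReal_cos, ← Complex.ofReal_sin, Complex.mul_re, Complex.mul_im,
    Complex.add_re, Complex.add_im, Complex.ofReal_re, Complex.ofReal_im, Complex.I_re,
    Complex.I_im, mul_zero, mul_one, zero_mul, sub_zero, add_zero, zero_add, sub_self] at hre him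
  ext i
  fin_cases i
  · simpa [ev, Ar] using hre.symm
  · simpa [ev, Ar] using him.symm

/-- Cauchy–Schwarz for square roots -/
theorem CS {α : Type*} [MeasurableSpace α] (μ : Measure α) {f g : α → ℝ≥0∞} (hf : Measurable f)
    (hg : Measurable g) : ∫⁻ a, f a ^ (1 / 2 : ℝ) * g a ^ (1 / 2 : ℝ) ∂μ ≤
      (∫⁻ a, f a ∂μ) ^ (1 / 2 : ℝ) * (∫⁻ a, g a ∂μ) ^ (1 / 2 : ℝ) := by
  have h := ENNReal.lintegral_mul_le_Lp_mul_Lq μ (Real.HolderConjugate.two_two)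
    (f := fun a => f a ^ (1 / 2 : ℝ)) (g := fun a => g a ^ (1 / 2 : ℝ))
    (hf.pow_const _).aemeasurable (hg.pow_const _).aemeasurable
  have e : ∀ z : ℝ≥0∞, (z ^ (1 / 2 : ℝ)) ^ (2 : ℝ) = z := by
    intro z
    rw [← ENNReal.rpow_mul]
    norm_num
  simp only [e] at h
  exact h

/-- the radial integral -/
noncomputable def GG (g : E 2 → ℂ) (θ : ℝ) : ℝ≥0∞ :=
  ∫⁻ r in Ioi (0 : ℝ), ENNReal.ofReal r * ‖g (r • ev θ)‖ₑ ^ 2

theorem measurable_aux {g : E 2 → ℂ} (hg : Measurable g) :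
    Measurable (fun p : ℝ × ℝ => ENNReal.ofReal p.1 * ‖g (p.1 • ev p.2)‖ₑ ^ 2) :=
  (ENNReal.measurable_ofReal.comp measurable_fst).mul
    ((hg.comp continuous_smul_ev.measurable).enorm.pow_const 2)

theorem measurable_GG {g : E 2 → ℂ} (hg : Measurable g) : Measurable (GG g) := by
  unfold GG
  exact (measurable_aux hg).lintegral_prod_left'

theorem GG_per (g : E 2 → ℂ) (θ : ℝ) : GG g (θ + 2 * Real.pi) = GG g θ := by
  unfold GG
  rw [ev_per]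

theorem lint_per {F : ℝ → ℝ≥0∞} (hF : ∀ θ, F (θ + 2 * Real.pi) = F θ) (ψ : ℝ) :
    ∫⁻ θ in Ioc (-Real.pi) Real.pi, F (θ + ψ) = ∫⁻ θ in Ioc (-Real.pi) Real.pi, F θ := by
  have hp : (0 : ℝ) < 2 * Real.pi := by positivity
  have h1 : ∫⁻ θ in Ioc (-Real.pi) Real.pi, F (θ + ψ) =
      ∫⁻ θ in Ioc (-Real.pi + ψ) (-Real.pi + ψ + 2 * Real.pi), F θ := by
    have hm := (measurePreserving_add_right (volume : Measure ℝ) ψ)
    have h2 := hm.setLIntegral_comp_emb (measurableEmbedding_addRight ψ) F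
      (Ioc (-Real.pi) Real.pi)
    rw [h2]
    congr 2
    rw [image_add_const_Ioc]
    congr 1
    ring
  have h3 := (isAddFundamentalDomain_Ioc hp (-Real.pi + ψ)).setLIntegral_eq
    (isAddFundamentalDomain_Ioc hp (-Real.pi)) F (by
      rintro ⟨g, hg⟩ x
      obtain ⟨n, rfl⟩ := AddSubgroup.mem_zmultiples_iff.1 hg
      have hper : Function.Periodic F (2 * Real.pi) := hF
      rw [AddSubgroup.vadd_def, vadd_eq_add, add_comm]
      exact hper.zsmul n x)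
  rw [h1, h3]
  congr 2
  congr 1
  ring

theorem int_GG (hPOLC : T_POLC) {g : E 2 → ℂ} (hg : Measurable g) :
    ∫⁻ θ in Ioc (-Real.pi) Real.pi, GG g θ = ∫⁻ ξ, ‖g ξ‖ₑ ^ 2 := by
  rw [hPOLC.1 (fun ξ => ‖g ξ‖ₑ ^ 2) (hg.enorm.pow_const 2)]
  unfold GG
  rw [lintegral_lintegral_swap]
  exact ((measurable_aux hg).comp measurable_swap).aemeasurable

theorem int_GG_shift (hPOLC : T_POLC) {g : E 2 → ℂ} (hg : Measurable g) (ψ : ℝ) :
    ∫⁻ θ in Ioc (-Real.pi) Real.pi, GG g (θ + ψ) = ∫⁻ ξ, ‖g ξ‖ₑ ^ 2 := by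
  rw [lint_per (GG_per g), int_GG hPOLC hg]

/-- the radial section of `A` -/
def Bs (A : Set (E 2)) (θ : ℝ) : Set ℝ := Ioi 0 ∩ {r | r • ev θ ∈ A}

theorem measurableSet_pre {A : Set (E 2)} (hA : MeasurableSet A) :
    MeasurableSet {p : ℝ × ℝ | p.1 • ev p.2 ∈ A} := continuous_smul_ev.measurable hA

theorem measurableSet_pre1 {A : Set (E 2)} (hA : MeasurableSet A) (θ : ℝ) :
    MeasurableSet {r : ℝ | r • ev θ ∈ A} :=
  (continuous_id.smul continuous_const).measurable hA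

theorem measurableSet_Bs {A : Set (E 2)} (hA : MeasurableSet A) (θ : ℝ) :
    MeasurableSet (Bs A θ) := measurableSet_Ioi.inter (measurableSet_pre1 hA θ)

theorem Bs_sub {A : Set (E 2)} (hA : ∀ x ∈ A, 1 ≤ ‖x‖ ∧ ‖x‖ ≤ 2) (θ : ℝ) :
    Bs A θ ⊆ Icc 1 2 := by
  rintro r ⟨hr, hrA⟩
  have h := hA _ hrA
  rw [norm_polar hr] at h
  exact h

theorem vol_Bs {A : Set (E 2)} (hA : ∀ x ∈ A, 1 ≤ ‖x‖ ∧ ‖x‖ ≤ 2) (θ : ℝ) :
    volume (Bs A θ) ≠ ⊤ :=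
  ne_top_of_le_ne_top (by rw [Real.volume_Icc]; exact ENNReal.ofReal_ne_top)
    (measure_mono (Bs_sub hA θ))

/-- the indicator in polar coordinates -/
noncomputable def ch (A : Set (E 2)) (r θ : ℝ) : ℝ≥0∞ := A.indicator (fun _ => 1) (r • ev θ)

theorem measurable_ch {A : Set (E 2)} (hA : MeasurableSet A) :
    Measurable (fun p : ℝ × ℝ => ch A p.1 p.2) :=
  (measurable_const.indicator hA).comp continuous_smul_ev.measurable

theorem measurable_ch1 {A : Set (E 2)} (hA : MeasurableSet A) (θ : ℝ) :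
    Measurable (fun r : ℝ => ch A r θ) :=
  (measurable_ch hA).comp (measurable_id.prodMk measurable_const)

theorem lint_ch {A : Set (E 2)} (hA : MeasurableSet A) (θ : ℝ) (F : ℝ → ℝ≥0∞) :
    ∫⁻ r in Ioi (0 : ℝ), ch A r θ * F r = ∫⁻ r in Bs A θ, F r := by
  have h1 : ∀ r, ch A r θ * F r = {r : ℝ | r • ev θ ∈ A}.indicator F r := by
    intro r
    unfold ch
    by_cases h : r • ev θ ∈ A
    · rw [indicator_of_mem h, indicator_of_mem (show r ∈ {r : ℝ | r • ev θ ∈ A} from h), one_mul]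
    · rw [indicator_of_notMem h, indicator_of_notMem (show r ∉ {r : ℝ | r • ev θ ∈ A} from h),
        zero_mul]
  simp_rw [h1]
  rw [setLIntegral_indicator (measurableSet_pre1 hA θ), inter_comm]
  rfl

theorem vol_eq {A : Set (E 2)} (hA : MeasurableSet A) (θ : ℝ) :
    volume (Bs A θ) = ∫⁻ r in Ioi (0 : ℝ), ch A r θ := by
  have h := lint_ch hA θ (fun _ => 1)
  simp only [mul_one, setLIntegral_one] at h
  exact h.symm

theorem measurable_vol {A : Set (E 2)} (hA : MeasurableSet A) :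
    Measurable (fun θ => volume (Bs A θ)) := by
  simp_rw [vol_eq hA]
  exact (measurable_ch hA).lintegral_prod_left'

theorem int_vol (hPOLC : T_POLC) {A : Set (E 2)} (hA : MeasurableSet A)
    (hA2 : ∀ x ∈ A, 1 ≤ ‖x‖ ∧ ‖x‖ ≤ 2) :
    ∫⁻ θ in Ioc (-Real.pi) Real.pi, volume (Bs A θ) ≤ volume A := by
  have h1 : volume A = ∫⁻ x, A.indicator (fun _ => (1 : ℝ≥0∞)) x := by
    rw [lintegral_indicator hA, setLIntegral_one]
  rw [h1, hPOLC.1 _ (measurable_const.indicator hA)]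
  simp_rw [vol_eq hA]
  have hsw := lintegral_lintegral_swap (μ := (volume : Measure ℝ).restrict (Ioc (-Real.pi) Real.pi))
    (ν := (volume : Measure ℝ).restrict (Ioi 0)) (f := fun θ r => ch A r θ)
    ((measurable_ch hA).comp measurable_swap).aemeasurable
  rw [hsw]
  refine setLIntegral_mono' measurableSet_Ioi fun r hr => ?_
  refine setLIntegral_mono' measurableSet_Ioc fun θ hθ => ?_
  unfold ch
  by_cases h : r • ev θ ∈ A
  · have h2 := (hA2 _ h).1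
    rw [norm_polar hr] at h2
    rw [indicator_of_mem h, mul_one]
    exact ENNReal.one_le_ofReal.2 h2
  · rw [indicator_of_notMem h]
    exact zero_le

/-! ### assembly -/

theorem continuous_UU {C0 : ℝ} {K : ℕ} {V V1 V2 : ℝ → ℝ} (hV : VK C0 K V V1 V2) (t : ℝ) :
    Continuous (fun ψ => UU V t ψ) := by
  have hVc : Continuous V := continuous_iff_continuousAt.2 fun φ => (hV.d1 φ).continuousAt
  unfold UU
  refine continuous_const.mul ?_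
  refine intervalIntegral.continuous_parametric_intervalIntegral_of_continuous' ?_ _ _
  unfold eta ci
  refine Continuous.mul (Continuous.mul ?_ ?_) ?_
  · exact Complex.continuous_ofReal.comp (hVc.comp (continuous_snd.sub continuous_fst))
  · exact Complex.continuous_ofReal.comp (Real.smoothTransition.continuous.comp
      (continuous_const.add (Real.continuous_cos.comp continuous_snd)))
  · fun_prop

variable {K : ℕ} {g : E 2 → ℂ} {A : Set (E 2)} {V : ℝ → ℝ}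

/-- the weight in `ψ` -/
noncomputable def MM (V : ℝ → ℝ) (K : ℕ) (ψ : ℝ) : ℝ≥0∞ := 1 + ‖UU V ((K : ℝ) ^ 4) ψ‖ₑ

/-- the kernel -/
noncomputable def ZZ (g : E 2 → ℂ) (K : ℕ) (r θ ψ : ℝ) : ℝ≥0∞ :=
  HH g ((K : ℝ) ^ 4) (θ + ψ) r + HH g ((K : ℝ) ^ 4) (θ + ψ + Real.pi) (-r)

theorem measurable_ZZ (hm : Measurable (fun p : ℝ × ℝ => HH g ((K : ℝ) ^ 4) p.1 p.2)) :
    Measurable (fun p : (ℝ × ℝ) × ℝ => ZZ g K p.1.1 p.1.2 p.2) := by
  unfold ZZ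
  refine Measurable.add ?_ ?_
  · exact hm.comp (f := fun p : (ℝ × ℝ) × ℝ => (p.1.2 + p.2, p.1.1))
      (by fun_prop)
  · exact hm.comp (f := fun p : (ℝ × ℝ) × ℝ => (p.1.2 + p.2 + Real.pi, -p.1.1))
      (by fun_prop)

/-- for fixed `θ`, `ψ`: Carleson on the two rays -/
theorem ray_bd {CR : ℝ≥0} (hA : MeasurableSet A) (hA2 : ∀ x ∈ A, 1 ≤ ‖x‖ ∧ ‖x‖ ≤ 2)
    (hm : Measurable (fun p : ℝ × ℝ => HH g ((K : ℝ) ^ 4) p.1 p.2))
    (hR : ∀ (θ : ℝ) (B : Set ℝ), MeasurableSet B → volume B ≠ ⊤ →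
      ∫⁻ ρ in B, HH g ((K : ℝ) ^ 4) θ ρ ≤ CR * GG g θ ^ (1 / 2 : ℝ) * volume B ^ (1 / 2 : ℝ))
    (θ ψ : ℝ) : ∫⁻ r in Ioi (0 : ℝ), ch A r θ * ZZ g K r θ ψ ≤
      CR * (GG g (θ + ψ) ^ (1 / 2 : ℝ) * volume (Bs A θ) ^ (1 / 2 : ℝ) +
        GG g (θ + (ψ + Real.pi)) ^ (1 / 2 : ℝ) * volume (Bs A θ) ^ (1 / 2 : ℝ)) := by
  rw [lint_ch hA θ (fun r => ZZ g K r θ ψ)]
  have h1 := hR (θ + ψ) (Bs A θ) (measurableSet_Bs hA θ) (vol_Bs hA2 θ)
  have h2 : ∫⁻ r in Bs A θ, HH g ((K : ℝ) ^ 4) (θ + ψ + Real.pi) (-r) ≤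
      CR * GG g (θ + ψ + Real.pi) ^ (1 / 2 : ℝ) * volume (Bs A θ) ^ (1 / 2 : ℝ) := by
    have hneg : MeasurePreserving (fun r : ℝ => -r) volume volume :=
      Measure.measurePreserving_neg volume
    have hS : MeasurableSet ((fun r : ℝ => -r) ⁻¹' Bs A θ) :=
      measurable_neg (measurableSet_Bs hA θ)
    have hv : volume ((fun r : ℝ => -r) ⁻¹' Bs A θ) = volume (Bs A θ) :=
      hneg.measure_preimage (measurableSet_Bs hA θ).nullMeasurableSet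
    have h3 := hR (θ + ψ + Real.pi) _ hS (by rw [hv]; exact vol_Bs hA2 θ)
    rw [hv] at h3
    refine le_trans (le_of_eq ?_) h3
    have hm2 : Measurable (fun r => HH g ((K : ℝ) ^ 4) (θ + ψ + Real.pi) r) :=
      hm.comp (f := fun r : ℝ => (θ + ψ + Real.pi, r)) (by fun_prop)
    have h5 : (fun r : ℝ => -r) ⁻¹' ((fun r : ℝ => -r) ⁻¹' Bs A θ) = Bs A θ := by
      ext r
      simp only [mem_preimage, neg_neg]
    have h4 := hneg.setLIntegral_comp_preimage hS hm2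
    rw [h5] at h4
    exact h4
  have hm1 : Measurable (fun r => HH g ((K : ℝ) ^ 4) (θ + ψ) r) :=
    hm.comp (f := fun r : ℝ => (θ + ψ, r)) (by fun_prop)
  unfold ZZ
  rw [lintegral_add_left hm1]
  refine (add_le_add h1 h2).trans (le_of_eq ?_)
  rw [← add_assoc θ ψ Real.pi]
  ring

/-- Tonelli for three variables -/
theorem swap3 (μ₁ μ₂ μ₃ : Measure ℝ) [SFinite μ₁] [SFinite μ₂] [SFinite μ₃] {M : ℝ → ℝ≥0∞}
    {F : ℝ → ℝ → ℝ → ℝ≥0∞} (hM : Measurable M)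
    (hF : Measurable (fun p : (ℝ × ℝ) × ℝ => F p.1.1 p.1.2 p.2)) :
    ∫⁻ r, ∫⁻ θ, ∫⁻ ψ, M ψ * F r θ ψ ∂μ₃ ∂μ₂ ∂μ₁ = ∫⁻ ψ, M ψ * ∫⁻ θ, ∫⁻ r, F r θ ψ ∂μ₁ ∂μ₂ ∂μ₃ := by
  have hall : Measurable (fun p : (ℝ × ℝ) × ℝ => M p.2 * F p.1.1 p.1.2 p.2) :=
    (hM.comp measurable_snd).mul hF
  have h1 : ∫⁻ r, ∫⁻ θ, ∫⁻ ψ, M ψ * F r θ ψ ∂μ₃ ∂μ₂ ∂μ₁ =
      ∫⁻ θ, ∫⁻ r, ∫⁻ ψ, M ψ * F r θ ψ ∂μ₃ ∂μ₁ ∂μ₂ :=
    lintegral_lintegral_swap (f := fun r θ => ∫⁻ ψ, M ψ * F r θ ψ ∂μ₃)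
      (hall.lintegral_prod_right').aemeasurable
  have h2 : ∀ θ, ∫⁻ r, ∫⁻ ψ, M ψ * F r θ ψ ∂μ₃ ∂μ₁ = ∫⁻ ψ, M ψ * ∫⁻ r, F r θ ψ ∂μ₁ ∂μ₃ := by
    intro θ
    have h3 : ∫⁻ r, ∫⁻ ψ, M ψ * F r θ ψ ∂μ₃ ∂μ₁ = ∫⁻ ψ, ∫⁻ r, M ψ * F r θ ψ ∂μ₁ ∂μ₃ :=
      lintegral_lintegral_swap (f := fun r ψ => M ψ * F r θ ψ)
        (hall.comp (f := fun p : ℝ × ℝ => ((p.1, θ), p.2)) (by fun_prop)).aemeasurable
    rw [h3]
    refine lintegral_congr fun ψ => ?_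
    exact lintegral_const_mul _ (hF.comp (f := fun r : ℝ => ((r, θ), ψ)) (by fun_prop))
  rw [h1]
  simp_rw [h2]
  have hin : Measurable (fun p : ℝ × ℝ => ∫⁻ r, F r p.1 p.2 ∂μ₁) := by
    have : Measurable (fun q : (ℝ × ℝ) × ℝ => F q.2 q.1.1 q.1.2) :=
      hF.comp (f := fun q : (ℝ × ℝ) × ℝ => ((q.2, q.1.1), q.1.2)) (by fun_prop)
    exact this.lintegral_prod_right'
  have h4 : ∫⁻ θ, ∫⁻ ψ, M ψ * ∫⁻ r, F r θ ψ ∂μ₁ ∂μ₃ ∂μ₂ =
      ∫⁻ ψ, ∫⁻ θ, M ψ * ∫⁻ r, F r θ ψ ∂μ₁ ∂μ₂ ∂μ₃ :=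
    lintegral_lintegral_swap (f := fun θ ψ => M ψ * ∫⁻ r, F r θ ψ ∂μ₁)
      ((hM.comp measurable_snd).mul hin).aemeasurable
  rw [h4]
  refine lintegral_congr fun ψ => ?_
  exact lintegral_const_mul _ (hin.comp (f := fun θ : ℝ => (θ, ψ)) (by fun_prop))

end PI_

theorem p_PI (hVKX : T_VKX) (hUB : T_UB) (hPT : T_PT) (hRAY : T_RAY) (hHM : T_HM) : T_PI := by
  intro hCARL
  obtain ⟨Cv, hCv, hV⟩ := hVKX
  obtain ⟨CU, hUB⟩ := hUB Cv
  obtain ⟨CP, hPT⟩ := hPT Cv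
  obtain ⟨CR, hRAY⟩ := hRAY hCARL
  refine ⟨2 * CP * (Real.toNNReal (2 * Real.pi) + CU) * (CR * 2), ?_⟩
  intro K g c A hK hg hA hA2
  obtain ⟨V, V1, V2, hVK⟩ := hV K hK
  have hK4 : (0 : ℝ) ≤ (K : ℝ) ^ 4 := by positivity
  have hm := hHM K g c ((K : ℝ) ^ 4) hK4 hg
  have hR := fun θ B => hRAY K g c ((K : ℝ) ^ 4) θ B hK4 hg
  have hMm : Measurable (PI_.MM V K) :=
    measurable_const.add (PI_.continuous_UU hVK _).measurable.enorm
  have hZ := PI_.measurable_ZZ (g := g) (K := K) hm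
  -- the measurable majorant
  set P : E 2 → ℝ≥0∞ := fun x => CP * ∫⁻ ψ in Ioc (-Real.pi) Real.pi,
    PI_.MM V K ψ * PI_.ZZ g K ‖x‖ (PI_.Ar x) ψ with hP
  have hPm : Measurable P := by
    refine Measurable.const_mul ?_ _
    have : Measurable (fun p : E 2 × ℝ => PI_.MM V K p.2 * PI_.ZZ g K ‖p.1‖ (PI_.Ar p.1) p.2) := by
      refine (hMm.comp measurable_snd).mul ?_
      exact hZ.comp (f := fun p : E 2 × ℝ => ((‖p.1‖, PI_.Ar p.1), p.2))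
        (((measurable_norm.comp measurable_fst).prodMk
          (PI_.measurable_Ar.comp measurable_fst)).prodMk measurable_snd)
    exact this.lintegral_prod_right'
  have step1 : ∫⁻ x in A, (⨆ R : ℝ,
      ‖∫ ξ in Metric.closedBall (0 : E 2) R \ Metric.closedBall 0 ((K : ℝ) ^ 4),
        g ξ * ex x ξ‖ₑ) ≤ ∫⁻ x in A, P x := by
    refine setLIntegral_mono' hA fun x hx => iSup_le fun R => ?_
    have h := hPT K V V1 V2 g c hK hVK hg (PI_.Ar x) ‖x‖ (hA2 x hx).1 (hA2 x hx).2 R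
    rw [← PI_.polar_Ar x] at h
    exact h
  have step2 : ∫⁻ x in A, P x ≤ 2 * CP * ∫⁻ r in Ioi (0 : ℝ), ∫⁻ θ in Ioc (-Real.pi) Real.pi,
      ∫⁻ ψ in Ioc (-Real.pi) Real.pi,
        PI_.MM V K ψ * (PI_.ch A r θ * PI_.ZZ g K r θ ψ) := by
    rw [← lintegral_indicator hA, p_POLC.1 _ (hPm.indicator hA)]
    have hc : (2 * (CP : ℝ≥0∞)) ≠ ⊤ := ENNReal.mul_ne_top (by norm_num) ENNReal.coe_ne_top
    rw [← lintegral_const_mul' _ _ hc]
    refine setLIntegral_mono' measurableSet_Ioi fun r hr => ?_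
    rw [← lintegral_const_mul' _ _ hc]
    refine setLIntegral_mono' measurableSet_Ioc fun θ hθ => ?_
    by_cases h : r • ev θ ∈ A
    · rw [indicator_of_mem h]
      have h2 := (hA2 _ h).2
      rw [PI_.norm_polar hr] at h2
      have hch : PI_.ch A r θ = 1 := indicator_of_mem h _
      have h3 : ENNReal.ofReal r ≤ 2 := by
        calc ENNReal.ofReal r ≤ ENNReal.ofReal 2 := ENNReal.ofReal_le_ofReal h2
          _ = 2 := by norm_num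
      simp only [hP, hch, one_mul]
      rw [PI_.norm_polar hr, PI_.Ar_polar hr hθ, mul_assoc]
      gcongr
    · rw [indicator_of_notMem h, mul_zero]
      exact zero_le
  have step3 : ∫⁻ r in Ioi (0 : ℝ), ∫⁻ θ in Ioc (-Real.pi) Real.pi,
      ∫⁻ ψ in Ioc (-Real.pi) Real.pi, PI_.MM V K ψ * (PI_.ch A r θ * PI_.ZZ g K r θ ψ) =
      ∫⁻ ψ in Ioc (-Real.pi) Real.pi, PI_.MM V K ψ * ∫⁻ θ in Ioc (-Real.pi) Real.pi,
        ∫⁻ r in Ioi (0 : ℝ), PI_.ch A r θ * PI_.ZZ g K r θ ψ := by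
    exact PI_.swap3 _ _ _ (F := fun r θ ψ => PI_.ch A r θ * PI_.ZZ g K r θ ψ) hMm
      (((PI_.measurable_ch hA).comp measurable_fst).mul hZ)
  have step4 : ∀ ψ, ∫⁻ θ in Ioc (-Real.pi) Real.pi, ∫⁻ r in Ioi (0 : ℝ),
      PI_.ch A r θ * PI_.ZZ g K r θ ψ ≤
      CR * 2 * ((∫⁻ ξ, ‖g ξ‖ₑ ^ 2) ^ (1 / 2 : ℝ) * volume A ^ (1 / 2 : ℝ)) := by
    intro ψ
    have hG := PI_.measurable_GG hg.meas
    have hv := PI_.measurable_vol hA
    have hcs : ∀ s : ℝ, ∫⁻ θ in Ioc (-Real.pi) Real.pi,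
        PI_.GG g (θ + s) ^ (1 / 2 : ℝ) * volume (PI_.Bs A θ) ^ (1 / 2 : ℝ) ≤
        (∫⁻ ξ, ‖g ξ‖ₑ ^ 2) ^ (1 / 2 : ℝ) * volume A ^ (1 / 2 : ℝ) := by
      intro s
      refine (PI_.CS _ (hG.comp (measurable_add_const s)) hv).trans ?_
      have h1 := PI_.int_GG_shift p_POLC hg.meas s
      have h2 := PI_.int_vol p_POLC hA hA2
      have h3 : ∫⁻ θ in Ioc (-Real.pi) Real.pi, (PI_.GG g ∘ fun x => x + s) θ =
        ∫⁻ ξ, ‖g ξ‖ₑ ^ 2 := h1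
      rw [h3]
      exact mul_le_mul_right (ENNReal.rpow_le_rpow h2 (by norm_num)) _
    calc ∫⁻ θ in Ioc (-Real.pi) Real.pi, ∫⁻ r in Ioi (0 : ℝ), PI_.ch A r θ * PI_.ZZ g K r θ ψ
        ≤ ∫⁻ θ in Ioc (-Real.pi) Real.pi,
          CR * (PI_.GG g (θ + ψ) ^ (1 / 2 : ℝ) * volume (PI_.Bs A θ) ^ (1 / 2 : ℝ) +
            PI_.GG g (θ + (ψ + Real.pi)) ^ (1 / 2 : ℝ) * volume (PI_.Bs A θ) ^ (1 / 2 : ℝ)) :=
          lintegral_mono fun θ => PI_.ray_bd hA hA2 hm hR θ ψ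
      _ = CR * ((∫⁻ θ in Ioc (-Real.pi) Real.pi,
            PI_.GG g (θ + ψ) ^ (1 / 2 : ℝ) * volume (PI_.Bs A θ) ^ (1 / 2 : ℝ)) +
          ∫⁻ θ in Ioc (-Real.pi) Real.pi,
            PI_.GG g (θ + (ψ + Real.pi)) ^ (1 / 2 : ℝ) * volume (PI_.Bs A θ) ^ (1 / 2 : ℝ)) := by
          have hm1 : Measurable (fun θ => PI_.GG g (θ + ψ) ^ (1 / 2 : ℝ) *
              volume (PI_.Bs A θ) ^ (1 / 2 : ℝ)) :=
            ((hG.comp (measurable_add_const ψ)).pow_const _).mul (hv.pow_const _)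
          rw [lintegral_const_mul' _ _ ENNReal.coe_ne_top, lintegral_add_left hm1]
      _ ≤ CR * ((∫⁻ ξ, ‖g ξ‖ₑ ^ 2) ^ (1 / 2 : ℝ) * volume A ^ (1 / 2 : ℝ) +
          (∫⁻ ξ, ‖g ξ‖ₑ ^ 2) ^ (1 / 2 : ℝ) * volume A ^ (1 / 2 : ℝ)) :=
          mul_le_mul_right (add_le_add (hcs ψ) (hcs (ψ + Real.pi))) _
      _ = _ := by ring
  have step5 : ∫⁻ ψ in Ioc (-Real.pi) Real.pi, PI_.MM V K ψ ≤
      ((Real.toNNReal (2 * Real.pi) + CU : ℝ≥0) : ℝ≥0∞) := by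
    unfold PI_.MM
    rw [lintegral_add_left measurable_const, setLIntegral_one, Real.volume_Ioc]
    push_cast
    refine add_le_add (le_of_eq ?_) (hUB K V V1 V2 hK hVK)
    rw [ENNReal.ofReal]
    congr 2
    ring
  calc ∫⁻ x in A, (⨆ R : ℝ,
      ‖∫ ξ in Metric.closedBall (0 : E 2) R \ Metric.closedBall 0 ((K : ℝ) ^ 4),
        g ξ * ex x ξ‖ₑ)
      ≤ 2 * CP * ∫⁻ ψ in Ioc (-Real.pi) Real.pi, PI_.MM V K ψ *
        ∫⁻ θ in Ioc (-Real.pi) Real.pi, ∫⁻ r in Ioi (0 : ℝ),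
          PI_.ch A r θ * PI_.ZZ g K r θ ψ := by
        rw [← step3]
        exact step1.trans step2
    _ ≤ 2 * CP * ∫⁻ ψ in Ioc (-Real.pi) Real.pi, PI_.MM V K ψ *
        (CR * 2 * ((∫⁻ ξ, ‖g ξ‖ₑ ^ 2) ^ (1 / 2 : ℝ) * volume A ^ (1 / 2 : ℝ))) :=
        mul_le_mul_right (lintegral_mono fun ψ => mul_le_mul_right (step4 ψ) _) _
    _ = 2 * CP * ((∫⁻ ψ in Ioc (-Real.pi) Real.pi, PI_.MM V K ψ) *
        (CR * 2 * ((∫⁻ ξ, ‖g ξ‖ₑ ^ 2) ^ (1 / 2 : ℝ) * volume A ^ (1 / 2 : ℝ)))) := by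
        rw [lintegral_mul_const _ hMm]
    _ ≤ 2 * CP * (((Real.toNNReal (2 * Real.pi) + CU : ℝ≥0) : ℝ≥0∞) *
        (CR * 2 * ((∫⁻ ξ, ‖g ξ‖ₑ ^ 2) ^ (1 / 2 : ℝ) * volume A ^ (1 / 2 : ℝ)))) :=
        mul_le_mul_right (mul_le_mul_left step5 _) _
    _ = _ := by
        push_cast
        ring

end Pool.Agent.CRL
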