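import Pool.Agent.CRL.Targets3
import Pool.Agent.CRL.H47

set_option autoImplicit false

/-!
# Block PIS: the large radii, strong form
-/

namespace Pool.Agent.CRL

open MeasureTheory FourierTransform Set Filter Topology
open scoped ENNReal NNReal
open Pool.Agent.MBS (E ex S Sstar)
open Pool.Agent.KSP (IE)
open Pool.Agent.CAR (e1)

namespace PIS_

/-- the angle of a point of the plane -/
noncomputable def ang (x : E 2) : ℝ := Complex.arg ((x 0 : ℂ) + (x 1 : ℂ) * Complex.I)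

theorem ang_meas : Measurable ang := by
  refine Complex.measurable_arg.comp ?_
  have h0 : Continuous (fun x : E 2 => x 0) := by fun_prop
  have h1 : Continuous (fun x : E 2 => x 1) := by fun_prop
  exact ((Complex.continuous_ofReal.comp h0).add
    ((Complex.continuous_ofReal.comp h1).mul continuous_const)).measurable

theorem ev_zero (θ : ℝ) : ev θ 0 = Real.cos θ := by simp [ev]

theorem ev_one (θ : ℝ) : ev θ 1 = Real.sin θ := by simp [ev]

theorem norm_ev (θ : ℝ) : ‖ev θ‖ = 1 := by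
  rw [EuclideanSpace.norm_eq]
  simp [ev_zero, ev_one, Fin.sum_univ_two]

theorem norm_smul_ev {r : ℝ} (hr : 0 < r) (θ : ℝ) : ‖r • ev θ‖ = r := by
  rw [norm_smul, norm_ev, mul_one, Real.norm_eq_abs, abs_of_pos hr]

theorem ang_ev {r : ℝ} (hr : 0 < r) {θ : ℝ} (hθ : θ ∈ Ioc (-Real.pi) Real.pi) :
    ang (r • ev θ) = θ := by
  unfold ang
  have e : (((r • ev θ) 0 : ℝ) : ℂ) + (((r • ev θ) 1 : ℝ) : ℂ) * Complex.I =
      (r : ℂ) * (Complex.cos θ + Complex.sin θ * Complex.I) := by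
    simp only [PiLp.smul_apply, smul_eq_mul, ev_zero, ev_one]
    push_cast
    ring
  rw [e]
  exact Complex.arg_mul_cos_add_sin_mul_I hr hθ

theorem polar_eq (x : E 2) : ‖x‖ • ev (ang x) = x := by
  have hz : ‖((x 0 : ℂ) + (x 1 : ℂ) * Complex.I)‖ = ‖x‖ := by
    rw [EuclideanSpace.norm_eq, Fin.sum_univ_two, Complex.norm_add_mul_I]
    simp [Real.norm_eq_abs, sq_abs]
  have h1 := Complex.norm_mul_cos_arg ((x 0 : ℂ) + (x 1 : ℂ) * Complex.I)
  have h2 := Complex.norm_mul_sin_arg ((x 0 : ℂ) + (x 1 : ℂ) * Complex.I)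
  rw [hz] at h1 h2
  ext i
  fin_cases i
  · show ‖x‖ • ev (ang x) 0 = x 0
    rw [ev_zero, smul_eq_mul]
    unfold ang
    rw [h1]
    simp
  · show ‖x‖ • ev (ang x) 1 = x 1
    rw [ev_one, smul_eq_mul]
    unfold ang
    rw [h2]
    simp

theorem ev_add_two_pi (θ : ℝ) : ev (θ + 2 * Real.pi) = ev θ := by
  unfold ev
  rw [Real.cos_add_two_pi, Real.sin_add_two_pi]

theorem eta_cont : Continuous eta := by
  unfold eta
  exact Real.smoothTransition.continuous.comp (by fun_prop)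

theorem UU_cont {V : ℝ → ℝ} (hV : Continuous V) (t : ℝ) : Continuous (UU V t) := by
  unfold UU
  refine continuous_const.mul ?_
  have h1 := eta_cont
  refine intervalIntegral.continuous_parametric_intervalIntegral_of_continuous' ?_ _ _
  unfold ci
  show Continuous (fun p : ℝ × ℝ => (V (p.2 - p.1) : ℂ) * (eta p.2 : ℂ) *
    Complex.exp (((t * (Real.cos p.2 - 1) : ℝ) : ℂ) * Complex.I))
  fun_prop

/-- integral of a periodic function over a period -/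
theorem lint_per {f : ℝ → ℝ≥0∞} (hf : ∀ x, f (x + 2 * Real.pi) = f x) (ψ : ℝ) :
    ∫⁻ θ in Ioc (-Real.pi) Real.pi, f (θ + ψ) = ∫⁻ θ in Ioc (-Real.pi) Real.pi, f θ := by
  have : Fact (0 < 2 * Real.pi) := ⟨by positivity⟩
  have hp : Function.Periodic f (2 * Real.pi) := hf
  have key : ∀ t : ℝ, ∫⁻ a in Ioc t (t + 2 * Real.pi), f a =
      ∫⁻ b : AddCircle (2 * Real.pi), hp.lift b := by
    intro t
    rw [← AddCircle.lintegral_preimage (2 * Real.pi) t hp.lift]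
    rfl
  have h1 := key (-Real.pi)
  have h2 := key (-Real.pi + ψ)
  have e1 : -Real.pi + 2 * Real.pi = Real.pi := by ring
  have e2 : -Real.pi + ψ + 2 * Real.pi = Real.pi + ψ := by ring
  rw [e1] at h1
  rw [e2] at h2
  rw [h1, ← h2]
  have h3 : MeasurePreserving (fun θ : ℝ => θ + ψ) volume volume :=
    measurePreserving_add_right volume ψ
  have h4 : (fun θ : ℝ => θ + ψ) ⁻¹' Ioc (-Real.pi + ψ) (Real.pi + ψ) =
      Ioc (-Real.pi) Real.pi := by
    ext θ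
    simp
  rw [← h4]
  exact h3.setLIntegral_comp_preimage_emb (MeasurableEquiv.addRight ψ).measurableEmbedding f _

/-- the energy on a ray -/
noncomputable def N (g : E 2 → ℂ) (θ : ℝ) : ℝ≥0∞ :=
  ∫⁻ r in Ioi (0 : ℝ), ENNReal.ofReal r * ‖g (r • ev θ)‖ₑ ^ 2

theorem N_per (g : E 2 → ℂ) (θ : ℝ) : N g (θ + 2 * Real.pi) = N g θ := by
  unfold N
  rw [ev_add_two_pi]

theorem smul_ev_cont : Continuous (fun p : ℝ × ℝ => p.2 • ev p.1) := by
  have h : (fun p : ℝ × ℝ => p.2 • ev p.1) =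
      fun p => !₂[p.2 * Real.cos p.1, p.2 * Real.sin p.1] := by
    funext p
    ext i
    fin_cases i <;> simp [ev]
  rw [h]
  fun_prop

theorem N_int_meas {g : E 2 → ℂ} (hg : Measurable g) :
    Measurable (fun p : ℝ × ℝ => ENNReal.ofReal p.2 * ‖g (p.2 • ev p.1)‖ₑ ^ 2) :=
  (ENNReal.measurable_ofReal.comp measurable_snd).mul
    ((hg.comp smul_ev_cont.measurable).enorm.pow_const 2)

theorem N_meas {g : E 2 → ℂ} (hg : Measurable g) : Measurable (N g) :=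
  (N_int_meas hg).lintegral_prod_right'

theorem N_int (h1 : T_POLC) {g : E 2 → ℂ} (hg : Measurable g) :
    ∫⁻ θ in Ioc (-Real.pi) Real.pi, N g θ = ∫⁻ ξ, ‖g ξ‖ₑ ^ 2 := by
  rw [h1.1 (fun ξ => ‖g ξ‖ₑ ^ 2) (hg.enorm.pow_const 2)]
  unfold N
  exact lintegral_lintegral_swap (N_int_meas hg).aemeasurable

theorem N_shift (h1 : T_POLC) {g : E 2 → ℂ} (hg : Measurable g) (ψ : ℝ) :
    ∫⁻ θ in Ioc (-Real.pi) Real.pi, N g (θ + ψ) = ∫⁻ ξ, ‖g ξ‖ₑ ^ 2 := by
  rw [lint_per (N_per g) ψ, N_int h1 hg]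

/-- weighted Cauchy–Schwarz -/
theorem cs_w {α : Type*} [MeasurableSpace α] (μ : Measure α) {M H : α → ℝ≥0∞}
    (hM : Measurable M) (hH : Measurable H) :
    (∫⁻ a, M a * H a ∂μ) ^ 2 ≤ (∫⁻ a, M a ∂μ) * ∫⁻ a, M a * H a ^ 2 ∂μ := by
  have hm : Measurable (fun a => M a ^ (1 / 2 : ℝ)) := hM.pow_const _
  have h := H47_.cs_lint μ hm.aemeasurable (hm.mul hH).aemeasurable
  have e1 : ∀ a, M a ^ (1 / 2 : ℝ) * (M a ^ (1 / 2 : ℝ) * H a) = M a * H a := by
    intro a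
    rw [← mul_assoc, ← sq, H47_.half_sq]
  have e2 : ∀ a, (M a ^ (1 / 2 : ℝ) * H a) ^ 2 = M a * H a ^ 2 := by
    intro a
    rw [mul_pow, H47_.half_sq]
  simp only [Pi.mul_apply, e1, e2, H47_.half_sq] at h
  calc (∫⁻ a, M a * H a ∂μ) ^ 2 ≤
      ((∫⁻ a, M a ∂μ) ^ (1 / 2 : ℝ) * (∫⁻ a, M a * H a ^ 2 ∂μ) ^ (1 / 2 : ℝ)) ^ 2 := by gcongr
    _ = _ := by rw [mul_pow, H47_.half_sq, H47_.half_sq]

theorem add_sq_le (a b : ℝ≥0∞) : (a + b) ^ 2 ≤ 4 * (a ^ 2 + b ^ 2) := by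
  rcases le_total a b with h | h
  · calc (a + b) ^ 2 ≤ (b + b) ^ 2 := by gcongr
      _ = 4 * b ^ 2 := by ring
      _ ≤ _ := by gcongr; exact le_add_self
  · calc (a + b) ^ 2 ≤ (a + a) ^ 2 := by gcongr
      _ = 4 * a ^ 2 := by ring
      _ ≤ _ := by gcongr; exact le_self_add

/-- the two rays -/
noncomputable def HT (H : ℝ → ℝ → ℝ≥0∞) (θ ψ ρ : ℝ) : ℝ≥0∞ :=
  H (θ + ψ) ρ + H (θ + ψ + Real.pi) (-ρ)

theorem HT_meas {H : ℝ → ℝ → ℝ≥0∞} (h : Measurable (fun p : ℝ × ℝ => H p.1 p.2)) :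
    Measurable (fun p : ℝ × ℝ × ℝ => HT H p.1 p.2.1 p.2.2) := by
  have m1 : Measurable (fun p : ℝ × ℝ × ℝ => (p.1 + p.2.1, p.2.2)) :=
    (measurable_fst.add (measurable_fst.comp measurable_snd)).prodMk
      (measurable_snd.comp measurable_snd)
  have m2 : Measurable (fun p : ℝ × ℝ × ℝ => (p.1 + p.2.1 + Real.pi, -p.2.2)) :=
    ((measurable_fst.add (measurable_fst.comp measurable_snd)).add measurable_const).prodMk
      (measurable_snd.comp measurable_snd).neg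
  exact (h.comp m1).add (h.comp m2)

/-- the dominating function -/
noncomputable def Ph (H : ℝ → ℝ → ℝ≥0∞) (M : ℝ → ℝ≥0∞) (ρ θ : ℝ) : ℝ≥0∞ :=
  ∫⁻ ψ in Ioc (-Real.pi) Real.pi, M ψ * HT H θ ψ ρ

theorem Ph_meas {H : ℝ → ℝ → ℝ≥0∞} {M : ℝ → ℝ≥0∞} (hM : Measurable M)
    (h : Measurable (fun p : ℝ × ℝ => H p.1 p.2)) :
    Measurable (fun p : ℝ × ℝ => Ph H M p.1 p.2) := by
  unfold Ph
  refine Measurable.lintegral_prod_right' (f := fun q : (ℝ × ℝ) × ℝ =>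
    M q.2 * HT H q.1.2 q.2 q.1.1) ?_
  have m2 : Measurable (fun q : (ℝ × ℝ) × ℝ => (q.1.2, q.2, q.1.1)) :=
    (measurable_snd.comp measurable_fst).prodMk
      (measurable_snd.prodMk (measurable_fst.comp measurable_fst))
  exact (hM.comp measurable_snd).mul ((HT_meas h).comp m2)

/-- the double integral of the square of the dominating function -/
theorem Ph_int {H : ℝ → ℝ → ℝ≥0∞} {M N : ℝ → ℝ≥0∞} (hMm : Measurable M) (hNm : Measurable N)
    (h : Measurable (fun p : ℝ × ℝ => H p.1 p.2)) {C5 B : ℝ≥0} {L : ℝ≥0∞}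
    (hR : ∀ θ, ∫⁻ ρ, H θ ρ ^ 2 ≤ C5 * N θ)
    (hB : ∫⁻ ψ in Ioc (-Real.pi) Real.pi, M ψ ≤ B)
    (hN : ∀ ψ, ∫⁻ θ in Ioc (-Real.pi) Real.pi, N (θ + ψ) = L) :
    ∫⁻ ρ, ∫⁻ θ in Ioc (-Real.pi) Real.pi, Ph H M ρ θ ^ 2 ≤
      B * (B * (4 * (C5 * (2 * L)))) := by
  have hHm := HT_meas h
  have s1 : ∀ ρ θ, Ph H M ρ θ ^ 2 ≤
      B * ∫⁻ ψ in Ioc (-Real.pi) Real.pi, M ψ * HT H θ ψ ρ ^ 2 := by
    intro ρ θ
    have hm : Measurable (fun ψ => HT H θ ψ ρ) :=
      hHm.comp (measurable_const.prodMk (measurable_id.prodMk measurable_const))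
    exact (cs_w (volume.restrict (Ioc (-Real.pi) Real.pi)) hMm hm).trans
      (mul_le_mul_left hB _)
  -- the inner integral
  have s2 : ∀ θ ψ, ∫⁻ ρ, HT H θ ψ ρ ^ 2 ≤
      4 * (C5 * (N (θ + ψ) + N (θ + ψ + Real.pi))) := by
    intro θ ψ
    have m1 : Measurable (fun ρ => H (θ + ψ) ρ ^ 2) :=
      (h.comp (measurable_const.prodMk measurable_id)).pow_const 2
    calc ∫⁻ ρ, HT H θ ψ ρ ^ 2 ≤
        ∫⁻ ρ, 4 * (H (θ + ψ) ρ ^ 2 + H (θ + ψ + Real.pi) (-ρ) ^ 2) :=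
          lintegral_mono fun ρ => add_sq_le _ _
      _ = 4 * ((∫⁻ ρ, H (θ + ψ) ρ ^ 2) +
          ∫⁻ ρ, H (θ + ψ + Real.pi) (-ρ) ^ 2) := by
          rw [lintegral_const_mul' _ _ (by norm_num), lintegral_add_left m1]
      _ = 4 * ((∫⁻ ρ, H (θ + ψ) ρ ^ 2) +
          ∫⁻ ρ, H (θ + ψ + Real.pi) ρ ^ 2) := by
          rw [lintegral_neg_eq_self (fun ρ => H (θ + ψ + Real.pi) ρ ^ 2)]
      _ ≤ 4 * (C5 * N (θ + ψ) + C5 * N (θ + ψ + Real.pi)) := by
          gcongr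
          · exact hR _
          · exact hR _
      _ = _ := by rw [mul_add (C5 : ℝ≥0∞)]
  have mF : Measurable (fun q : ℝ × ℝ × ℝ => M q.2.1 * HT H q.1 q.2.1 q.2.2 ^ 2) :=
    (hMm.comp (measurable_fst.comp measurable_snd)).mul (hHm.pow_const 2)
  have m3 : Measurable (fun q : ℝ × ℝ => ∫⁻ ψ in Ioc (-Real.pi) Real.pi,
      M ψ * HT H q.2 ψ q.1 ^ 2) := by
    refine Measurable.lintegral_prod_right' (f := fun q : (ℝ × ℝ) × ℝ =>
      M q.2 * HT H q.1.2 q.2 q.1.1 ^ 2) ?_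
    have m2 : Measurable (fun q : (ℝ × ℝ) × ℝ => (q.1.2, q.2, q.1.1)) :=
      (measurable_snd.comp measurable_fst).prodMk
        (measurable_snd.prodMk (measurable_fst.comp measurable_fst))
    exact mF.comp m2
  calc ∫⁻ ρ, ∫⁻ θ in Ioc (-Real.pi) Real.pi, Ph H M ρ θ ^ 2
      ≤ ∫⁻ ρ, ∫⁻ θ in Ioc (-Real.pi) Real.pi, B *
        ∫⁻ ψ in Ioc (-Real.pi) Real.pi, M ψ * HT H θ ψ ρ ^ 2 :=
        lintegral_mono fun ρ => lintegral_mono fun θ => s1 ρ θ
    _ = B * ∫⁻ ρ, ∫⁻ θ in Ioc (-Real.pi) Real.pi,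
        ∫⁻ ψ in Ioc (-Real.pi) Real.pi, M ψ * HT H θ ψ ρ ^ 2 := by
        rw [← lintegral_const_mul _ m3.lintegral_prod_right']
        refine lintegral_congr fun ρ => ?_
        exact lintegral_const_mul _ (m3.comp (measurable_const.prodMk measurable_id))
    _ = B * ∫⁻ ψ in Ioc (-Real.pi) Real.pi, ∫⁻ θ in Ioc (-Real.pi) Real.pi,
        ∫⁻ ρ, M ψ * HT H θ ψ ρ ^ 2 := by
        congr 1
        rw [lintegral_lintegral_swap m3.aemeasurable]
        have m4 : ∀ θ : ℝ, ∫⁻ ρ, ∫⁻ ψ in Ioc (-Real.pi) Real.pi, M ψ * HT H θ ψ ρ ^ 2 =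
            ∫⁻ ψ in Ioc (-Real.pi) Real.pi, ∫⁻ ρ, M ψ * HT H θ ψ ρ ^ 2 := by
          intro θ
          have m2 : Measurable (fun q : ℝ × ℝ => (θ, q.2, q.1)) :=
            measurable_const.prodMk (measurable_snd.prodMk measurable_fst)
          exact lintegral_lintegral_swap (mF.comp m2).aemeasurable
        simp_rw [m4]
        refine lintegral_lintegral_swap (Measurable.aemeasurable ?_)
        refine Measurable.lintegral_prod_right' (f := fun q : (ℝ × ℝ) × ℝ =>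
            M q.1.2 * HT H q.1.1 q.1.2 q.2 ^ 2) ?_
        have m2 : Measurable (fun q : (ℝ × ℝ) × ℝ => (q.1.1, q.1.2, q.2)) :=
          (measurable_fst.comp measurable_fst).prodMk
            ((measurable_snd.comp measurable_fst).prodMk measurable_snd)
        exact mF.comp m2
    _ ≤ B * ∫⁻ ψ in Ioc (-Real.pi) Real.pi, M ψ * (4 * (C5 * (2 * L))) := by
        refine mul_le_mul_right (lintegral_mono fun ψ => ?_) _
        calc ∫⁻ θ in Ioc (-Real.pi) Real.pi, ∫⁻ ρ, M ψ * HT H θ ψ ρ ^ 2 =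
            M ψ * ∫⁻ θ in Ioc (-Real.pi) Real.pi, ∫⁻ ρ, HT H θ ψ ρ ^ 2 := by
              have m2 : Measurable (fun q : ℝ × ℝ => (q.1, ψ, q.2)) :=
                measurable_fst.prodMk (measurable_const.prodMk measurable_snd)
              have m5 : Measurable (fun q : ℝ × ℝ => HT H q.1 ψ q.2 ^ 2) :=
                (hHm.comp m2).pow_const 2
              rw [← lintegral_const_mul _ m5.lintegral_prod_right']
              refine lintegral_congr fun θ => ?_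
              exact lintegral_const_mul _ (m5.comp (measurable_const.prodMk measurable_id))
          _ ≤ M ψ * ∫⁻ θ in Ioc (-Real.pi) Real.pi,
              4 * (C5 * (N (θ + ψ) + N (θ + ψ + Real.pi))) :=
              mul_le_mul_right (lintegral_mono fun θ => s2 θ ψ) _
          _ = M ψ * (4 * (C5 * (2 * L))) := by
              have m6 : Measurable (fun θ => N (θ + ψ)) :=
                hNm.comp (measurable_id.add measurable_const)
              have e3 : ∀ θ : ℝ, N (θ + ψ + Real.pi) = N (θ + (ψ + Real.pi)) := by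
                intro θ
                rw [add_assoc]
              have m7 : Measurable (fun θ => N (θ + (ψ + Real.pi))) :=
                hNm.comp (measurable_id.add measurable_const)
              have m8 : Measurable (fun θ => N (θ + ψ) + N (θ + (ψ + Real.pi))) := m6.add m7
              simp_rw [e3]
              rw [lintegral_const_mul _ (m8.const_mul (C5 : ℝ≥0∞)),
                lintegral_const_mul _ m8, lintegral_add_left m6, hN, hN, two_mul]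
    _ = B * ((∫⁻ ψ in Ioc (-Real.pi) Real.pi, M ψ) * (4 * (C5 * (2 * L)))) := by
        rw [lintegral_mul_const _ hMm]
    _ ≤ _ := mul_le_mul_right (mul_le_mul_left hB _) _

/-- the shell integral -/
theorem shell (h1 : T_POLC) {H : ℝ → ℝ → ℝ≥0∞} {M N : ℝ → ℝ≥0∞} (hMm : Measurable M)
    (hNm : Measurable N) (h : Measurable (fun p : ℝ × ℝ => H p.1 p.2)) {C4 C5 B : ℝ≥0}
    {L : ℝ≥0∞} (hR : ∀ θ, ∫⁻ ρ, H θ ρ ^ 2 ≤ C5 * N θ)
    (hB : ∫⁻ ψ in Ioc (-Real.pi) Real.pi, M ψ ≤ B)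
    (hN : ∀ ψ, ∫⁻ θ in Ioc (-Real.pi) Real.pi, N (θ + ψ) = L) (T : E 2 → ℝ≥0∞)
    (hT : ∀ θ ρ : ℝ, 1 ≤ ρ → ρ ≤ 2 → T (ρ • ev θ) ≤ C4 * Ph H M ρ θ) :
    ∫⁻ x in {x : E 2 | 1 ≤ ‖x‖ ∧ ‖x‖ ≤ 2}, T x ^ 2 ≤
      (2 * C4 ^ 2 * (B * (B * (4 * (C5 * 2)))) : ℝ≥0) * L := by
  have hint := Ph_int hMm hNm h hR hB hN
  have hPm0 := Ph_meas hMm h
  revert hint hPm0 hT
  generalize Ph H M = P
  intro hT hint hPm0
  set A : Set (E 2) := {x : E 2 | 1 ≤ ‖x‖ ∧ ‖x‖ ≤ 2} with hA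
  have hAm : MeasurableSet A :=
    (measurableSet_le measurable_const measurable_norm).inter
      (measurableSet_le measurable_norm measurable_const)
  have hPm : Measurable (fun x : E 2 => P ‖x‖ (ang x)) :=
    hPm0.comp (measurable_norm.prodMk ang_meas)
  have hpt : ∀ x ∈ A, T x ^ 2 ≤ (C4 : ℝ≥0∞) ^ 2 * P ‖x‖ (ang x) ^ 2 := by
    intro x hx
    rw [← mul_pow]
    refine pow_le_pow_left' ?_ 2
    have h := hT (ang x) ‖x‖ hx.1 hx.2
    rw [polar_eq] at h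
    exact h
  calc ∫⁻ x in A, T x ^ 2
      ≤ ∫⁻ x in A, (C4 : ℝ≥0∞) ^ 2 * P ‖x‖ (ang x) ^ 2 := setLIntegral_mono' hAm hpt
    _ = ∫⁻ x, A.indicator (fun x => (C4 : ℝ≥0∞) ^ 2 * P ‖x‖ (ang x) ^ 2) x := by
        rw [lintegral_indicator hAm]
    _ = ∫⁻ r in Ioi (0 : ℝ), ∫⁻ θ in Ioc (-Real.pi) Real.pi, ENNReal.ofReal r *
        A.indicator (fun x => (C4 : ℝ≥0∞) ^ 2 * P ‖x‖ (ang x) ^ 2) (r • ev θ) :=
        h1.1 _ (((hPm.pow_const 2).const_mul _).indicator hAm)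
    _ ≤ ∫⁻ r in Ioi (0 : ℝ), ∫⁻ θ in Ioc (-Real.pi) Real.pi,
        2 * (C4 : ℝ≥0∞) ^ 2 * P r θ ^ 2 := by
        refine setLIntegral_mono' measurableSet_Ioi fun r hr => ?_
        refine setLIntegral_mono' measurableSet_Ioc fun θ hθ => ?_
        have hr0 : 0 < r := hr
        by_cases hx : r • ev θ ∈ A
        · rw [indicator_of_mem hx, norm_smul_ev hr0, ang_ev hr0 hθ, mul_assoc 2]
          refine mul_le_mul_left ?_ _
          have h7 : r ≤ 2 := by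
            have := hx.2
            rwa [norm_smul_ev hr0] at this
          calc ENNReal.ofReal r ≤ ENNReal.ofReal 2 := ENNReal.ofReal_le_ofReal h7
            _ = 2 := by norm_num
        · rw [indicator_of_notMem hx, mul_zero]
          exact zero_le
    _ ≤ ∫⁻ r, ∫⁻ θ in Ioc (-Real.pi) Real.pi, 2 * (C4 : ℝ≥0∞) ^ 2 * P r θ ^ 2 :=
        setLIntegral_le_lintegral _ _
    _ = 2 * (C4 : ℝ≥0∞) ^ 2 * ∫⁻ r, ∫⁻ θ in Ioc (-Real.pi) Real.pi, P r θ ^ 2 := by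
        have m8 : Measurable (fun p : ℝ × ℝ => P p.1 p.2 ^ 2) := hPm0.pow_const 2
        rw [← lintegral_const_mul _ m8.lintegral_prod_right']
        refine lintegral_congr fun ρ => ?_
        exact lintegral_const_mul _ (m8.comp (measurable_const.prodMk measurable_id))
    _ ≤ 2 * (C4 : ℝ≥0∞) ^ 2 * ((B : ℝ≥0∞) * (B * (4 * (C5 * (2 * L))))) :=
        mul_le_mul_right hint _
    _ = _ := by
        push_cast
        ring

end PIS_

open PIS_ in
theorem p_PIS (h1 : T_POLC) (h2 : T_VKX) (h3 : T_UB) (h4 : T_PT) (h5 : T_RAYS) (h6 : T_HM) :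
    T_PIS := by
  intro hC
  obtain ⟨C5, h5⟩ := h5 hC
  obtain ⟨C0, _, h2⟩ := h2
  obtain ⟨C3, h3⟩ := h3 C0
  obtain ⟨C4, h4⟩ := h4 C0
  refine ⟨2 * C4 ^ 2 * ((Real.toNNReal (2 * Real.pi) + C3) *
    ((Real.toNNReal (2 * Real.pi) + C3) * (4 * (C5 * 2)))), fun K g c hK hg => ?_⟩
  obtain ⟨V, V1, V2, hV⟩ := h2 K hK
  have hVc : Continuous V := continuous_iff_continuousAt.2 fun φ => (hV.d1 φ).continuousAt
  have ha0 : (0 : ℝ) ≤ (K : ℝ) ^ 4 := by positivity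
  have hMm : Measurable (fun ψ => 1 + ‖UU V ((K : ℝ) ^ 4) ψ‖ₑ) :=
    measurable_const.add (UU_cont hVc _).measurable.enorm
  refine shell h1 hMm (N_meas hg.meas) (h6 K g c _ ha0 hg) (C4 := C4)
    (fun θ => h5 K g c _ θ ha0 hg) ?_ (N_shift h1 hg.meas)
    (fun x => ⨆ R : ℝ, ‖∫ ξ in Metric.closedBall (0 : E 2) R \
      Metric.closedBall 0 ((K : ℝ) ^ 4), g ξ * ex x ξ‖ₑ)
    (fun θ ρ h7 h8 => iSup_le fun R => h4 K V V1 V2 g c hK hV hg θ ρ h7 h8 R)
  rw [lintegral_add_left measurable_const]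
  push_cast
  refine add_le_add ?_ (h3 K V V1 V2 hK hV)
  rw [setLIntegral_const, one_mul, Real.volume_Ioc]
  rw [show Real.pi - -Real.pi = 2 * Real.pi by ring]
  exact le_rfl

end Pool.Agent.CRL
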