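import Pool.Agent.CRL.Targets

/-!
# CRL: the target T_PSI (the cutoff)
-/

set_option autoImplicit false

namespace Pool.Agent.CRL

open MeasureTheory FourierTransform Set Filter Topology
open scoped ENNReal NNReal SchwartzMap ContDiff
open Pool.Agent.MBS (E ex S Sstar)
open Pool.Agent.KSP (IE)
open Pool.Agent.CAR (e1)

namespace PSI_

/-- the profile of the cutoff -/
noncomputable def h (t : ℝ) : ℝ :=
  Real.smoothTransition (16 / 3 * (t - 1 / 16)) * Real.smoothTransition (4 / 39 * (16 - t))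

lemma h_one {t : ℝ} (h1 : 1 / 4 ≤ t) (h2 : t ≤ 25 / 4) : h t = 1 := by
  unfold h
  rw [Real.smoothTransition.one_of_one_le (by linarith),
    Real.smoothTransition.one_of_one_le (by linarith), mul_one]

lemma h_zero_left {t : ℝ} (h1 : t ≤ 1 / 16) : h t = 0 := by
  unfold h
  rw [Real.smoothTransition.zero_of_nonpos (by linarith), zero_mul]

lemma h_zero_right {t : ℝ} (h1 : 16 ≤ t) : h t = 0 := by
  unfold h
  rw [Real.smoothTransition.zero_of_nonpos (x := 4 / 39 * (16 - t)) (by linarith), mul_zero]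

lemma h_smooth : ContDiff ℝ ∞ h := by
  unfold h
  have h1 : ContDiff ℝ ∞ (fun t : ℝ => 16 / 3 * (t - 1 / 16)) := by fun_prop
  have h2 : ContDiff ℝ ∞ (fun t : ℝ => 4 / 39 * (16 - t)) := by fun_prop
  exact (Real.smoothTransition.contDiff.comp h1).mul (Real.smoothTransition.contDiff.comp h2)

/-- the cutoff -/
noncomputable def chi (z : E 2) : ℂ := ((h (‖z‖ ^ 2) : ℝ) : ℂ)

lemma chi_smooth : ContDiff ℝ ∞ chi := by
  unfold chi
  exact Complex.ofRealCLM.contDiff.comp (h_smooth.comp (contDiff_norm_sq ℝ))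

lemma chi_supp : HasCompactSupport chi := by
  refine HasCompactSupport.of_support_subset_isCompact
    (isCompact_closedBall (0 : E 2) 4) fun z hz => ?_
  rw [Function.mem_support] at hz
  rw [mem_closedBall_zero_iff]
  by_contra h4
  rw [not_le] at h4
  refine hz ?_
  unfold chi
  rw [h_zero_right (by nlinarith), Complex.ofReal_zero]

lemma chi_one {z : E 2} (h1 : 1 / 2 ≤ ‖z‖) (h2 : ‖z‖ ≤ 5 / 2) : chi z = 1 := by
  unfold chi
  rw [h_one (by nlinarith) (by nlinarith), Complex.ofReal_one]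

lemma chi_zero : chi 0 = 0 := by
  unfold chi
  rw [norm_zero, h_zero_left (by norm_num), Complex.ofReal_zero]

/-- the cutoff as a Schwartz function -/
noncomputable def chS : 𝓢(E 2, ℂ) := chi_supp.toSchwartzMap chi_smooth

/-- its Fourier transform -/
noncomputable def psi : 𝓢(E 2, ℂ) := 𝓕 chS

lemma IE_psi (z : E 2) : IE psi z = chi z := by
  rw [Pool.Agent.KSP.FA2_.IE_eq_fourier, ← Real.fourierInv_eq_fourier_neg]
  have h1 : (𝓕⁻ psi : 𝓢(E 2, ℂ)) = chS := by
    unfold psi
    exact FourierTransform.fourierInv_fourier_eq chS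
  have h2 : (𝓕⁻ (psi : E 2 → ℂ)) z = (𝓕⁻ psi : 𝓢(E 2, ℂ)) z := by
    rw [SchwartzMap.fourierInv_coe]
  rw [h2, h1]
  rfl

end PSI_

open PSI_ in
/-- the target PSI -/
theorem p_PSI : T_PSI := by
  refine ⟨psi, 2 ^ (10, 0).1 *
    (Finset.Iic (10, 0)).sup (fun m => SchwartzMap.seminorm ℝ m.1 m.2) psi, ?_, ?_, ?_, ?_⟩
  · exact psi.continuous
  · intro ζ
    have h1 := SchwartzMap.one_add_le_sup_seminorm_apply (𝕜 := ℝ) (m := (10, 0)) (k := 10)
      (n := 0) le_rfl le_rfl psi ζ
    rw [norm_iteratedFDeriv_zero] at h1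
    have h2 : (0 : ℝ) < (1 + ‖ζ‖) ^ 10 := by positivity
    rw [← div_eq_mul_inv, le_div_iff₀ h2, mul_comm]
    exact h1
  · have h1 := IE_psi 0
    rw [chi_zero] at h1
    rw [← h1]
    unfold IE
    refine integral_congr_ae (Filter.Eventually.of_forall fun ζ => ?_)
    simp [ex]
  · intro z h1 h2
    rw [IE_psi, chi_one h1 h2]

end Pool.Agent.CRL
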