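import Pool.Agent.CRL.Targets2

set_option autoImplicit false

/-!
# Block RAY: the Carleson theorem on rays
-/

namespace Pool.Agent.CRL

open MeasureTheory FourierTransform Set Filter Topology
open scoped ENNReal NNReal
open Pool.Agent.MBS (E ex S Sstar)
open Pool.Agent.KSP (IE)
open Pool.Agent.CAR (e1 T_CARL)

namespace RAY_

theorem ev_smul_continuous (θ : ℝ) : Continuous (fun r : ℝ => r • ev θ) :=
  continuous_id.smul continuous_const

/-- The function on the ray. -/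
noncomputable def G (g : E 2 → ℂ) (θ r : ℝ) : ℂ := (Real.sqrt r : ℂ) * g (r • ev θ)

theorem G_meas {g : E 2 → ℂ} (hg : Measurable g) (θ : ℝ) : Measurable (G g θ) :=
  (Complex.measurable_ofReal.comp Real.continuous_sqrt.measurable).mul
    (hg.comp (ev_smul_continuous θ).measurable)

theorem G_memLp {K : ℕ} {g : E 2 → ℂ} {c : ℤ → ℝ → ℂ} (h : Ang K g c) (θ : ℝ) :
    MemLp (G g θ) 2 volume := by
  have h1 : G g θ = fun r => ∑ k ∈ Finset.Icc (-(K : ℤ)) K,
      (Real.sqrt r : ℂ) * c k r * ci (k * θ) := by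
    funext r
    unfold G
    by_cases hr : 0 < r
    · rw [h.eq r hr θ, Finset.mul_sum]
      exact Finset.sum_congr rfl fun k _ => (mul_assoc _ _ _).symm
    · rw [Real.sqrt_eq_zero_of_nonpos (not_lt.1 hr)]
      simp
  rw [h1]
  refine memLp_finsetSum _ fun k _ => ?_
  have hm : Measurable (fun r : ℝ => (Real.sqrt r : ℂ) * c k r) :=
    (Complex.measurable_ofReal.comp Real.continuous_sqrt.measurable).mul (h.mc k)
  have h2 : MemLp (fun r : ℝ => (Real.sqrt r : ℂ) * c k r) 2 volume := by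
    rw [memLp_two_iff_integrable_sq_norm hm.aestronglyMeasurable]
    have h3 : (fun r : ℝ => ‖(Real.sqrt r : ℂ) * c k r‖ ^ 2) =
        (Ioi (0 : ℝ)).indicator (fun r => r * ‖c k r‖ ^ 2) := by
      funext r
      by_cases hr : 0 < r
      · rw [indicator_of_mem (show r ∈ Ioi (0 : ℝ) from hr), norm_mul, mul_pow,
          Complex.norm_real, Real.norm_eq_abs, sq_abs, Real.sq_sqrt hr.le]
      · rw [indicator_of_notMem (show r ∉ Ioi (0 : ℝ) from hr),
          Real.sqrt_eq_zero_of_nonpos (not_lt.1 hr)]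
        simp
    rw [h3, integrable_indicator_iff measurableSet_Ioi]
    exact h.sq k
  exact h2.mul_const _

theorem e1_norm (x : ℝ) : ‖e1 x‖ = 1 := by
  unfold e1
  rw [show (2 * Real.pi * Complex.I * (x : ℂ) : ℂ) = ((2 * Real.pi * x : ℝ) : ℂ) * Complex.I
    from by push_cast; ring]
  exact Complex.norm_exp_ofReal_mul_I _

theorem e1_continuous : Continuous e1 := by
  unfold e1
  fun_prop

/-- The truncated integrals. -/
noncomputable def F (g : E 2 → ℂ) (a θ R ρ : ℝ) : ℂ := ∫ r in Ioc a R, G g θ r * e1 (r * ρ)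

theorem intOn {K : ℕ} {g : E 2 → ℂ} {c : ℤ → ℝ → ℂ} (h : Ang K g c) (θ ρ : ℝ) :
    LocallyIntegrable (fun r => G g θ r * e1 (r * ρ)) volume := by
  have h1 : LocallyIntegrable (G g θ) volume := (G_memLp h θ).locallyIntegrable (by norm_num)
  have hm : Continuous (fun r : ℝ => e1 (r * ρ)) :=
    e1_continuous.comp (continuous_id.mul continuous_const)
  intro x
  obtain ⟨s, hs, hi⟩ := h1 x
  refine ⟨s, hs, ?_⟩
  exact hi.mul_bdd (c := 1) hm.aestronglyMeasurable (ae_of_all _ fun r => (e1_norm _).le)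

theorem F_eq {g : E 2 → ℂ} {a θ R ρ : ℝ} :
    F g a θ R ρ = ∫ r in a..(max a R), G g θ r * e1 (r * ρ) := by
  unfold F
  rw [intervalIntegral.integral_of_le (le_max_left _ _)]
  rcases le_total a R with h | h
  · rw [max_eq_right h]
  · rw [max_eq_left h, Ioc_eq_empty (not_lt.2 h), Ioc_self]

theorem F_cont_R {K : ℕ} {g : E 2 → ℂ} {c : ℤ → ℝ → ℂ} (h : Ang K g c) (a θ ρ : ℝ) :
    Continuous (fun R => F g a θ R ρ) := by
  have h1 := intOn h θ ρ
  have h2 : Continuous (fun b : ℝ => ∫ r in a..b, G g θ r * e1 (r * ρ)) :=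
    intervalIntegral.continuous_primitive (fun x y =>
      (h1.integrableOn_isCompact isCompact_uIcc).intervalIntegrable) a
  have h3 : (fun R => F g a θ R ρ) =
      fun R => ∫ r in a..(max a R), G g θ r * e1 (r * ρ) := funext fun R => F_eq
  rw [h3]
  exact h2.comp (continuous_const.max continuous_id)

theorem F_cont_rho {K : ℕ} {g : E 2 → ℂ} {c : ℤ → ℝ → ℂ} (h : Ang K g c) (a θ R : ℝ) :
    Continuous (fun ρ => F g a θ R ρ) := by
  have h1 : LocallyIntegrable (G g θ) volume := (G_memLp h θ).locallyIntegrable (by norm_num)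
  have h2 : Integrable (G g θ) (volume.restrict (Ioc a R)) :=
    (h1.integrableOn_isCompact isCompact_Icc).mono_set Ioc_subset_Icc_self
  unfold F
  refine continuous_of_dominated (bound := fun r => ‖G g θ r‖) (fun ρ => ?_) (fun ρ => ?_)
    h2.norm ?_
  · have hm : Continuous (fun r : ℝ => e1 (r * ρ)) :=
      e1_continuous.comp (continuous_id.mul continuous_const)
    exact h2.1.mul hm.aestronglyMeasurable
  · refine ae_of_all _ fun r => ?_
    rw [norm_mul, e1_norm, mul_one]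
  · refine ae_of_all _ fun r => ?_
    exact continuous_const.mul (e1_continuous.comp (continuous_const.mul continuous_id))

/-- Suprema over rational radii. -/
theorem iSup_rat {f : ℝ → ℝ≥0∞} (hf : Continuous f) : ⨆ R : ℝ, f R = ⨆ q : ℚ, f (q : ℝ) := by
  refine le_antisymm (iSup_le fun R => ?_) (iSup_le fun q => le_iSup f (q : ℝ))
  have hc : IsClosed {R : ℝ | f R ≤ ⨆ q : ℚ, f (q : ℝ)} := isClosed_le hf continuous_const
  exact Rat.denseRange_cast.induction_on (p := fun R : ℝ => f R ≤ ⨆ q : ℚ, f (q : ℝ)) R hc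
    (fun q => le_iSup (fun q : ℚ => f (q : ℝ)) q)

/-- The truncated maximal function. -/
noncomputable def HN (g : E 2 → ℂ) (a θ : ℝ) (n : ℕ) (ρ : ℝ) : ℝ≥0∞ :=
  ⨆ R : ℝ, ‖F g a θ (min R n) ρ‖ₑ

theorem HN_meas {K : ℕ} {g : E 2 → ℂ} {c : ℤ → ℝ → ℂ} (h : Ang K g c) (a θ : ℝ) (n : ℕ) :
    Measurable (HN g a θ n) := by
  have h1 : HN g a θ n = fun ρ => ⨆ q : ℚ, ‖F g a θ (min (q : ℝ) n) ρ‖ₑ := by
    funext ρ
    unfold HN
    exact iSup_rat (((F_cont_R h a θ ρ).comp (continuous_id.min continuous_const)).enorm)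
  rw [h1]
  exact Measurable.iSup fun q => (F_cont_rho h a θ _).enorm.measurable

theorem HN_mono (g : E 2 → ℂ) (a θ : ℝ) : Monotone (HN g a θ) := by
  intro n m hnm ρ
  refine iSup_le fun R => ?_
  have h1 : (n : ℝ) ≤ m := by exact_mod_cast hnm
  have h2 : min (min R (n : ℝ)) (m : ℝ) = min R n := min_eq_left ((min_le_right _ _).trans h1)
  have h3 := le_iSup (fun R : ℝ => ‖F g a θ (min R m) ρ‖ₑ) (min R n)
  rw [h2] at h3
  exact h3

theorem HN_sup (g : E 2 → ℂ) (a θ ρ : ℝ) : HH g a θ ρ = ⨆ n : ℕ, HN g a θ n ρ := by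
  refine le_antisymm (iSup_le fun R => ?_) (iSup_le fun n => iSup_le fun R => ?_)
  · obtain ⟨n, hn⟩ := exists_nat_ge R
    refine le_trans ?_ (le_iSup (fun n : ℕ => HN g a θ n ρ) n)
    have h3 := le_iSup (fun R : ℝ => ‖F g a θ (min R n) ρ‖ₑ) R
    rw [min_eq_left hn] at h3
    exact h3
  · exact le_iSup (fun R : ℝ =>
      ‖∫ r in Ioc a R, (Real.sqrt r : ℂ) * g (r • ev θ) * e1 (r * ρ)‖ₑ) (min R n)

/-- The truncated function. -/
noncomputable def gn (g : E 2 → ℂ) (a θ : ℝ) (n : ℕ) : ℝ → ℂ := (Ioc a (n : ℝ)).indicator (G g θ)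

theorem F_gn (g : E 2 → ℂ) (a θ : ℝ) (n : ℕ) (R ρ : ℝ) (hR : R ≤ n) :
    F g a θ R ρ = ∫ r in Iio R, gn g a θ n r * e1 (ρ * r) := by
  have h1 : (fun r => gn g a θ n r * e1 (ρ * r)) =
      (Ioc a (n : ℝ)).indicator (fun r => G g θ r * e1 (r * ρ)) := by
    funext r
    unfold gn
    by_cases hr : r ∈ Ioc a (n : ℝ)
    · rw [indicator_of_mem hr, indicator_of_mem hr, mul_comm ρ r]
    · rw [indicator_of_notMem hr, indicator_of_notMem hr, zero_mul]
  rw [h1, setIntegral_indicator measurableSet_Ioc]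
  have h2 : Iio R ∩ Ioc a (n : ℝ) = Ioo a R := by
    ext r
    simp only [mem_inter_iff, mem_Iio, mem_Ioc, mem_Ioo]
    constructor
    · rintro ⟨h3, h4, -⟩
      exact ⟨h4, h3⟩
    · rintro ⟨h3, h4⟩
      exact ⟨h4, h3, h4.le.trans hR⟩
  rw [h2, ← integral_Ioc_eq_integral_Ioo]
  rfl

theorem lint_G (g : E 2 → ℂ) (θ : ℝ) :
    ∫⁻ r, ‖G g θ r‖ₑ ^ 2 = ∫⁻ r in Ioi (0 : ℝ), ENNReal.ofReal r * ‖g (r • ev θ)‖ₑ ^ 2 := by
  rw [← lintegral_indicator measurableSet_Ioi]
  refine lintegral_congr fun r => ?_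
  unfold G
  by_cases hr : 0 < r
  · rw [indicator_of_mem (show r ∈ Ioi (0 : ℝ) from hr), enorm_mul, mul_pow]
    congr 1
    rw [← ofReal_norm, Complex.norm_real, Real.norm_eq_abs, abs_of_nonneg (Real.sqrt_nonneg r),
      ← ENNReal.ofReal_pow (Real.sqrt_nonneg r), Real.sq_sqrt hr.le]
  · rw [indicator_of_notMem (show r ∉ Ioi (0 : ℝ) from hr),
      Real.sqrt_eq_zero_of_nonpos (not_lt.1 hr)]
    simp

end RAY_

open RAY_ in
/-- The Carleson theorem on rays. -/
theorem p_RAY : T_RAY := by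
  rintro ⟨C, hC⟩
  refine ⟨C, fun K g c a θ B ha hg hB hBf => ?_⟩
  have h1 : ∫⁻ ρ in B, HH g a θ ρ = ⨆ n : ℕ, ∫⁻ ρ in B, HN g a θ n ρ := by
    rw [← lintegral_iSup (fun n => HN_meas hg a θ n) (HN_mono g a θ)]
    exact lintegral_congr fun ρ => HN_sup g a θ ρ
  rw [h1]
  refine iSup_le fun n => ?_
  have hG2 := G_memLp hg θ
  have hGl : LocallyIntegrable (G g θ) volume := hG2.locallyIntegrable (by norm_num)
  have hgm : Measurable (gn g a θ n) := (G_meas hg.meas θ).indicator measurableSet_Ioc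
  have hgi : Integrable (gn g a θ n) :=
    ((hGl.integrableOn_isCompact isCompact_Icc).mono_set
      Ioc_subset_Icc_self).integrable_indicator measurableSet_Ioc
  have hg2 : MemLp (gn g a θ n) 2 volume := hG2.indicator measurableSet_Ioc
  have hgs : Integrable (fun ξ => ‖gn g a θ n ξ‖ ^ 2) :=
    (memLp_two_iff_integrable_sq_norm hgm.aestronglyMeasurable).1 hg2
  have key := hC (gn g a θ n) B hgm hgi hgs hB hBf
  have h2 : ∫⁻ ρ in B, HN g a θ n ρ ≤
      ∫⁻ x in B, (⨆ m : ℝ, ‖∫ ξ in Iio m, gn g a θ n ξ * e1 (x * ξ)‖ₑ) := by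
    refine lintegral_mono fun ρ => iSup_le fun R => ?_
    have h3 := le_iSup (fun m : ℝ => ‖∫ ξ in Iio m, gn g a θ n ξ * e1 (ρ * ξ)‖ₑ) (min R n)
    rw [← F_gn g a θ n (min R n) ρ (min_le_right _ _)] at h3
    exact h3
  have h3 : ∫⁻ ξ, ‖gn g a θ n ξ‖ₑ ^ 2 ≤
      ∫⁻ r in Ioi (0 : ℝ), ENNReal.ofReal r * ‖g (r • ev θ)‖ₑ ^ 2 := by
    rw [← lint_G]
    refine lintegral_mono fun r => ?_
    unfold gn
    by_cases hr : r ∈ Ioc a (n : ℝ)
    · rw [indicator_of_mem hr]
    · rw [indicator_of_notMem hr]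
      simp
  refine (h2.trans key).trans ?_
  gcongr

end Pool.Agent.CRL
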