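import Pool.Agent.CRL.Targets3
import Pool.Agent.CRL.P_RAY

set_option autoImplicit false

/-!
# Block RAYS: the strong Carleson theorem on rays
-/

namespace Pool.Agent.CRL

open MeasureTheory FourierTransform Set Filter Topology
open scoped ENNReal NNReal
open Pool.Agent.MBS (E ex S Sstar)
open Pool.Agent.KSP (IE)
open Pool.Agent.CAR (e1)

open RAY_ in
/-- The strong Carleson theorem on rays. -/
theorem p_RAYS : T_RAYS := by
  rintro ⟨C, hC⟩
  refine ⟨C, fun K g c a θ ha hg => ?_⟩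
  have h1 : ∫⁻ ρ, HH g a θ ρ ^ 2 = ⨆ n : ℕ, ∫⁻ ρ, HN g a θ n ρ ^ 2 := by
    rw [← lintegral_iSup (fun n => (HN_meas hg a θ n).pow_const 2)
      (fun n m hnm ρ => pow_le_pow_left' (HN_mono g a θ hnm ρ) 2)]
    refine lintegral_congr fun ρ => ?_
    rw [HN_sup g a θ ρ, ENNReal.iSup_pow]
  rw [h1]
  refine iSup_le fun n => ?_
  have hG2 := G_memLp hg θ
  have hGl : LocallyIntegrable (G g θ) volume := hG2.locallyIntegrable (by norm_num)
  have hgm : Measurable (gn g a θ n) := (G_meas hg.meas θ).indicator measurableSet_Ioc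
  have hgi : Integrable (gn g a θ n) :=
    ((hGl.integrableOn_isCompact isCompact_Icc).mono_set
      Ioc_subset_Icc_self).integrable_indicator measurableSet_Ioc
  have hg2 : MemLp (gn g a θ n) 2 volume := hG2.indicator measurableSet_Ioc
  have hgs : Integrable (fun ξ => ‖gn g a θ n ξ‖ ^ 2) :=
    (memLp_two_iff_integrable_sq_norm hgm.aestronglyMeasurable).1 hg2
  have key := hC (gn g a θ n) hgm hgi hgs
  have h2 : ∫⁻ ρ, HN g a θ n ρ ^ 2 ≤
      ∫⁻ x, (⨆ m : ℝ, ‖∫ ξ in Iio m, gn g a θ n ξ * e1 (x * ξ)‖ₑ) ^ 2 := by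
    refine lintegral_mono fun ρ => pow_le_pow_left' (iSup_le fun R => ?_) 2
    have h3 := le_iSup (fun m : ℝ => ‖∫ ξ in Iio m, gn g a θ n ξ * e1 (ρ * ξ)‖ₑ) (min R n)
    rw [← F_gn g a θ n (min R n) ρ (min_le_right _ _)] at h3
    exact h3
  have h3 : ∫⁻ ξ, ‖gn g a θ n ξ‖ₑ ^ 2 ≤
      ∫⁻ r in Ioi (0 : ℝ), ENNReal.ofReal r * ‖g (r • ev θ)‖ₑ ^ 2 := by
    rw [← lint_G]
    refine lintegral_mono fun r => ?_
    unfold gn
    by_cases hr : r ∈ Ioc a (n : ℝ)
    · rw [indicator_of_mem hr]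
    · rw [indicator_of_notMem hr]
      simp
  refine (h2.trans key).trans ?_
  gcongr

end Pool.Agent.CRL
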