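import Pool.Agent.CRL.Targets2

set_option autoImplicit false

/-!
# CRL, target `T_SHN`: shells and modes
-/

namespace Pool.Agent.CRL

open MeasureTheory FourierTransform Set Filter Topology
open scoped ENNReal NNReal
open Pool.Agent.MBS (E ex S Sstar)

namespace SHN_

theorem norm_rot (θ : ℝ) (x : E 2) : ‖rot θ x‖ = ‖x‖ := by
  rw [EuclideanSpace.norm_eq, EuclideanSpace.norm_eq]
  congr 1
  rw [Fin.sum_univ_two, Fin.sum_univ_two]
  simp only [rot, Real.norm_eq_abs, sq_abs]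
  simp only [Matrix.cons_val_zero, Matrix.cons_val_one]
  nlinarith [Real.sin_sq_add_cos_sq θ, sq_nonneg (x 0), sq_nonneg (x 1)]

theorem rot_mem_sh (θ : ℝ) (x : E 2) (j : ℤ) : rot θ x ∈ sh j ↔ x ∈ sh j := by
  simp only [sh, mem_setOf_eq, norm_rot]

theorem rot_mem_near (θ : ℝ) (x : E 2) (j : ℤ) :
    rot θ x ∈ sh (j - 1) ∪ sh j ∪ sh (j + 1) ↔ x ∈ sh (j - 1) ∪ sh j ∪ sh (j + 1) := by
  simp only [mem_union, rot_mem_sh]

theorem measurableSet_sh (j : ℤ) : MeasurableSet (sh j) :=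
  (measurableSet_le measurable_const measurable_norm).inter
    (measurableSet_lt measurable_norm measurable_const)

theorem measurableSet_near (j : ℤ) : MeasurableSet (sh (j - 1) ∪ sh j ∪ sh (j + 1)) :=
  ((measurableSet_sh _).union (measurableSet_sh _)).union (measurableSet_sh _)

theorem disjoint_sh : Pairwise (Function.onFun Disjoint sh) := by
  intro i j hij
  rw [Function.onFun, Set.disjoint_left]
  intro x hi hj
  have h2 : (1 : ℝ) < 2 := one_lt_two
  have h3 : i < j + 1 := (zpow_lt_zpow_iff_right₀ h2).mp (lt_of_le_of_lt hi.1 hj.2)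
  have h4 : j < i + 1 := (zpow_lt_zpow_iff_right₀ h2).mp (lt_of_le_of_lt hj.1 hi.2)
  exact hij (by omega)

theorem amode_indicator (k : ℤ) (f : E 2 → ℂ) (A : Set (E 2))
    (hA : ∀ θ x, rot θ x ∈ A ↔ x ∈ A) : amode k (A.indicator f) = A.indicator (amode k f) := by
  classical
  funext x
  by_cases hx : x ∈ A
  · rw [indicator_of_mem hx]
    unfold amode
    congr 1
    apply intervalIntegral.integral_congr
    intro θ _
    beta_reduce
    rw [indicator_of_mem ((hA θ x).mpr hx)]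
  · rw [indicator_of_notMem hx]
    unfold amode
    have h : ∀ θ : ℝ, A.indicator f (rot θ x) * ci (-(k * θ)) = 0 := by
      intro θ
      rw [indicator_of_notMem (fun h => hx ((hA θ x).mp h)), zero_mul]
    simp only [h, intervalIntegral.integral_zero, mul_zero]

theorem lint_indicator (g : E 2 → ℂ) (A : Set (E 2)) (hA : MeasurableSet A) :
    ∫⁻ x, ‖A.indicator g x‖ₑ ^ 2 = ∫⁻ x in A, ‖g x‖ₑ ^ 2 := by
  rw [← lintegral_indicator hA]
  congr 1
  funext x
  by_cases hx : x ∈ A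
  · rw [indicator_of_mem hx, indicator_of_mem hx]
  · rw [indicator_of_notMem hx, indicator_of_notMem hx]
    simp

theorem sum_sh (h : E 2 → ℝ≥0∞) : ∑' j : ℤ, ∫⁻ x in sh j, h x ≤ ∫⁻ x, h x := by
  rw [← lintegral_iUnion measurableSet_sh disjoint_sh]
  exact setLIntegral_le_lintegral _ _

theorem sum_near (h : E 2 → ℝ≥0∞) :
    ∑' j : ℤ, ∫⁻ x in sh (j - 1) ∪ sh j ∪ sh (j + 1), h x ≤ 3 * ∫⁻ x, h x := by
  have h1 : ∀ j : ℤ, ∫⁻ x in sh (j - 1) ∪ sh j ∪ sh (j + 1), h x ≤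
      ((∫⁻ x in sh (j - 1), h x) + ∫⁻ x in sh j, h x) + ∫⁻ x in sh (j + 1), h x := fun j =>
    (lintegral_union_le _ _ _).trans (add_le_add (lintegral_union_le _ _ _) le_rfl)
  refine (ENNReal.tsum_le_tsum h1).trans ?_
  rw [ENNReal.tsum_add, ENNReal.tsum_add]
  have e1 : ∑' j : ℤ, ∫⁻ x in sh (j - 1), h x = ∑' j : ℤ, ∫⁻ x in sh j, h x :=
    (Equiv.subRight (1 : ℤ)).tsum_eq (fun j => ∫⁻ x in sh j, h x)
  have e2 : ∑' j : ℤ, ∫⁻ x in sh (j + 1), h x = ∑' j : ℤ, ∫⁻ x in sh j, h x :=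
    (Equiv.addRight (1 : ℤ)).tsum_eq (fun j => ∫⁻ x in sh j, h x)
  rw [e1, e2]
  have h2 := sum_sh h
  refine (add_le_add (add_le_add h2 h2) h2).trans (le_of_eq ?_)
  ring

end SHN_

open SHN_ in
/-- the target, without hypotheses -/
theorem p_SHN0 : T_SHN := by
  intro f _
  constructor
  · unfold NN
    have h1 : ∀ j k : ℤ,
        ∫⁻ x, ‖amode k ((sh (j - 1) ∪ sh j ∪ sh (j + 1)).indicator f) x‖ₑ ^ 2 =
          ∫⁻ x in sh (j - 1) ∪ sh j ∪ sh (j + 1), ‖amode k f x‖ₑ ^ 2 := by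
      intro j k
      rw [amode_indicator k f _ (fun θ x => rot_mem_near θ x j),
        lint_indicator _ _ (measurableSet_near j)]
    simp only [h1]
    rw [ENNReal.tsum_comm, ← ENNReal.tsum_mul_left]
    refine ENNReal.tsum_le_tsum fun k => ?_
    rw [ENNReal.tsum_mul_left, mul_left_comm]
    exact mul_le_mul_right (sum_near _) _
  · have h1 : ∀ i : ℤ, ∫⁻ x, ‖(sh i).indicator f x‖ₑ ^ 2 = ∫⁻ x in sh i, ‖f x‖ₑ ^ 2 := fun i =>
      lint_indicator _ _ (measurableSet_sh i)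
    simp only [h1]
    exact sum_sh _

theorem p_SHN (_h1 : T_MODA) : T_SHN := p_SHN0

end Pool.Agent.CRL
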