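import Pool.Agent.CRL.Targets2

set_option autoImplicit false

/-!
# CRL: subadditivity over the shells (target SUB)
-/

namespace Pool.Agent.CRL

open MeasureTheory FourierTransform Set Filter Topology
open scoped ENNReal NNReal
open Pool.Agent.MBS (E ex S Sstar ex_norm ex_continuous)

namespace SUB_

/-- The kernel. -/
noncomputable def ker (R : ℝ) (x y : E 2) : ℂ :=
  ∫ ξ in Metric.closedBall (0 : E 2) R,
    Complex.exp ((-2 * Real.pi * (inner ℝ y ξ : ℝ) : ℝ) * Complex.I) * ex x ξ

lemma ch_norm (y ξ : E 2) :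
    ‖Complex.exp ((-2 * Real.pi * (inner ℝ y ξ : ℝ) : ℝ) * Complex.I)‖ = 1 :=
  Complex.norm_exp_ofReal_mul_I _

lemma ch_cont : Continuous fun p : E 2 × E 2 =>
    Complex.exp ((-2 * Real.pi * (inner ℝ p.2 p.1 : ℝ) : ℝ) * Complex.I) := by
  have h1 : Continuous fun p : E 2 × E 2 => (-2 * Real.pi * (inner ℝ p.2 p.1 : ℝ) : ℝ) :=
    continuous_const.mul (continuous_snd.inner continuous_fst)
  exact Complex.continuous_exp.comp ((Complex.continuous_ofReal.comp h1).mul continuous_const)

lemma S_ker {g : E 2 → ℂ} (hg : Integrable g) (R : ℝ) (x : E 2) :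
    S g R x = ∫ y, g y * ker R x y := by
  have hI : Integrable (Function.uncurry fun (ξ y : E 2) =>
      (Complex.exp ((-2 * Real.pi * (inner ℝ y ξ : ℝ) : ℝ) * Complex.I) * ex x ξ) * g y)
      ((volume.restrict (Metric.closedBall (0 : E 2) R)).prod volume) := by
    have : IsFiniteMeasure (volume.restrict (Metric.closedBall (0 : E 2) R)) :=
      ⟨by rw [Measure.restrict_apply_univ]; exact measure_closedBall_lt_top⟩
    have h1 : Integrable (fun z : E 2 × E 2 => (1 : ℂ) * g z.2)
        ((volume.restrict (Metric.closedBall (0 : E 2) R)).prod volume) :=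
      (integrable_const (1 : ℂ)).mul_prod hg
    have h2 : Continuous fun z : E 2 × E 2 =>
        Complex.exp ((-2 * Real.pi * (inner ℝ z.2 z.1 : ℝ) : ℝ) * Complex.I) * ex x z.1 :=
      ch_cont.mul (ex_continuous.comp (continuous_const.prodMk continuous_fst))
    have h3 := h1.bdd_mul (c := 1) h2.aestronglyMeasurable (ae_of_all _ fun z => by
      rw [norm_mul, ch_norm, ex_norm, mul_one])
    refine h3.congr (ae_of_all _ fun z => ?_)
    simp only [Function.uncurry, one_mul]
  calc S g R x = ∫ ξ in Metric.closedBall (0 : E 2) R, ∫ y,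
        (Complex.exp ((-2 * Real.pi * (inner ℝ y ξ : ℝ) : ℝ) * Complex.I) * ex x ξ) * g y := by
        unfold S
        refine integral_congr_ae (ae_of_all _ fun ξ => ?_)
        simp only
        rw [Real.fourier_eq', ← integral_mul_const]
        refine integral_congr_ae (ae_of_all _ fun y => ?_)
        simp only [smul_eq_mul]
        ring
    _ = ∫ y, ∫ ξ in Metric.closedBall (0 : E 2) R,
        (Complex.exp ((-2 * Real.pi * (inner ℝ y ξ : ℝ) : ℝ) * Complex.I) * ex x ξ) * g y :=
        integral_integral_swap hI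
    _ = ∫ y, g y * ker R x y := by
        refine integral_congr_ae (ae_of_all _ fun y => ?_)
        simp only
        rw [integral_mul_const, mul_comm]
        rfl

lemma gk_int {g : E 2 → ℂ} (hg : Integrable g) (R : ℝ) (x : E 2) :
    Integrable fun y => g y * ker R x y := by
  have : IsFiniteMeasure (volume.restrict (Metric.closedBall (0 : E 2) R)) :=
    ⟨by rw [Measure.restrict_apply_univ]; exact measure_closedBall_lt_top⟩
  have h1 : Continuous (ker R x) := by
    refine continuous_of_dominated (F := fun y ξ =>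
      Complex.exp ((-2 * Real.pi * (inner ℝ y ξ : ℝ) : ℝ) * Complex.I) * ex x ξ)
      (bound := fun _ => 1) (fun y => ?_) (fun y => ae_of_all _ fun ξ => ?_)
      (integrable_const _) (ae_of_all _ fun ξ => ?_)
    · exact ((ch_cont.comp (continuous_id.prodMk continuous_const)).mul
        (ex_continuous.comp (continuous_const.prodMk continuous_id))).aestronglyMeasurable
    · rw [norm_mul, ch_norm, ex_norm, mul_one]
    · exact (ch_cont.comp (continuous_const.prodMk continuous_id)).mul continuous_const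
  have h2 : ∀ y, ‖ker R x y‖ ≤ ∫ _ in Metric.closedBall (0 : E 2) R, (1 : ℝ) := fun y => by
    refine (norm_integral_le_integral_norm _).trans (le_of_eq ?_)
    refine integral_congr_ae (ae_of_all _ fun ξ => ?_)
    simp only
    rw [norm_mul, ch_norm, ex_norm, mul_one]
  exact hg.mul_bdd h1.aestronglyMeasurable (ae_of_all _ h2)

lemma S_ind {f : E 2 → ℂ} (hf : Integrable f) {A : Set (E 2)} (hA : MeasurableSet A) (R : ℝ)
    (x : E 2) : S (A.indicator f) R x = ∫ y in A, f y * ker R x y := by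
  rw [S_ker (hf.indicator hA), ← integral_indicator hA]
  refine integral_congr_ae (ae_of_all _ fun y => ?_)
  by_cases h : y ∈ A
  · simp [h]
  · simp [h]

lemma sh_meas (i : ℤ) : MeasurableSet (sh i) :=
  (measurableSet_le measurable_const measurable_norm).inter
    (measurableSet_lt measurable_norm measurable_const)

lemma sh_uniq {i i' : ℤ} {y : E 2} (h : y ∈ sh i) (h' : y ∈ sh i') : i = i' := by
  have key : ∀ {a b : ℤ}, y ∈ sh a → y ∈ sh b → a ≤ b := by
    intro a b ha hb
    by_contra hlt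
    push Not at hlt
    have h1 : (2 : ℝ) ^ (b + 1) ≤ (2 : ℝ) ^ a := zpow_le_zpow_right₀ (by norm_num) (by omega)
    exact absurd (hb.2.trans_le h1) (not_lt.2 ha.1)
  exact le_antisymm (key h h') (key h' h)

lemma sh_ex {y : E 2} (hy : y ≠ 0) : ∃ i : ℤ, y ∈ sh i := by
  have h1 : 0 < ‖y‖ := norm_pos_iff.2 hy
  exact ⟨Int.log 2 ‖y‖, Int.zpow_log_le_self (by norm_num) h1,
    Int.lt_zpow_succ_log_self (by norm_num) ‖y‖⟩

/-- The pieces. -/
def pc (j i : ℤ) : Set (E 2) :=
  if i = j then sh (j - 1) ∪ sh j ∪ sh (j + 1) else if 2 ≤ |i - j| then sh i else ∅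

lemma pc_meas (j i : ℤ) : MeasurableSet (pc j i) := by
  unfold pc
  split_ifs
  · exact ((sh_meas _).union (sh_meas _)).union (sh_meas _)
  · exact sh_meas _
  · exact MeasurableSet.empty

/-- A point of a piece. -/
lemma pc_mem {j i : ℤ} {y : E 2} (h : y ∈ pc j i) :
    ∃ l : ℤ, y ∈ sh l ∧ ((i = j ∧ |l - j| ≤ 1) ∨ (2 ≤ |i - j| ∧ l = i)) := by
  unfold pc at h
  split_ifs at h with h1 h2
  · rcases h with (h | h) | h
    · exact ⟨_, h, Or.inl ⟨h1, by rw [abs_le]; omega⟩⟩
    · exact ⟨_, h, Or.inl ⟨h1, by simp⟩⟩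
    · exact ⟨_, h, Or.inl ⟨h1, by rw [abs_le]; omega⟩⟩
  · exact ⟨i, h, Or.inr ⟨h2, rfl⟩⟩
  · exact absurd h (notMem_empty _)

lemma pc_disj (j : ℤ) : Pairwise (Function.onFun Disjoint (pc j)) := by
  intro i i' hne
  refine Set.disjoint_left.2 fun y h h' => hne ?_
  obtain ⟨l, hl, h1⟩ := pc_mem h
  obtain ⟨l', hl', h2⟩ := pc_mem h'
  have h3 := sh_uniq hl hl'
  subst h3
  rcases h1 with ⟨a1, a2⟩ | ⟨a1, a2⟩
  · rcases h2 with ⟨b1, b2⟩ | ⟨b1, b2⟩
    · rw [a1, b1]
    · rw [b2] at a2
      omega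
  · rcases h2 with ⟨b1, b2⟩ | ⟨b1, b2⟩
    · rw [a2] at b2
      omega
    · rw [← a2, b2]

lemma pc_cover (j : ℤ) {y : E 2} (hy : y ≠ 0) : y ∈ ⋃ i, pc j i := by
  obtain ⟨i, hi⟩ := sh_ex hy
  by_cases h : 2 ≤ |i - j|
  · refine mem_iUnion.2 ⟨i, ?_⟩
    have h1 : i ≠ j := by
      rintro rfl
      simp at h
    simp only [pc, if_neg h1, if_pos h]
    exact hi
  · refine mem_iUnion.2 ⟨j, ?_⟩
    simp only [pc, if_true]
    push Not at h
    have h2 := abs_lt.1 h
    have h3 : i = j - 1 ∨ i = j ∨ i = j + 1 := by omega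
    rcases h3 with rfl | rfl | rfl
    · exact Or.inl (Or.inl hi)
    · exact Or.inl (Or.inr hi)
    · exact Or.inr hi

end SUB_

open SUB_ in
/-- SUB. -/
theorem p_SUB : T_SUB := by
  intro f j x hf
  have hfi := hf.int
  unfold Sstar
  refine iSup₂_le fun R hR => ?_
  have hcov : (⋃ i, pc j i : Set (E 2)) =ᵐ[volume] univ := by
    rw [ae_eq_univ]
    refine measure_mono_null (t := {0}) (fun y hy => ?_) (measure_singleton _)
    by_contra h0
    exact hy (pc_cover j h0)
  have h1 : S f R x = ∑' i, ∫ y in pc j i, f y * ker R x y := by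
    rw [S_ker hfi, ← setIntegral_univ, ← setIntegral_congr_set hcov]
    exact integral_iUnion (pc_meas j) (pc_disj j) (gk_int hfi R x).integrableOn
  have h2 : ‖S f R x‖ₑ ≤ ∑' i, ‖∫ y in pc j i, f y * ker R x y‖ₑ := by
    rw [h1]
    exact enorm_tsum_le_tsum_enorm
  refine h2.trans ?_
  rw [ENNReal.tsum_eq_add_tsum_ite j]
  refine add_le_add ?_ (ENNReal.tsum_le_tsum fun i => ?_)
  · have h3 : pc j j = sh (j - 1) ∪ sh j ∪ sh (j + 1) := by simp [pc]
    rw [← S_ind hfi (pc_meas j j) R x, h3]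
    exact le_iSup₂_of_le R hR le_rfl
  · by_cases h : i = j
    · simp [h]
    · rw [if_neg h]
      by_cases h4 : 2 ≤ |i - j|
      · rw [if_pos h4, ← S_ind hfi (pc_meas j i) R x]
        have h3 : pc j i = sh i := by simp [pc, h, h4]
        rw [h3]
        exact le_iSup₂_of_le R hR le_rfl
      · have h3 : pc j i = ∅ := by simp only [pc, if_neg h, if_neg h4]
        rw [if_neg h4, h3]
        simp

end Pool.Agent.CRL

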