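import Pool.Agent.CRL.EtaL

set_option autoImplicit false

/-!
# The `L¹` norm of `UU` in `ψ` (target UB)
-/

namespace Pool.Agent.CRL

open MeasureTheory Set Filter Topology
open scoped ENNReal NNReal

namespace UB_

open EtaL_

/-- the comparison function -/
noncomputable def qt (K : ℕ) (φ : ℝ) : ℝ := (1 + ((K : ℝ) ^ 2 / Real.pi * φ) ^ 2)⁻¹

theorem qt_pos (K : ℕ) (φ : ℝ) : 0 < qt K φ := by unfold qt; positivity

theorem qt_cont (K : ℕ) : Continuous (qt K) := by
  unfold qt
  exact Continuous.inv₀ (by fun_prop) fun φ => by positivity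

theorem int_qt {K : ℕ} (hK : 1 ≤ K) :
    ∫ φ in (-Real.pi)..Real.pi, qt K φ ≤ Real.pi ^ 2 / (K : ℝ) ^ 2 := by
  have hK' : (1 : ℝ) ≤ K := by exact_mod_cast hK
  have hp := Real.pi_pos
  have ha : 0 < (K : ℝ) ^ 2 / Real.pi := by positivity
  unfold qt
  rw [intervalIntegral.integral_comp_mul_left (fun x => (1 + x ^ 2)⁻¹) ha.ne',
    integral_inv_one_add_sq, smul_eq_mul]
  have h1 := Real.arctan_lt_pi_div_two ((K : ℝ) ^ 2 / Real.pi * Real.pi)
  have h2 := Real.neg_pi_div_two_lt_arctan ((K : ℝ) ^ 2 / Real.pi * -Real.pi)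
  have h3 : ((K : ℝ) ^ 2 / Real.pi)⁻¹ * (Real.arctan ((K : ℝ) ^ 2 / Real.pi * Real.pi) -
      Real.arctan ((K : ℝ) ^ 2 / Real.pi * -Real.pi)) ≤ ((K : ℝ) ^ 2 / Real.pi)⁻¹ * Real.pi := by
    refine mul_le_mul_of_nonneg_left (by linarith) (by positivity)
  refine h3.trans (le_of_eq ?_)
  field_simp

section

variable {C0 : ℝ} {K : ℕ} {V V1 V2 : ℝ → ℝ}

/-- `q` -/
noncomputable def q (t φ : ℝ) : ℝ := (1 + t * Real.sin φ ^ 2)⁻¹

theorem q_pos {t : ℝ} (ht : 0 ≤ t) (φ : ℝ) : 0 < q t φ := by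
  unfold q
  have : 0 ≤ t * Real.sin φ ^ 2 := by positivity
  positivity

theorem q_eq {t : ℝ} (ht : 0 ≤ t) (φ : ℝ) : q t φ * (1 + t * Real.sin φ ^ 2) = 1 := by
  unfold q
  have : 0 ≤ t * Real.sin φ ^ 2 := by positivity
  exact inv_mul_cancel₀ (by positivity)

theorem q_cont {t : ℝ} (ht : 0 ≤ t) : Continuous (q t) := by
  unfold q
  refine Continuous.inv₀ (by fun_prop) fun φ => ?_
  have : 0 ≤ t * Real.sin φ ^ 2 := by positivity
  positivity

theorem q_hd {t : ℝ} (ht : 0 ≤ t) (φ : ℝ) :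
    HasDerivAt (q t) (-(2 * t * Real.sin φ * Real.cos φ * q t φ ^ 2)) φ := by
  have h0 : 1 + t * Real.sin φ ^ 2 ≠ 0 := by
    have : 0 ≤ t * Real.sin φ ^ 2 := by positivity
    positivity
  have h1 : HasDerivAt (fun φ => 1 + t * Real.sin φ ^ 2)
      (t * (2 * Real.sin φ * Real.cos φ)) φ := by
    have h2 := (((Real.hasDerivAt_sin φ).pow 2).const_mul t).const_add 1
    exact h2.congr_deriv (by norm_num)
  have h2 := h1.inv h0
  unfold q
  refine h2.congr_deriv ?_
  rw [div_eq_mul_inv, inv_pow]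
  ring

/-- the majorant -/
noncomputable def hh (M : ℝ) (K : ℕ) (V V1 : ℝ → ℝ) (φ ψ : ℝ) : ℝ :=
  (4 + M) * qt K φ * |V (φ - ψ)| + (qt K φ / K + ((K : ℝ) ^ 3)⁻¹) / 2 * |V1 (φ - ψ)|

theorem bound {M : ℝ} (hM : ∀ φ ∈ Icc (-Real.pi) Real.pi, |eta1 φ| ≤ M) (hK : 1 ≤ K)
    (h : VK C0 K V V1 V2) (ψ : ℝ) :
    ‖∫ φ in (-Real.pi)..Real.pi, (V (φ - ψ) : ℂ) * (eta φ : ℂ) *
      ph ((K : ℝ) ^ 4) φ‖ ≤ ∫ φ in (-Real.pi)..Real.pi, hh M K V V1 φ ψ := by
  have hK' : (1 : ℝ) ≤ K := by exact_mod_cast hK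
  have hp := Real.pi_pos
  set t : ℝ := (K : ℝ) ^ 4 with ht
  have ht0 : 0 ≤ t := by positivity
  have cV := vk_cont h
  have cV1 := vk_cont1 h
  have cq := q_cont ht0
  have cph := ph_cont t
  have ce := eta_cont
  have ce1 := eta1_cont
  have cci : Continuous (qt K) := qt_cont K
  -- the derivative of `W q sin`
  set G : ℝ → ℝ := fun φ => V (φ - ψ) * eta φ * q t φ * Real.sin φ with hG
  set G' : ℝ → ℝ := fun φ => (V1 (φ - ψ) * eta φ + V (φ - ψ) * eta1 φ) * (q t φ * Real.sin φ) +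
    V (φ - ψ) * eta φ * (q t φ * Real.cos φ -
      2 * t * Real.sin φ ^ 2 * Real.cos φ * q t φ ^ 2) with hG'
  have hGd : ∀ φ, HasDerivAt G (G' φ) φ := by
    intro φ
    have d1 : HasDerivAt (fun φ => V (φ - ψ)) (V1 (φ - ψ)) φ := (h.d1 (φ - ψ)).comp_sub_const φ ψ
    have d2 := ((d1.mul (eta_hd φ)).mul (q_hd ht0 φ)).mul (Real.hasDerivAt_sin φ)
    refine d2.congr_deriv ?_
    simp only [hG', Pi.mul_apply]
    ring
  have cG' : Continuous G' := by
    rw [hG']
    fun_prop
  set X : ℝ → ℂ := fun φ => Complex.I * ((G φ : ℂ) * ph t φ) with hX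
  have hXd : ∀ φ, HasDerivAt X (Complex.I * (((G' φ : ℝ) : ℂ) * ph t φ +
      (G φ : ℂ) * (-(Complex.I * t * (Real.sin φ : ℝ)) * ph t φ))) φ := by
    intro φ
    exact (((hGd φ).ofReal_comp).mul (ph_hd t φ)).const_mul _
  have hint : ∫ φ in (-Real.pi)..Real.pi, (Complex.I * (((G' φ : ℝ) : ℂ) * ph t φ +
      (G φ : ℂ) * (-(Complex.I * t * (Real.sin φ : ℝ)) * ph t φ))) = X Real.pi - X (-Real.pi) := by
    refine intervalIntegral.integral_eq_sub_of_hasDerivAt (fun φ _ => hXd φ) ?_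
    apply Continuous.intervalIntegrable
    have cG : Continuous G := by rw [hG]; fun_prop
    fun_prop
  have hX0 : X Real.pi - X (-Real.pi) = 0 := by
    simp [hX, hG]
  rw [hX0] at hint
  have e1 : ∀ φ, (V (φ - ψ) : ℂ) * (eta φ : ℂ) * ph t φ =
      (((V (φ - ψ) * eta φ * q t φ : ℝ) : ℂ) * ph t φ - Complex.I * ((G' φ : ℝ) : ℂ) * ph t φ) +
      (Complex.I * (((G' φ : ℝ) : ℂ) * ph t φ +
      (G φ : ℂ) * (-(Complex.I * t * (Real.sin φ : ℝ)) * ph t φ))) := by
    intro φ
    have h1 : ((q t φ : ℝ) : ℂ) * (1 + t * (Real.sin φ : ℝ) ^ 2) = 1 := by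
      exact_mod_cast q_eq ht0 φ
    have h2 : (V (φ - ψ) : ℂ) * (eta φ : ℂ) * ph t φ = (V (φ - ψ) : ℂ) * (eta φ : ℂ) * ph t φ *
      (((q t φ : ℝ) : ℂ) * (1 + t * (Real.sin φ : ℝ) ^ 2)) := by rw [h1, mul_one]
    rw [h2, hG]
    push_cast
    have hI : Complex.I * Complex.I = -1 := Complex.I_mul_I
    linear_combination ((V (φ - ψ) : ℂ) * (eta φ : ℂ) * ph t φ * ((q t φ : ℝ) : ℂ) *
      t * (Complex.sin φ) ^ 2) * hI
  have hci1 : IntervalIntegrable (fun φ => (((V (φ - ψ) * eta φ * q t φ : ℝ) : ℂ) * ph t φ -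
      Complex.I * ((G' φ : ℝ) : ℂ) * ph t φ)) volume (-Real.pi) Real.pi := by
    apply Continuous.intervalIntegrable
    fun_prop
  have hci2 : IntervalIntegrable (fun φ => (Complex.I * (((G' φ : ℝ) : ℂ) * ph t φ +
      (G φ : ℂ) * (-(Complex.I * t * (Real.sin φ : ℝ)) * ph t φ)))) volume
      (-Real.pi) Real.pi := by
    apply Continuous.intervalIntegrable
    have cG : Continuous G := by rw [hG]; fun_prop
    fun_prop
  have e2 : ∫ φ in (-Real.pi)..Real.pi, (V (φ - ψ) : ℂ) * (eta φ : ℂ) * ph t φ =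
      ∫ φ in (-Real.pi)..Real.pi, (((V (φ - ψ) * eta φ * q t φ : ℝ) : ℂ) * ph t φ -
        Complex.I * ((G' φ : ℝ) : ℂ) * ph t φ) := by
    simp_rw [e1]
    rw [intervalIntegral.integral_add hci1 hci2, hint, add_zero]
  rw [e2]
  refine (intervalIntegral.norm_integral_le_integral_norm (by linarith)).trans ?_
  refine intervalIntegral.integral_mono_on (by linarith) hci1.norm ?_ fun φ hφ => ?_
  · apply Continuous.intervalIntegrable
    unfold hh
    fun_prop
  · have hφ' : |φ| ≤ Real.pi := abs_le.2 hφ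
    have hM0 : |eta1 φ| ≤ M := hM φ hφ
    have hM1 : 0 ≤ M := (abs_nonneg _).trans hM0
    have hn : ‖((V (φ - ψ) * eta φ * q t φ : ℝ) : ℂ) * ph t φ -
        Complex.I * ((G' φ : ℝ) : ℂ) * ph t φ‖ ≤ |V (φ - ψ) * eta φ * q t φ| + |G' φ| := by
      refine (norm_sub_le _ _).trans (le_of_eq ?_)
      rw [norm_mul, norm_mul, norm_mul, norm_ph, Complex.norm_real, Complex.norm_real,
        Complex.norm_I]
      simp
    refine hn.trans ?_
    rcases le_total (Real.cos φ) (-1 / 2) with hc | hc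
    · have z1 := eta_zero hc
      have z2 := eta1_zero hc
      rw [hG']
      simp only [z1, z2, mul_zero, zero_mul, add_zero, abs_zero]
      unfold hh
      have := (qt_pos K φ).le
      positivity
    · -- the main case
      have hs := abs_le_pi_sin hφ' hc
      have hq0 := q_pos ht0 φ
      have hqq : q t φ ≤ qt K φ := by
        unfold q qt
        apply inv_anti₀ (by positivity)
        have h1 : φ ^ 2 ≤ Real.pi ^ 2 * Real.sin φ ^ 2 := by
          have := mul_self_le_mul_self (abs_nonneg φ) hs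
          have e3 : |φ| * |φ| = φ ^ 2 := by rw [abs_mul_abs_self]; ring
          have e4 : Real.pi * |Real.sin φ| * (Real.pi * |Real.sin φ|) =
              Real.pi ^ 2 * Real.sin φ ^ 2 := by
            have : |Real.sin φ| * |Real.sin φ| = Real.sin φ ^ 2 := by
              rw [abs_mul_abs_self]; ring
            rw [← this]; ring
          rw [e3, e4] at this
          exact this
        have h2 : ((K : ℝ) ^ 2 / Real.pi * φ) ^ 2 = t * (φ ^ 2 / Real.pi ^ 2) := by
          rw [ht]; field_simp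
        have h3 : φ ^ 2 / Real.pi ^ 2 ≤ Real.sin φ ^ 2 := by
          rw [div_le_iff₀ (by positivity)]; linarith
        rw [h2]
        have := mul_le_mul_of_nonneg_left h3 ht0
        linarith
      have hq1 : q t φ * |Real.sin φ| ≤ (qt K φ / K + ((K : ℝ) ^ 3)⁻¹) / 2 := by
        have hqe := q_eq ht0 φ
        have h1 : q t φ * |Real.sin φ| ≤ (q t φ / K + ((K : ℝ) ^ 3)⁻¹) / 2 := by
          have e3 : ((K : ℝ) ^ 3)⁻¹ = q t φ * (((K : ℝ) ^ 3)⁻¹ + K * Real.sin φ ^ 2) := by
            have : ((K : ℝ) ^ 3)⁻¹ + K * Real.sin φ ^ 2 =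
                ((K : ℝ) ^ 3)⁻¹ * (1 + t * Real.sin φ ^ 2) := by
              rw [ht]; field_simp
            rw [this, mul_left_comm, hqe, mul_one]
          rw [e3]
          have h2 : |Real.sin φ| ≤ (1 / K + (((K : ℝ) ^ 3)⁻¹ + K * Real.sin φ ^ 2)) / 2 := by
            have e5 : 0 ≤ ((K : ℝ) ^ 3)⁻¹ := by positivity
            have e6 : 2 * |Real.sin φ| ≤ 1 / K + K * Real.sin φ ^ 2 := by
              have e7 : 0 ≤ (1 - K * |Real.sin φ|) ^ 2 / K := by positivity
              have e8 : (1 - K * |Real.sin φ|) ^ 2 / K =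
                  1 / K + K * |Real.sin φ| ^ 2 - 2 * |Real.sin φ| := by
                field_simp
                ring
              rw [e8, sq_abs] at e7
              linarith
            linarith
          have := mul_le_mul_of_nonneg_left h2 hq0.le
          refine this.trans (le_of_eq ?_)
          field_simp
        refine h1.trans ?_
        gcongr
      have hq2 : |2 * t * Real.sin φ ^ 2 * Real.cos φ * q t φ ^ 2| ≤ 2 * q t φ := by
        have e3 : 2 * t * Real.sin φ ^ 2 * Real.cos φ * q t φ ^ 2 =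
            2 * q t φ * (Real.cos φ * (q t φ * (t * Real.sin φ ^ 2))) := by ring
        rw [e3, abs_mul, abs_of_pos (by positivity : 0 < 2 * q t φ)]
        refine mul_le_of_le_one_right (by positivity) ?_
        rw [abs_mul]
        have e4 : |q t φ * (t * Real.sin φ ^ 2)| ≤ 1 := by
          rw [abs_of_nonneg (by positivity)]
          have := q_eq ht0 φ
          have e5 : q t φ * (1 + t * Real.sin φ ^ 2) = q t φ + q t φ * (t * Real.sin φ ^ 2) := by
            ring
          rw [e5] at this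
          linarith
        exact mul_le_one₀ (Real.abs_cos_le_one φ) (abs_nonneg _) e4
      have hs1 := Real.abs_sin_le_one φ
      have hc1 := Real.abs_cos_le_one φ
      have he0 := eta_nonneg φ
      have he1 := eta_le_one φ
      have hv := abs_nonneg (V (φ - ψ))
      have hv1 := abs_nonneg (V1 (φ - ψ))
      have hG1 : |G' φ| ≤ |V1 (φ - ψ)| * (q t φ * |Real.sin φ|) +
          (M + 3) * q t φ * |V (φ - ψ)| := by
        rw [hG']
        dsimp only
        have a1 : |(V1 (φ - ψ) * eta φ + V (φ - ψ) * eta1 φ) * (q t φ * Real.sin φ)| ≤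
            |V1 (φ - ψ)| * (q t φ * |Real.sin φ|) + M * q t φ * |V (φ - ψ)| := by
          rw [abs_mul, abs_mul (q t φ), abs_of_pos hq0]
          have b1 : |V1 (φ - ψ) * eta φ + V (φ - ψ) * eta1 φ| ≤
              |V1 (φ - ψ)| + M * |V (φ - ψ)| := by
            refine (abs_add_le _ _).trans ?_
            rw [abs_mul, abs_mul, abs_of_nonneg he0]
            have := mul_le_mul_of_nonneg_left he1 hv1
            have := mul_le_mul_of_nonneg_left hM0 hv
            linarith
          have b2 := mul_le_mul_of_nonneg_right b1 (show 0 ≤ q t φ * |Real.sin φ| by positivity)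
          have b3 : M * |V (φ - ψ)| * (q t φ * |Real.sin φ|) ≤ M * |V (φ - ψ)| * (q t φ * 1) := by
            gcongr
          linarith
        have a2 : |V (φ - ψ) * eta φ * (q t φ * Real.cos φ -
            2 * t * Real.sin φ ^ 2 * Real.cos φ * q t φ ^ 2)| ≤ 3 * q t φ * |V (φ - ψ)| := by
          rw [abs_mul, abs_mul, abs_of_nonneg he0]
          have b1 : |q t φ * Real.cos φ - 2 * t * Real.sin φ ^ 2 * Real.cos φ * q t φ ^ 2| ≤
              3 * q t φ := by
            refine (abs_sub _ _).trans ?_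
            rw [abs_mul (q t φ), abs_of_pos hq0]
            have := mul_le_mul_of_nonneg_left hc1 hq0.le
            linarith
          have b2 : |V (φ - ψ)| * eta φ ≤ |V (φ - ψ)| := mul_le_of_le_one_right hv he1
          calc |V (φ - ψ)| * eta φ * |q t φ * Real.cos φ -
                2 * t * Real.sin φ ^ 2 * Real.cos φ * q t φ ^ 2|
              ≤ |V (φ - ψ)| * (3 * q t φ) := mul_le_mul b2 b1 (abs_nonneg _) hv
            _ = _ := by ring
        refine (abs_add_le _ _).trans ?_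
        linarith
      have hG2 : |V (φ - ψ) * eta φ * q t φ| ≤ q t φ * |V (φ - ψ)| := by
        rw [abs_mul, abs_mul, abs_of_nonneg he0, abs_of_pos hq0, mul_comm]
        refine mul_le_mul_of_nonneg_left ?_ hq0.le
        exact mul_le_of_le_one_right hv he1
      unfold hh
      have h5 := mul_le_mul_of_nonneg_left hq1 hv1
      have h6 : (4 + M) * q t φ * |V (φ - ψ)| ≤ (4 + M) * qt K φ * |V (φ - ψ)| := by
        gcongr
      linarith

end

end UB_

open UB_ EtaL_ in
/-- **UB** -/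
theorem p_UB : T_UB := by
  intro C0
  obtain ⟨M, hM⟩ := (isCompact_Icc (a := -Real.pi) (b := Real.pi)).exists_bound_of_continuousOn
    eta1_cont.continuousOn
  have hM' : ∀ φ ∈ Icc (-Real.pi) Real.pi, |eta1 φ| ≤ M := hM
  have hp := Real.pi_pos
  have hM0 : 0 ≤ M := (abs_nonneg _).trans (hM' 0 ⟨by linarith, by linarith⟩)
  refine ⟨(C0 * ((4 + M) * Real.pi ^ 2 + (Real.pi ^ 2 + 2 * Real.pi) / 2)).toNNReal, ?_⟩
  intro K V V1 V2 hK h
  have hK' : (1 : ℝ) ≤ K := by exact_mod_cast hK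
  have cV := vk_cont h
  have cV1 := vk_cont1 h
  have cqt := qt_cont K
  have hC0 : 0 ≤ C0 := by
    refine le_trans ?_ h.b0
    exact intervalIntegral.integral_nonneg (by linarith) fun _ _ => abs_nonneg _
  have hsq : Real.sqrt ((K : ℝ) ^ 4) = (K : ℝ) ^ 2 := by
    rw [show (K : ℝ) ^ 4 = ((K : ℝ) ^ 2) ^ 2 by ring]
    exact Real.sqrt_sq (by positivity)
  have hh0 : ∀ φ ψ, 0 ≤ hh M K V V1 φ ψ := by
    intro φ ψ
    unfold hh
    have := (qt_pos K φ).le
    positivity
  have chh : Continuous fun p : ℝ × ℝ => hh M K V V1 p.1 p.2 := by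
    unfold hh; fun_prop
  -- pointwise in `ψ`
  have h1 : ∀ ψ, ‖UU V ((K : ℝ) ^ 4) ψ‖ₑ ≤ ENNReal.ofReal ((K : ℝ) ^ 2) *
      ∫⁻ φ in Ioc (-Real.pi) Real.pi, ENNReal.ofReal (hh M K V V1 φ ψ) := by
    intro ψ
    have e1 : ‖UU V ((K : ℝ) ^ 4) ψ‖ ≤ (K : ℝ) ^ 2 *
        ∫ φ in (-Real.pi)..Real.pi, hh M K V V1 φ ψ := by
      unfold UU
      rw [norm_mul, hsq, Complex.norm_real, Real.norm_of_nonneg (by positivity)]
      exact mul_le_mul_of_nonneg_left (bound hM' hK h ψ) (by positivity)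
    have c1 : Continuous fun φ => hh M K V V1 φ ψ := by
      exact chh.comp (by fun_prop : Continuous fun φ : ℝ => (φ, ψ))
    rw [← ofReal_norm]
    refine (ENNReal.ofReal_le_ofReal e1).trans (le_of_eq ?_)
    rw [ENNReal.ofReal_mul (by positivity), intervalIntegral.integral_of_le (by linarith),
      ofReal_integral_eq_lintegral_ofReal (c1.integrableOn_Ioc)
        (ae_of_all _ fun φ => hh0 φ ψ)]
  refine (lintegral_mono h1).trans ?_
  have cm : Measurable fun p : ℝ × ℝ => ENNReal.ofReal (hh M K V V1 p.1 p.2) :=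
    ENNReal.measurable_ofReal.comp chh.measurable
  have cm2 : Measurable fun ψ => ∫⁻ φ in Ioc (-Real.pi) Real.pi,
      ENNReal.ofReal (hh M K V V1 φ ψ) := (cm.comp measurable_swap).lintegral_prod_right'
  rw [lintegral_const_mul _ cm2,
    lintegral_lintegral_swap (f := fun ψ φ => ENNReal.ofReal (hh M K V V1 φ ψ))
      (cm.comp measurable_swap).aemeasurable]
  -- the integral over `ψ`
  have h2 : ∀ φ, ∫⁻ ψ in Ioc (-Real.pi) Real.pi, ENNReal.ofReal (hh M K V V1 φ ψ) ≤
      ENNReal.ofReal ((4 + M) * C0 * qt K φ + C0 / 2 * (qt K φ + ((K : ℝ) ^ 2)⁻¹)) := by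
    intro φ
    have c1 : Continuous fun ψ => hh M K V V1 φ ψ :=
      chh.comp (by fun_prop : Continuous fun ψ : ℝ => (φ, ψ))
    rw [← ofReal_integral_eq_lintegral_ofReal (c1.integrableOn_Ioc)
        (ae_of_all _ fun ψ => hh0 φ ψ), ← intervalIntegral.integral_of_le (by linarith)]
    refine ENNReal.ofReal_le_ofReal ?_
    unfold hh
    have i1 : IntervalIntegrable (fun ψ => |V (φ - ψ)|) volume (-Real.pi) Real.pi := by
      apply Continuous.intervalIntegrable; fun_prop
    have i2 : IntervalIntegrable (fun ψ => |V1 (φ - ψ)|) volume (-Real.pi) Real.pi := by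
      apply Continuous.intervalIntegrable; fun_prop
    rw [intervalIntegral.integral_add (i1.const_mul _) (i2.const_mul _),
      intervalIntegral.integral_const_mul, intervalIntegral.integral_const_mul,
      int_shift h.per, int_shift (vk_per1 h)]
    have hq := (qt_pos K φ).le
    have a1 : (4 + M) * qt K φ * ∫ u in (-Real.pi)..Real.pi, |V u| ≤ (4 + M) * qt K φ * C0 :=
      mul_le_mul_of_nonneg_left h.b0 (by positivity)
    have a2 : (qt K φ / K + ((K : ℝ) ^ 3)⁻¹) / 2 * ∫ u in (-Real.pi)..Real.pi, |V1 u| ≤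
        (qt K φ / K + ((K : ℝ) ^ 3)⁻¹) / 2 * (C0 * K) :=
      mul_le_mul_of_nonneg_left h.b1 (by positivity)
    have a3 : (qt K φ / K + ((K : ℝ) ^ 3)⁻¹) / 2 * (C0 * K) =
        C0 / 2 * (qt K φ + ((K : ℝ) ^ 2)⁻¹) := by
      field_simp
    linarith
  have h3 : ∫⁻ φ in Ioc (-Real.pi) Real.pi, ∫⁻ ψ in Ioc (-Real.pi) Real.pi,
      ENNReal.ofReal (hh M K V V1 φ ψ) ≤ ENNReal.ofReal (((4 + M) * C0 + C0 / 2) *
        (Real.pi ^ 2 / (K : ℝ) ^ 2) + C0 / 2 * ((K : ℝ) ^ 2)⁻¹ * (2 * Real.pi)) := by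
    refine (lintegral_mono h2).trans ?_
    have c1 : Continuous fun φ => (4 + M) * C0 * qt K φ + C0 / 2 * (qt K φ + ((K : ℝ) ^ 2)⁻¹) := by
      fun_prop
    rw [← ofReal_integral_eq_lintegral_ofReal (c1.integrableOn_Ioc)
        (ae_of_all _ fun φ => by have := (qt_pos K φ).le; positivity),
      ← intervalIntegral.integral_of_le (by linarith)]
    refine ENNReal.ofReal_le_ofReal ?_
    have e1 : ∀ φ, (4 + M) * C0 * qt K φ + C0 / 2 * (qt K φ + ((K : ℝ) ^ 2)⁻¹) =
        ((4 + M) * C0 + C0 / 2) * qt K φ + C0 / 2 * ((K : ℝ) ^ 2)⁻¹ := fun φ => by ring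
    simp_rw [e1]
    have i1 : IntervalIntegrable (qt K) volume (-Real.pi) Real.pi := cqt.intervalIntegrable _ _
    rw [intervalIntegral.integral_add (i1.const_mul _) intervalIntegrable_const,
      intervalIntegral.integral_const_mul, intervalIntegral.integral_const, smul_eq_mul]
    have h4 := mul_le_mul_of_nonneg_left (int_qt hK)
      (show 0 ≤ (4 + M) * C0 + C0 / 2 by positivity)
    have h5 : Real.pi - -Real.pi = 2 * Real.pi := by ring
    rw [h5]
    linarith
  refine (mul_le_mul_right h3 _).trans ?_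
  rw [← ENNReal.ofReal_mul (by positivity)]
  refine le_of_eq ?_
  rw [ENNReal.ofReal]
  congr 2
  field_simp
  ring

end Pool.Agent.CRL
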