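import Pool.Agent.CRL.EtaL

set_option autoImplicit false

/-!
# The `t`-derivative of `UU` (target UD)
-/

namespace Pool.Agent.CRL

open MeasureTheory Set Filter Topology
open scoped ENNReal NNReal

namespace UD_

open EtaL_

/-- `2π/3` -/
noncomputable def bt : ℝ := 2 * Real.pi / 3

theorem bt_pos : 0 < bt := by unfold bt; have := Real.pi_pos; positivity

theorem bt_lt : bt < Real.pi := by unfold bt; have := Real.pi_pos; linarith

theorem cos_bt : Real.cos bt = -1 / 2 := by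
  have : bt = Real.pi - Real.pi / 3 := by unfold bt; ring
  rw [this, Real.cos_pi_sub, Real.cos_pi_div_three]; norm_num

theorem cos_out {φ : ℝ} (h1 : bt ≤ |φ|) (h2 : |φ| ≤ Real.pi) : Real.cos φ ≤ -1 / 2 := by
  rw [← Real.cos_abs, ← cos_bt]
  exact Real.cos_le_cos_of_nonneg_of_le_pi bt_pos.le h2 h1

theorem cos_in {φ : ℝ} (h : |φ| ≤ bt) : -1 / 2 ≤ Real.cos φ := by
  rw [← Real.cos_abs φ, ← cos_bt]
  exact Real.cos_le_cos_of_nonneg_of_le_pi (abs_nonneg _) bt_lt.le h

/-- reduction to the interval from -2π/3 to 2π/3 -/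
theorem reduce {F : ℝ → ℂ} (hF : Continuous F) (h0 : ∀ φ, Real.cos φ ≤ -1 / 2 → F φ = 0) :
    ∫ φ in (-Real.pi)..Real.pi, F φ = ∫ φ in (-bt)..bt, F φ := by
  have hp := Real.pi_pos
  have i : ∀ a b, IntervalIntegrable F volume a b := fun a b => hF.intervalIntegrable a b
  rw [← intervalIntegral.integral_add_adjacent_intervals (i (-Real.pi) (-bt)) (i (-bt) Real.pi),
    ← intervalIntegral.integral_add_adjacent_intervals (i (-bt) bt) (i bt Real.pi)]
  have h1 : ∫ φ in (-Real.pi)..(-bt), F φ = 0 := by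
    rw [← intervalIntegral.integral_zero (a := -Real.pi) (b := -bt) (μ := volume)]
    refine intervalIntegral.integral_congr fun φ hφ => ?_
    rw [uIcc_of_le (by linarith [bt_lt])] at hφ
    apply h0
    have hb := bt_pos
    apply cos_out
    · rw [abs_of_nonpos (by linarith [hφ.2])]; linarith [hφ.2]
    · rw [abs_of_nonpos (by linarith [hφ.2])]; linarith [hφ.1]
  have h2 : ∫ φ in bt..Real.pi, F φ = 0 := by
    rw [← intervalIntegral.integral_zero (a := bt) (b := Real.pi) (μ := volume)]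
    refine intervalIntegral.integral_congr fun φ hφ => ?_
    rw [uIcc_of_le bt_lt.le] at hφ
    apply h0
    have hb := bt_pos
    apply cos_out
    · rw [abs_of_nonneg (by linarith [hφ.1])]; exact hφ.1
    · rw [abs_of_nonneg (by linarith [hφ.1])]; exact hφ.2
  rw [h1, h2, zero_add, add_zero]

/-- `1/(1+cos φ)` -/
noncomputable def rr (φ : ℝ) : ℝ := (1 + Real.cos φ)⁻¹

/-- `tan(φ/2)` -/
noncomputable def TT (φ : ℝ) : ℝ := Real.sin φ * rr φ

theorem c_pos {φ : ℝ} (h : |φ| ≤ bt) : 1 / 2 ≤ 1 + Real.cos φ := by linarith [cos_in h]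

theorem rr_eq {φ : ℝ} (h : |φ| ≤ bt) : rr φ * (1 + Real.cos φ) = 1 := by
  unfold rr
  exact inv_mul_cancel₀ (by linarith [c_pos h])

theorem rr_pos {φ : ℝ} (h : |φ| ≤ bt) : 0 < rr φ := by
  unfold rr
  have := c_pos h
  exact inv_pos.2 (by linarith)

theorem rr_le {φ : ℝ} (h : |φ| ≤ bt) : rr φ ≤ 2 := by
  unfold rr
  have := c_pos h
  rw [inv_le_comm₀ (by linarith) (by norm_num)]
  linarith

theorem rr_hd {φ : ℝ} (h : |φ| ≤ bt) : HasDerivAt rr (Real.sin φ * rr φ ^ 2) φ := by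
  have h1 : HasDerivAt (fun φ => 1 + Real.cos φ) (-Real.sin φ) φ :=
    (Real.hasDerivAt_cos φ).const_add 1
  have h2 := h1.inv (by linarith [c_pos h])
  refine h2.congr_deriv ?_
  unfold rr
  rw [neg_neg, div_eq_mul_inv, inv_pow]

theorem TT_hd {φ : ℝ} (h : |φ| ≤ bt) : HasDerivAt TT (rr φ) φ := by
  have h2 := (Real.hasDerivAt_sin φ).mul (rr_hd h)
  refine h2.congr_deriv ?_
  have h3 := rr_eq h
  have h4 := Real.sin_sq_add_cos_sq φ
  have h5 : Real.cos φ * rr φ + Real.sin φ * (Real.sin φ * rr φ ^ 2) =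
      (Real.cos φ * (rr φ * (1 + Real.cos φ)) + Real.sin φ ^ 2 * rr φ) * rr φ := by
    rw [h3]; ring
  rw [h5]
  have h6 : Real.cos φ * (rr φ * (1 + Real.cos φ)) + Real.sin φ ^ 2 * rr φ =
      rr φ * (1 + Real.cos φ) := by
    linear_combination rr φ * h4
  rw [h6, h3, one_mul]

theorem TT_sin {φ : ℝ} (h : |φ| ≤ bt) : TT φ * Real.sin φ = 1 - Real.cos φ := by
  unfold TT
  have h3 := rr_eq h
  have h4 := Real.sin_sq_add_cos_sq φ
  linear_combination rr φ * h4 + (1 - Real.cos φ) * h3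

theorem TT_sq {φ : ℝ} (h : |φ| ≤ bt) : rr φ - 1 / 2 = TT φ ^ 2 / 2 := by
  unfold TT
  have h3 := rr_eq h
  have h4 := Real.sin_sq_add_cos_sq φ
  linear_combination (-1 / 2 * rr φ ^ 2) * h4 + (1 / 2 - 1 / 2 * rr φ * (1 - Real.cos φ)) * h3

theorem TT_le {φ : ℝ} (h : |φ| ≤ bt) : |TT φ| ≤ 2 := by
  unfold TT
  rw [abs_mul, abs_of_pos (rr_pos h)]
  have := Real.abs_sin_le_one φ
  have := rr_le h
  have := rr_pos h
  nlinarith [abs_nonneg (Real.sin φ)]

section

variable {C0 : ℝ} {K : ℕ} {V V1 V2 : ℝ → ℝ}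

/-- `Z` -/
noncomputable def ZZ (V V1 : ℝ → ℝ) (ψ φ : ℝ) : ℝ :=
  V1 (φ - ψ) * eta φ + V (φ - ψ) * eta1 φ + V (φ - ψ) * eta φ * TT φ / 2

/-- the derivative of `Z` -/
noncomputable def Z1 (V V1 V2 : ℝ → ℝ) (ψ φ : ℝ) : ℝ :=
  V2 (φ - ψ) * eta φ + V1 (φ - ψ) * eta1 φ + (V1 (φ - ψ) * eta1 φ + V (φ - ψ) * eta2 φ) +
    ((V1 (φ - ψ) * eta φ + V (φ - ψ) * eta1 φ) * TT φ + V (φ - ψ) * eta φ * rr φ) / 2

theorem V_hd (h : VK C0 K V V1 V2) (ψ φ : ℝ) :
    HasDerivAt (fun x => V (x - ψ)) (V1 (φ - ψ)) φ := (h.d1 (φ - ψ)).comp_sub_const φ ψ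

theorem V1_hd (h : VK C0 K V V1 V2) (ψ φ : ℝ) :
    HasDerivAt (fun x => V1 (x - ψ)) (V2 (φ - ψ)) φ := (h.d2 (φ - ψ)).comp_sub_const φ ψ

theorem ZZ_hd (h : VK C0 K V V1 V2) (ψ : ℝ) {φ : ℝ} (hφ : |φ| ≤ bt) :
    HasDerivAt (ZZ V V1 ψ) (Z1 V V1 V2 ψ φ) φ := by
  have d1 := (V1_hd h ψ φ).mul (eta_hd φ)
  have d2 := (V_hd h ψ φ).mul (eta1_hd φ)
  have d3 := (((V_hd h ψ φ).mul (eta_hd φ)).mul (TT_hd hφ)).div_const 2
  refine ((d1.add d2).add d3).congr_deriv ?_
  simp only [Z1, Pi.mul_apply]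

theorem rr_contOn : ContinuousOn rr (Icc (-bt) bt) := fun φ hφ =>
  (rr_hd (abs_le.2 hφ)).continuousAt.continuousWithinAt

theorem TT_contOn : ContinuousOn TT (Icc (-bt) bt) := fun φ hφ =>
  (TT_hd (abs_le.2 hφ)).continuousAt.continuousWithinAt

/-- the main identity -/
theorem ident (h : VK C0 K V V1 V2) (ψ : ℝ) {t : ℝ} (ht : 0 < t) :
    (1 / 2 : ℂ) * (∫ φ in (-bt)..bt, (V (φ - ψ) : ℂ) * (eta φ : ℂ) * ph t φ) +
      t * ∫ φ in (-bt)..bt, (V (φ - ψ) : ℂ) * (eta φ : ℂ) *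
        (Complex.I * ((Real.cos φ - 1 : ℝ) : ℂ) * ph t φ) =
      (Complex.I / t) * ∫ φ in (-bt)..bt,
        (((Z1 V V1 V2 ψ φ * rr φ + ZZ V V1 ψ φ * (Real.sin φ * rr φ ^ 2) : ℝ)) : ℂ) *
          ph t φ := by
  have hb := bt_pos
  have hcb : Real.cos bt ≤ -1 / 2 := cos_bt.le
  have hcb' : Real.cos (-bt) ≤ -1 / 2 := by rw [Real.cos_neg]; exact hcb
  have uI : uIcc (-bt) bt = Icc (-bt) bt := uIcc_of_le (by linarith)
  have cV : Continuous fun φ => V (φ - ψ) := (vk_cont h).comp (by fun_prop)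
  have cV1 : Continuous fun φ => V1 (φ - ψ) := (vk_cont1 h).comp (by fun_prop)
  have cV2 : Continuous fun φ => V2 (φ - ψ) := h.c2.comp (by fun_prop)
  have ce := eta_cont
  have ce1 := eta1_cont
  have ce2 := eta2_cont
  have cp := ph_cont t
  have cr := rr_contOn
  have cT := TT_contOn
  have htC : (t : ℂ) ≠ 0 := by exact_mod_cast ht.ne'
  have hI : Complex.I * Complex.I = -1 := Complex.I_mul_I
  -- first integration by parts
  have p1 : ∀ φ ∈ uIcc (-bt) bt, HasDerivAt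
      (fun φ => (((V (φ - ψ) * eta φ * TT φ : ℝ)) : ℂ) * ph t φ)
      ((((V1 (φ - ψ) * eta φ + V (φ - ψ) * eta1 φ) * TT φ +
        V (φ - ψ) * eta φ * rr φ : ℝ) : ℂ) * ph t φ +
        ((V (φ - ψ) * eta φ * TT φ : ℝ) : ℂ) *
          (-(Complex.I * t * (Real.sin φ : ℝ)) * ph t φ)) φ := by
    intro φ hφ
    rw [uI] at hφ
    have d3 := (((V_hd h ψ φ).mul (eta_hd φ)).mul (TT_hd (abs_le.2 hφ)))
    have d4 : HasDerivAt (fun φ => V (φ - ψ) * eta φ * TT φ)
        ((V1 (φ - ψ) * eta φ + V (φ - ψ) * eta1 φ) * TT φ + V (φ - ψ) * eta φ * rr φ) φ := d3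
    exact d4.ofReal_comp.mul (ph_hd t φ)
  have c1 : ContinuousOn (fun φ => (((V1 (φ - ψ) * eta φ + V (φ - ψ) * eta1 φ) * TT φ +
        V (φ - ψ) * eta φ * rr φ : ℝ) : ℂ) * ph t φ) (Icc (-bt) bt) := by
    refine ContinuousOn.mul ?_ cp.continuousOn
    refine Complex.continuous_ofReal.comp_continuousOn ?_
    exact (((cV1.mul ce).add (cV.mul ce1)).continuousOn.mul cT).add
      ((cV.mul ce).continuousOn.mul cr)
  have c2 : ContinuousOn (fun φ => ((V (φ - ψ) * eta φ * TT φ : ℝ) : ℂ) *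
      (-(Complex.I * t * (Real.sin φ : ℝ)) * ph t φ)) (Icc (-bt) bt) := by
    refine ContinuousOn.mul ?_ (by fun_prop)
    refine Complex.continuous_ofReal.comp_continuousOn ?_
    exact (cV.mul ce).continuousOn.mul cT
  have i1 : IntervalIntegrable (fun φ => (((V1 (φ - ψ) * eta φ + V (φ - ψ) * eta1 φ) * TT φ +
        V (φ - ψ) * eta φ * rr φ : ℝ) : ℂ) * ph t φ) volume (-bt) bt :=
    ContinuousOn.intervalIntegrable (by rw [uI]; exact c1)
  have i2 : IntervalIntegrable (fun φ => ((V (φ - ψ) * eta φ * TT φ : ℝ) : ℂ) *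
      (-(Complex.I * t * (Real.sin φ : ℝ)) * ph t φ)) volume (-bt) bt :=
    ContinuousOn.intervalIntegrable (by rw [uI]; exact c2)
  have r1 := intervalIntegral.integral_eq_sub_of_hasDerivAt p1 (i1.add i2)
  rw [intervalIntegral.integral_add i1 i2] at r1
  have z1 : (((V (bt - ψ) * eta bt * TT bt : ℝ)) : ℂ) * ph t bt -
      (((V (-bt - ψ) * eta (-bt) * TT (-bt) : ℝ)) : ℂ) * ph t (-bt) = 0 := by
    rw [eta_zero hcb, eta_zero hcb']; simp
  rw [z1] at r1
  -- second integration by parts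
  have p2 : ∀ φ ∈ uIcc (-bt) bt, HasDerivAt
      (fun φ => (((ZZ V V1 ψ φ * rr φ : ℝ)) : ℂ) * ph t φ)
      (((Z1 V V1 V2 ψ φ * rr φ + ZZ V V1 ψ φ * (Real.sin φ * rr φ ^ 2) : ℝ) : ℂ) * ph t φ +
        ((ZZ V V1 ψ φ * rr φ : ℝ) : ℂ) *
          (-(Complex.I * t * (Real.sin φ : ℝ)) * ph t φ)) φ := by
    intro φ hφ
    rw [uI] at hφ
    have d4 := (ZZ_hd h ψ (abs_le.2 hφ)).mul (rr_hd (abs_le.2 hφ))
    exact d4.ofReal_comp.mul (ph_hd t φ)
  have cZ : ContinuousOn (ZZ V V1 ψ) (Icc (-bt) bt) := fun φ hφ =>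
    (ZZ_hd h ψ (abs_le.2 hφ)).continuousAt.continuousWithinAt
  have cZ1 : ContinuousOn (Z1 V V1 V2 ψ) (Icc (-bt) bt) := by
    unfold Z1
    exact ((((cV2.mul ce).add (cV1.mul ce1)).add ((cV1.mul ce1).add (cV.mul ce2))).continuousOn.add
      (((((cV1.mul ce).add (cV.mul ce1)).continuousOn.mul cT).add
        ((cV.mul ce).continuousOn.mul cr)).div_const 2))
  have c3 : ContinuousOn (fun φ => ((Z1 V V1 V2 ψ φ * rr φ +
      ZZ V V1 ψ φ * (Real.sin φ * rr φ ^ 2) : ℝ) : ℂ) * ph t φ) (Icc (-bt) bt) := by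
    refine ContinuousOn.mul ?_ cp.continuousOn
    refine Complex.continuous_ofReal.comp_continuousOn ?_
    exact (cZ1.mul cr).add (cZ.mul (Real.continuous_sin.continuousOn.mul (cr.pow 2)))
  have c4 : ContinuousOn (fun φ => ((ZZ V V1 ψ φ * rr φ : ℝ) : ℂ) *
      (-(Complex.I * t * (Real.sin φ : ℝ)) * ph t φ)) (Icc (-bt) bt) := by
    refine ContinuousOn.mul ?_ (by fun_prop)
    exact Complex.continuous_ofReal.comp_continuousOn (cZ.mul cr)
  have i3 := ContinuousOn.intervalIntegrable (μ := volume) (a := -bt) (b := bt)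
    (by rw [uI]; exact c3)
  have i4 := ContinuousOn.intervalIntegrable (μ := volume) (a := -bt) (b := bt)
    (by rw [uI]; exact c4)
  have r2 := intervalIntegral.integral_eq_sub_of_hasDerivAt p2 (i3.add i4)
  rw [intervalIntegral.integral_add i3 i4] at r2
  have z2 : (((ZZ V V1 ψ bt * rr bt : ℝ)) : ℂ) * ph t bt -
      (((ZZ V V1 ψ (-bt) * rr (-bt) : ℝ)) : ℂ) * ph t (-bt) = 0 := by
    unfold ZZ
    rw [eta_zero hcb, eta_zero hcb', eta1_zero hcb, eta1_zero hcb']; simp
  rw [z2] at r2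
  -- combination
  set A := ∫ φ in (-bt)..bt, (V (φ - ψ) : ℂ) * (eta φ : ℂ) * ph t φ with hA
  set B := ∫ φ in (-bt)..bt, (V (φ - ψ) : ℂ) * (eta φ : ℂ) *
        (Complex.I * ((Real.cos φ - 1 : ℝ) : ℂ) * ph t φ) with hB
  set D := ∫ φ in (-bt)..bt, (((Z1 V V1 V2 ψ φ * rr φ +
    ZZ V V1 ψ φ * (Real.sin φ * rr φ ^ 2) : ℝ)) : ℂ) * ph t φ with hD
  set P := ∫ φ in (-bt)..bt, (((V1 (φ - ψ) * eta φ + V (φ - ψ) * eta1 φ) * TT φ +
        V (φ - ψ) * eta φ * rr φ : ℝ) : ℂ) * ph t φ with hP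
  have e1 : ∫ φ in (-bt)..bt, ((V (φ - ψ) * eta φ * TT φ : ℝ) : ℂ) *
      (-(Complex.I * t * (Real.sin φ : ℝ)) * ph t φ) = t * B := by
    rw [hB, ← intervalIntegral.integral_const_mul]
    refine intervalIntegral.integral_congr fun φ hφ => ?_
    rw [uI] at hφ
    have h5 : ((TT φ : ℝ) : ℂ) * ((Real.sin φ : ℝ) : ℂ) = 1 - ((Real.cos φ : ℝ) : ℂ) := by
      exact_mod_cast TT_sin (abs_le.2 hφ)
    push_cast at h5 ⊢
    linear_combination (-(V (φ - ψ) : ℂ) * (eta φ : ℂ) * Complex.I * t * ph t φ) * h5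
  have e2 : ∫ φ in (-bt)..bt, ((ZZ V V1 ψ φ * rr φ : ℝ) : ℂ) *
      (-(Complex.I * t * (Real.sin φ : ℝ)) * ph t φ) =
      -(Complex.I * t) * (P - (1 / 2 : ℂ) * A) := by
    have iA : IntervalIntegrable (fun φ => (V (φ - ψ) : ℂ) * (eta φ : ℂ) * ph t φ)
        volume (-bt) bt := by
      apply Continuous.intervalIntegrable
      exact (((Complex.continuous_ofReal.comp cV).mul (Complex.continuous_ofReal.comp ce)).mul cp)
    rw [hP, hA, ← intervalIntegral.integral_const_mul,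
      ← intervalIntegral.integral_sub i1 (iA.const_mul _), ← intervalIntegral.integral_const_mul]
    refine intervalIntegral.integral_congr fun φ hφ => ?_
    rw [uI] at hφ
    have h5 : ((rr φ : ℝ) : ℂ) - 1 / 2 = ((TT φ : ℝ) : ℂ) ^ 2 / 2 := by
      have h7 := congrArg (fun x : ℝ => (x : ℂ)) (TT_sq (abs_le.2 hφ))
      push_cast at h7
      exact h7
    have h6 : ((TT φ : ℝ) : ℂ) = ((Real.sin φ : ℝ) : ℂ) * ((rr φ : ℝ) : ℂ) := by
      unfold TT; push_cast; ring
    simp only [ZZ]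
    push_cast at h5 h6 ⊢
    linear_combination (Complex.I * t * ph t φ * (V (φ - ψ) : ℂ) * (eta φ : ℂ)) * h5 +
      (Complex.I * t * ph t φ * ((V1 (φ - ψ) : ℂ) * (eta φ : ℂ) + (V (φ - ψ) : ℂ) * (eta1 φ : ℂ) +
        (V (φ - ψ) : ℂ) * (eta φ : ℂ) * (TT φ : ℂ) / 2)) * h6
  rw [e1] at r1
  rw [e2] at r2
  -- r1 : P + t B = 0,  r2 : D - i t (P - A/2) = 0
  have f1 : (1 / 2 : ℂ) * A + t * B = -(P - (1 / 2 : ℂ) * A) := by
    linear_combination r1
  have f2 : P - (1 / 2 : ℂ) * A = -(Complex.I / t) * D := by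
    have : D = (Complex.I * t) * (P - (1 / 2 : ℂ) * A) := by linear_combination r2
    rw [this]
    field_simp
    linear_combination (2 * P - A) * hI
  rw [f1, f2]
  ring

theorem J_cont (h : VK C0 K V V1 V2) (ψ : ℝ) :
    Continuous fun t : ℝ => ∫ φ in (-Real.pi)..Real.pi,
      (V (φ - ψ) : ℂ) * (eta φ : ℂ) * ph t φ := by
  have cV := vk_cont h
  have ce := eta_cont
  have cci := ci_cont
  apply intervalIntegral.continuous_parametric_intervalIntegral_of_continuous'
  unfold ph Function.uncurry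
  dsimp only
  fun_prop

theorem J1_cont (h : VK C0 K V V1 V2) (ψ : ℝ) :
    Continuous fun t : ℝ => ∫ φ in (-Real.pi)..Real.pi,
      (V (φ - ψ) : ℂ) * (eta φ : ℂ) * (Complex.I * ((Real.cos φ - 1 : ℝ) : ℂ) * ph t φ) := by
  have cV := vk_cont h
  have ce := eta_cont
  have cci := ci_cont
  apply intervalIntegral.continuous_parametric_intervalIntegral_of_continuous'
  unfold ph Function.uncurry
  dsimp only
  fun_prop

theorem J_hd (h : VK C0 K V V1 V2) (ψ t : ℝ) :
    HasDerivAt (fun t : ℝ => ∫ φ in (-Real.pi)..Real.pi,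
      (V (φ - ψ) : ℂ) * (eta φ : ℂ) * ph t φ)
      (∫ φ in (-Real.pi)..Real.pi,
      (V (φ - ψ) : ℂ) * (eta φ : ℂ) * (Complex.I * ((Real.cos φ - 1 : ℝ) : ℂ) * ph t φ)) t := by
  have cV := vk_cont h
  have ce := eta_cont
  have cci := ci_cont
  have cp : ∀ t, Continuous (ph t) := ph_cont
  have cF : ∀ t : ℝ, Continuous fun φ => (V (φ - ψ) : ℂ) * (eta φ : ℂ) * ph t φ := by
    intro t
    have := cp t
    fun_prop
  have cF' : ∀ t : ℝ, Continuous fun φ =>
      (V (φ - ψ) : ℂ) * (eta φ : ℂ) * (Complex.I * ((Real.cos φ - 1 : ℝ) : ℂ) * ph t φ) := by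
    intro t
    have := cp t
    fun_prop
  have key := intervalIntegral.hasDerivAt_integral_of_dominated_loc_of_deriv_le
    (F := fun t φ => (V (φ - ψ) : ℂ) * (eta φ : ℂ) * ph t φ)
    (F' := fun t φ => (V (φ - ψ) : ℂ) * (eta φ : ℂ) *
      (Complex.I * ((Real.cos φ - 1 : ℝ) : ℂ) * ph t φ))
    (x₀ := t) (s := univ) (μ := volume) (a := -Real.pi) (b := Real.pi)
    (bound := fun φ => |V (φ - ψ)| * 2)
    Filter.univ_mem (Eventually.of_forall fun t => (cF t).aestronglyMeasurable)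
    ((cF t).intervalIntegrable _ _) (cF' t).aestronglyMeasurable
    (ae_of_all _ fun φ _ t _ => ?_) (Continuous.intervalIntegrable (by fun_prop) _ _)
    (ae_of_all _ fun φ _ t _ => ?_)
  · exact key.2
  · rw [norm_mul, norm_mul, norm_mul, norm_mul, norm_ph, Complex.norm_I, Complex.norm_real,
      Complex.norm_real, Complex.norm_real, one_mul, mul_one, Real.norm_eq_abs, Real.norm_eq_abs,
      Real.norm_eq_abs, abs_of_nonneg (eta_nonneg φ)]
    have h1 : |Real.cos φ - 1| ≤ 2 := by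
      have := Real.neg_one_le_cos φ
      have := Real.cos_le_one φ
      rw [abs_le]; constructor <;> linarith
    have h2 := eta_le_one φ
    have h3 := eta_nonneg φ
    have h4 := abs_nonneg (V (φ - ψ))
    calc |V (φ - ψ)| * eta φ * |Real.cos φ - 1| ≤ |V (φ - ψ)| * 1 * 2 := by gcongr
      _ = _ := by ring
  · have d1 : HasDerivAt (fun t : ℝ => ((t * (Real.cos φ - 1) : ℝ) : ℂ) * Complex.I)
        (((Real.cos φ - 1 : ℝ) : ℂ) * Complex.I) t := by
      have : HasDerivAt (fun t : ℝ => t * (Real.cos φ - 1)) (1 * (Real.cos φ - 1)) t :=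
        (hasDerivAt_id t).mul_const _
      rw [one_mul] at this
      exact this.ofReal_comp.mul_const _
    have d2 := d1.cexp
    have d3 := d2.const_mul ((V (φ - ψ) : ℂ) * (eta φ : ℂ))
    refine d3.congr_deriv ?_
    unfold ph ci
    ring

end

end UD_

open UD_ EtaL_ in
/-- **UD** -/
theorem p_UD : T_UD := by
  obtain ⟨M, hM⟩ := (isCompact_Icc (a := -Real.pi) (b := Real.pi)).exists_bound_of_continuousOn
    eta1_cont.continuousOn
  obtain ⟨M', hM'⟩ := (isCompact_Icc (a := -Real.pi) (b := Real.pi)).exists_bound_of_continuousOn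
    eta2_cont.continuousOn
  have hp := Real.pi_pos
  have hM0 : 0 ≤ M := (norm_nonneg _).trans (hM 0 ⟨by linarith, by linarith⟩)
  have hM0' : 0 ≤ M' := (norm_nonneg _).trans (hM' 0 ⟨by linarith, by linarith⟩)
  refine ⟨8 * M + 2 * M' + 8, by positivity, ?_⟩
  intro C0 K V V1 V2 h ψ
  have cV := vk_cont h
  have cV1 := vk_cont1 h
  have cV2 := h.c2
  set J : ℝ → ℂ := fun t => ∫ φ in (-Real.pi)..Real.pi,
      (V (φ - ψ) : ℂ) * (eta φ : ℂ) * ph t φ with hJ
  set J1 : ℝ → ℂ := fun t => ∫ φ in (-Real.pi)..Real.pi,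
      (V (φ - ψ) : ℂ) * (eta φ : ℂ) * (Complex.I * ((Real.cos φ - 1 : ℝ) : ℂ) * ph t φ) with hJ1
  refine ⟨fun t => (1 / (2 * Real.sqrt t) : ℝ) * J t + (Real.sqrt t : ℂ) * J1 t, ?_, ?_⟩
  · have c1 : ContinuousOn (fun t : ℝ => ((1 / (2 * Real.sqrt t) : ℝ) : ℂ)) (Ioi 0) := by
      refine Complex.continuous_ofReal.comp_continuousOn ?_
      refine ContinuousOn.div continuousOn_const (by fun_prop) fun t ht => ?_
      have : 0 < Real.sqrt t := Real.sqrt_pos.2 ht
      positivity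
    have c2 : Continuous fun t : ℝ => (Real.sqrt t : ℂ) := by fun_prop
    exact (c1.mul (J_cont h ψ).continuousOn).add (c2.continuousOn.mul (J1_cont h ψ).continuousOn)
  · intro t ht
    have hs : 0 < Real.sqrt t := Real.sqrt_pos.2 ht
    refine ⟨?_, ?_⟩
    · have d1 := (Real.hasDerivAt_sqrt ht.ne').ofReal_comp.mul (J_hd h ψ t)
      unfold UU
      exact d1
    · have hb := bt_pos
      have o0 : ∀ φ, Real.cos φ ≤ -1 / 2 → (V (φ - ψ) : ℂ) * (eta φ : ℂ) * ph t φ = 0 := by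
        intro φ hφ; rw [eta_zero hφ]; simp
      have o1 : ∀ φ, Real.cos φ ≤ -1 / 2 → (V (φ - ψ) : ℂ) * (eta φ : ℂ) *
          (Complex.I * ((Real.cos φ - 1 : ℝ) : ℂ) * ph t φ) = 0 := by
        intro φ hφ; rw [eta_zero hφ]; simp
      have ce := eta_cont
      have cp := ph_cont t
      have eJ := reduce (F := fun φ => (V (φ - ψ) : ℂ) * (eta φ : ℂ) * ph t φ) (by fun_prop) o0
      have eJ1 := reduce (F := fun φ => (V (φ - ψ) : ℂ) * (eta φ : ℂ) *
          (Complex.I * ((Real.cos φ - 1 : ℝ) : ℂ) * ph t φ)) (by fun_prop) o1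
      have hid := ident h ψ ht
      have htC : (t : ℂ) ≠ 0 := by exact_mod_cast ht.ne'
      have hsC : (Real.sqrt t : ℂ) ≠ 0 := by exact_mod_cast hs.ne'
      have hst : (Real.sqrt t : ℂ) * (Real.sqrt t : ℂ) = t := by
        exact_mod_cast Real.mul_self_sqrt ht.le
      set D := ∫ φ in (-bt)..bt, (((Z1 V V1 V2 ψ φ * rr φ +
        ZZ V V1 ψ φ * (Real.sin φ * rr φ ^ 2) : ℝ)) : ℂ) * ph t φ with hD
      have e1 : ((1 / (2 * Real.sqrt t) : ℝ) : ℂ) * J t + (Real.sqrt t : ℂ) * J1 t =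
          ((Real.sqrt t : ℂ))⁻¹ * ((Complex.I / t) * D) := by
        have key : ∀ A B : ℂ, ((1 / (2 * Real.sqrt t) : ℝ) : ℂ) * A + (Real.sqrt t : ℂ) * B =
            ((Real.sqrt t : ℂ))⁻¹ * ((1 / 2 : ℂ) * A + t * B) := by
          intro A B
          rw [← hst]
          push_cast
          field_simp
        rw [← hid, ← eJ, ← eJ1]
        exact key _ _
      dsimp only
      rw [e1, norm_mul, norm_mul, norm_div, norm_inv, Complex.norm_I, Complex.norm_real,
        Complex.norm_real, Real.norm_of_nonneg hs.le, Real.norm_of_nonneg ht.le]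
      have hDb : ‖D‖ ≤ (8 * M + 2 * M' + 8) * ((∫ φ in (-Real.pi)..Real.pi, |V φ|) +
          (∫ φ in (-Real.pi)..Real.pi, |V1 φ|) + ∫ φ in (-Real.pi)..Real.pi, |V2 φ|) := by
        have cg : Continuous fun φ => (8 * M + 2 * M' + 8) *
          (|V (φ - ψ)| + |V1 (φ - ψ)| + |V2 (φ - ψ)|) := by fun_prop
        have b1 : ‖D‖ ≤ ∫ φ in (-bt)..bt, (8 * M + 2 * M' + 8) *
            (|V (φ - ψ)| + |V1 (φ - ψ)| + |V2 (φ - ψ)|) := by
          rw [hD]
          refine intervalIntegral.norm_integral_le_of_norm_le (by linarith) ?_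
            (cg.intervalIntegrable _ _)
          refine ae_of_all _ fun φ hφ => ?_
          have hφ1 : |φ| ≤ bt := abs_le.2 ⟨hφ.1.le, hφ.2⟩
          have hφ2 : φ ∈ Icc (-Real.pi) Real.pi :=
            ⟨by linarith [hφ.1, bt_lt], by linarith [hφ.2, bt_lt]⟩
          rw [norm_mul, norm_ph, mul_one, Complex.norm_real, Real.norm_eq_abs]
          have g0 : |eta φ| ≤ 1 := by
            rw [abs_of_nonneg (eta_nonneg φ)]; exact eta_le_one φ
          have g1 : |eta1 φ| ≤ M := hM φ hφ2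
          have g2 : |eta2 φ| ≤ M' := hM' φ hφ2
          have g3 := TT_le hφ1
          have g4 : |rr φ| ≤ 2 := by rw [abs_of_pos (rr_pos hφ1)]; exact rr_le hφ1
          have g5 : |Real.sin φ * rr φ ^ 2| ≤ 4 := by
            rw [abs_mul, abs_pow]
            have := Real.abs_sin_le_one φ
            have g6 := abs_nonneg (rr φ)
            have g7 : |rr φ| ^ 2 ≤ 4 := by nlinarith
            nlinarith [abs_nonneg (Real.sin φ), sq_nonneg |rr φ|]
          set v := |V (φ - ψ)| with hv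
          set v1 := |V1 (φ - ψ)| with hv1
          set v2 := |V2 (φ - ψ)| with hv2
          have n0 : 0 ≤ v := abs_nonneg _
          have n1 : 0 ≤ v1 := abs_nonneg _
          have n2 : 0 ≤ v2 := abs_nonneg _
          have m : ∀ a b x y : ℝ, |a| ≤ x → |b| ≤ y → |a * b| ≤ x * y := by
            intro a b x y ha hb
            rw [abs_mul]
            exact mul_le_mul ha hb (abs_nonneg _) ((abs_nonneg _).trans ha)
          have a1 : |Z1 V V1 V2 ψ φ| ≤ v2 * 1 + v1 * M + (v1 * M + v * M') +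
              ((v1 * 1 + v * M) * 2 + v * 1 * 2) / 2 := by
            unfold Z1
            refine (abs_add_le _ _).trans ?_
            gcongr
            · refine (abs_add_le _ _).trans ?_
              gcongr
              · refine (abs_add_le _ _).trans ?_
                gcongr
                · exact m _ _ _ _ le_rfl g0
                · exact m _ _ _ _ le_rfl g1
              · refine (abs_add_le _ _).trans ?_
                gcongr
                · exact m _ _ _ _ le_rfl g1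
                · exact m _ _ _ _ le_rfl g2
            · rw [abs_div, abs_two]
              gcongr
              refine (abs_add_le _ _).trans ?_
              gcongr
              · refine m _ _ _ _ ?_ g3
                refine (abs_add_le _ _).trans ?_
                gcongr
                · exact m _ _ _ _ le_rfl g0
                · exact m _ _ _ _ le_rfl g1
              · exact m _ _ _ _ (m _ _ _ _ le_rfl g0) g4
          have a2 : |ZZ V V1 ψ φ| ≤ v1 * 1 + v * M + v * 1 * 2 / 2 := by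
            unfold ZZ
            refine (abs_add_le _ _).trans ?_
            gcongr
            · refine (abs_add_le _ _).trans ?_
              gcongr
              · exact m _ _ _ _ le_rfl g0
              · exact m _ _ _ _ le_rfl g1
            · rw [abs_div, abs_two]
              gcongr
              exact m _ _ _ _ (m _ _ _ _ le_rfl g0) g3
          have a3 : |Z1 V V1 V2 ψ φ * rr φ + ZZ V V1 ψ φ * (Real.sin φ * rr φ ^ 2)| ≤
              (v2 * 1 + v1 * M + (v1 * M + v * M') + ((v1 * 1 + v * M) * 2 + v * 1 * 2) / 2) * 2 +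
              (v1 * 1 + v * M + v * 1 * 2 / 2) * 4 := by
            refine (abs_add_le _ _).trans ?_
            gcongr
            · exact m _ _ _ _ a1 g4
            · exact m _ _ _ _ a2 g5
          refine a3.trans ?_
          nlinarith [mul_nonneg n0 hM0, mul_nonneg n1 hM0, mul_nonneg n2 hM0,
            mul_nonneg n0 hM0', mul_nonneg n1 hM0', mul_nonneg n2 hM0']
        have b2 : ∫ φ in (-bt)..bt, (8 * M + 2 * M' + 8) *
            (|V (φ - ψ)| + |V1 (φ - ψ)| + |V2 (φ - ψ)|) ≤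
            ∫ φ in (-Real.pi)..Real.pi, (8 * M + 2 * M' + 8) *
            (|V (φ - ψ)| + |V1 (φ - ψ)| + |V2 (φ - ψ)|) := by
          refine intervalIntegral.integral_mono_interval (by linarith [bt_lt]) (by linarith)
            bt_lt.le (ae_of_all _ fun φ => by positivity) (cg.intervalIntegrable _ _)
        refine b1.trans (b2.trans (le_of_eq ?_))
        have i1 : IntervalIntegrable (fun φ => |V (φ - ψ)|) volume (-Real.pi) Real.pi := by
          apply Continuous.intervalIntegrable; fun_prop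
        have i2 : IntervalIntegrable (fun φ => |V1 (φ - ψ)|) volume (-Real.pi) Real.pi := by
          apply Continuous.intervalIntegrable; fun_prop
        have i3 : IntervalIntegrable (fun φ => |V2 (φ - ψ)|) volume (-Real.pi) Real.pi := by
          apply Continuous.intervalIntegrable; fun_prop
        rw [intervalIntegral.integral_const_mul, intervalIntegral.integral_add (i1.add i2) i3,
          intervalIntegral.integral_add i1 i2, int_shift' h.per, int_shift' (vk_per1 h),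
          int_shift' (vk_per2 h)]
      have h9 := mul_le_mul_of_nonneg_left hDb (show 0 ≤ (Real.sqrt t)⁻¹ * (1 / t) by positivity)
      calc (Real.sqrt t)⁻¹ * (1 / t * ‖D‖) = (Real.sqrt t)⁻¹ * (1 / t) * ‖D‖ := by ring
        _ ≤ _ := h9
        _ = _ := by
          rw [mul_inv]
          ring

end Pool.Agent.CRL
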