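import Pool.Agent.CRL.Targets2

set_option autoImplicit false

/-!
# CRL: de la Vallée-Poussin kernels
-/

namespace Pool.Agent.CRL

open MeasureTheory FourierTransform Set Filter Topology
open scoped ENNReal NNReal

namespace VKX_

theorem ci_add (x y : ℝ) : ci (x + y) = ci x * ci y := by
  unfold ci
  rw [← Complex.exp_add]
  congr 1
  push_cast
  ring

theorem ci_eq (x : ℝ) : ci x = (Real.cos x : ℂ) + (Real.sin x : ℂ) * Complex.I := by
  unfold ci
  rw [Complex.exp_mul_I, Complex.ofReal_cos, Complex.ofReal_sin]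

theorem continuous_ci : Continuous ci := by
  unfold ci
  fun_prop

theorem int_ci (m : ℤ) : ∫ ψ in (-Real.pi)..Real.pi, ci (m * ψ) =
    if m = 0 then ((2 * Real.pi : ℝ) : ℂ) else 0 := by
  by_cases hm : m = 0
  · subst hm
    simp only [ci, Int.cast_zero, zero_mul, Complex.ofReal_zero, Complex.exp_zero, if_true,
      intervalIntegral.integral_const, sub_neg_eq_add]
    rw [Complex.real_smul]
    push_cast
    ring
  · rw [if_neg hm]
    have hm' : ((m : ℂ) * Complex.I) ≠ 0 :=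
      mul_ne_zero (by exact_mod_cast hm) Complex.I_ne_zero
    have h1 : ∀ ψ : ℝ, ci (m * ψ) = Complex.exp (((m : ℂ) * Complex.I) * ψ) := by
      intro ψ
      unfold ci
      congr 1
      push_cast
      ring
    simp only [h1]
    rw [integral_exp_mul_complex hm']
    have h2 : Complex.exp ((m : ℂ) * Complex.I * (Real.pi : ℝ)) =
        Complex.exp ((m : ℂ) * Complex.I * ((-Real.pi : ℝ) : ℂ)) := by
      have h3 : (m : ℂ) * Complex.I * (Real.pi : ℝ) =
          (m : ℂ) * Complex.I * ((-Real.pi : ℝ) : ℂ) + m * (2 * Real.pi * Complex.I) := by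
        push_cast
        ring
      rw [h3, Complex.exp_add, Complex.exp_int_mul_two_pi_mul_I, mul_one]
    rw [h2, sub_self, zero_div]

/-- cosine sum -/
noncomputable def cs (K : ℕ) (a : ℕ → ℝ) (φ : ℝ) : ℝ := ∑ j ∈ Finset.range K, a j * Real.cos (j * φ)

/-- sine sum -/
noncomputable def sn (K : ℕ) (a : ℕ → ℝ) (φ : ℝ) : ℝ := ∑ j ∈ Finset.range K, a j * Real.sin (j * φ)

theorem cont_cs (K : ℕ) (a : ℕ → ℝ) : Continuous (cs K a) := by
  unfold cs
  fun_prop

theorem cont_sn (K : ℕ) (a : ℕ → ℝ) : Continuous (sn K a) := by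
  unfold sn
  fun_prop

theorem der_cs (K : ℕ) (a : ℕ → ℝ) (φ : ℝ) :
    HasDerivAt (cs K a) (-sn K (fun j => a j * j) φ) φ := by
  unfold cs sn
  rw [← Finset.sum_neg_distrib]
  refine HasDerivAt.fun_sum fun j _ => ?_
  have h1 : HasDerivAt (fun x : ℝ => (j : ℝ) * x) ((j : ℝ) * 1) φ :=
    (hasDerivAt_id φ).const_mul (j : ℝ)
  have h2 := (h1.cos).const_mul (a j)
  refine h2.congr_deriv ?_
  ring

theorem der_sn (K : ℕ) (a : ℕ → ℝ) (φ : ℝ) :
    HasDerivAt (sn K a) (cs K (fun j => a j * j) φ) φ := by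
  unfold cs sn
  refine HasDerivAt.fun_sum fun j _ => ?_
  have h1 : HasDerivAt (fun x : ℝ => (j : ℝ) * x) ((j : ℝ) * 1) φ :=
    (hasDerivAt_id φ).const_mul (j : ℝ)
  have h2 := (h1.sin).const_mul (a j)
  refine h2.congr_deriv ?_
  ring

theorem int_cos (m : ℤ) : ∫ ψ in (-Real.pi)..Real.pi, Real.cos (m * ψ) =
    if m = 0 then 2 * Real.pi else 0 := by
  by_cases hm : m = 0
  · subst hm
    simp
    ring
  · rw [if_neg hm]
    have hm' : (m : ℝ) ≠ 0 := by exact_mod_cast hm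
    rw [intervalIntegral.integral_comp_mul_left (fun x => Real.cos x) hm', integral_cos]
    have h1 : Real.sin ((m : ℝ) * -Real.pi) = 0 := by
      rw [mul_neg, Real.sin_neg, Real.sin_int_mul_pi, neg_zero]
    rw [h1, Real.sin_int_mul_pi]
    simp

theorem pars (K : ℕ) (a : ℕ → ℝ) : ∫ φ in (-Real.pi)..Real.pi, (cs K a φ ^ 2 + sn K a φ ^ 2) =
    2 * Real.pi * ∑ j ∈ Finset.range K, a j ^ 2 := by
  have h1 : ∀ φ : ℝ, cs K a φ ^ 2 + sn K a φ ^ 2 =
      ∑ j ∈ Finset.range K, ∑ l ∈ Finset.range K,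
        a j * a l * Real.cos (((j : ℤ) - (l : ℤ) : ℤ) * φ) := by
    intro φ
    unfold cs sn
    rw [sq, sq, Finset.sum_mul_sum, Finset.sum_mul_sum, ← Finset.sum_add_distrib]
    refine Finset.sum_congr rfl fun j _ => ?_
    rw [← Finset.sum_add_distrib]
    refine Finset.sum_congr rfl fun l _ => ?_
    have h2 : (((j : ℤ) - (l : ℤ) : ℤ) : ℝ) * φ = j * φ - l * φ := by
      push_cast
      ring
    rw [h2, Real.cos_sub]
    ring
  simp only [h1]
  rw [intervalIntegral.integral_finsetSum fun j _ =>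
    (Continuous.intervalIntegrable (by fun_prop) _ _)]
  rw [Finset.mul_sum]
  refine Finset.sum_congr rfl fun j hj => ?_
  rw [intervalIntegral.integral_finsetSum fun l _ =>
    (Continuous.intervalIntegrable (by fun_prop) _ _)]
  rw [Finset.sum_eq_single j]
  · rw [intervalIntegral.integral_const_mul, int_cos, sub_self, if_pos rfl]
    ring
  · intro l _ hl
    rw [intervalIntegral.integral_const_mul, int_cos, if_neg, mul_zero]
    omega
  · intro h
    exact absurd hj h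

/-- the constant coefficients -/
def a0 (_ : ℕ) : ℝ := 1
/-- first derivative -/
def a1 (j : ℕ) : ℝ := j
/-- second derivative -/
def a2 (j : ℕ) : ℝ := (j : ℝ) * j

theorem der_c0 (K : ℕ) (φ : ℝ) : HasDerivAt (cs K a0) (-sn K a1 φ) φ := by
  have h := der_cs K a0 φ
  have e : (fun j : ℕ => a0 j * (j : ℝ)) = a1 := by
    funext j
    simp [a0, a1]
  rwa [e] at h

theorem der_s0 (K : ℕ) (φ : ℝ) : HasDerivAt (sn K a0) (cs K a1 φ) φ := by
  have h := der_sn K a0 φ
  have e : (fun j : ℕ => a0 j * (j : ℝ)) = a1 := by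
    funext j
    simp [a0, a1]
  rwa [e] at h

theorem der_c1 (K : ℕ) (φ : ℝ) : HasDerivAt (cs K a1) (-sn K a2 φ) φ := by
  have h := der_cs K a1 φ
  have e : (fun j : ℕ => a1 j * (j : ℝ)) = a2 := by
    funext j
    simp [a1, a2]
  rwa [e] at h

theorem der_s1 (K : ℕ) (φ : ℝ) : HasDerivAt (sn K a1) (cs K a2 φ) φ := by
  have h := der_sn K a1 φ
  have e : (fun j : ℕ => a1 j * (j : ℝ)) = a2 := by
    funext j
    simp [a1, a2]
  rwa [e] at h

/-- squares -/
noncomputable def PP (K : ℕ) (a : ℕ → ℝ) (φ : ℝ) : ℝ := cs K a φ ^ 2 + sn K a φ ^ 2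

theorem cont_PP (K : ℕ) (a : ℕ → ℝ) : Continuous (PP K a) := by
  unfold PP
  exact ((cont_cs K a).pow 2).add ((cont_sn K a).pow 2)

theorem PP_nonneg (K : ℕ) (a : ℕ → ℝ) (φ : ℝ) : 0 ≤ PP K a φ := by
  unfold PP
  positivity

theorem int_P0 (K : ℕ) : ∫ φ in (-Real.pi)..Real.pi, PP K a0 φ = 2 * Real.pi * K := by
  have h := pars K a0
  unfold PP
  rw [h]
  simp [a0]

theorem int_P1 (K : ℕ) : ∫ φ in (-Real.pi)..Real.pi, PP K a1 φ ≤ 2 * Real.pi * K ^ 3 := by
  have h := pars K a1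
  unfold PP
  rw [h]
  refine mul_le_mul_of_nonneg_left ?_ (by positivity)
  calc ∑ j ∈ Finset.range K, a1 j ^ 2 ≤ ∑ _j ∈ Finset.range K, (K : ℝ) ^ 2 := by
        refine Finset.sum_le_sum fun j hj => ?_
        have : (j : ℝ) ≤ K := by exact_mod_cast (Finset.mem_range.1 hj).le
        unfold a1
        exact pow_le_pow_left₀ (Nat.cast_nonneg j) this 2
    _ = (K : ℝ) ^ 3 := by
        rw [Finset.sum_const, Finset.card_range, nsmul_eq_mul]
        ring

theorem int_P2 (K : ℕ) : ∫ φ in (-Real.pi)..Real.pi, PP K a2 φ ≤ 2 * Real.pi * K ^ 5 := by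
  have h := pars K a2
  unfold PP
  rw [h]
  refine mul_le_mul_of_nonneg_left ?_ (by positivity)
  calc ∑ j ∈ Finset.range K, a2 j ^ 2 ≤ ∑ _j ∈ Finset.range K, ((K : ℝ) * K) ^ 2 := by
        refine Finset.sum_le_sum fun j hj => ?_
        have : (j : ℝ) ≤ K := by exact_mod_cast (Finset.mem_range.1 hj).le
        unfold a2
        have h0 : (0 : ℝ) ≤ j := Nat.cast_nonneg j
        exact pow_le_pow_left₀ (by positivity) (mul_le_mul this this h0 (h0.trans this)) 2
    _ = (K : ℝ) ^ 5 := by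
        rw [Finset.sum_const, Finset.card_range, nsmul_eq_mul]
        ring

/-- `K` times the Fejer kernel and derivatives -/
noncomputable def f1 (K : ℕ) (φ : ℝ) : ℝ :=
  2 * (cs K a0 φ * (-sn K a1 φ) + sn K a0 φ * cs K a1 φ)

noncomputable def f2 (K : ℕ) (φ : ℝ) : ℝ :=
  2 * (PP K a1 φ - (cs K a0 φ * cs K a2 φ + sn K a0 φ * sn K a2 φ))

theorem der_P0 (K : ℕ) (φ : ℝ) : HasDerivAt (PP K a0) (f1 K φ) φ := by
  have h1 := (der_c0 K φ).pow 2
  have h2 := (der_s0 K φ).pow 2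
  have h3 := h1.add h2
  refine h3.congr_deriv ?_
  unfold f1
  simp only [Nat.cast_ofNat, Nat.add_one_sub_one, pow_one]
  ring

theorem der_f1 (K : ℕ) (φ : ℝ) : HasDerivAt (f1 K) (f2 K φ) φ := by
  have h1 := ((der_c0 K φ).mul (der_s1 K φ).neg)
  have h2 := ((der_s0 K φ).mul (der_c1 K φ))
  have h3 := (h1.add h2).const_mul 2
  refine h3.congr_deriv ?_
  unfold f2 PP
  simp only [Pi.neg_apply]
  ring

theorem f1_le {K : ℕ} (hK : 1 ≤ K) (φ : ℝ) :
    |f1 K φ| ≤ K * PP K a0 φ + (K : ℝ)⁻¹ * PP K a1 φ := by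
  have hK0 : (0 : ℝ) < K := by exact_mod_cast hK
  unfold f1 PP
  set x := cs K a0 φ
  set y := sn K a0 φ
  set u := cs K a1 φ
  set v := sn K a1 φ
  have e : (K : ℝ) * (x ^ 2 + y ^ 2) + (K : ℝ)⁻¹ * (u ^ 2 + v ^ 2) =
      (K : ℝ)⁻¹ * ((K * x) ^ 2 + (K * y) ^ 2 + u ^ 2 + v ^ 2) := by
    field_simp
    ring
  have e2 : 2 * (x * -v + y * u) = (K : ℝ)⁻¹ * (2 * (K * x) * -v + 2 * (K * y) * u) := by
    field_simp
  rw [e, e2, abs_mul, abs_of_pos (inv_pos.2 hK0)]
  refine mul_le_mul_of_nonneg_left ?_ (inv_pos.2 hK0).le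
  rw [abs_le]
  constructor
  · nlinarith [sq_nonneg (K * x - v), sq_nonneg (K * y + u)]
  · nlinarith [sq_nonneg (K * x + v), sq_nonneg (K * y - u)]

theorem f2_le {K : ℕ} (hK : 1 ≤ K) (φ : ℝ) :
    |f2 K φ| ≤ 2 * PP K a1 φ + (K ^ 2 * PP K a0 φ + ((K : ℝ) ^ 2)⁻¹ * PP K a2 φ) := by
  have hK0 : (0 : ℝ) < K := by exact_mod_cast hK
  have hK2 : (0 : ℝ) < (K : ℝ) ^ 2 := by positivity
  unfold f2
  have hP1 := PP_nonneg K a1 φ
  have key : |2 * (cs K a0 φ * cs K a2 φ + sn K a0 φ * sn K a2 φ)| ≤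
      K ^ 2 * PP K a0 φ + ((K : ℝ) ^ 2)⁻¹ * PP K a2 φ := by
    unfold PP
    set x := cs K a0 φ
    set y := sn K a0 φ
    set u := cs K a2 φ
    set v := sn K a2 φ
    have e : (K : ℝ) ^ 2 * (x ^ 2 + y ^ 2) + ((K : ℝ) ^ 2)⁻¹ * (u ^ 2 + v ^ 2) =
        ((K : ℝ) ^ 2)⁻¹ * ((K ^ 2 * x) ^ 2 + (K ^ 2 * y) ^ 2 + u ^ 2 + v ^ 2) := by
      field_simp
      ring
    have e2 : 2 * (x * u + y * v) =
        ((K : ℝ) ^ 2)⁻¹ * (2 * (K ^ 2 * x) * u + 2 * (K ^ 2 * y) * v) := by
      field_simp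
    rw [e, e2, abs_mul, abs_of_pos (inv_pos.2 hK2)]
    refine mul_le_mul_of_nonneg_left ?_ (inv_pos.2 hK2).le
    rw [abs_le]
    constructor
    · nlinarith [sq_nonneg ((K : ℝ) ^ 2 * x + u), sq_nonneg ((K : ℝ) ^ 2 * y + v)]
    · nlinarith [sq_nonneg ((K : ℝ) ^ 2 * x - u), sq_nonneg ((K : ℝ) ^ 2 * y - v)]
  have e3 : 2 * (PP K a1 φ - (cs K a0 φ * cs K a2 φ + sn K a0 φ * sn K a2 φ)) =
      2 * PP K a1 φ - 2 * (cs K a0 φ * cs K a2 φ + sn K a0 φ * sn K a2 φ) := by ring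
  rw [e3]
  refine (abs_sub _ _).trans ?_
  rw [abs_of_nonneg (by positivity : 0 ≤ 2 * PP K a1 φ)]
  linarith

/-- the kernel -/
noncomputable def V (K : ℕ) (φ : ℝ) : ℝ := (K : ℝ)⁻¹ * ((1 + 2 * Real.cos (K * φ)) * PP K a0 φ)

noncomputable def V1 (K : ℕ) (φ : ℝ) : ℝ := (K : ℝ)⁻¹ *
  ((-(2 * K * Real.sin (K * φ))) * PP K a0 φ + (1 + 2 * Real.cos (K * φ)) * f1 K φ)

noncomputable def V2 (K : ℕ) (φ : ℝ) : ℝ := (K : ℝ)⁻¹ *
  ((-(2 * K * (K * Real.cos (K * φ)))) * PP K a0 φ + (-(2 * K * Real.sin (K * φ))) * f1 K φ +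
    ((-(2 * K * Real.sin (K * φ))) * f1 K φ + (1 + 2 * Real.cos (K * φ)) * f2 K φ))

theorem der_cosK (K : ℕ) (φ : ℝ) :
    HasDerivAt (fun φ : ℝ => 1 + 2 * Real.cos (K * φ)) (-(2 * K * Real.sin (K * φ))) φ := by
  have h1 : HasDerivAt (fun x : ℝ => (K : ℝ) * x) ((K : ℝ) * 1) φ :=
    (hasDerivAt_id φ).const_mul (K : ℝ)
  have h2 := ((h1.cos).const_mul 2).const_add 1
  refine h2.congr_deriv ?_
  ring

theorem der_sinK (K : ℕ) (φ : ℝ) :
    HasDerivAt (fun φ : ℝ => -(2 * K * Real.sin (K * φ))) (-(2 * K * (K * Real.cos (K * φ)))) φ := by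
  have h1 : HasDerivAt (fun x : ℝ => (K : ℝ) * x) ((K : ℝ) * 1) φ :=
    (hasDerivAt_id φ).const_mul (K : ℝ)
  have h2 := ((h1.sin).const_mul (2 * (K : ℝ))).neg
  refine h2.congr_deriv ?_
  ring

theorem der_V (K : ℕ) (φ : ℝ) : HasDerivAt (V K) (V1 K φ) φ := by
  unfold V V1
  exact ((der_cosK K φ).mul (der_P0 K φ)).const_mul _

theorem der_V1 (K : ℕ) (φ : ℝ) : HasDerivAt (V1 K) (V2 K φ) φ := by
  unfold V1 V2
  exact (((der_sinK K φ).mul (der_P0 K φ)).add ((der_cosK K φ).mul (der_f1 K φ))).const_mul _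

theorem cont_f1 (K : ℕ) : Continuous (f1 K) := by
  unfold f1
  have := cont_cs K a0
  have := cont_sn K a0
  have := cont_cs K a1
  have := cont_sn K a1
  fun_prop

theorem cont_f2 (K : ℕ) : Continuous (f2 K) := by
  unfold f2
  have := cont_cs K a0
  have := cont_sn K a0
  have := cont_cs K a2
  have := cont_sn K a2
  have := cont_PP K a1
  fun_prop

theorem cont_V (K : ℕ) : Continuous (V K) := by
  unfold V
  have := cont_PP K a0
  fun_prop

theorem cont_V1 (K : ℕ) : Continuous (V1 K) := by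
  unfold V1
  have := cont_PP K a0
  have := cont_f1 K
  fun_prop

theorem cont_V2 (K : ℕ) : Continuous (V2 K) := by
  unfold V2
  have := cont_PP K a0
  have := cont_f1 K
  have := cont_f2 K
  fun_prop

theorem per_V (K : ℕ) (φ : ℝ) : V K (φ + 2 * Real.pi) = V K φ := by
  have hc : ∀ j : ℕ, Real.cos (j * (φ + 2 * Real.pi)) = Real.cos (j * φ) := by
    intro j
    rw [mul_add, Real.cos_add_nat_mul_two_pi]
  have hs : ∀ j : ℕ, Real.sin (j * (φ + 2 * Real.pi)) = Real.sin (j * φ) := by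
    intro j
    rw [mul_add, Real.sin_add_nat_mul_two_pi]
  unfold V PP cs sn
  simp only [hc, hs]

theorem cos_le3 (x : ℝ) : |1 + 2 * Real.cos x| ≤ 3 := by
  have h1 := Real.cos_le_one x
  have h2 := Real.neg_one_le_cos x
  rw [abs_le]
  constructor <;> linarith

theorem bd0 {K : ℕ} (hK : 1 ≤ K) : ∫ φ in (-Real.pi)..Real.pi, |V K φ| ≤ 44 * Real.pi := by
  have hK0 : (0 : ℝ) < K := by exact_mod_cast hK
  have hpi := Real.pi_pos
  have hle : (-Real.pi) ≤ Real.pi := by linarith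
  have h1 : ∀ φ, |V K φ| ≤ (3 * (K : ℝ)⁻¹) * PP K a0 φ := by
    intro φ
    unfold V
    rw [abs_mul, abs_mul, abs_of_pos (inv_pos.2 hK0), abs_of_nonneg (PP_nonneg K a0 φ)]
    have h2 := mul_le_mul_of_nonneg_right (cos_le3 (K * φ)) (PP_nonneg K a0 φ)
    have h3 := mul_le_mul_of_nonneg_left h2 (inv_pos.2 hK0).le
    linarith
  calc ∫ φ in (-Real.pi)..Real.pi, |V K φ|
      ≤ ∫ φ in (-Real.pi)..Real.pi, (3 * (K : ℝ)⁻¹) * PP K a0 φ :=
        intervalIntegral.integral_mono hle ((cont_V K).abs.intervalIntegrable _ _)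
          (((cont_PP K a0).const_mul _).intervalIntegrable _ _) h1
    _ = 6 * Real.pi := by
        rw [intervalIntegral.integral_const_mul, int_P0]
        field_simp
        norm_num
    _ ≤ 44 * Real.pi := by linarith

theorem bd1 {K : ℕ} (hK : 1 ≤ K) :
    ∫ φ in (-Real.pi)..Real.pi, |V1 K φ| ≤ 44 * Real.pi * K := by
  have hK0 : (0 : ℝ) < K := by exact_mod_cast hK
  have hpi := Real.pi_pos
  have hle : (-Real.pi) ≤ Real.pi := by linarith
  have h1 : ∀ φ, |V1 K φ| ≤ 5 * PP K a0 φ + (3 * ((K : ℝ) ^ 2)⁻¹) * PP K a1 φ := by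
    intro φ
    have p0 := PP_nonneg K a0 φ
    have p1 := PP_nonneg K a1 φ
    unfold V1
    rw [abs_mul, abs_of_pos (inv_pos.2 hK0)]
    have a1' : |-(2 * K * Real.sin (K * φ)) * PP K a0 φ| ≤ 2 * K * PP K a0 φ := by
      rw [abs_mul, abs_neg, abs_mul, abs_of_nonneg (by positivity : (0 : ℝ) ≤ 2 * K),
        abs_of_nonneg p0]
      have := Real.abs_sin_le_one (K * φ)
      have h3 : 2 * (K : ℝ) * |Real.sin (K * φ)| ≤ 2 * K * 1 :=
        mul_le_mul_of_nonneg_left this (by positivity)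
      rw [mul_one] at h3
      exact mul_le_mul_of_nonneg_right h3 p0
    have a2' : |(1 + 2 * Real.cos (K * φ)) * f1 K φ| ≤
        3 * (K * PP K a0 φ + (K : ℝ)⁻¹ * PP K a1 φ) := by
      rw [abs_mul]
      exact mul_le_mul (cos_le3 _) (f1_le hK φ) (abs_nonneg _) (by norm_num)
    have a3 := (abs_add_le _ _).trans (add_le_add a1' a2')
    have a4 := mul_le_mul_of_nonneg_left a3 (inv_pos.2 hK0).le
    refine a4.trans (le_of_eq ?_)
    field_simp
    ring
  calc ∫ φ in (-Real.pi)..Real.pi, |V1 K φ|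
      ≤ ∫ φ in (-Real.pi)..Real.pi,
          (5 * PP K a0 φ + (3 * ((K : ℝ) ^ 2)⁻¹) * PP K a1 φ) :=
        intervalIntegral.integral_mono hle ((cont_V1 K).abs.intervalIntegrable _ _)
          ((((cont_PP K a0).const_mul _).add ((cont_PP K a1).const_mul _)).intervalIntegrable
            _ _) h1
    _ = 5 * (2 * Real.pi * K) + (3 * ((K : ℝ) ^ 2)⁻¹) *
          ∫ φ in (-Real.pi)..Real.pi, PP K a1 φ := by
        rw [intervalIntegral.integral_add (((cont_PP K a0).const_mul _).intervalIntegrable _ _)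
          (((cont_PP K a1).const_mul _).intervalIntegrable _ _),
          intervalIntegral.integral_const_mul, intervalIntegral.integral_const_mul, int_P0]
    _ ≤ 5 * (2 * Real.pi * K) + (3 * ((K : ℝ) ^ 2)⁻¹) * (2 * Real.pi * K ^ 3) := by
        have := mul_le_mul_of_nonneg_left (int_P1 K)
          (by positivity : (0 : ℝ) ≤ 3 * ((K : ℝ) ^ 2)⁻¹)
        linarith
    _ = 16 * Real.pi * K := by
        field_simp
        norm_num
    _ ≤ 44 * Real.pi * K := by nlinarith [mul_pos hpi hK0]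

theorem bd2 {K : ℕ} (hK : 1 ≤ K) :
    ∫ φ in (-Real.pi)..Real.pi, |V2 K φ| ≤ 44 * Real.pi * K ^ 2 := by
  have hK0 : (0 : ℝ) < K := by exact_mod_cast hK
  have hpi := Real.pi_pos
  have hle : (-Real.pi) ≤ Real.pi := by linarith
  have h1 : ∀ φ, |V2 K φ| ≤ (9 * K) * PP K a0 φ + (10 * (K : ℝ)⁻¹) * PP K a1 φ +
      (3 * ((K : ℝ) ^ 3)⁻¹) * PP K a2 φ := by
    intro φ
    have p0 := PP_nonneg K a0 φ
    have p1 := PP_nonneg K a1 φ
    have p2 := PP_nonneg K a2 φ
    have q1 : 0 ≤ K * PP K a0 φ + (K : ℝ)⁻¹ * PP K a1 φ := by positivity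
    unfold V2
    rw [abs_mul, abs_of_pos (inv_pos.2 hK0)]
    have b1 : |-(2 * K * (K * Real.cos (K * φ))) * PP K a0 φ| ≤ 2 * K * K * PP K a0 φ := by
      rw [abs_mul, abs_neg, abs_mul, abs_of_nonneg (by positivity : (0 : ℝ) ≤ 2 * K),
        abs_of_nonneg p0, abs_mul, abs_of_nonneg hK0.le]
      have := Real.abs_cos_le_one (K * φ)
      have h3 : 2 * (K : ℝ) * (K * |Real.cos (K * φ)|) ≤ 2 * K * (K * 1) :=
        mul_le_mul_of_nonneg_left (mul_le_mul_of_nonneg_left this hK0.le) (by positivity)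
      calc _ ≤ 2 * (K : ℝ) * (K * 1) * PP K a0 φ := mul_le_mul_of_nonneg_right h3 p0
        _ = _ := by ring
    have b2 : |-(2 * K * Real.sin (K * φ)) * f1 K φ| ≤
        2 * K * (K * PP K a0 φ + (K : ℝ)⁻¹ * PP K a1 φ) := by
      rw [abs_mul, abs_neg, abs_mul, abs_of_nonneg (by positivity : (0 : ℝ) ≤ 2 * K)]
      have := Real.abs_sin_le_one (K * φ)
      have h3 : 2 * (K : ℝ) * |Real.sin (K * φ)| ≤ 2 * K * 1 :=
        mul_le_mul_of_nonneg_left this (by positivity)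
      rw [mul_one] at h3
      exact mul_le_mul h3 (f1_le hK φ) (abs_nonneg _) (by positivity)
    have b3 : |(1 + 2 * Real.cos (K * φ)) * f2 K φ| ≤
        3 * (2 * PP K a1 φ + (K ^ 2 * PP K a0 φ + ((K : ℝ) ^ 2)⁻¹ * PP K a2 φ)) := by
      rw [abs_mul]
      exact mul_le_mul (cos_le3 _) (f2_le hK φ) (abs_nonneg _) (by norm_num)
    have b4 := (abs_add_le _ _).trans (add_le_add b2 b3)
    have b5 := (abs_add_le _ _).trans (add_le_add b1 b2)
    have b6 := (abs_add_le _ _).trans (add_le_add b5 b4)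
    have b7 := mul_le_mul_of_nonneg_left b6 (inv_pos.2 hK0).le
    refine b7.trans (le_of_eq ?_)
    field_simp
    ring
  have i0 := ((cont_PP K a0).const_mul (9 * (K : ℝ))).intervalIntegrable (μ := volume)
    (-Real.pi) Real.pi
  have i1 := ((cont_PP K a1).const_mul (10 * (K : ℝ)⁻¹)).intervalIntegrable (μ := volume)
    (-Real.pi) Real.pi
  have i2 := ((cont_PP K a2).const_mul (3 * ((K : ℝ) ^ 3)⁻¹)).intervalIntegrable (μ := volume)
    (-Real.pi) Real.pi
  calc ∫ φ in (-Real.pi)..Real.pi, |V2 K φ|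
      ≤ ∫ φ in (-Real.pi)..Real.pi,
          ((9 * K) * PP K a0 φ + (10 * (K : ℝ)⁻¹) * PP K a1 φ +
            (3 * ((K : ℝ) ^ 3)⁻¹) * PP K a2 φ) :=
        intervalIntegral.integral_mono hle ((cont_V2 K).abs.intervalIntegrable _ _)
          ((i0.add i1).add i2) h1
    _ = (9 * K) * (2 * Real.pi * K) + (10 * (K : ℝ)⁻¹) *
          (∫ φ in (-Real.pi)..Real.pi, PP K a1 φ) + (3 * ((K : ℝ) ^ 3)⁻¹) *
          ∫ φ in (-Real.pi)..Real.pi, PP K a2 φ := by
        rw [intervalIntegral.integral_add (i0.add i1) i2, intervalIntegral.integral_add i0 i1,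
          intervalIntegral.integral_const_mul, intervalIntegral.integral_const_mul,
          intervalIntegral.integral_const_mul, int_P0]
    _ ≤ (9 * K) * (2 * Real.pi * K) + (10 * (K : ℝ)⁻¹) * (2 * Real.pi * K ^ 3) +
          (3 * ((K : ℝ) ^ 3)⁻¹) * (2 * Real.pi * K ^ 5) := by
        have c1 := mul_le_mul_of_nonneg_left (int_P1 K)
          (by positivity : (0 : ℝ) ≤ 10 * (K : ℝ)⁻¹)
        have c2 := mul_le_mul_of_nonneg_left (int_P2 K)
          (by positivity : (0 : ℝ) ≤ 3 * ((K : ℝ) ^ 3)⁻¹)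
        linarith
    _ = 44 * Real.pi * K ^ 2 := by
        field_simp
        norm_num

/-- complex form of the kernel -/
theorem V_cplx (K : ℕ) (φ : ℝ) : (V K φ : ℂ) = (K : ℂ)⁻¹ *
    ∑ j ∈ Finset.range K, ∑ l ∈ Finset.range K,
      (ci (((j : ℤ) - l : ℤ) * φ) + ci (((j : ℤ) - l + K : ℤ) * φ) +
        ci (((j : ℤ) - l - K : ℤ) * φ)) := by
  have h1 : (PP K a0 φ : ℂ) = ∑ j ∈ Finset.range K, ∑ l ∈ Finset.range K,
      ci (((j : ℤ) - l : ℤ) * φ) := by
    have h2 : (PP K a0 φ : ℂ) = (∑ j ∈ Finset.range K, ci (j * φ)) *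
        ∑ l ∈ Finset.range K, ci (-(l * φ)) := by
      have e1 : ∑ j ∈ Finset.range K, ci (j * φ) =
          (cs K a0 φ : ℂ) + (sn K a0 φ : ℂ) * Complex.I := by
        unfold cs sn
        push_cast
        rw [Finset.sum_mul, ← Finset.sum_add_distrib]
        refine Finset.sum_congr rfl fun j _ => ?_
        rw [ci_eq]
        simp [a0]
      have e2 : ∑ l ∈ Finset.range K, ci (-(l * φ)) =
          (cs K a0 φ : ℂ) - (sn K a0 φ : ℂ) * Complex.I := by
        unfold cs sn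
        push_cast
        rw [Finset.sum_mul, ← Finset.sum_sub_distrib]
        refine Finset.sum_congr rfl fun j _ => ?_
        rw [ci_eq, Real.cos_neg, Real.sin_neg]
        simp [a0]
        ring
      rw [e1, e2]
      unfold PP
      push_cast
      linear_combination ((sn K a0 φ : ℂ) ^ 2) * Complex.I_sq
    rw [h2, Finset.sum_mul_sum]
    refine Finset.sum_congr rfl fun j _ => Finset.sum_congr rfl fun l _ => ?_
    rw [← ci_add]
    congr 1
    push_cast
    ring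
  have h3 : ((1 + 2 * Real.cos (K * φ) : ℝ) : ℂ) = 1 + ci (K * φ) + ci (-(K * φ)) := by
    rw [ci_eq, ci_eq, Real.cos_neg, Real.sin_neg]
    push_cast
    ring
  unfold V
  rw [Complex.ofReal_mul, Complex.ofReal_mul, h1, h3, Complex.ofReal_inv,
    Complex.ofReal_natCast]
  congr 1
  rw [Finset.mul_sum]
  refine Finset.sum_congr rfl fun j _ => ?_
  rw [Finset.mul_sum]
  refine Finset.sum_congr rfl fun l _ => ?_
  have e1 : ci (((j : ℤ) - l + K : ℤ) * φ) = ci (K * φ) * ci (((j : ℤ) - l : ℤ) * φ) := by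
    rw [← ci_add]
    congr 1
    push_cast
    ring
  have e2 : ci (((j : ℤ) - l - K : ℤ) * φ) = ci (-(K * φ)) * ci (((j : ℤ) - l : ℤ) * φ) := by
    rw [← ci_add]
    congr 1
    push_cast
    ring
  rw [e1, e2]
  ring

/-- one term of the convolution -/
theorem conv_term (k n : ℤ) (φ : ℝ) :
    ∫ ψ in (-Real.pi)..Real.pi, ci (k * ψ) * ci (n * (φ - ψ)) =
      if k = n then ((2 * Real.pi : ℝ) : ℂ) * ci (k * φ) else 0 := by
  have h1 : ∀ ψ : ℝ, ci (k * ψ) * ci (n * (φ - ψ)) = ci (n * φ) * ci ((k - n : ℤ) * ψ) := by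
    intro ψ
    rw [← ci_add, ← ci_add]
    congr 1
    push_cast
    ring
  simp only [h1]
  rw [intervalIntegral.integral_const_mul, int_ci]
  by_cases h : k = n
  · subst h
    simp only [sub_self, if_true]
    ring
  · rw [if_neg h, if_neg (sub_ne_zero.2 h), mul_zero]

theorem cnt {K : ℕ} {k : ℤ} (hk : |k| ≤ K) {j : ℕ} (hj : j < K) (z : ℂ) :
    ∑ l ∈ Finset.range K, ((if k = (j : ℤ) - l then z else 0) +
      (if k = (j : ℤ) - l + K then z else 0) + (if k = (j : ℤ) - l - K then z else 0)) = z := by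
  rw [abs_le] at hk
  obtain ⟨hk1, hk2⟩ := hk
  have hjz : (j : ℤ) < K := by exact_mod_cast hj
  have hj0 : (0 : ℤ) ≤ j := Int.natCast_nonneg j
  rcases lt_or_ge ((j : ℤ) - k) 0 with h | h
  · have hl : (((j : ℤ) - k + K).toNat : ℤ) = (j : ℤ) - k + K := Int.toNat_of_nonneg (by omega)
    rw [Finset.sum_eq_single ((j : ℤ) - k + K).toNat]
    · rw [hl, if_neg (by omega), if_pos (by omega), if_neg (by omega)]
      simp
    · intro l hl1 hl2
      have hlK : (l : ℤ) < K := by exact_mod_cast Finset.mem_range.1 hl1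
      have hl0 : (0 : ℤ) ≤ l := Int.natCast_nonneg l
      have hne : (l : ℤ) ≠ (j : ℤ) - k + K := by
        intro e
        apply hl2
        omega
      rw [if_neg (by omega), if_neg (by omega), if_neg (by omega)]
      simp
    · intro hn
      exfalso
      apply hn
      rw [Finset.mem_range]
      omega
  · rcases lt_or_ge ((j : ℤ) - k) K with h' | h'
    · have hl : (((j : ℤ) - k).toNat : ℤ) = (j : ℤ) - k := Int.toNat_of_nonneg (by omega)
      rw [Finset.sum_eq_single ((j : ℤ) - k).toNat]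
      · rw [hl, if_pos (by omega), if_neg (by omega), if_neg (by omega)]
        simp
      · intro l hl1 hl2
        have hlK : (l : ℤ) < K := by exact_mod_cast Finset.mem_range.1 hl1
        have hl0 : (0 : ℤ) ≤ l := Int.natCast_nonneg l
        have hne : (l : ℤ) ≠ (j : ℤ) - k := by
          intro e
          apply hl2
          omega
        rw [if_neg (by omega), if_neg (by omega), if_neg (by omega)]
        simp
      · intro hn
        exfalso
        apply hn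
        rw [Finset.mem_range]
        omega
    · have hl : (((j : ℤ) - k - K).toNat : ℤ) = (j : ℤ) - k - K :=
        Int.toNat_of_nonneg (by omega)
      rw [Finset.sum_eq_single ((j : ℤ) - k - K).toNat]
      · rw [hl, if_neg (by omega), if_neg (by omega), if_pos (by omega)]
        simp
      · intro l hl1 hl2
        have hlK : (l : ℤ) < K := by exact_mod_cast Finset.mem_range.1 hl1
        have hl0 : (0 : ℤ) ≤ l := Int.natCast_nonneg l
        have hne : (l : ℤ) ≠ (j : ℤ) - k - K := by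
          intro e
          apply hl2
          omega
        rw [if_neg (by omega), if_neg (by omega), if_neg (by omega)]
        simp
      · intro hn
        exfalso
        apply hn
        rw [Finset.mem_range]
        omega

theorem rep {K : ℕ} (hK : 1 ≤ K) (k : ℤ) (hk : |k| ≤ K) (φ : ℝ) :
    ((2 * Real.pi)⁻¹ : ℝ) * ∫ ψ in (-Real.pi)..Real.pi, ci (k * ψ) * (V K (φ - ψ) : ℂ) =
      ci (k * φ) := by
  have hK0 : (K : ℂ) ≠ 0 := by exact_mod_cast (by omega : K ≠ 0)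
  have hci := continuous_ci
  have h1 : ∀ ψ : ℝ, ci (k * ψ) * (V K (φ - ψ) : ℂ) = (K : ℂ)⁻¹ *
      ∑ j ∈ Finset.range K, ∑ l ∈ Finset.range K,
        (ci (k * ψ) * ci (((j : ℤ) - l : ℤ) * (φ - ψ)) +
          ci (k * ψ) * ci (((j : ℤ) - l + K : ℤ) * (φ - ψ)) +
          ci (k * ψ) * ci (((j : ℤ) - l - K : ℤ) * (φ - ψ))) := by
    intro ψ
    rw [V_cplx, mul_left_comm, Finset.mul_sum]
    congr 1
    refine Finset.sum_congr rfl fun j _ => ?_
    rw [Finset.mul_sum]
    refine Finset.sum_congr rfl fun l _ => ?_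
    ring
  simp only [h1]
  have hcc : ∀ n : ℤ, Continuous (fun ψ : ℝ => ci (k * ψ) * ci (n * (φ - ψ))) := fun n =>
    (hci.comp (by fun_prop)).mul (hci.comp (by fun_prop))
  have hint : ∀ n : ℤ, IntervalIntegrable (fun ψ : ℝ => ci (k * ψ) * ci (n * (φ - ψ)))
      volume (-Real.pi) Real.pi := fun n => (hcc n).intervalIntegrable _ _
  have hc3 : ∀ j l : ℕ, Continuous (fun ψ : ℝ =>
      ci (k * ψ) * ci (((j : ℤ) - l : ℤ) * (φ - ψ)) +
        ci (k * ψ) * ci (((j : ℤ) - l + K : ℤ) * (φ - ψ)) +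
        ci (k * ψ) * ci (((j : ℤ) - l - K : ℤ) * (φ - ψ))) := fun j l =>
    ((hcc _).add (hcc _)).add (hcc _)
  have h2 : ∫ ψ in (-Real.pi)..Real.pi, (K : ℂ)⁻¹ *
      ∑ j ∈ Finset.range K, ∑ l ∈ Finset.range K,
        (ci (k * ψ) * ci (((j : ℤ) - l : ℤ) * (φ - ψ)) +
          ci (k * ψ) * ci (((j : ℤ) - l + K : ℤ) * (φ - ψ)) +
          ci (k * ψ) * ci (((j : ℤ) - l - K : ℤ) * (φ - ψ))) =
      (K : ℂ)⁻¹ * ∑ j ∈ Finset.range K, (((2 * Real.pi : ℝ) : ℂ) * ci (k * φ)) := by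
    rw [intervalIntegral.integral_const_mul]
    congr 1
    rw [intervalIntegral.integral_finsetSum fun j _ => Continuous.intervalIntegrable
      (continuous_finsetSum _ fun l _ => hc3 j l) _ _]
    refine Finset.sum_congr rfl fun j hj => ?_
    rw [intervalIntegral.integral_finsetSum fun l _ => (hc3 j l).intervalIntegrable _ _]
    refine Eq.trans (Finset.sum_congr rfl fun l _ => ?_) (cnt hk (Finset.mem_range.1 hj) _)
    rw [intervalIntegral.integral_add ((hint _).add (hint _)) (hint _),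
      intervalIntegral.integral_add (hint _) (hint _), conv_term, conv_term, conv_term]
  rw [h2, Finset.sum_const, Finset.card_range, nsmul_eq_mul, inv_mul_cancel_left₀ hK0]
  have hpi : ((2 * Real.pi : ℝ) : ℂ) ≠ 0 := by
    exact_mod_cast (by positivity : (2 * Real.pi : ℝ) ≠ 0)
  rw [Complex.ofReal_inv, inv_mul_cancel_left₀ hpi]

end VKX_

open VKX_ in
theorem p_VKX : T_VKX := by
  refine ⟨44 * Real.pi, by positivity, fun K hK => ⟨V K, V1 K, V2 K, ?_⟩⟩
  exact ⟨cont_V2 K, der_V K, der_V1 K, per_V K, bd0 hK, bd1 hK, bd2 hK, fun k hk φ =>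
    rep hK k hk φ⟩

end Pool.Agent.CRL
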