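import Pool.Agent.CRL.Targets2

set_option autoImplicit false

/-!
# CRL, third group: the strong type (2,2) versions

They use the strong type form `T_CARLS` of the Carleson theorem on the line (written by helper18).
Every target `T_X` is to be proved as `theorem p_X : T_X` (other targets may be taken as hypotheses) in a
NEW file `Pool/Agent/CRL/P_X.lean` importing this one, namespace `Pool.Agent.CRL`, helper lemmas in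
the sub-namespace `X_`. Where a weak version is landed (`P_RAY`, `P_PI`, `P_ND`, `P_NB`, `P_NBJ`, `P_GLB`)
its lemmas can be imported.
-/

namespace Pool.Agent.CRL

open MeasureTheory FourierTransform Set Filter Topology
open scoped ENNReal NNReal
open Pool.Agent.MBS (E ex S Sstar)
open Pool.Agent.KSP (IE)
open Pool.Agent.CAR (e1)

/-- the Carleson theorem on the line, strong type (2,2), for `g = f^ ∈ L¹ ∩ L²` -/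
def T_CARLS : Prop := ∃ C : ℝ≥0, ∀ g : ℝ → ℂ, Measurable g → Integrable g →
  Integrable (fun ξ => ‖g ξ‖ ^ 2) →
    ∫⁻ x, (⨆ n : ℝ, ‖∫ ξ in Iio n, g ξ * e1 (x * ξ)‖ₑ) ^ 2 ≤ C * ∫⁻ ξ, ‖g ξ‖ₑ ^ 2

/-- **RAYS** (45 min): the strong Carleson theorem on rays, see `T_RAY`. `g₁(r) = 1_{(a,R₀]}(r) √r g(r e_θ)` is in
`L¹ ∩ L²`; `R₀ → ∞` by monotone convergence. -/
def T_RAYS : Prop := T_CARLS → ∃ C : ℝ≥0, ∀ (K : ℕ) (g : E 2 → ℂ) (c : ℤ → ℝ → ℂ) (a θ : ℝ),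
  0 ≤ a → Ang K g c →
    ∫⁻ ρ, HH g a θ ρ ^ 2 ≤ C * ∫⁻ r in Ioi (0 : ℝ), ENNReal.ofReal r * ‖g (r • ev θ)‖ₑ ^ 2

/-- **PIS** (75 min; uses POLC, VKX, UB, PT, RAYS, HM): the large radii, strong form. By PT the
supremum at `x = ρ e_θ` is `≤ C ∫_ψ M(ψ) H(θ,ψ,ρ) dψ`, `M = 1 + |UU V K⁴ ψ|`,
`H = HH(θ+ψ, ρ) + HH(θ+ψ+π, -ρ)`; `(∫ M H)² ≤ (∫ M) (∫ M H²)`, `∫ M ≤ 2π + C` (UB). Integrate over the shell in
polar coordinates (`ρ ≤ 2`), Tonelli, RAYS for fixed `ψ`, `θ` (`∫_ρ` over the whole line), and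
`∫_θ ∫_r r |g(r e_{θ+ψ})|² = ∫ |g|²` (periodicity). -/
def T_PIS : Prop := T_CARLS → ∃ C : ℝ≥0, ∀ (K : ℕ) (g : E 2 → ℂ) (c : ℤ → ℝ → ℂ),
  1 ≤ K → Ang K g c →
    ∫⁻ x in {x : E 2 | 1 ≤ ‖x‖ ∧ ‖x‖ ≤ 2}, (⨆ R : ℝ,
      ‖∫ ξ in Metric.closedBall (0 : E 2) R \ Metric.closedBall 0 ((K : ℝ) ^ 4),
        g ξ * ex x ξ‖ₑ) ^ 2 ≤ C * ∫⁻ ξ, ‖g ξ‖ₑ ^ 2

/-- **NDS** (45 min; uses LLK, PIS): functions of angular degree `≤ K`, strong form. `Sstar f ≤` the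
supremum of the disc integrals of `1_{|ξ| ≤ K⁴} 𝓕f` plus the supremum of PIS; LLK, PIS, Plancherel. -/
def T_NDS : Prop := T_CARLS → T_LLL → ∃ C : ℝ≥0, ∀ (K : ℕ) (f : E 2 → ℂ) (c : ℤ → ℝ → ℂ),
  1 ≤ K → Nice f → Ang K (𝓕 f) c →
    ∫⁻ x in {x : E 2 | 1 ≤ ‖x‖ ∧ ‖x‖ ≤ 2}, Sstar f x ^ 2 ≤
      C * ENNReal.ofReal (Real.log (3 + Real.log (3 + K)) ^ 12) * ∫⁻ x, ‖f x‖ₑ ^ 2

/-- **NBS** (75 min; uses NDS, MODA, MODB, ANG): all angular frequencies, unit shell, strong form.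
Blocks as in `T_NB`: `Sstar f ≤ Σ_n Sstar (P_n f)`, `(Σ a_n)² ≤ 2 Σ 2^n a_n²`, so by NDS the left side is
`≤ C Σ_n 2^n 2^(12n) ‖P_n f‖₂² ≤ C' NN f`. -/
def T_NBS : Prop := T_CARLS → T_LLL → ∃ C : ℝ≥0, ∀ f : E 2 → ℂ, Nice f →
  ∫⁻ x in {x : E 2 | 1 ≤ ‖x‖ ∧ ‖x‖ ≤ 2}, Sstar f x ^ 2 ≤ C * NN f

/-- **NBJS** (30 min; uses NBS): the shell `sh j`, by scaling (see `P_NBJ.lean`). -/
def T_NBJS : Prop := T_CARLS → T_LLL → ∃ C : ℝ≥0, ∀ (j : ℤ) (f : E 2 → ℂ), Nice f →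
  ∫⁻ x in sh j, Sstar f x ^ 2 ≤ C * NN f

/-- **GLBS** (75 min; uses NBJS, OFF, SHN, SUB, MODB): the global strong inequality. The shells
cover the plane up to `0`. For `x ∈ sh j` (SUB) `Sstar f ≤ near + Σ_{|i-j| ≥ 2} a_i`, `a_i = Sstar (1_{sh i} f)`,
`(Σ a_i)² ≤ (Σ_i 2^(-|i-j|/8)) Σ_i 2^(|i-j|/8) a_i²`. Near part: NBJS and SHN (`Σ_j NN ≤ 3 NN f`). Far part: OFF:
`Σ_j Σ_i 2^(|i-j|/8) C 2^(-|i-j|/4) ‖1_{sh i} f‖² ≤ C' Σ_i ‖1_{sh i} f‖² ≤ C' ‖f‖²` (SHN), and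
`‖f‖² = Σ_k ‖amode k f‖² ≤ NN f` (MODB, `wk k ≥ 1` as `log 4 > 1`). -/
def T_GLBS : Prop := T_CARLS → T_LLL → ∃ C : ℝ≥0, ∀ f : E 2 → ℂ, Nice f →
  ∫⁻ x, Sstar f x ^ 2 ≤ C * NN f

end Pool.Agent.CRL
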