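import Pool.Agent.CAR.P_CARL
import Pool.Agent.CRL.Targets3
import Pool.Agent.CRL.P_ABL
import Pool.Agent.CRL.P_AE
import Pool.Agent.CRL.P_ANG
import Pool.Agent.CRL.P_ARC
import Pool.Agent.CRL.P_BES
import Pool.Agent.CRL.P_D2S
import Pool.Agent.CRL.P_EN
import Pool.Agent.CRL.P_GLB
import Pool.Agent.CRL.P_GLBS
import Pool.Agent.CRL.P_HM
import Pool.Agent.CRL.P_LE
import Pool.Agent.CRL.P_LLK
import Pool.Agent.CRL.P_MM
import Pool.Agent.CRL.P_MODA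
import Pool.Agent.CRL.P_MODB
import Pool.Agent.CRL.P_NB
import Pool.Agent.CRL.P_NBJ
import Pool.Agent.CRL.P_NBJS
import Pool.Agent.CRL.P_NBS
import Pool.Agent.CRL.P_ND
import Pool.Agent.CRL.P_NDS
import Pool.Agent.CRL.P_OFF
import Pool.Agent.CRL.P_OFFA
import Pool.Agent.CRL.P_OFFB
import Pool.Agent.CRL.P_OFFI
import Pool.Agent.CRL.P_PI
import Pool.Agent.CRL.P_PIS
import Pool.Agent.CRL.P_POLC
import Pool.Agent.CRL.P_PSI
import Pool.Agent.CRL.P_PT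
import Pool.Agent.CRL.P_RAY
import Pool.Agent.CRL.P_RAYS
import Pool.Agent.CRL.P_SHN
import Pool.Agent.CRL.P_SM
import Pool.Agent.CRL.P_SUB
import Pool.Agent.CRL.P_UB
import Pool.Agent.CRL.P_UD
import Pool.Agent.CRL.P_VKX
import Pool.Agent.CRL.P_WT

set_option autoImplicit false

/-!
# CRL: assembly (MP_ee701d_an)
-/

namespace Pool.Agent.CRL

/-- the Carleson theorem on the line, strong type -/
theorem q_CARLS : T_CARLS := Pool.Agent.CAR.p_CARLS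

theorem q_CARL : Pool.Agent.CAR.T_CARL := Pool.Agent.CAR.p_CARL

theorem q_MM : T_MM := p_MM p_POLC

theorem q_EN : T_EN := p_EN q_MM p_POLC

theorem q_LE : T_LE := p_LE p_ARC

theorem q_OFFI : T_OFFI := p_OFFI p_PSI q_MM p_SM q_EN q_LE

theorem q_D2S : T_D2S := p_D2S (p_BES p_POLC)

theorem q_OFFA : T_OFFA := p_OFFA p_PSI p_SM q_EN

theorem q_OFFB : T_OFFB := p_OFFB p_PSI p_SM q_EN q_D2S

theorem q_OFF : T_OFF := p_OFF q_OFFI q_OFFA q_OFFB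

theorem q_PT : T_PT := p_PT p_POLC p_UD p_ABL

theorem q_PI : T_PI := p_PI p_VKX p_UB q_PT p_RAY p_HM

theorem q_PIS : T_PIS := p_PIS p_POLC p_VKX p_UB q_PT p_RAYS p_HM

theorem q_ND : T_ND := p_ND p_LLK q_PI

theorem q_NDS : T_NDS := p_NDS p_LLK q_PIS

theorem q_MODB : T_MODB := p_MODB p_POLC p_MODA

theorem q_ANG : T_ANG := p_ANG p_MODA p_POLC

theorem q_NB : T_NB := p_NB q_ND p_MODA q_MODB q_ANG

theorem q_NBS : T_NBS := p_NBS q_NDS p_MODA q_MODB q_ANG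

theorem q_NBJ : T_NBJ := p_NBJ q_NB

theorem q_NBJS : T_NBJS := p_NBJS q_NBS

theorem q_SHN : T_SHN := p_SHN p_MODA

theorem q_GLB : T_GLB := p_GLB q_NBJ q_OFF q_SHN p_SUB q_MODB

theorem q_GLBS : T_GLBS := p_GLBS q_NBJS q_OFF q_SHN p_SUB q_MODB

theorem q_WT : T_WT := p_WT q_GLB

theorem q_AE : T_AE := p_AE q_WT p_MODA q_MODB

end Pool.Agent.CRL
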