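import Pool.Agent.KSP.FA2
import Pool.Agent.CAR.Defs

set_option autoImplicit false

/-!
# Disc partial sums with doubly logarithmic angular smoothness (MP_ee701d_an, CRL): definitions

`E 2 = ℝ²`, `ex x ξ = e^{2 π i x·ξ}`, `S f R x = ∫_{|ξ| ≤ R} f^(ξ) ex x ξ dξ`, `Sstar f = sup_{R>0} |S f R|` (all from
`Pool.Agent.MBS`), `IE h x = ∫ h(ξ) ex x ξ dξ` (`Pool.Agent.KSP`).
-/

namespace Pool.Agent.CRL

open MeasureTheory FourierTransform Set Filter Topology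
open scoped ENNReal NNReal
open Pool.Agent.MBS (E ex S Sstar)
open Pool.Agent.KSP (IE)
open Pool.Agent.CAR (e1)

/-- the unit vector with angle `θ` -/
noncomputable def ev (θ : ℝ) : E 2 := !₂[Real.cos θ, Real.sin θ]

/-- the rotation by `θ` -/
noncomputable def rot (θ : ℝ) (x : E 2) : E 2 :=
  !₂[Real.cos θ * x 0 - Real.sin θ * x 1, Real.sin θ * x 0 + Real.cos θ * x 1]

/-- `e^{i t}` -/
noncomputable def ci (t : ℝ) : ℂ := Complex.exp (t * Complex.I)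

/-- the `k`-th angular mode of `f` -/
noncomputable def amode (k : ℤ) (f : E 2 → ℂ) (x : E 2) : ℂ :=
  ((2 * Real.pi)⁻¹ : ℝ) * ∫ θ in (-Real.pi)..Real.pi, f (rot θ x) * ci (-(k * θ))

/-- `g` has angular frequency `k` -/
def IsMode (k : ℤ) (g : E 2 → ℂ) : Prop := ∀ (θ : ℝ) (x : E 2), g (rot θ x) = ci (k * θ) * g x

/-- the doubly logarithmic weight -/
noncomputable def wk (k : ℤ) : ℝ := Real.log (3 + Real.log (3 + |(k : ℝ)|)) ^ 13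

/-- `N(f)² = Σ_k w(k) ‖f_k‖₂²` -/
noncomputable def NN (f : E 2 → ℂ) : ℝ≥0∞ :=
  ∑' k : ℤ, ENNReal.ofReal (wk k) * ∫⁻ x, ‖amode k f x‖ₑ ^ 2

/-- the dyadic shell `2^j ≤ |x| < 2^(j+1)` -/
def sh (j : ℤ) : Set (E 2) := {x | (2 : ℝ) ^ j ≤ ‖x‖ ∧ ‖x‖ < (2 : ℝ) ^ (j + 1)}

/-! ### off-diagonal part -/

/-- the cutoff: `ψ = χ^`, `χ` smooth with compact support in `ℝ² ∖ {0}`, `χ = 1` for
`1/2 ≤ |z| ≤ 5/2` -/
structure Psi (ψ : E 2 → ℂ) (B : ℝ) : Prop where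
  cont : Continuous ψ
  dec : ∀ ζ, ‖ψ ζ‖ ≤ B * ((1 + ‖ζ‖) ^ 10)⁻¹
  int0 : ∫ ζ, ψ ζ = 0
  one : ∀ z : E 2, 1 / 2 ≤ ‖z‖ → ‖z‖ ≤ 5 / 2 → IE ψ z = 1

/-- `1_{|ξ| ≤ R} * ψ` -/
noncomputable def mm (ψ : E 2 → ℂ) (R : ℝ) (ξ : E 2) : ℂ :=
  ∫ ζ in Metric.closedBall (0 : E 2) R, ψ (ξ - ζ)

/-- its `R`-derivative -/
noncomputable def m1 (ψ : E 2 → ℂ) (R : ℝ) (ξ : E 2) : ℂ :=
  (R : ℂ) * ∫ φ in (-Real.pi)..Real.pi, ψ (ξ - R • ev φ)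

/-- the decay weight of the annulus multipliers -/
noncomputable def dw (n : ℕ) (R : ℝ) (ξ : E 2) : ℝ := ((1 + |‖ξ‖ - R|) ^ n)⁻¹

noncomputable def FF (ψ f : E 2 → ℂ) (R : ℝ) (x : E 2) : ℂ := IE (fun ξ => mm ψ R ξ * 𝓕 f ξ) x

noncomputable def F1 (ψ f : E 2 → ℂ) (R : ℝ) (x : E 2) : ℂ := IE (fun ξ => m1 ψ R ξ * 𝓕 f ξ) x

/-- the disc kernel and its `R`-derivative -/
noncomputable def DD (R : ℝ) (z : E 2) : ℂ := ∫ ζ in Metric.closedBall (0 : E 2) R, ex z ζ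

noncomputable def D1 (R : ℝ) (z : E 2) : ℂ :=
  (R : ℂ) * ∫ φ in (-Real.pi)..Real.pi, ex z (R • ev φ)

/-- the `R`-derivative of `S f R x` -/
noncomputable def S1 (f : E 2 → ℂ) (R : ℝ) (x : E 2) : ℂ :=
  (R : ℂ) * ∫ φ in (-Real.pi)..Real.pi, 𝓕 f (R • ev φ) * ex x (R • ev φ)

/-- `f` is a Borel function in `L¹ ∩ L²` -/
structure Nice (f : E 2 → ℂ) : Prop where
  meas : Measurable f
  int : Integrable f
  sq : MemLp f 2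

/-! ### the stationary phase part -/

/-- `g(r e_θ) = Σ_{|k| ≤ K} c_k(r) e^{ikθ}` -/
structure Ang (K : ℕ) (g : E 2 → ℂ) (c : ℤ → ℝ → ℂ) : Prop where
  meas : Measurable g
  mc : ∀ k, Measurable (c k)
  sq : ∀ k, IntegrableOn (fun r => r * ‖c k r‖ ^ 2) (Ioi 0)
  eq : ∀ r, 0 < r → ∀ θ, g (r • ev θ) = ∑ k ∈ Finset.Icc (-(K : ℤ)) K, c k r * ci (k * θ)

/-- a de la Vallée-Poussin kernel of order `K` with its two derivatives -/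
structure VK (C : ℝ) (K : ℕ) (V V1 V2 : ℝ → ℝ) : Prop where
  c2 : Continuous V2
  d1 : ∀ φ, HasDerivAt V (V1 φ) φ
  d2 : ∀ φ, HasDerivAt V1 (V2 φ) φ
  per : ∀ φ, V (φ + 2 * Real.pi) = V φ
  b0 : ∫ φ in (-Real.pi)..Real.pi, |V φ| ≤ C
  b1 : ∫ φ in (-Real.pi)..Real.pi, |V1 φ| ≤ C * K
  b2 : ∫ φ in (-Real.pi)..Real.pi, |V2 φ| ≤ C * K ^ 2
  rep : ∀ k : ℤ, |k| ≤ K → ∀ φ : ℝ,
    ((2 * Real.pi)⁻¹ : ℝ) * ∫ ψ in (-Real.pi)..Real.pi, ci (k * ψ) * (V (φ - ψ) : ℂ) = ci (k * φ)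

/-- even, `2π`-periodic, smooth, `eta φ + eta (φ+π) = 1`, zero if `cos φ ≤ -1/2` -/
noncomputable def eta (φ : ℝ) : ℝ := Real.smoothTransition (1 / 2 + Real.cos φ)

/-- `U_t(ψ) = √t ∫ V(φ-ψ) eta(φ) e^{it(cos φ - 1)} dφ` -/
noncomputable def UU (V : ℝ → ℝ) (t ψ : ℝ) : ℂ :=
  (Real.sqrt t : ℂ) * ∫ φ in (-Real.pi)..Real.pi,
    (V (φ - ψ) : ℂ) * (eta φ : ℂ) * ci (t * (Real.cos φ - 1))

/-- maximal partial integrals along the ray with angle `θ`, starting at `a` -/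
noncomputable def HH (g : E 2 → ℂ) (a θ ρ : ℝ) : ℝ≥0∞ :=
  ⨆ R : ℝ, ‖∫ r in Ioc a R, (Real.sqrt r : ℂ) * g (r • ev θ) * e1 (r * ρ)‖ₑ

end Pool.Agent.CRL
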