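import Pool.Agent.CRL.Targets2

set_option autoImplicit false

/-!
# The cutoff `eta`, kernels `VK`: elementary facts (for UB and UD)
-/

namespace Pool.Agent.CRL

open MeasureTheory Set Filter Topology
open scoped ENNReal NNReal

namespace EtaL_

theorem eta_contDiff {n : WithTop ℕ∞} (hn : n ≤ (⊤ : ℕ∞)) : ContDiff ℝ n eta := by
  have h1 : ContDiff ℝ (⊤ : ℕ∞) Real.smoothTransition := Real.smoothTransition.contDiff
  have h2 : ContDiff ℝ (⊤ : ℕ∞) fun φ : ℝ => 1 / 2 + Real.cos φ :=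
    contDiff_const.add Real.contDiff_cos
  exact (h1.comp h2).of_le hn

theorem eta_cont : Continuous eta := (eta_contDiff (n := 0) (by simp)).continuous

noncomputable def eta1 : ℝ → ℝ := deriv eta

noncomputable def eta2 : ℝ → ℝ := deriv eta1

theorem eta_hd (φ : ℝ) : HasDerivAt eta (eta1 φ) φ :=
  ((eta_contDiff (n := 1) (by exact_mod_cast le_top)).differentiable (by simp) φ).hasDerivAt

theorem eta1_contDiff : ContDiff ℝ 1 eta1 := by
  have h : ContDiff ℝ (1 + 1 : ℕ∞) eta := eta_contDiff (by exact_mod_cast le_top)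
  exact (contDiff_succ_iff_deriv.1 h).2.2

theorem eta1_cont : Continuous eta1 := eta1_contDiff.continuous

theorem eta1_hd (φ : ℝ) : HasDerivAt eta1 (eta2 φ) φ :=
  (eta1_contDiff.differentiable (by simp) φ).hasDerivAt

theorem eta2_cont : Continuous eta2 := by
  have h : ContDiff ℝ (0 + 1) eta1 := eta1_contDiff.of_le (by simp)
  exact (contDiff_succ_iff_deriv.1 h).2.2.continuous

theorem eta_nonneg (φ : ℝ) : 0 ≤ eta φ := Real.smoothTransition.nonneg _

theorem eta_le_one (φ : ℝ) : eta φ ≤ 1 := Real.smoothTransition.le_one _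

theorem eta_zero {φ : ℝ} (h : Real.cos φ ≤ -1 / 2) : eta φ = 0 :=
  Real.smoothTransition.zero_of_nonpos (by linarith)

theorem eta1_zero {φ : ℝ} (h : Real.cos φ ≤ -1 / 2) : eta1 φ = 0 := by
  have hm : IsLocalMin eta φ := Filter.Eventually.of_forall fun x => by
    rw [eta_zero h]; exact eta_nonneg x
  exact hm.deriv_eq_zero

theorem abs_le_pi_sin {φ : ℝ} (h : |φ| ≤ Real.pi) (hc : -1 / 2 ≤ Real.cos φ) :
    |φ| ≤ Real.pi * |Real.sin φ| := by
  have hp := Real.pi_pos
  have h1 : |φ / 2| ≤ Real.pi / 2 := by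
    rw [abs_div, abs_two]; linarith
  have h2 := Real.mul_abs_le_abs_sin h1
  have h3 : Real.sin φ = 2 * Real.sin (φ / 2) * Real.cos (φ / 2) := by
    rw [← Real.sin_two_mul]; ring_nf
  have h4 : Real.cos (φ / 2) ^ 2 = (1 + Real.cos φ) / 2 := by
    rw [Real.cos_sq]; ring_nf
  have h5 : 1 / 2 ≤ |Real.cos (φ / 2)| := by
    apply abs_le_of_sq_le_sq' _ _ |>.2
    · rw [sq_abs, h4]; linarith
    · positivity
  have h6 : |Real.sin (φ / 2)| ≤ |Real.sin φ| := by
    rw [h3, abs_mul, abs_mul, abs_two]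
    nlinarith [abs_nonneg (Real.sin (φ / 2))]
  have h7 : 2 / Real.pi * (|φ| / 2) ≤ |Real.sin φ| := by
    rw [abs_div, abs_two] at h2
    exact h2.trans h6
  have h8 : 2 / Real.pi * (|φ| / 2) = |φ| / Real.pi := by
    field_simp
  rw [h8, div_le_iff₀ hp] at h7
  linarith

section VKf

variable {C : ℝ} {K : ℕ} {V V1 V2 : ℝ → ℝ}

theorem vk_cont (h : VK C K V V1 V2) : Continuous V :=
  continuous_iff_continuousAt.2 fun x => (h.d1 x).continuousAt

theorem vk_cont1 (h : VK C K V V1 V2) : Continuous V1 :=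
  continuous_iff_continuousAt.2 fun x => (h.d2 x).continuousAt

theorem vk_per1 (h : VK C K V V1 V2) (φ : ℝ) : V1 (φ + 2 * Real.pi) = V1 φ := by
  have h1 : HasDerivAt (fun x => V (x + 2 * Real.pi)) (V1 (φ + 2 * Real.pi)) φ := by
    have := (h.d1 (φ + 2 * Real.pi)).comp_add_const φ (2 * Real.pi)
    exact this
  have e : (fun x => V (x + 2 * Real.pi)) = V := funext h.per
  rw [e] at h1
  exact h1.unique (h.d1 φ)

theorem vk_per2 (h : VK C K V V1 V2) (φ : ℝ) : V2 (φ + 2 * Real.pi) = V2 φ := by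
  have h1 : HasDerivAt (fun x => V1 (x + 2 * Real.pi)) (V2 (φ + 2 * Real.pi)) φ := by
    have := (h.d2 (φ + 2 * Real.pi)).comp_add_const φ (2 * Real.pi)
    exact this
  have e : (fun x => V1 (x + 2 * Real.pi)) = V1 := funext (vk_per1 h)
  rw [e] at h1
  exact h1.unique (h.d2 φ)

/-- integral of a periodic function, reflected and translated -/
theorem int_shift {F : ℝ → ℝ} (hF : ∀ x, F (x + 2 * Real.pi) = F x) (φ : ℝ) :
    ∫ ψ in (-Real.pi)..Real.pi, |F (φ - ψ)| = ∫ u in (-Real.pi)..Real.pi, |F u| := by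
  have h1 : ∫ ψ in (-Real.pi)..Real.pi, |F (φ - ψ)| =
      ∫ u in (φ - Real.pi)..(φ - -Real.pi), |F u| :=
    intervalIntegral.integral_comp_sub_left (fun u => |F u|) φ
  rw [h1]
  have hper : Function.Periodic (fun u => |F u|) (2 * Real.pi) := fun x => by
    dsimp only; rw [hF]
  have h2 := hper.intervalIntegral_add_eq (φ - Real.pi) (-Real.pi)
  have e1 : φ - Real.pi + 2 * Real.pi = φ - -Real.pi := by ring
  have e2 : -Real.pi + 2 * Real.pi = Real.pi := by ring
  rw [e1, e2] at h2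
  exact h2

/-- translated -/
theorem int_shift' {F : ℝ → ℝ} (hF : ∀ x, F (x + 2 * Real.pi) = F x) (ψ : ℝ) :
    ∫ φ in (-Real.pi)..Real.pi, |F (φ - ψ)| = ∫ u in (-Real.pi)..Real.pi, |F u| := by
  have h1 : ∫ φ in (-Real.pi)..Real.pi, |F (φ - ψ)| =
      ∫ u in (-Real.pi - ψ)..(Real.pi - ψ), |F u| :=
    intervalIntegral.integral_comp_sub_right (fun u => |F u|) ψ
  rw [h1]
  have hper : Function.Periodic (fun u => |F u|) (2 * Real.pi) := fun x => by
    dsimp only; rw [hF]
  have h2 := hper.intervalIntegral_add_eq (-Real.pi - ψ) (-Real.pi)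
  have e1 : -Real.pi - ψ + 2 * Real.pi = Real.pi - ψ := by ring
  have e2 : -Real.pi + 2 * Real.pi = Real.pi := by ring
  rw [e1, e2] at h2
  exact h2

end VKf

theorem norm_ci (t : ℝ) : ‖ci t‖ = 1 := by
  unfold ci; exact Complex.norm_exp_ofReal_mul_I t

theorem ci_cont : Continuous ci := by unfold ci; fun_prop

/-- the phase -/
noncomputable def ph (t φ : ℝ) : ℂ := ci (t * (Real.cos φ - 1))

theorem norm_ph (t φ : ℝ) : ‖ph t φ‖ = 1 := norm_ci _

theorem ph_cont (t : ℝ) : Continuous (ph t) := by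
  unfold ph
  exact ci_cont.comp (by fun_prop)

theorem ph_hd (t φ : ℝ) :
    HasDerivAt (ph t) (-(Complex.I * t * (Real.sin φ : ℝ)) * ph t φ) φ := by
  have h1 : HasDerivAt (fun φ : ℝ => ((t * (Real.cos φ - 1) : ℝ) : ℂ) * Complex.I)
      (((t * (-Real.sin φ) : ℝ) : ℂ) * Complex.I) φ := by
    have h2 : HasDerivAt (fun φ : ℝ => t * (Real.cos φ - 1)) (t * (-Real.sin φ)) φ :=
      ((Real.hasDerivAt_cos φ).sub_const 1).const_mul t
    exact h2.ofReal_comp.mul_const _
  have h3 := h1.cexp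
  unfold ph ci
  convert h3 using 1
  push_cast
  ring

end EtaL_

end Pool.Agent.CRL
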