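import Pool.Agent.CRL.Targets2

set_option autoImplicit false

/-!
# CRL, MODA: basic facts on the angular modes
-/

namespace Pool.Agent.CRL

open MeasureTheory FourierTransform Set Filter Topology
open scoped ENNReal NNReal
open Pool.Agent.MBS (E ex S Sstar)
open Pool.Agent.KSP (IE)
open Pool.Agent.CAR (e1)

namespace MODA_

theorem rot0 (θ : ℝ) (x : E 2) : rot θ x 0 = Real.cos θ * x 0 - Real.sin θ * x 1 := by
  simp [rot]

theorem rot1 (θ : ℝ) (x : E 2) : rot θ x 1 = Real.sin θ * x 0 + Real.cos θ * x 1 := by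
  simp [rot]

theorem ext2 {x y : E 2} (h0 : x 0 = y 0) (h1 : x 1 = y 1) : x = y := by
  ext i
  fin_cases i
  · exact h0
  · exact h1

theorem rot_rot (a b : ℝ) (x : E 2) : rot a (rot b x) = rot (a + b) x := by
  apply ext2
  · simp only [rot0, rot1, Real.cos_add, Real.sin_add]
    ring
  · simp only [rot0, rot1, Real.cos_add, Real.sin_add]
    ring

theorem rot_zero (x : E 2) : rot 0 x = x := by
  apply ext2
  · simp [rot0]
  · simp [rot1]

theorem norm_rot (θ : ℝ) (x : E 2) : ‖rot θ x‖ = ‖x‖ := by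
  rw [EuclideanSpace.norm_eq, EuclideanSpace.norm_eq]
  congr 1
  rw [Fin.sum_univ_two, Fin.sum_univ_two, rot0, rot1]
  simp only [Real.norm_eq_abs, sq_abs]
  have h := Real.sin_sq_add_cos_sq θ
  linear_combination (x 0 ^ 2 + x 1 ^ 2) * h

/-- the rotation as a linear isometry -/
noncomputable def rotL (θ : ℝ) : E 2 ≃ₗᵢ[ℝ] E 2 where
  toFun := rot θ
  invFun := rot (-θ)
  map_add' := by
    intro x y
    apply ext2
    · simp only [rot0, PiLp.add_apply]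
      ring
    · simp only [rot1, PiLp.add_apply]
      ring
  map_smul' := by
    intro c x
    apply ext2
    · simp only [rot0, PiLp.smul_apply, smul_eq_mul, RingHom.id_apply]
      ring
    · simp only [rot1, PiLp.smul_apply, smul_eq_mul, RingHom.id_apply]
      ring
  left_inv := by
    intro x
    rw [rot_rot, neg_add_cancel, rot_zero]
  right_inv := by
    intro x
    rw [rot_rot, add_neg_cancel, rot_zero]
  norm_map' := norm_rot θ

theorem rotL_apply (θ : ℝ) (x : E 2) : rotL θ x = rot θ x := rfl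

theorem mp_rot (θ : ℝ) : MeasurePreserving (rot θ) (volume : Measure (E 2)) volume :=
  (rotL θ).measurePreserving

theorem cont_rot : Continuous (fun p : E 2 × ℝ => rot p.2 p.1) := by
  have h0 : Continuous (fun p : E 2 × ℝ => p.1 0) := by fun_prop
  have h1 : Continuous (fun p : E 2 × ℝ => p.1 1) := by fun_prop
  have hc : Continuous (fun p : E 2 × ℝ => Real.cos p.2) := Real.continuous_cos.comp continuous_snd
  have hs : Continuous (fun p : E 2 × ℝ => Real.sin p.2) := Real.continuous_sin.comp continuous_snd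
  apply (PiLp.continuous_toLp 2 (fun _ : Fin 2 => ℝ)).comp
  apply continuous_pi
  intro i
  fin_cases i
  · exact (hc.mul h0).sub (hs.mul h1)
  · exact (hs.mul h0).add (hc.mul h1)

theorem cont_rot' (x : E 2) : Continuous (fun θ : ℝ => rot θ x) :=
  Continuous.comp (g := fun p : E 2 × ℝ => rot p.2 p.1) (f := fun θ : ℝ => (x, θ)) cont_rot
    (by fun_prop)

theorem mf {f : E 2 → ℂ} (hf : Measurable f) (x : E 2) :
    Measurable (fun θ : ℝ => ‖f (rot θ x)‖ₑ) := by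
  have h := Measurable.comp (g := f) (f := fun θ : ℝ => rot θ x) hf (cont_rot' x).measurable
  exact h.enorm

theorem cont_ci : Continuous ci := by
  unfold ci
  fun_prop

theorem norm_ci (t : ℝ) : ‖ci t‖ = 1 := Complex.norm_exp_ofReal_mul_I t

theorem enorm_ci (t : ℝ) : ‖ci t‖ₑ = 1 := by
  rw [← ofReal_norm, norm_ci, ENNReal.ofReal_one]

theorem ci_add (a b : ℝ) : ci (a + b) = ci a * ci b := by
  unfold ci
  rw [← Complex.exp_add]
  congr 1
  push_cast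
  ring

theorem ci_period (k : ℤ) : ci (-(k * (2 * Real.pi))) = 1 := by
  unfold ci
  have h := Complex.exp_int_mul_two_pi_mul_I (-k)
  rw [← h]
  congr 1
  push_cast
  ring

theorem rot_period (θ : ℝ) (x : E 2) : rot (θ + 2 * Real.pi) x = rot θ x := by
  unfold rot
  rw [Real.cos_add_two_pi, Real.sin_add_two_pi]

/-- Cauchy-Schwarz. -/
theorem cs {α : Type*} [MeasurableSpace α] (μ : Measure α) {g : α → ℝ≥0∞} (hg : AEMeasurable g μ) :
    (∫⁻ a, g a ∂μ) ^ 2 ≤ μ univ * ∫⁻ a, g a ^ 2 ∂μ := by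
  have hpq : (2 : ℝ).HolderConjugate 2 := by
    constructor <;> norm_num
  have h2 := ENNReal.lintegral_mul_le_Lp_mul_Lq μ hpq (f := g)
    (g := fun _ => (1 : ℝ≥0∞)) hg aemeasurable_const
  have h5 : ∀ a : ℝ≥0∞, (a ^ (1 / (2 : ℝ))) ^ 2 = a := by
    intro a
    rw [← ENNReal.rpow_natCast, ← ENNReal.rpow_mul]
    norm_num
  have h3 : (∫⁻ a, g a * 1 ∂μ) ≤ (∫⁻ a, g a ^ (2 : ℝ) ∂μ) ^ (1 / (2 : ℝ)) *
      (∫⁻ _, (1 : ℝ≥0∞) ^ (2 : ℝ) ∂μ) ^ (1 / (2 : ℝ)) := h2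
  have h4 : (∫⁻ a, g a ∂μ) ≤ (∫⁻ a, g a ^ (2 : ℝ) ∂μ) ^ (1 / (2 : ℝ)) *
      (∫⁻ _, (1 : ℝ≥0∞) ^ (2 : ℝ) ∂μ) ^ (1 / (2 : ℝ)) := by
    refine le_trans (le_of_eq ?_) h3
    apply lintegral_congr
    intro a
    rw [mul_one]
  calc (∫⁻ a, g a ∂μ) ^ 2 ≤ ((∫⁻ a, g a ^ (2 : ℝ) ∂μ) ^ (1 / (2 : ℝ)) *
      (∫⁻ _, (1 : ℝ≥0∞) ^ (2 : ℝ) ∂μ) ^ (1 / (2 : ℝ))) ^ 2 := by gcongr
    _ = (∫⁻ a, g a ^ (2 : ℝ) ∂μ) * (∫⁻ _, (1 : ℝ≥0∞) ^ (2 : ℝ) ∂μ) := by
        rw [mul_pow, h5, h5]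
    _ = _ := by
        rw [mul_comm]
        congr 1
        · simp
        · apply lintegral_congr
          intro a
          rw [← ENNReal.rpow_natCast]
          norm_num

theorem ioc : (volume.restrict (Ioc (-Real.pi) Real.pi)) univ = ENNReal.ofReal (2 * Real.pi) := by
  rw [Measure.restrict_apply_univ, Real.volume_Ioc]
  congr 1
  ring

/-- averages over the rotations -/
theorem avg {G : E 2 → ℝ≥0∞} (hG : Measurable G) :
    ∫⁻ x, ∫⁻ θ in Ioc (-Real.pi) Real.pi, G (rot θ x) =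
      ENNReal.ofReal (2 * Real.pi) * ∫⁻ x, G x := by
  have hm : Measurable (fun p : E 2 × ℝ => G (rot p.2 p.1)) := hG.comp cont_rot.measurable
  rw [lintegral_lintegral_swap (f := fun x θ => G (rot θ x)) hm.aemeasurable]
  have h : ∀ θ : ℝ, ∫⁻ x, G (rot θ x) = ∫⁻ x, G x := fun θ => (mp_rot θ).lintegral_comp hG
  simp only [h]
  rw [lintegral_const, ioc, mul_comm]

theorem pipos : 0 < (2 * Real.pi)⁻¹ := by positivity

theorem pile : -Real.pi ≤ Real.pi := by linarith [Real.pi_pos]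

theorem bd (k : ℤ) (f : E 2 → ℂ) (x : E 2) :
    ‖amode k f x‖ₑ ≤ ENNReal.ofReal (2 * Real.pi)⁻¹ *
      ∫⁻ θ in Ioc (-Real.pi) Real.pi, ‖f (rot θ x)‖ₑ := by
  unfold amode
  rw [enorm_mul, intervalIntegral.integral_of_le pile]
  have h1 : ‖(((2 * Real.pi)⁻¹ : ℝ) : ℂ)‖ₑ = ENNReal.ofReal (2 * Real.pi)⁻¹ := by
    rw [← ofReal_norm, Complex.norm_real, Real.norm_of_nonneg pipos.le]
  rw [h1]
  gcongr
  refine (enorm_integral_le_lintegral_enorm _).trans (le_of_eq ?_)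
  apply lintegral_congr
  intro θ
  rw [enorm_mul, enorm_ci, mul_one]

theorem jm {f : E 2 → ℂ} (hf : Measurable f) (k : ℤ) :
    Measurable (fun p : E 2 × ℝ => f (rot p.2 p.1) * ci (-(k * p.2))) := by
  apply (hf.comp cont_rot.measurable).mul
  apply Continuous.measurable
  exact cont_ci.comp (by fun_prop)

theorem meas {f : E 2 → ℂ} (hf : Measurable f) (k : ℤ) : Measurable (amode k f) := by
  unfold amode
  apply Measurable.const_mul
  have h1 : StronglyMeasurable (fun x : E 2 =>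
      ∫ θ, f (rot θ x) * ci (-(k * θ)) ∂(volume.restrict (Ioc (-Real.pi) Real.pi))) :=
    (jm hf k).stronglyMeasurable.integral_prod_right'
  have h2 : (fun x : E 2 => ∫ θ in (-Real.pi)..Real.pi, f (rot θ x) * ci (-(k * θ))) =
      fun x : E 2 => ∫ θ, f (rot θ x) * ci (-(k * θ))
        ∂(volume.restrict (Ioc (-Real.pi) Real.pi)) := by
    ext x
    rw [intervalIntegral.integral_of_le pile]
  rw [h2]
  exact h1.measurable

theorem isMode (k : ℤ) (f : E 2 → ℂ) : IsMode k (amode k f) := by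
  intro α x
  unfold amode
  have hper : Function.Periodic (fun u : ℝ => f (rot u x) * ci (-(k * u))) (2 * Real.pi) := by
    intro u
    change f (rot (u + 2 * Real.pi) x) * ci (-(k * (u + 2 * Real.pi))) =
      f (rot u x) * ci (-(k * u))
    rw [rot_period, show (-((k : ℝ) * (u + 2 * Real.pi))) =
      -(k * u) + -(k * (2 * Real.pi)) by ring, ci_add, ci_period, mul_one]
  have h1 : ∫ θ in (-Real.pi)..Real.pi, f (rot θ (rot α x)) * ci (-(k * θ)) =
      ∫ θ in (-Real.pi)..Real.pi, ci (k * α) * (f (rot (θ + α) x) * ci (-(k * (θ + α)))) := by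
    congr 1
    ext θ
    rw [rot_rot]
    have h2 : ci (-(k * θ)) = ci (k * α) * ci (-(k * (θ + α))) := by
      rw [← ci_add]
      congr 1
      ring
    rw [h2]
    ring
  rw [h1, intervalIntegral.integral_const_mul,
    intervalIntegral.integral_comp_add_right (fun u => f (rot u x) * ci (-(k * u))) α]
  have h3 := hper.intervalIntegral_add_eq (-Real.pi + α) (-Real.pi)
  rw [show -Real.pi + α + 2 * Real.pi = Real.pi + α by ring,
    show -Real.pi + 2 * Real.pi = Real.pi by ring] at h3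
  rw [h3]
  ring

theorem sqb {f : E 2 → ℂ} (hf : Measurable f) (k : ℤ) :
    ∫⁻ x, ‖amode k f x‖ₑ ^ 2 ≤ ∫⁻ x, ‖f x‖ₑ ^ 2 := by
  have hp : ENNReal.ofReal (2 * Real.pi)⁻¹ * ENNReal.ofReal (2 * Real.pi) = 1 := by
    rw [← ENNReal.ofReal_mul pipos.le, inv_mul_cancel₀ (by positivity), ENNReal.ofReal_one]
  have hpt : ∀ x : E 2, ‖amode k f x‖ₑ ^ 2 ≤ ENNReal.ofReal (2 * Real.pi)⁻¹ *
      ∫⁻ θ in Ioc (-Real.pi) Real.pi, ‖f (rot θ x)‖ₑ ^ 2 := by
    intro x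
    have hg : Measurable (fun θ : ℝ => ‖f (rot θ x)‖ₑ) := mf hf x
    have h1 := cs (volume.restrict (Ioc (-Real.pi) Real.pi)) hg.aemeasurable
    rw [ioc] at h1
    calc ‖amode k f x‖ₑ ^ 2 ≤ (ENNReal.ofReal (2 * Real.pi)⁻¹ *
        ∫⁻ θ in Ioc (-Real.pi) Real.pi, ‖f (rot θ x)‖ₑ) ^ 2 := by
          gcongr
          exact bd k f x
      _ = ENNReal.ofReal (2 * Real.pi)⁻¹ ^ 2 *
        (∫⁻ θ in Ioc (-Real.pi) Real.pi, ‖f (rot θ x)‖ₑ) ^ 2 := mul_pow _ _ _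
      _ ≤ ENNReal.ofReal (2 * Real.pi)⁻¹ ^ 2 * (ENNReal.ofReal (2 * Real.pi) *
        ∫⁻ θ in Ioc (-Real.pi) Real.pi, ‖f (rot θ x)‖ₑ ^ 2) := by gcongr
      _ = ENNReal.ofReal (2 * Real.pi)⁻¹ *
        (ENNReal.ofReal (2 * Real.pi)⁻¹ * ENNReal.ofReal (2 * Real.pi)) *
        ∫⁻ θ in Ioc (-Real.pi) Real.pi, ‖f (rot θ x)‖ₑ ^ 2 := by ring
      _ = _ := by rw [hp, mul_one]
  calc ∫⁻ x, ‖amode k f x‖ₑ ^ 2 ≤ ∫⁻ x, ENNReal.ofReal (2 * Real.pi)⁻¹ *
        ∫⁻ θ in Ioc (-Real.pi) Real.pi, ‖f (rot θ x)‖ₑ ^ 2 := lintegral_mono hpt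
    _ = ENNReal.ofReal (2 * Real.pi)⁻¹ *
        ∫⁻ x, ∫⁻ θ in Ioc (-Real.pi) Real.pi, ‖f (rot θ x)‖ₑ ^ 2 := by
        rw [lintegral_const_mul' _ _ ENNReal.ofReal_ne_top]
    _ = ENNReal.ofReal (2 * Real.pi)⁻¹ * (ENNReal.ofReal (2 * Real.pi) *
        ∫⁻ x, ‖f x‖ₑ ^ 2) := by
        rw [avg (G := fun y => ‖f y‖ₑ ^ 2) (hf.enorm.pow_const 2)]
    _ = _ := by rw [← mul_assoc, hp, one_mul]

theorem l1b {f : E 2 → ℂ} (hf : Measurable f) (k : ℤ) :
    ∫⁻ x, ‖amode k f x‖ₑ ≤ ∫⁻ x, ‖f x‖ₑ := by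
  have hp : ENNReal.ofReal (2 * Real.pi)⁻¹ * ENNReal.ofReal (2 * Real.pi) = 1 := by
    rw [← ENNReal.ofReal_mul pipos.le, inv_mul_cancel₀ (by positivity), ENNReal.ofReal_one]
  calc ∫⁻ x, ‖amode k f x‖ₑ ≤ ∫⁻ x, ENNReal.ofReal (2 * Real.pi)⁻¹ *
        ∫⁻ θ in Ioc (-Real.pi) Real.pi, ‖f (rot θ x)‖ₑ := lintegral_mono (bd k f)
    _ = ENNReal.ofReal (2 * Real.pi)⁻¹ *
        ∫⁻ x, ∫⁻ θ in Ioc (-Real.pi) Real.pi, ‖f (rot θ x)‖ₑ := by
        rw [lintegral_const_mul' _ _ ENNReal.ofReal_ne_top]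
    _ = ENNReal.ofReal (2 * Real.pi)⁻¹ * (ENNReal.ofReal (2 * Real.pi) *
        ∫⁻ x, ‖f x‖ₑ) := by
        rw [avg (G := fun y => ‖f y‖ₑ) hf.enorm]
    _ = _ := by rw [← mul_assoc, hp, one_mul]

theorem two_iff {f : E 2 → ℂ} (hf : Measurable f) :
    MemLp f 2 ↔ ∫⁻ x, ‖f x‖ₑ ^ 2 < ⊤ := by
  have h0 : eLpNorm f 2 volume < ⊤ ↔ ∫⁻ x, ‖f x‖ₑ ^ 2 < ⊤ := by
    rw [eLpNorm_lt_top_iff_lintegral_rpow_enorm_lt_top (by norm_num) (by norm_num)]
    have : ∀ x : E 2, ‖f x‖ₑ ^ (ENNReal.toReal 2) = ‖f x‖ₑ ^ 2 := by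
      intro x
      rw [← ENNReal.rpow_natCast]
      norm_num
    simp only [this]
  constructor
  · intro h
    exact h0.1 h.2
  · intro h
    exact ⟨hf.aestronglyMeasurable, h0.2 h⟩

theorem nice {f : E 2 → ℂ} (hf : Nice f) (k : ℤ) : Nice (amode k f) where
  meas := meas hf.meas k
  int := by
    refine ⟨(meas hf.meas k).aestronglyMeasurable, ?_⟩
    exact (l1b hf.meas k).trans_lt hf.int.2
  sq := (two_iff (meas hf.meas k)).2
    ((sqb hf.meas k).trans_lt ((two_iff hf.meas).1 hf.sq))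

theorem four {f : E 2 → ℂ} (hf : Nice f) (k : ℤ) : 𝓕 (amode k f) = amode k (𝓕 f) := by
  ext ξ
  rw [Real.fourier_eq]
  have hint : Integrable (Function.uncurry fun (x : E 2) (θ : ℝ) =>
      Real.fourierChar (-(inner ℝ x ξ : ℝ)) • (f (rot θ x) * ci (-(k * θ))))
      (volume.prod (volume.restrict (Ioc (-Real.pi) Real.pi))) := by
    have hm : AEStronglyMeasurable (Function.uncurry fun (x : E 2) (θ : ℝ) =>
        Real.fourierChar (-(inner ℝ x ξ : ℝ)) • (f (rot θ x) * ci (-(k * θ))))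
        (volume.prod (volume.restrict (Ioc (-Real.pi) Real.pi))) := by
      have hc : Continuous (fun p : E 2 × ℝ => Real.fourierChar (-(inner ℝ p.1 ξ : ℝ))) :=
        Real.continuous_fourierChar.comp (by fun_prop)
      exact hc.aestronglyMeasurable.smul (jm hf.meas k).aestronglyMeasurable
    refine ⟨hm, ?_⟩
    have hn : ∀ p : E 2 × ℝ, ‖(Function.uncurry fun (x : E 2) (θ : ℝ) =>
        Real.fourierChar (-(inner ℝ x ξ : ℝ)) • (f (rot θ x) * ci (-(k * θ)))) p‖ₑ =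
        ‖f (rot p.2 p.1)‖ₑ := by
      intro p
      change ‖Real.fourierChar (-(inner ℝ p.1 ξ : ℝ)) • (f (rot p.2 p.1) * ci (-(k * p.2)))‖ₑ = _
      rw [← ofReal_norm, Circle.norm_smul, ofReal_norm, enorm_mul, enorm_ci, mul_one]
    unfold HasFiniteIntegral
    simp only [hn]
    have hm2 : Measurable (fun p : E 2 × ℝ => ‖f (rot p.2 p.1)‖ₑ) :=
      (hf.meas.comp cont_rot.measurable).enorm
    rw [lintegral_prod _ hm2.aemeasurable]
    change ∫⁻ x, ∫⁻ θ in Ioc (-Real.pi) Real.pi, ‖f (rot θ x)‖ₑ < ⊤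
    rw [avg (G := fun y => ‖f y‖ₑ) hf.meas.enorm]
    exact ENNReal.mul_lt_top ENNReal.ofReal_lt_top hf.int.2
  have h1 : ∀ x : E 2, Real.fourierChar (-(inner ℝ x ξ : ℝ)) • amode k f x =
      (((2 * Real.pi)⁻¹ : ℝ) : ℂ) * ∫ θ in Ioc (-Real.pi) Real.pi,
        Real.fourierChar (-(inner ℝ x ξ : ℝ)) • (f (rot θ x) * ci (-(k * θ))) := by
    intro x
    unfold amode
    rw [intervalIntegral.integral_of_le pile]
    simp only [Circle.smul_def, smul_eq_mul]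
    rw [integral_const_mul]
    ring
  simp only [h1]
  rw [integral_const_mul, integral_integral_swap hint]
  unfold amode
  rw [intervalIntegral.integral_of_le pile]
  congr 1
  apply setIntegral_congr_fun measurableSet_Ioc
  intro θ _
  change ∫ x, Real.fourierChar (-(inner ℝ x ξ : ℝ)) • (f (rot θ x) * ci (-(k * θ))) =
    𝓕 f (rot θ ξ) * ci (-(k * θ))
  have h2 : 𝓕 f (rot θ ξ) = ∫ x, Real.fourierChar (-(inner ℝ x ξ : ℝ)) • f (rot θ x) := by
    have h3 := Real.fourier_comp_linearIsometry (rotL θ) f ξ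
    rw [Real.fourier_eq] at h3
    exact h3.symm
  rw [h2, ← integral_mul_const]
  congr 1
  ext x
  rw [smul_mul_assoc]

end MODA_

theorem p_MODA : T_MODA := by
  intro k f hf
  exact ⟨MODA_.nice hf k, MODA_.isMode k f, MODA_.four hf k, MODA_.isMode k (𝓕 f)⟩

end Pool.Agent.CRL
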