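import Pool.Agent.CRL.Targets2

set_option autoImplicit false

/-!
# CRL-PT: stationary phase, pointwise domination by partial integrals along rays
-/

namespace Pool.Agent.CRL

open MeasureTheory FourierTransform Set Filter Topology
open scoped ENNReal NNReal
open Pool.Agent.MBS (E ex S Sstar)
open Pool.Agent.KSP (IE)
open Pool.Agent.CAR (e1)

namespace PT_

/-! ### elementary facts -/

theorem norm_ci (t : ℝ) : ‖ci t‖ = 1 := by
  unfold ci; exact Complex.norm_exp_ofReal_mul_I t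

theorem ci_add (s t : ℝ) : ci (s + t) = ci s * ci t := by
  unfold ci; push_cast; rw [add_mul, Complex.exp_add]

theorem continuous_ci : Continuous ci := by unfold ci; fun_prop

theorem e1_eq (x : ℝ) : e1 x = ci (2 * Real.pi * x) := by
  unfold e1 ci; congr 1; push_cast; ring

theorem conj_ci (t : ℝ) : (starRingEnd ℂ) (ci t) = ci (-t) := by
  unfold ci
  rw [← Complex.exp_conj]
  congr 1
  simp

theorem ci_int (k : ℤ) : ci (k * (2 * Real.pi)) = 1 := by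
  unfold ci
  rw [Complex.exp_eq_one_iff]
  exact ⟨k, by push_cast; ring⟩

theorem norm_ev (θ : ℝ) : ‖ev θ‖ = 1 := by
  unfold ev
  rw [EuclideanSpace.norm_eq]
  simp [Fin.sum_univ_two]

theorem inner_ev (θ φ : ℝ) : inner ℝ (ev θ) (ev φ) = Real.cos (φ - θ) := by
  unfold ev
  simp [PiLp.inner_apply, Fin.sum_univ_two]
  rw [Real.cos_sub]

theorem ex_ev (ρ θ r φ : ℝ) :
    ex (ρ • ev θ) (r • ev φ) = ci (2 * Real.pi * ρ * r * Real.cos (φ - θ)) := by
  unfold ex ci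
  congr 1
  rw [real_inner_smul_left, real_inner_smul_right, inner_ev]
  push_cast
  ring

theorem norm_smul_ev {r : ℝ} (hr : 0 < r) (φ : ℝ) : ‖r • ev φ‖ = r := by
  rw [norm_smul, norm_ev, Real.norm_eq_abs, abs_of_pos hr, mul_one]

theorem eta_add (φ : ℝ) : eta φ + eta (φ + Real.pi) = 1 := by
  unfold eta Real.smoothTransition
  rw [Real.cos_add_pi]
  have e1 : 1 - (1 / 2 + Real.cos φ) = 1 / 2 - Real.cos φ := by ring
  have e2 : 1 / 2 + -Real.cos φ = 1 / 2 - Real.cos φ := by ring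
  have e3 : 1 - (1 / 2 - Real.cos φ) = 1 / 2 + Real.cos φ := by ring
  rw [e1, e2, e3]
  have h := Real.smoothTransition.pos_denom (1 / 2 + Real.cos φ)
  rw [e1] at h
  rw [add_comm (expNegInvGlue (1 / 2 - Real.cos φ)) (expNegInvGlue (1 / 2 + Real.cos φ)),
    ← add_div, div_self h.ne']

theorem eta_per (φ : ℝ) : eta (φ + 2 * Real.pi) = eta φ := by
  unfold eta; rw [Real.cos_add_two_pi]

theorem continuous_eta : Continuous eta := by
  unfold eta
  exact Real.smoothTransition.continuous.comp (by fun_prop)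

theorem per_shift {f : ℝ → ℂ} (hf : Function.Periodic f (2 * Real.pi)) (s : ℝ) :
    ∫ φ in (-Real.pi)..Real.pi, f (φ + s) = ∫ φ in (-Real.pi)..Real.pi, f φ := by
  rw [intervalIntegral.integral_comp_add_right]
  have h := hf.intervalIntegral_add_eq (-Real.pi + s) (-Real.pi)
  have e1 : -Real.pi + s + 2 * Real.pi = Real.pi + s := by ring
  have e2 : -Real.pi + 2 * Real.pi = Real.pi := by ring
  rw [e1, e2] at h
  exact h

/-! ### trigonometric polynomials -/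

noncomputable def tp (K : ℕ) (c : ℤ → ℂ) (α : ℝ) : ℂ :=
  ∑ k ∈ Finset.Icc (-(K : ℤ)) K, c k * ci (k * α)

theorem continuous_tp (K : ℕ) (c : ℤ → ℂ) : Continuous (tp K c) := by
  unfold tp
  refine continuous_finsetSum _ fun k _ => continuous_const.mul (continuous_ci.comp ?_)
  fun_prop

theorem tp_per (K : ℕ) (c : ℤ → ℂ) (α : ℝ) : tp K c (α + 2 * Real.pi) = tp K c α := by
  unfold tp
  refine Finset.sum_congr rfl fun k _ => ?_
  rw [mul_add, ci_add, ci_int, mul_one]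

theorem cV {C0 : ℝ} {K : ℕ} {V V1 V2 : ℝ → ℝ} (hV : VK C0 K V V1 V2) : Continuous V :=
  continuous_iff_continuousAt.2 fun φ => (hV.d1 φ).continuousAt

theorem rep_tp {C0 : ℝ} {K : ℕ} {V V1 V2 : ℝ → ℝ} (hV : VK C0 K V V1 V2) (c : ℤ → ℂ)
    (θ φ : ℝ) : tp K c (θ + φ) = ((2 * Real.pi)⁻¹ : ℝ) *
      ∫ ψ in (-Real.pi)..Real.pi, tp K c (θ + ψ) * (V (φ - ψ) : ℂ) := by
  have hcV := cV hV
  have h1 : ∀ ψ, tp K c (θ + ψ) * (V (φ - ψ) : ℂ) = ∑ k ∈ Finset.Icc (-(K : ℤ)) K,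
      (c k * ci (k * θ)) * (ci (k * ψ) * (V (φ - ψ) : ℂ)) := by
    intro ψ
    unfold tp
    rw [Finset.sum_mul]
    refine Finset.sum_congr rfl fun k _ => ?_
    rw [mul_add, ci_add]; ring
  simp_rw [h1]
  rw [intervalIntegral.integral_finsetSum]
  · rw [Finset.mul_sum]
    unfold tp
    refine Finset.sum_congr rfl fun k hk => ?_
    rw [intervalIntegral.integral_const_mul, mul_left_comm, hV.rep k ?_ φ, mul_add, ci_add]
    · ring
    · rw [Finset.mem_Icc] at hk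
      rw [abs_le]; exact ⟨hk.1, hk.2⟩
  · intro k _
    apply Continuous.intervalIntegrable
    refine continuous_const.mul ((continuous_ci.comp (by fun_prop)).mul ?_)
    exact Complex.continuous_ofReal.comp (hcV.comp (by fun_prop))

theorem inner_swap {C0 : ℝ} {K : ℕ} {V V1 V2 : ℝ → ℝ} (hV : VK C0 K V V1 V2) (c : ℤ → ℂ)
    (θ : ℝ) {w : ℝ → ℂ} (hw : Continuous w) :
    ∫ φ in (-Real.pi)..Real.pi, (eta φ : ℂ) * tp K c (θ + φ) * w φ =
      ((2 * Real.pi)⁻¹ : ℝ) * ∫ ψ in (-Real.pi)..Real.pi, tp K c (θ + ψ) *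
        ∫ φ in (-Real.pi)..Real.pi, (V (φ - ψ) : ℂ) * (eta φ : ℂ) * w φ := by
  have hcV := cV hV
  have hce := continuous_eta
  have hct := continuous_tp K c
  have h1 : ∀ φ, (eta φ : ℂ) * tp K c (θ + φ) * w φ = ((2 * Real.pi)⁻¹ : ℝ) *
      ∫ ψ in (-Real.pi)..Real.pi, tp K c (θ + ψ) *
        ((V (φ - ψ) : ℂ) * (eta φ : ℂ) * w φ) := by
    intro φ
    have h2 : ∀ ψ, tp K c (θ + ψ) * ((V (φ - ψ) : ℂ) * (eta φ : ℂ) * w φ) =
        (tp K c (θ + ψ) * (V (φ - ψ) : ℂ)) * ((eta φ : ℂ) * w φ) := fun ψ => by ring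
    simp_rw [h2]
    rw [intervalIntegral.integral_mul_const, ← mul_assoc, ← rep_tp hV]
    ring
  simp_rw [h1]
  rw [intervalIntegral.integral_const_mul]
  congr 1
  rw [intervalIntegral_intervalIntegral_swap]
  · refine intervalIntegral.integral_congr fun ψ _ => ?_
    exact intervalIntegral.integral_const_mul _ _
  · have hc : Continuous (Function.uncurry fun φ ψ : ℝ => tp K c (θ + ψ) *
        ((V (φ - ψ) : ℂ) * (eta φ : ℂ) * w φ)) := by
      unfold Function.uncurry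
      refine (hct.comp (by fun_prop)).mul (((Complex.continuous_ofReal.comp
        (hcV.comp (by fun_prop))).mul (Complex.continuous_ofReal.comp
        (hce.comp (by fun_prop)))).mul (hw.comp (by fun_prop)))
    refine (hc.continuousOn.integrableOn_compact
      (isCompact_uIcc.prod isCompact_uIcc)).mono_set
      (prod_mono uIoc_subset_uIcc uIoc_subset_uIcc)

theorem phase_pos {V : ℝ → ℝ} {t : ℝ} (ht : 0 < t) (ψ : ℝ) :
    ∫ φ in (-Real.pi)..Real.pi, (V (φ - ψ) : ℂ) * (eta φ : ℂ) * ci (t * Real.cos φ) =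
      ((Real.sqrt t)⁻¹ : ℝ) * (ci t * UU V t ψ) := by
  unfold UU
  have hs : ((Real.sqrt t)⁻¹ : ℝ) * (Real.sqrt t : ℂ) = 1 := by
    rw [← Complex.ofReal_mul, inv_mul_cancel₀ (Real.sqrt_pos.2 ht).ne', Complex.ofReal_one]
  rw [mul_left_comm (ci t), ← mul_assoc, hs, one_mul, ← intervalIntegral.integral_const_mul]
  refine intervalIntegral.integral_congr fun φ _ => ?_
  have e : t * Real.cos φ = t + t * (Real.cos φ - 1) := by ring
  rw [e, ci_add]; ring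

theorem phase_neg {V : ℝ → ℝ} {t : ℝ} (ht : 0 < t) (ψ : ℝ) :
    ∫ φ in (-Real.pi)..Real.pi, (V (φ - ψ) : ℂ) * (eta φ : ℂ) * ci (-(t * Real.cos φ)) =
      ((Real.sqrt t)⁻¹ : ℝ) * (ci (-t) * (starRingEnd ℂ) (UU V t ψ)) := by
  have h := congrArg (starRingEnd ℂ) (phase_pos (V := V) ht ψ)
  rw [map_mul, map_mul, conj_ci, Complex.conj_ofReal] at h
  have hle : -Real.pi ≤ Real.pi := by linarith [Real.pi_pos]
  rw [← h, intervalIntegral.integral_of_le hle, intervalIntegral.integral_of_le hle,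
    ← integral_conj]
  refine integral_congr_ae (Eventually.of_forall fun φ => ?_)
  simp only [map_mul, Complex.conj_ofReal, conj_ci]

theorem split_tp (K : ℕ) (c : ℤ → ℂ) (θ t : ℝ) :
    ∫ φ in (-Real.pi)..Real.pi, tp K c φ * ci (t * Real.cos (φ - θ)) =
      (∫ φ in (-Real.pi)..Real.pi, (eta φ : ℂ) * tp K c (θ + φ) * ci (t * Real.cos φ)) +
      ∫ φ in (-Real.pi)..Real.pi,
        (eta φ : ℂ) * tp K c (θ + Real.pi + φ) * ci (-(t * Real.cos φ)) := by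
  have hce := continuous_eta
  have hct := continuous_tp K c
  have hp1 : Function.Periodic (fun φ => tp K c φ * ci (t * Real.cos (φ - θ))) (2 * Real.pi) := by
    intro φ
    simp only
    rw [tp_per, show φ + 2 * Real.pi - θ = φ - θ + 2 * Real.pi by ring, Real.cos_add_two_pi]
  rw [← per_shift hp1 θ]
  have hp2 : Function.Periodic (fun φ => (eta (φ + Real.pi) : ℂ) * tp K c (θ + φ) *
      ci (t * Real.cos φ)) (2 * Real.pi) := by
    intro φ
    simp only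
    rw [show φ + 2 * Real.pi + Real.pi = φ + Real.pi + 2 * Real.pi by ring, eta_per,
      show θ + (φ + 2 * Real.pi) = θ + φ + 2 * Real.pi by ring, tp_per, Real.cos_add_two_pi]
  have h2 := per_shift hp2 Real.pi
  have h3 : ∀ φ, (eta (φ + Real.pi + Real.pi) : ℂ) * tp K c (θ + (φ + Real.pi)) *
      ci (t * Real.cos (φ + Real.pi)) =
      (eta φ : ℂ) * tp K c (θ + Real.pi + φ) * ci (-(t * Real.cos φ)) := by
    intro φ
    rw [show φ + Real.pi + Real.pi = φ + 2 * Real.pi by ring, eta_per, Real.cos_add_pi,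
      show θ + (φ + Real.pi) = θ + Real.pi + φ by ring, mul_neg]
  simp only [h3] at h2
  rw [h2, ← intervalIntegral.integral_add]
  · refine intervalIntegral.integral_congr fun φ _ => ?_
    have h4 := eta_add φ
    have h5 : (eta φ : ℂ) + (eta (φ + Real.pi) : ℂ) = 1 := by
      rw [← Complex.ofReal_add, h4, Complex.ofReal_one]
    rw [show φ + θ - θ = φ by ring, show φ + θ = θ + φ by ring]
    linear_combination (-(tp K c (θ + φ) * ci (t * Real.cos φ))) * h5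
  · apply Continuous.intervalIntegrable
    exact ((Complex.continuous_ofReal.comp hce).mul (hct.comp (by fun_prop))).mul
      (continuous_ci.comp (by fun_prop))
  · apply Continuous.intervalIntegrable
    exact ((Complex.continuous_ofReal.comp (hce.comp (by fun_prop))).mul
      (hct.comp (by fun_prop))).mul (continuous_ci.comp (by fun_prop))


/-! ### one circle -/

/-- the integrands on the rays -/
noncomputable def Pp (K : ℕ) (c : ℤ → ℝ → ℂ) (V : ℝ → ℝ) (ρ θ r ψ : ℝ) : ℂ :=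
  (Real.sqrt r : ℂ) * tp K (fun k => c k r) (θ + ψ) * e1 (r * ρ) *
    UU V (2 * Real.pi * ρ * r) ψ

noncomputable def Pm (K : ℕ) (c : ℤ → ℝ → ℂ) (V : ℝ → ℝ) (ρ θ r ψ : ℝ) : ℂ :=
  (Real.sqrt r : ℂ) * tp K (fun k => c k r) (θ + ψ + Real.pi) * e1 (r * (-ρ)) *
    (starRingEnd ℂ) (UU V (2 * Real.pi * ρ * r) ψ)

theorem sqrt_fac {L r : ℝ} (hL : 0 < L) :
    (r : ℂ) * (((2 * Real.pi)⁻¹ : ℝ) * ((Real.sqrt (L * r))⁻¹ : ℝ)) =
      (((2 * Real.pi)⁻¹ * (Real.sqrt L)⁻¹ : ℝ) : ℂ) * (Real.sqrt r : ℂ) := by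
  rw [← Complex.ofReal_mul, ← Complex.ofReal_mul, ← Complex.ofReal_mul]
  congr 1
  rw [Real.sqrt_mul hL.le, mul_inv (Real.sqrt L)]
  have h1 : r * (Real.sqrt r)⁻¹ = Real.sqrt r := by
    rw [← div_eq_mul_inv, Real.div_sqrt]
  calc r * ((2 * Real.pi)⁻¹ * ((Real.sqrt L)⁻¹ * (Real.sqrt r)⁻¹))
      = (2 * Real.pi)⁻¹ * (Real.sqrt L)⁻¹ * (r * (Real.sqrt r)⁻¹) := by ring
    _ = _ := by rw [h1]

theorem circle {C0 : ℝ} {K : ℕ} {V V1 V2 : ℝ → ℝ} (hV : VK C0 K V V1 V2) (c : ℤ → ℝ → ℂ)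
    (θ : ℝ) {ρ r : ℝ} (hρ : 0 < ρ) (hr : 0 < r) :
    (r : ℂ) * ∫ φ in (-Real.pi)..Real.pi, tp K (fun k => c k r) φ *
        ci (2 * Real.pi * ρ * r * Real.cos (φ - θ)) =
      (((2 * Real.pi)⁻¹ * (Real.sqrt (2 * Real.pi * ρ))⁻¹ : ℝ) : ℂ) *
        (∫ ψ in Ioc (-Real.pi) Real.pi, Pp K c V ρ θ r ψ) +
      (((2 * Real.pi)⁻¹ * (Real.sqrt (2 * Real.pi * ρ))⁻¹ : ℝ) : ℂ) *
        (∫ ψ in Ioc (-Real.pi) Real.pi, Pm K c V ρ θ r ψ) := by
  have hpi := Real.pi_pos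
  have hL : 0 < 2 * Real.pi * ρ := by positivity
  have ht : 0 < 2 * Real.pi * ρ * r := by positivity
  have hle : -Real.pi ≤ Real.pi := by linarith
  rw [split_tp, inner_swap hV _ θ (w := fun φ => ci (2 * Real.pi * ρ * r * Real.cos φ))
      (continuous_ci.comp (by fun_prop)),
    inner_swap hV _ (θ + Real.pi) (w := fun φ => ci (-(2 * Real.pi * ρ * r * Real.cos φ)))
      (continuous_ci.comp (by fun_prop))]
  simp_rw [phase_pos ht, phase_neg ht]
  rw [mul_add, ← intervalIntegral.integral_of_le hle, ← intervalIntegral.integral_of_le hle,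
    ← intervalIntegral.integral_const_mul, ← intervalIntegral.integral_const_mul,
    ← intervalIntegral.integral_const_mul, ← intervalIntegral.integral_const_mul,
    ← intervalIntegral.integral_const_mul, ← intervalIntegral.integral_const_mul]
  have hf := sqrt_fac (r := r) hL
  congr 1
  · refine intervalIntegral.integral_congr fun ψ _ => ?_
    unfold Pp
    rw [e1_eq, show 2 * Real.pi * (r * ρ) = 2 * Real.pi * ρ * r by ring]
    linear_combination (tp K (fun k => c k r) (θ + ψ) * ci (2 * Real.pi * ρ * r) *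
      UU V (2 * Real.pi * ρ * r) ψ) * hf
  · refine intervalIntegral.integral_congr fun ψ _ => ?_
    unfold Pm
    rw [e1_eq, show 2 * Real.pi * (r * -ρ) = -(2 * Real.pi * ρ * r) by ring,
      show θ + Real.pi + ψ = θ + ψ + Real.pi by ring]
    linear_combination (tp K (fun k => c k r) (θ + ψ + Real.pi) * ci (-(2 * Real.pi * ρ * r)) *
      (starRingEnd ℂ) (UU V (2 * Real.pi * ρ * r) ψ)) * hf

/-! ### integrability -/

theorem continuous_UU {V : ℝ → ℝ} (hV : Continuous V) :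
    Continuous (fun p : ℝ × ℝ => UU V p.1 p.2) := by
  unfold UU
  refine (Complex.continuous_ofReal.comp (Real.continuous_sqrt.comp continuous_fst)).mul ?_
  apply intervalIntegral.continuous_parametric_intervalIntegral_of_continuous'
  unfold Function.uncurry
  exact ((Complex.continuous_ofReal.comp (hV.comp (by fun_prop))).mul
    (Complex.continuous_ofReal.comp (continuous_eta.comp (by fun_prop)))).mul
    (continuous_ci.comp (by fun_prop))

theorem int_prod {h : ℝ → ℂ} {B : ℝ × ℝ → ℂ} {a R c d : ℝ} (hh : IntegrableOn h (Ioc a R))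
    (hB : Continuous B) : Integrable (fun p : ℝ × ℝ => h p.1 * B p)
      ((volume.restrict (Ioc a R)).prod (volume.restrict (Ioc c d))) := by
  have h1 : Integrable (fun p : ℝ × ℝ => h p.1)
      ((volume.restrict (Ioc a R)).prod (volume.restrict (Ioc c d))) :=
    Integrable.comp_fst hh _
  obtain ⟨M, hM⟩ := (isCompact_Icc (a := a) (b := R)).prod
    (isCompact_Icc (a := c) (b := d)) |>.exists_bound_of_continuousOn hB.continuousOn
  refine h1.mul_bdd (c := M) hB.aestronglyMeasurable ?_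
  rw [Measure.prod_restrict]
  filter_upwards [ae_restrict_mem (measurableSet_Ioc.prod measurableSet_Ioc)] with p hp
  exact hM p ⟨Ioc_subset_Icc_self hp.1, Ioc_subset_Icc_self hp.2⟩

theorem int_c {K : ℕ} {g : E 2 → ℂ} {c : ℤ → ℝ → ℂ} (hA : Ang K g c) (k : ℤ) {a R : ℝ}
    (ha : 0 ≤ a) : IntegrableOn (fun r => (Real.sqrt r : ℂ) * c k r) (Ioc a R) := by
  have h1 : IntegrableOn (fun r => r * ‖c k r‖ ^ 2) (Ioc a R) :=
    (hA.sq k).mono_set fun r hr => lt_of_le_of_lt ha hr.1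
  have h2 : IntegrableOn (fun r => 1 + r * ‖c k r‖ ^ 2) (Ioc a R) :=
    (integrableOn_const (by simp)).add h1
  refine h2.mono' ?_ ?_
  · exact ((Complex.measurable_ofReal.comp Real.continuous_sqrt.measurable).mul
      (hA.mc k)).aestronglyMeasurable
  · filter_upwards [ae_restrict_mem measurableSet_Ioc] with r hr
    have hr0 : 0 ≤ r := ha.trans hr.1.le
    rw [norm_mul, Complex.norm_real, Real.norm_eq_abs, abs_of_nonneg (Real.sqrt_nonneg r)]
    have h3 := Real.sq_sqrt hr0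
    nlinarith [sq_nonneg (Real.sqrt r * ‖c k r‖ - 1), norm_nonneg (c k r), h3]

theorem int_Pp {C0 : ℝ} {K : ℕ} {V V1 V2 : ℝ → ℝ} (hV : VK C0 K V V1 V2) {g : E 2 → ℂ}
    {c : ℤ → ℝ → ℂ} (hA : Ang K g c) (θ ρ : ℝ) {a R : ℝ} (ha : 0 ≤ a) :
    Integrable (fun p : ℝ × ℝ => Pp K c V ρ θ p.1 p.2)
      ((volume.restrict (Ioc a R)).prod (volume.restrict (Ioc (-Real.pi) Real.pi))) := by
  have h1 : (fun p : ℝ × ℝ => Pp K c V ρ θ p.1 p.2) = fun p : ℝ × ℝ =>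
      ∑ k ∈ Finset.Icc (-(K : ℤ)) K, ((Real.sqrt p.1 : ℂ) * c k p.1) *
        (ci (k * (θ + p.2)) * ci (2 * Real.pi * (p.1 * ρ)) *
          UU V (2 * Real.pi * ρ * p.1) p.2) := by
    funext p
    unfold Pp tp
    rw [e1_eq, Finset.mul_sum, Finset.sum_mul, Finset.sum_mul]
    exact Finset.sum_congr rfl fun k _ => by ring
  rw [h1]
  refine integrable_finsetSum _ fun k _ => int_prod (int_c hA k ha) ?_
  exact ((continuous_ci.comp (by fun_prop)).mul (continuous_ci.comp (by fun_prop))).mul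
    ((continuous_UU (cV hV)).comp (f := fun p : ℝ × ℝ => (2 * Real.pi * ρ * p.1, p.2))
      (by fun_prop))

theorem int_Pm {C0 : ℝ} {K : ℕ} {V V1 V2 : ℝ → ℝ} (hV : VK C0 K V V1 V2) {g : E 2 → ℂ}
    {c : ℤ → ℝ → ℂ} (hA : Ang K g c) (θ ρ : ℝ) {a R : ℝ} (ha : 0 ≤ a) :
    Integrable (fun p : ℝ × ℝ => Pm K c V ρ θ p.1 p.2)
      ((volume.restrict (Ioc a R)).prod (volume.restrict (Ioc (-Real.pi) Real.pi))) := by
  have h1 : (fun p : ℝ × ℝ => Pm K c V ρ θ p.1 p.2) = fun p : ℝ × ℝ =>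
      ∑ k ∈ Finset.Icc (-(K : ℤ)) K, ((Real.sqrt p.1 : ℂ) * c k p.1) *
        (ci (k * (θ + p.2 + Real.pi)) * ci (2 * Real.pi * (p.1 * (-ρ))) *
          (starRingEnd ℂ) (UU V (2 * Real.pi * ρ * p.1) p.2)) := by
    funext p
    unfold Pm tp
    rw [e1_eq, Finset.mul_sum, Finset.sum_mul, Finset.sum_mul]
    exact Finset.sum_congr rfl fun k _ => by ring
  rw [h1]
  refine integrable_finsetSum _ fun k _ => int_prod (int_c hA k ha) ?_
  exact ((continuous_ci.comp (by fun_prop)).mul (continuous_ci.comp (by fun_prop))).mul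
    (Complex.continuous_conj.comp ((continuous_UU (cV hV)).comp
      (f := fun p : ℝ × ℝ => (2 * Real.pi * ρ * p.1, p.2)) (by fun_prop)))

theorem int_ray {K : ℕ} {g : E 2 → ℂ} {c : ℤ → ℝ → ℂ} (hA : Ang K g c) (α β : ℝ) {a R : ℝ}
    (ha : 0 ≤ a) :
    IntegrableOn (fun r => (Real.sqrt r : ℂ) * g (r • ev α) * e1 (r * β)) (Ioc a R) := by
  have h1 : IntegrableOn (fun r => ∑ k ∈ Finset.Icc (-(K : ℤ)) K,
      ((Real.sqrt r : ℂ) * c k r) * (ci (k * α) * ci (2 * Real.pi * (r * β)))) (Ioc a R) := by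
    refine integrable_finsetSum _ fun k _ => ?_
    refine (int_c hA k ha).mul_bdd (c := 1) ?_ ?_
    · exact (continuous_const.mul (continuous_ci.comp (by fun_prop))).aestronglyMeasurable
    · exact Eventually.of_forall fun r => by rw [norm_mul, norm_ci, norm_ci, mul_one]
  refine h1.congr_fun (fun r hr => ?_) measurableSet_Ioc
  simp only
  rw [hA.eq r (lt_of_le_of_lt ha hr.1) α, e1_eq, Finset.mul_sum, Finset.sum_mul]
  exact Finset.sum_congr rfl fun k _ => by ring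


/-! ### Abel summation on one ray -/

theorem ray (habl : T_ABL) {g : E 2 → ℂ} {a R α β : ℝ} {U U' : ℝ → ℂ} {B u : ℝ} (haR : a ≤ R)
    (hD : IntegrableOn (fun r => (Real.sqrt r : ℂ) * g (r • ev α) * e1 (r * β)) (Ioc a R))
    (hU : ∀ r ∈ Icc a R, HasDerivAt U (U' r) r) (hU' : ContinuousOn U' (Icc a R))
    (hB : (∫ r in Ioc a R, ‖U' r‖) ≤ B) (h0 : 0 < B) (hu : ‖U a‖ ≤ u) :
    ‖∫ r in Ioc a R, (Real.sqrt r : ℂ) * g (r • ev α) * e1 (r * β) * U r‖ₑ ≤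
      ENNReal.ofReal (u + 2 * B) * HH g a α β := by
  have hu0 : 0 ≤ u := (norm_nonneg _).trans hu
  have hpos : 0 < u + 2 * B := by linarith
  by_cases hT : HH g a α β = ⊤
  · rw [hT, ENNReal.mul_top (ENNReal.ofReal_pos.2 hpos).ne']; exact le_top
  have hM : ∀ s ∈ Icc a R,
      ‖∫ r in Ioc a s, (Real.sqrt r : ℂ) * g (r • ev α) * e1 (r * β)‖ ≤ (HH g a α β).toReal := by
    intro s _
    have h1 : ‖∫ r in Ioc a s, (Real.sqrt r : ℂ) * g (r • ev α) * e1 (r * β)‖ₑ ≤ HH g a α β :=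
      le_iSup (fun s : ℝ => ‖∫ r in Ioc a s, (Real.sqrt r : ℂ) * g (r • ev α) * e1 (r * β)‖ₑ) s
    have h2 := ENNReal.toReal_mono hT h1
    rwa [toReal_enorm] at h2
  have h := habl _ U U' a R _ B haR hD hU hU' hM hB
  have h3 : ‖∫ r in Ioc a R, (Real.sqrt r : ℂ) * g (r • ev α) * e1 (r * β) * U r‖ ≤
      (u + 2 * B) * (HH g a α β).toReal := by
    refine h.trans ?_
    rw [mul_comm]
    exact mul_le_mul_of_nonneg_right (by linarith) ENNReal.toReal_nonneg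
  calc ‖∫ r in Ioc a R, (Real.sqrt r : ℂ) * g (r • ev α) * e1 (r * β) * U r‖ₑ
      = ENNReal.ofReal ‖∫ r in Ioc a R, (Real.sqrt r : ℂ) * g (r • ev α) * e1 (r * β) * U r‖ :=
        (ofReal_norm _).symm
    _ ≤ ENNReal.ofReal ((u + 2 * B) * (HH g a α β).toReal) := ENNReal.ofReal_le_ofReal h3
    _ = _ := by rw [ENNReal.ofReal_mul hpos.le, ENNReal.ofReal_toReal hT]

/-! ### the amplitude -/

theorem int_pow {a R : ℝ} (ha : 0 < a) (haR : a ≤ R) :
    IntervalIntegrable (fun r : ℝ => (r * Real.sqrt r)⁻¹) volume a R ∧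
    ∫ r in a..R, (r * Real.sqrt r)⁻¹ ≤ 2 * (Real.sqrt a)⁻¹ := by
  have hpos : ∀ r ∈ uIcc a R, 0 < r := fun r hr => by
    rw [uIcc_of_le haR] at hr; exact lt_of_lt_of_le ha hr.1
  have hc : ContinuousOn (fun r : ℝ => (r * Real.sqrt r)⁻¹) (uIcc a R) := by
    refine ContinuousOn.inv₀ (by fun_prop) fun r hr => ?_
    have := hpos r hr
    positivity
  have hd : ∀ r ∈ uIcc a R, HasDerivAt (fun r : ℝ => -(2 * (Real.sqrt r)⁻¹))
      ((r * Real.sqrt r)⁻¹) r := by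
    intro r hr
    have hr0 := hpos r hr
    have h1 : HasDerivAt (fun r : ℝ => -(2 * (Real.sqrt r)⁻¹))
        (-(2 * (-(1 / (2 * Real.sqrt r)) / Real.sqrt r ^ 2))) r :=
      (((Real.hasDerivAt_sqrt hr0.ne').inv (Real.sqrt_pos.2 hr0).ne').const_mul 2).neg
    refine h1.congr_deriv ?_
    have h2 := Real.sq_sqrt hr0.le
    have h3 := Real.sqrt_pos.2 hr0
    rw [h2]
    field_simp
  refine ⟨hc.intervalIntegrable, ?_⟩
  rw [intervalIntegral.integral_eq_sub_of_hasDerivAt hd hc.intervalIntegrable]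
  have h1 := Real.sqrt_nonneg R
  have h2 : 0 ≤ (Real.sqrt R)⁻¹ := inv_nonneg.2 h1
  linarith

/-- data of the derivative of the amplitude -/
structure Amp (V : ℝ → ℝ) (ψ Q : ℝ) (D : ℝ → ℂ) : Prop where
  cont : ContinuousOn D (Ioi 0)
  der : ∀ t : ℝ, 0 < t → HasDerivAt (fun s => UU V s ψ) (D t) t
  bd : ∀ t : ℝ, 0 < t → ‖D t‖ ≤ Q * (t * Real.sqrt t)⁻¹

theorem exists_amp (hud : T_UD) (C0 : ℝ) : ∃ B : ℝ, 1 ≤ B ∧ ∀ (K : ℕ) (V V1 V2 : ℝ → ℝ),
    1 ≤ K → VK C0 K V V1 V2 → ∀ ψ : ℝ, ∃ D : ℝ → ℂ,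
      Amp V ψ (B * (K : ℝ) ^ 2 / 2) D := by
  obtain ⟨C, hC, h⟩ := hud
  have hq : 0 ≤ 6 * C * |C0| := by positivity
  refine ⟨6 * C * |C0| + 1, by linarith, fun K V V1 V2 hK hV ψ => ?_⟩
  obtain ⟨D, hD, hD'⟩ := h C0 K V V1 V2 hV ψ
  refine ⟨D, hD, fun t ht => (hD' t ht).1, fun t ht => ?_⟩
  have hK1 : (1 : ℝ) ≤ K := by exact_mod_cast hK
  have h1 : 0 ≤ (t * Real.sqrt t)⁻¹ := by positivity
  have h2 := abs_nonneg C0
  have hb0 := hV.b0.trans (le_abs_self C0)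
  have hb1 : ∫ φ in (-Real.pi)..Real.pi, |V1 φ| ≤ |C0| * K :=
    hV.b1.trans (mul_le_mul_of_nonneg_right (le_abs_self C0) (by linarith))
  have hb2 : ∫ φ in (-Real.pi)..Real.pi, |V2 φ| ≤ |C0| * K ^ 2 :=
    hV.b2.trans (mul_le_mul_of_nonneg_right (le_abs_self C0) (by positivity))
  have hK2 : (1 : ℝ) ≤ (K : ℝ) ^ 2 := one_le_pow₀ hK1
  have hK3 : (K : ℝ) ≤ (K : ℝ) ^ 2 := by nlinarith
  have h3 : (∫ φ in (-Real.pi)..Real.pi, |V φ|) +
      (∫ φ in (-Real.pi)..Real.pi, |V1 φ|) + (∫ φ in (-Real.pi)..Real.pi, |V2 φ|) ≤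
      3 * |C0| * (K : ℝ) ^ 2 := by
    nlinarith [mul_le_mul_of_nonneg_left hK2 h2, mul_le_mul_of_nonneg_left hK3 h2]
  calc ‖D t‖ ≤ C * (t * Real.sqrt t)⁻¹ * ((∫ φ in (-Real.pi)..Real.pi, |V φ|) +
      (∫ φ in (-Real.pi)..Real.pi, |V1 φ|) + ∫ φ in (-Real.pi)..Real.pi, |V2 φ|) := (hD' t ht).2
    _ ≤ C * (t * Real.sqrt t)⁻¹ * (3 * |C0| * (K : ℝ) ^ 2) :=
        mul_le_mul_of_nonneg_left h3 (by positivity)
    _ = (6 * C * |C0|) * (K : ℝ) ^ 2 / 2 * (t * Real.sqrt t)⁻¹ := by ring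
    _ ≤ (6 * C * |C0| + 1) * (K : ℝ) ^ 2 / 2 * (t * Real.sqrt t)⁻¹ := by
        refine mul_le_mul_of_nonneg_right ?_ h1
        nlinarith

section amp

variable {V : ℝ → ℝ} {ψ B : ℝ} {D : ℝ → ℂ} {K : ℕ}

theorem amp_int (hK : 1 ≤ K) (hB : 0 ≤ B) (hA : Amp V ψ (B * (K : ℝ) ^ 2 / 2) D) {b R : ℝ}
    (hb : (K : ℝ) ^ 4 ≤ b) (hbR : b ≤ R) : (∫ t in b..R, ‖D t‖) ≤ B := by
  have hK1 : (1 : ℝ) ≤ K := by exact_mod_cast hK
  have hb0 : 0 < b := lt_of_lt_of_le (by positivity) hb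
  have hpos : ∀ r ∈ Icc b R, 0 < r := fun r hr => lt_of_lt_of_le hb0 hr.1
  obtain ⟨hi, hv⟩ := int_pow hb0 hbR
  have hDi : IntervalIntegrable (fun t => ‖D t‖) volume b R := by
    apply ContinuousOn.intervalIntegrable
    rw [uIcc_of_le hbR]
    exact (hA.cont.mono fun r hr => hpos r hr).norm
  have h1 : (∫ t in b..R, ‖D t‖) ≤ ∫ t in b..R, B * (K : ℝ) ^ 2 / 2 * (t * Real.sqrt t)⁻¹ :=
    intervalIntegral.integral_mono_on hbR hDi (hi.const_mul _) fun t ht => hA.bd t (hpos t ht)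
  rw [intervalIntegral.integral_const_mul] at h1
  have h2 : Real.sqrt ((K : ℝ) ^ 4) = (K : ℝ) ^ 2 := by
    rw [show (K : ℝ) ^ 4 = ((K : ℝ) ^ 2) ^ 2 by ring, Real.sqrt_sq (by positivity)]
  have h3 : (Real.sqrt b)⁻¹ ≤ ((K : ℝ) ^ 2)⁻¹ := by
    rw [← h2]
    exact inv_anti₀ (Real.sqrt_pos.2 (by positivity)) (Real.sqrt_le_sqrt hb)
  calc (∫ t in b..R, ‖D t‖) ≤ B * (K : ℝ) ^ 2 / 2 * ∫ t in b..R, (t * Real.sqrt t)⁻¹ := h1
    _ ≤ B * (K : ℝ) ^ 2 / 2 * (2 * ((K : ℝ) ^ 2)⁻¹) := by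
        refine mul_le_mul_of_nonneg_left (hv.trans ?_) (by positivity)
        linarith
    _ = B := by field_simp

theorem amp_start (hK : 1 ≤ K) (hB : 0 ≤ B) (hA : Amp V ψ (B * (K : ℝ) ^ 2 / 2) D) {L : ℝ}
    (hL : 1 ≤ L) : ‖UU V (L * (K : ℝ) ^ 4) ψ‖ ≤ ‖UU V ((K : ℝ) ^ 4) ψ‖ + B := by
  have hK1 : (1 : ℝ) ≤ K := by exact_mod_cast hK
  have ha : 0 < (K : ℝ) ^ 4 := by positivity
  have hle : (K : ℝ) ^ 4 ≤ L * (K : ℝ) ^ 4 := by nlinarith
  have hpos : ∀ r ∈ Icc ((K : ℝ) ^ 4) (L * (K : ℝ) ^ 4), 0 < r :=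
    fun r hr => lt_of_lt_of_le ha hr.1
  have hDc : ContinuousOn D (uIcc ((K : ℝ) ^ 4) (L * (K : ℝ) ^ 4)) := by
    rw [uIcc_of_le hle]; exact hA.cont.mono fun r hr => hpos r hr
  have h1 := intervalIntegral.integral_eq_sub_of_hasDerivAt (a := (K : ℝ) ^ 4)
    (b := L * (K : ℝ) ^ 4) (f := fun s => UU V s ψ) (f' := D) (fun t ht => by
      rw [uIcc_of_le hle] at ht; exact hA.der t (hpos t ht)) hDc.intervalIntegrable
  have h2 : ‖UU V (L * (K : ℝ) ^ 4) ψ - UU V ((K : ℝ) ^ 4) ψ‖ ≤ B := by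
    rw [← h1]
    exact (intervalIntegral.norm_integral_le_integral_norm hle).trans
      (amp_int hK hB hA le_rfl hle)
  calc ‖UU V (L * (K : ℝ) ^ 4) ψ‖
      = ‖UU V ((K : ℝ) ^ 4) ψ + (UU V (L * (K : ℝ) ^ 4) ψ - UU V ((K : ℝ) ^ 4) ψ)‖ := by
        congr 1; ring
    _ ≤ _ := (norm_add_le _ _).trans (by linarith)

theorem amp_der (hA : Amp V ψ (B * (K : ℝ) ^ 2 / 2) D) {L r : ℝ} (hL : 0 < L) (hr : 0 < r) :
    HasDerivAt (fun s => UU V (L * s) ψ) (L • D (L * r)) r := by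
  have h1 : HasDerivAt (fun s : ℝ => L * s) L r := by
    simpa using (hasDerivAt_id r).const_mul L
  exact HasDerivAt.scomp (h := fun s : ℝ => L * s) (g₁ := fun s => UU V s ψ) r
    (hA.der (L * r) (by positivity)) h1

theorem amp_var (hK : 1 ≤ K) (hB : 0 ≤ B) (hA : Amp V ψ (B * (K : ℝ) ^ 2 / 2) D) {L R : ℝ}
    (hL : 1 ≤ L) (hR : (K : ℝ) ^ 4 ≤ R) :
    ∫ r in Ioc ((K : ℝ) ^ 4) R, ‖L • D (L * r)‖ ≤ B := by
  have hK1 : (1 : ℝ) ≤ K := by exact_mod_cast hK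
  have hK4 : 0 < (K : ℝ) ^ 4 := by positivity
  have hL0 : 0 < L := by linarith
  rw [← intervalIntegral.integral_of_le hR]
  have h1 : ∀ r, ‖L • D (L * r)‖ = L * ‖D (L * r)‖ := fun r => by
    rw [norm_smul, Real.norm_eq_abs, abs_of_pos hL0]
  simp_rw [h1]
  rw [intervalIntegral.integral_const_mul,
    intervalIntegral.integral_comp_mul_left (fun t => ‖D t‖) hL0.ne', smul_eq_mul, ← mul_assoc,
    mul_inv_cancel₀ hL0.ne', one_mul]
  refine amp_int hK hB hA ?_ (mul_le_mul_of_nonneg_left hR hL0.le)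
  nlinarith

theorem amp_cont (hK : 1 ≤ K) (hA : Amp V ψ (B * (K : ℝ) ^ 2 / 2) D) {L R : ℝ}
    (hL : 1 ≤ L) : ContinuousOn (fun r => L • D (L * r)) (Icc ((K : ℝ) ^ 4) R) := by
  have hK1 : (1 : ℝ) ≤ K := by exact_mod_cast hK
  have hK4 : 0 < (K : ℝ) ^ 4 := by positivity
  have hL0 : 0 < L := by linarith
  refine ContinuousOn.const_smul ?_ L
  refine hA.cont.comp (by fun_prop) fun r hr => ?_
  exact mul_pos hL0 (lt_of_lt_of_le hK4 hr.1)

end amp


/-! ### polar coordinates in the annulus -/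

theorem polar (h1 : T_POLC) {f : E 2 → ℂ} {a R : ℝ} (ha : 0 ≤ a)
    (hf : IntegrableOn f (Metric.closedBall (0 : E 2) R \ Metric.closedBall 0 a)) :
    ∫ ξ in Metric.closedBall (0 : E 2) R \ Metric.closedBall 0 a, f ξ =
      ∫ r in Ioc a R, (r : ℂ) * ∫ φ in (-Real.pi)..Real.pi, f (r • ev φ) := by
  have hS : MeasurableSet (Metric.closedBall (0 : E 2) R \ Metric.closedBall 0 a) :=
    Metric.isClosed_closedBall.measurableSet.diff Metric.isClosed_closedBall.measurableSet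
  rw [← integral_indicator hS, h1.2 _ (hf.integrable_indicator hS)]
  have h2 : ∀ r ∈ Ioi (0 : ℝ), (r : ℂ) * ∫ φ in (-Real.pi)..Real.pi,
      (Metric.closedBall (0 : E 2) R \ Metric.closedBall 0 a).indicator f (r • ev φ) =
      (Ioc a R).indicator (fun r : ℝ => (r : ℂ) * ∫ φ in (-Real.pi)..Real.pi,
        f (r • ev φ)) r := by
    intro r hr
    by_cases hr2 : r ∈ Ioc a R
    · rw [indicator_of_mem hr2]
      congr 1
      refine intervalIntegral.integral_congr fun φ _ => ?_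
      have hm : r • ev φ ∈ Metric.closedBall (0 : E 2) R \ Metric.closedBall 0 a := by
        rw [Set.mem_sdiff, mem_closedBall_zero_iff, mem_closedBall_zero_iff, norm_smul_ev hr]
        exact ⟨hr2.2, not_le.2 hr2.1⟩
      exact indicator_of_mem hm f
    · rw [indicator_of_notMem hr2]
      have h3 : ∀ φ, (Metric.closedBall (0 : E 2) R \ Metric.closedBall 0 a).indicator f
          (r • ev φ) = 0 := by
        intro φ
        refine indicator_of_notMem (fun hm => hr2 ?_) f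
        rw [Set.mem_sdiff, mem_closedBall_zero_iff, mem_closedBall_zero_iff, norm_smul_ev hr] at hm
        exact ⟨not_le.1 hm.2, hm.1⟩
      simp [h3]
  rw [setIntegral_congr_fun measurableSet_Ioi h2, setIntegral_indicator measurableSet_Ioc]
  congr 2
  ext r
  simp only [mem_inter_iff, mem_Ioi, mem_Ioc]
  exact ⟨fun h => h.2, fun h => ⟨lt_of_le_of_lt ha h.1, h⟩⟩

/-! ### the two families of rays -/

theorem const_bd {B : ℝ} (hB : 1 ≤ B) (z : ℂ) :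
    ENNReal.ofReal (‖z‖ + B + 2 * B) ≤ ENNReal.ofReal (3 * B) * (1 + ‖z‖ₑ) := by
  have h1 := norm_nonneg z
  calc ENNReal.ofReal (‖z‖ + B + 2 * B) ≤ ENNReal.ofReal (3 * B * (1 + ‖z‖)) :=
        ENNReal.ofReal_le_ofReal (by nlinarith)
    _ = ENNReal.ofReal (3 * B) * (1 + ‖z‖ₑ) := by
        rw [ENNReal.ofReal_mul (by linarith), ENNReal.ofReal_add zero_le_one h1,
          ENNReal.ofReal_one, ofReal_norm]

theorem tp_eq {K : ℕ} {g : E 2 → ℂ} {c : ℤ → ℝ → ℂ} (hA : Ang K g c) {r : ℝ} (hr : 0 < r)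
    (α : ℝ) : tp K (fun k => c k r) α = g (r • ev α) := by
  rw [hA.eq r hr α]; rfl

theorem bd_Pp (habl : T_ABL) {C0 B : ℝ} {K : ℕ} {V V1 V2 : ℝ → ℝ} {g : E 2 → ℂ}
    {c : ℤ → ℝ → ℂ} (hA : Ang K g c) (hK : 1 ≤ K) (hB : 1 ≤ B) {θ ρ ψ R : ℝ} (hρ : 1 ≤ ρ)
    (hR : (K : ℝ) ^ 4 ≤ R) {D : ℝ → ℂ} (_ : VK C0 K V V1 V2)
    (hD : Amp V ψ (B * (K : ℝ) ^ 2 / 2) D) :
    ‖∫ r in Ioc ((K : ℝ) ^ 4) R, Pp K c V ρ θ r ψ‖ₑ ≤ ENNReal.ofReal (3 * B) *
      ((1 + ‖UU V ((K : ℝ) ^ 4) ψ‖ₑ) * HH g ((K : ℝ) ^ 4) (θ + ψ) ρ) := by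
  have hK4 : 0 ≤ (K : ℝ) ^ 4 := by positivity
  have hK40 : 0 < (K : ℝ) ^ 4 := by positivity
  have hB0 : 0 ≤ B := by linarith
  have hL : 1 ≤ 2 * Real.pi * ρ := by nlinarith [Real.pi_gt_three]
  have e : ∫ r in Ioc ((K : ℝ) ^ 4) R, Pp K c V ρ θ r ψ = ∫ r in Ioc ((K : ℝ) ^ 4) R,
      (Real.sqrt r : ℂ) * g (r • ev (θ + ψ)) * e1 (r * ρ) *
        (fun s => UU V (2 * Real.pi * ρ * s) ψ) r := by
    refine setIntegral_congr_fun measurableSet_Ioc fun r hr => ?_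
    simp only [Pp]
    rw [tp_eq hA (lt_of_le_of_lt hK4 hr.1)]
  rw [e, ← mul_assoc]
  refine (ray habl hR (int_ray hA (θ + ψ) ρ hK4)
    (fun r hr => amp_der hD (by linarith) (lt_of_lt_of_le hK40 hr.1)) (amp_cont hK hD hL)
    (amp_var hK hB0 hD hL hR) (by linarith) (amp_start hK hB0 hD hL)).trans ?_
  exact mul_le_mul_left (const_bd hB _) _

theorem bd_Pm (habl : T_ABL) {C0 B : ℝ} {K : ℕ} {V V1 V2 : ℝ → ℝ} {g : E 2 → ℂ}
    {c : ℤ → ℝ → ℂ} (hA : Ang K g c) (hK : 1 ≤ K) (hB : 1 ≤ B) {θ ρ ψ R : ℝ} (hρ : 1 ≤ ρ)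
    (hR : (K : ℝ) ^ 4 ≤ R) {D : ℝ → ℂ} (_ : VK C0 K V V1 V2)
    (hD : Amp V ψ (B * (K : ℝ) ^ 2 / 2) D) :
    ‖∫ r in Ioc ((K : ℝ) ^ 4) R, Pm K c V ρ θ r ψ‖ₑ ≤ ENNReal.ofReal (3 * B) *
      ((1 + ‖UU V ((K : ℝ) ^ 4) ψ‖ₑ) * HH g ((K : ℝ) ^ 4) (θ + ψ + Real.pi) (-ρ)) := by
  have hK4 : 0 ≤ (K : ℝ) ^ 4 := by positivity
  have hK40 : 0 < (K : ℝ) ^ 4 := by positivity
  have hB0 : 0 ≤ B := by linarith
  have hL : 1 ≤ 2 * Real.pi * ρ := by nlinarith [Real.pi_gt_three]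
  have e : ∫ r in Ioc ((K : ℝ) ^ 4) R, Pm K c V ρ θ r ψ = ∫ r in Ioc ((K : ℝ) ^ 4) R,
      (Real.sqrt r : ℂ) * g (r • ev (θ + ψ + Real.pi)) * e1 (r * (-ρ)) *
        (fun s => star (UU V (2 * Real.pi * ρ * s) ψ)) r := by
    refine setIntegral_congr_fun measurableSet_Ioc fun r hr => ?_
    simp only [Pm]
    rw [tp_eq hA (lt_of_le_of_lt hK4 hr.1)]
    rfl
  rw [e, ← mul_assoc]
  refine (ray habl hR (U' := fun r => star ((2 * Real.pi * ρ) • D (2 * Real.pi * ρ * r)))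
    (int_ray hA (θ + ψ + Real.pi) (-ρ) hK4)
    (fun r hr => (amp_der hD (by linarith) (lt_of_lt_of_le hK40 hr.1)).star)
    ((amp_cont hK hD hL).star) (B := B) ?_ (by linarith)
    (u := ‖UU V ((K : ℝ) ^ 4) ψ‖ + B) ?_).trans ?_
  · simp only [norm_star]
    exact amp_var hK hB0 hD hL hR
  · simp only [norm_star]
    exact amp_start hK hB0 hD hL
  · exact mul_le_mul_left (const_bd hB _) _

theorem main (h1 : T_POLC) (h2 : T_UD) (h3 : T_ABL) : T_PT := by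
  intro C0
  obtain ⟨B, hB, hAmp⟩ := exists_amp h2 C0
  refine ⟨(3 * B).toNNReal, ?_⟩
  intro K V V1 V2 g c hK hV hA θ ρ hρ1 _ R
  set a : ℝ := (K : ℝ) ^ 4 with ha
  have hpi := Real.pi_pos
  have ha0 : 0 ≤ a := by positivity
  have hρ0 : 0 < ρ := by linarith
  by_cases hR : a ≤ R
  swap
  · have he : Metric.closedBall (0 : E 2) R \ Metric.closedBall 0 a = ∅ := by
      rw [sdiff_eq_empty]
      exact Metric.closedBall_subset_closedBall (not_le.1 hR).le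
    rw [he]; simp
  by_cases hint : IntegrableOn (fun ξ => g ξ * ex (ρ • ev θ) ξ)
      (Metric.closedBall (0 : E 2) R \ Metric.closedBall 0 a)
  swap
  · rw [integral_undef hint]; simp
  rw [polar h1 ha0 hint]
  set κ : ℝ := (2 * Real.pi)⁻¹ * (Real.sqrt (2 * Real.pi * ρ))⁻¹ with hκ
  have hκ0 : 0 ≤ κ := by positivity
  have hL : 1 ≤ 2 * Real.pi * ρ := by nlinarith [Real.pi_gt_three]
  have hκ1 : κ ≤ 1 := by
    have q1 : (2 * Real.pi)⁻¹ ≤ 1 := inv_le_one_of_one_le₀ (by nlinarith [Real.pi_gt_three])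
    have q2 : (Real.sqrt (2 * Real.pi * ρ))⁻¹ ≤ 1 :=
      inv_le_one_of_one_le₀ (Real.one_le_sqrt.2 hL)
    exact mul_le_one₀ q1 (by positivity) q2
  have hκe : ‖(κ : ℂ)‖ₑ ≤ 1 := by
    rw [← ofReal_norm, Complex.norm_real, Real.norm_eq_abs, abs_of_nonneg hκ0]
    exact (ENNReal.ofReal_le_ofReal hκ1).trans (by simp)
  have hcirc : ∀ r ∈ Ioc a R, (r : ℂ) * ∫ φ in (-Real.pi)..Real.pi,
      g (r • ev φ) * ex (ρ • ev θ) (r • ev φ) =
      (κ : ℂ) * (∫ ψ in Ioc (-Real.pi) Real.pi, Pp K c V ρ θ r ψ) +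
      (κ : ℂ) * (∫ ψ in Ioc (-Real.pi) Real.pi, Pm K c V ρ θ r ψ) := by
    intro r hr
    have hr0 : 0 < r := lt_of_le_of_lt ha0 hr.1
    rw [← circle hV c θ hρ0 hr0]
    congr 1
    refine intervalIntegral.integral_congr fun φ _ => ?_
    rw [ex_ev, tp_eq hA hr0]
  have hPp := int_Pp hV hA θ ρ (R := R) ha0
  have hPm := int_Pm hV hA θ ρ (R := R) ha0
  rw [setIntegral_congr_fun measurableSet_Ioc hcirc,
    integral_add (hPp.integral_prod_left.const_mul _) (hPm.integral_prod_left.const_mul _),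
    integral_const_mul, integral_const_mul,
    integral_integral_swap (f := fun r ψ => Pp K c V ρ θ r ψ) hPp,
    integral_integral_swap (f := fun r ψ => Pm K c V ρ θ r ψ) hPm]
  have hb1 : ∀ ψ, ‖∫ r in Ioc a R, Pp K c V ρ θ r ψ‖ₑ ≤ ENNReal.ofReal (3 * B) *
      ((1 + ‖UU V a ψ‖ₑ) * HH g a (θ + ψ) ρ) := by
    intro ψ
    obtain ⟨D, hD⟩ := hAmp K V V1 V2 hK hV ψ
    exact bd_Pp h3 hA hK hB hρ1 hR hV hD
  have hb2 : ∀ ψ, ‖∫ r in Ioc a R, Pm K c V ρ θ r ψ‖ₑ ≤ ENNReal.ofReal (3 * B) *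
      ((1 + ‖UU V a ψ‖ₑ) * HH g a (θ + ψ + Real.pi) (-ρ)) := by
    intro ψ
    obtain ⟨D, hD⟩ := hAmp K V V1 V2 hK hV ψ
    exact bd_Pm h3 hA hK hB hρ1 hR hV hD
  have hstep : ∀ z : ℂ, ‖(κ : ℂ) * z‖ₑ ≤ ‖z‖ₑ := by
    intro z
    rw [enorm_mul]
    calc ‖(κ : ℂ)‖ₑ * ‖z‖ₑ ≤ 1 * ‖z‖ₑ := mul_le_mul_left hκe _
      _ = ‖z‖ₑ := one_mul _
  refine (enorm_add_le _ _).trans ((add_le_add (hstep _) (hstep _)).trans ?_)
  refine (add_le_add (enorm_integral_le_lintegral_enorm _)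
    (enorm_integral_le_lintegral_enorm _)).trans ?_
  refine (add_le_add (lintegral_mono hb1) (lintegral_mono hb2)).trans ?_
  refine (le_lintegral_add _ _).trans ?_
  have hC : ((3 * B).toNNReal : ℝ≥0∞) = ENNReal.ofReal (3 * B) := rfl
  rw [hC, ← lintegral_const_mul' _ _ ENNReal.ofReal_ne_top]
  refine le_of_eq (lintegral_congr fun ψ => ?_)
  ring

end PT_

theorem p_PT (h1 : T_POLC) (h2 : T_UD) (h3 : T_ABL) : T_PT := PT_.main h1 h2 h3

end Pool.Agent.CRL
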