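import Pool.Agent.CRL.Defs

set_option autoImplicit false

/-!
# CRL, first group: polar coordinates, kernels, off-diagonal shells

Every target `T_X` is to be proved as `theorem p_X : T_X` (other targets may be taken as hypotheses) in a
NEW file `Pool/Agent/CRL/P_X.lean` importing this one, namespace `Pool.Agent.CRL`, helper lemmas in
the sub-namespace `X_`. Plancherel: `Pool.Agent.KSP.FA2_.plancherel`, `plancherelIE` (for functions in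
`L¹ ∩ L²`).
-/

namespace Pool.Agent.CRL

open MeasureTheory FourierTransform Set Filter Topology
open scoped ENNReal NNReal
open Pool.Agent.MBS (E ex S Sstar)
open Pool.Agent.KSP (IE)
open Pool.Agent.CAR (e1)

/-- **POLC** (45 min): polar coordinates on `E 2`. Mathlib: `lintegral_comp_polarCoord_symm`,
`integral_comp_polarCoord_symm` on `ℝ × ℝ`; `EuclideanSpace` ↔ `ℝ × ℝ` is volume preserving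
(`EuclideanSpace.volume_preserving_symm_measurableEquiv_toLp`, `MeasureTheory.volume_preserving_finTwoArrow`). -/
def T_POLC : Prop :=
  (∀ F : E 2 → ℝ≥0∞, Measurable F →
    ∫⁻ x, F x = ∫⁻ r in Ioi (0 : ℝ), ∫⁻ θ in Ioc (-Real.pi) Real.pi,
      ENNReal.ofReal r * F (r • ev θ)) ∧
  ∀ F : E 2 → ℂ, Integrable F →
    ∫ x, F x = ∫ r in Ioi (0 : ℝ), (r : ℂ) * ∫ θ in (-Real.pi)..Real.pi, F (r • ev θ)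

/-- **PSI** (45 min): the cutoff exists. `χ(z) = h(‖z‖²)`, `h` a smooth bump on `ℝ`, `1` on
`[1/4, 25/4]`, supported in `[1/16, 16]` (`Real.smoothTransition`); `χ` is a compactly supported smooth
(hence Schwartz) function, `ψ = 𝓕 χ` (Schwartz, so the decay), `∫ ψ = χ(0) = 0` and `IE ψ = χ` by Fourier
inversion. -/
def T_PSI : Prop := ∃ (ψ : E 2 → ℂ) (B : ℝ), Psi ψ B

/-- **MM** (60 min; uses POLC): the annulus multipliers.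
(a) polar coordinates. (b) continuity under the integral (compact interval).
(c) `mm`: for `|ξ| > R`, `|mm| ≤ ∫_{|ζ| ≥ |ξ|-R} |ψ|`; for `|ξ| ≤ R`, `mm = -∫_{|ζ| > R} ψ(ξ-ζ) dζ` since
`∫ ψ = 0`, `≤ ∫_{|ζ| ≥ R-|ξ|} |ψ|`; and `∫_{|ζ| ≥ s} (1+|ζ|)^(-10) dζ ≤ C (1+s)^(-3)`.
`m1`: `(1+|ξ-Re_φ|)^(-10) ≤ (1+||ξ|-R|)^(-3) (1+|ξ-Re_φ|)^(-2)` and, with `ξ = |ξ| e_α`,
`|ξ - Re_φ| ≥ |Re_α - Re_φ|/2 = R |sin((φ-α)/2)| ≥ R |φ-α|/π` for `|φ-α| ≤ π`, so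
`R ∫ (1+|ξ-Re_φ|)^(-2) dφ ≤ R ∫ (1+R|t|/π)^(-2) dt ≤ 2π`. -/
def T_MM : Prop := ∀ (ψ : E 2 → ℂ) (B : ℝ), Psi ψ B →
  (∀ R : ℝ, 0 ≤ R → ∀ ξ, mm ψ R ξ = ∫ r in (0 : ℝ)..R, m1 ψ r ξ) ∧
  Continuous (fun p : ℝ × E 2 => m1 ψ p.1 p.2) ∧
  ∃ C : ℝ, 0 < C ∧ ∀ (R : ℝ) (ξ : E 2), 0 ≤ R →
    ‖mm ψ R ξ‖ ≤ C * dw 3 R ξ ∧ ‖m1 ψ R ξ‖ ≤ C * dw 3 R ξ

/-- **SM** (45 min): far from the support the disc sum is the operator with the annulus multiplier.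
`IE (mm R · 𝓕 f) x = ∫_{|ζ| ≤ R} ∫_ξ ψ(ξ-ζ) 𝓕f(ξ) ex x ξ`, `𝓕f(ξ) = ∫ f(y) ex (-y) ξ dy`, and
`∫_ξ ψ(ξ-ζ) ex (x-y) ξ dξ = ex (x-y) ζ · IE ψ (x-y) = ex (x-y) ζ` for `y` in the support of `f`; Fubini (`ψ`, `f`
integrable, the disc has finite measure). -/
def T_SM : Prop := ∀ (ψ : E 2 → ℂ) (B : ℝ), Psi ψ B → ∀ f : E 2 → ℂ, Nice f → ∀ x : E 2,
  (∀ y, f y ≠ 0 → 1 / 2 ≤ ‖x - y‖ ∧ ‖x - y‖ ≤ 5 / 2) → ∀ R : ℝ, 0 ≤ R → S f R x = FF ψ f R x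

/-- **EN** (75 min; uses MM, POLC): energy. (a), (b) dominated convergence and Fubini (`𝓕f` bounded,
`dw 3 R ∈ L¹` locally uniformly in `R`). (c) Tonelli and Plancherel (`mm R · 𝓕f ∈ L¹ ∩ L²`):
`∫_R ∫_ξ |mm|² |𝓕f|² ≤ C ∫ |𝓕f|²` since `∫_0^∞ (1+||ξ|-R|)^(-6) dR ≤ 2`. (d) the same with
`|𝓕f| ≤ ∫ |f|` and `∫ (1+||ξ|-R|)^(-6) dξ ≤ C (1+R)` (polar coordinates). -/
def T_EN : Prop := ∀ (ψ : E 2 → ℂ) (B : ℝ), Psi ψ B → ∃ C : ℝ≥0, ∀ f : E 2 → ℂ, Nice f →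
  ContinuousOn (fun p : ℝ × E 2 => F1 ψ f p.1 p.2) (Ici 0 ×ˢ univ) ∧
  (∀ (x : E 2) (R : ℝ), 0 ≤ R → FF ψ f R x = ∫ r in (0 : ℝ)..R, F1 ψ f r x) ∧
  (∫⁻ x, ∫⁻ R in Ioi (0 : ℝ), (‖FF ψ f R x‖ₑ ^ 2 + ‖F1 ψ f R x‖ₑ ^ 2) ≤ C * ∫⁻ x, ‖f x‖ₑ ^ 2) ∧
  ∀ R0 : ℝ, 0 ≤ R0 →
    ∫⁻ x, ∫⁻ R in Ioc 0 R0, (‖FF ψ f R x‖ₑ ^ 2 + ‖F1 ψ f R x‖ₑ ^ 2) ≤
      C * ENNReal.ofReal ((1 + R0) ^ 2) * (∫⁻ x, ‖f x‖ₑ) ^ 2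

/-- **ARC** (45 min): a disc of radius `ρ ≥ 1` meets the annuli of a circle in arcs. Split the plane
into `|b| ≤ |a|` and `|a| ≤ |b|` (`ζ = (a,b)`); in the first sector, for fixed `b` (in an interval of length
`2ρ`), `a ↦ √(a²+b²)` has derivative of modulus `≥ 1/√2` on `a ≥ |b|` and on `a ≤ -|b|`, so
`∫ (1+|√(a²+b²)-R|)^(-2) da ≤ 2 · √2 · ∫ (1+|s|)^(-2) ds ≤ 6`. (Or polar coordinates.) -/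
def T_ARC : Prop := ∃ C : ℝ≥0, ∀ (ξ : E 2) (R ρ : ℝ), 1 ≤ ρ →
  ∫⁻ ζ in Metric.closedBall ξ ρ, ENNReal.ofReal (dw 2 R ζ) ≤ C * ENNReal.ofReal ρ

/-- **LE** (75 min; uses ARC): local energy. Let `β ≥ 0` be a continuous (or smooth) bump supported in
`|ζ| ≤ 1/8`, `∫ β = 1`; `w = IE β` satisfies `|w| ≥ 1/2` on `|x| ≤ 1` (`|2πx·ζ| ≤ π/4`). With
`β_r(ζ) = r² β(rζ)` and `w_r = IE β_r = w(·/r)`, `w_r · IE u = IE (β_r ∗ u)`, so the left side is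
`≤ 4 ∫ |β_r ∗ u|²`, `|β_r ∗ u(ξ)| ≤ C r² ∫_{|ζ-ξ| ≤ 1/r} |u(ζ)| dζ`; Cauchy–Schwarz with the weight
`(1+||ζ|-R|)^{∓2}`: `≤ C² r⁴ ∫_ξ (∫_{B(ξ,1/r)} dw 2 R) (∫_{B(ξ,1/r)} |u|² (1+||ζ|-R|)²) dξ ≤
C r⁴ · (1/r) · (π/r²) ∫ |u|² (1+||ζ|-R|)²` by ARC and Tonelli. -/
def T_LE : Prop := ∃ C : ℝ≥0, ∀ (u : E 2 → ℂ) (R r : ℝ), Nice u → 0 < r → r ≤ 1 →
  ∫⁻ x in Metric.closedBall (0 : E 2) r, ‖IE u x‖ₑ ^ 2 ≤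
    C * ENNReal.ofReal r * ∫⁻ ξ, ‖u ξ‖ₑ ^ 2 * ENNReal.ofReal ((1 + |‖ξ‖ - R|) ^ 2)

/-- **OFFI** (60 min; uses PSI, MM, SM, EN, LE): `f` on the unit shell, `x` near `0`. By SM
`S f R x = FF ψ f R x` (`1/2 ≤ |x-y| ≤ 5/2`). Since `FF = ∫_0^R F1`, `|FF(R)|² ≤ ∫_0^∞ (|FF|² + |F1|²) dR`. Tonelli;
for each `R` LE with `u = mm R · 𝓕f` and `u = m1 R · 𝓕f`: `≤ C r ∫ dw 6 (1+||ξ|-R|)² |𝓕f|² = C r ∫ dw 4 |𝓕f|²`;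
integrate over `R` (`∫ dw 4 dR ≤ 2`) and Plancherel. -/
def T_OFFI : Prop := ∃ C : ℝ≥0, ∀ (r : ℝ) (f : E 2 → ℂ), 0 < r → r ≤ 1 / 2 → Nice f →
  (∀ y, f y ≠ 0 → 1 ≤ ‖y‖ ∧ ‖y‖ ≤ 2) →
    ∫⁻ x in Metric.closedBall (0 : E 2) r, Sstar f x ^ 2 ≤
      C * ENNReal.ofReal r * ∫⁻ x, ‖f x‖ₑ ^ 2

/-- **BES** (60 min; uses POLC): Bessel's equation for the disc kernel. `DD R z = ∫_0^R D1 r z dr`
(polar coordinates). `D1 R z = R J(R)`, `J(R) = ∫ e^{2πiRρ cos φ} dφ`, `ρ = |z|` (write `z = ρ e_α`, periodicity).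
`D1' = J + R J'`, and `R J' = -4π²ρ² DD`: both sides vanish at `R = 0` and have the derivative
`-4π²ρ² R J` (`J'' = -4π²ρ² ∫ cos² φ e = -4π²ρ² J + 4π²ρ² ∫ sin² φ e`, and, integrating by parts,
`4π²ρ² R ∫ sin² φ e = -2πiρ ∫ cos φ e = -J'`). Also the bounds `|D1| ≤ 2π|R|`, `|DD| ≤ πR²`. -/
def T_BES : Prop := ∀ (z : E 2) (R : ℝ), 0 < R →
  HasDerivAt (fun r => DD r z) (D1 R z) R ∧
  HasDerivAt (fun r => D1 r z) (D1 R z / R - 4 * Real.pi ^ 2 * ‖z‖ ^ 2 * DD R z) R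

/-- **D2S** (60 min; uses BES): `S f R x` as a function of `R`. `S f R x = ∫ f(y) DD R (x-y) dy`,
`S1 f R x = ∫ f(y) D1 R (x-y) dy` (Fubini); differentiate under the integral (everything bounded for
bounded `R`, `y`); `|x-y|² = |x|² - 2 x·y + |y|²`. -/
def T_D2S : Prop := ∀ f : E 2 → ℂ, Nice f → (∀ y, f y ≠ 0 → ‖y‖ ≤ 1) → ∀ (x : E 2) (R : ℝ), 0 < R →
  HasDerivAt (fun r => S f r x) (S1 f R x) R ∧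
  HasDerivAt (fun r => S1 f r x) (S1 f R x / R - 4 * Real.pi ^ 2 * ‖x‖ ^ 2 * S f R x +
    4 * Real.pi ^ 2 * (2 * x 0 * S (fun y => (y 0 : ℂ) * f y) R x +
      2 * x 1 * S (fun y => (y 1 : ℂ) * f y) R x - S (fun y => ((‖y‖ ^ 2 : ℝ) : ℂ) * f y) R x)) R

/-- **OFFA** (45 min; uses PSI, SM, EN): small radii, `f` near `0`, `x` in the unit shell.
`S f R x = FF ψ f R x` by SM, `|FF(R)|² ≤ ∫_0^{R₀} (|FF|² + |F1|²)`, `R₀ = r^(-1/2)`, and EN (d) with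
`(∫ |f|)² ≤ πr² ∫ |f|²`: total `≤ C (1+R₀)² r² ≤ 4 C r`. -/
def T_OFFA : Prop := ∃ C : ℝ≥0, ∀ (r : ℝ) (f : E 2 → ℂ), 0 < r → r ≤ 1 / 2 → Nice f →
  (∀ y, f y ≠ 0 → ‖y‖ ≤ r) →
    ∫⁻ x in {x : E 2 | 1 ≤ ‖x‖ ∧ ‖x‖ ≤ 2}, (⨆ R ∈ Ioc 0 (Real.sqrt r)⁻¹, ‖S f R x‖ₑ) ^ 2 ≤
      C * ENNReal.ofReal r * ∫⁻ x, ‖f x‖ₑ ^ 2

/-- **OFFB** (90 min; uses PSI, SM, EN, D2S): large radii. Use the oscillator lemma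
`Pool.Agent.MBS.tOde` (proved in `Pool/Agent/MBS/J3.lean`), rescaled: for `F` of class `C²` on an interval
`I` of length `L`, `q ≥ 0`: `sup_I |F|² ≤ C (L⁻¹ ∫_I |F|² + L³ ∫_I |F'' + qF|²)`. For `x` in the shell take
`F(R) = S f R x`, `q = 4π²|x|²`, `L = r^(-1/4)`, the intervals `[R₀+nL, R₀+(n+1)L]`, `R₀ = r^(-1/2)`. By D2S
`F'' + qF = F'/R + 4π²(2x₀ S(y₀f) + 2x₁ S(y₁f) - S(|y|²f))`. On the shell `S h R x = FF ψ h R x` for the four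
functions `h` supported in `|y| ≤ r` (SM), and `S1 f R x = F1 ψ f R x` (`R`-derivatives of the same function).
EN (c) for the four functions (`‖y_j f‖₂ ≤ r‖f‖₂`): total
`≤ C (L⁻¹ + L³ (R₀⁻² + r² + r⁴)) ‖f‖² ≤ C' r^(1/4) ‖f‖²`. -/
def T_OFFB : Prop := ∃ C : ℝ≥0, ∀ (r : ℝ) (f : E 2 → ℂ), 0 < r → r ≤ 1 / 2 → Nice f →
  (∀ y, f y ≠ 0 → ‖y‖ ≤ r) →
    ∫⁻ x in {x : E 2 | 1 ≤ ‖x‖ ∧ ‖x‖ ≤ 2}, (⨆ R ∈ Ici (Real.sqrt r)⁻¹, ‖S f R x‖ₑ) ^ 2 ≤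
      C * ENNReal.ofReal (Real.sqrt (Real.sqrt r)) * ∫⁻ x, ‖f x‖ₑ ^ 2

/-- **OFF** (60 min; uses OFFI, OFFA, OFFB): the shells `i`, `j` with `|i-j| ≥ 2`, by scaling:
`f~(y) = f(cy)` has `S f~ R x = S f (R/c) (cx)`, so `Sstar f~ x = Sstar f (cx)`. For `i ≤ j-2` take `c = 2^j`,
`r = 2^(i+1-j) ≤ 1/2` (OFFA, OFFB: `Sstar ≤` the two suprema), for `i ≥ j+2` take `c = 2^i`,
`r = 2^(j+1-i) ≤ 1/2` (OFFI). `2^(1/4) ≤ 2`. -/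
def T_OFF : Prop := ∃ C : ℝ≥0, ∀ (i j : ℤ) (f : E 2 → ℂ), 2 ≤ |i - j| → Nice f →
  (∀ y, f y ≠ 0 → y ∈ sh i) →
    ∫⁻ x in sh j, Sstar f x ^ 2 ≤
      C * ENNReal.ofReal ((2 : ℝ) ^ (-(|i - j| : ℝ) / 4)) * ∫⁻ x, ‖f x‖ₑ ^ 2

end Pool.Agent.CRL
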