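import Pool.Agent.CRL.Targets

set_option autoImplicit false

/-!
# CRL, second group: stationary phase, angular modes, near-diagonal part, assembly

Every target `T_X` is to be proved as `theorem p_X : T_X` (other targets may be taken as hypotheses) in a
NEW file `Pool/Agent/CRL/P_X.lean` importing this one, namespace `Pool.Agent.CRL`, helper lemmas in
the sub-namespace `X_`.
-/

namespace Pool.Agent.CRL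

open MeasureTheory FourierTransform Set Filter Topology
open scoped ENNReal NNReal
open Pool.Agent.MBS (E ex S Sstar)
open Pool.Agent.KSP (IE)
open Pool.Agent.CAR (e1 T_CARL)

/-! ### stationary phase -/

/-- **VKX** (75 min): de la Vallée-Poussin kernels. Let `D(φ) = Σ_{0 ≤ j < K} e^{ijφ}`,
`F = K⁻¹ D conj(D) = Σ_{|k|<K} (1-|k|/K) e^{ikφ}` (Fejér) and `V = (1 + 2 cos Kφ) F`. The `k`-th Fourier coefficient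
of `V` is `τ(k) + τ(k-K) + τ(k+K)`, `τ(k) = max(0, 1-|k|/K)`, which is `1` for `|k| ≤ K`. Bounds: `F^{(n)}` is `K⁻¹`
times a sum of `2^n` products `D^{(a)} conj(D)^{(n-a)}`, `‖D^{(a)}‖₂² = 2π Σ j^{2a} ≤ 2π K^{2a+1}`, so
`∫ |F^{(n)}| ≤ 2π 2^n K^n` by Cauchy–Schwarz, and `|(1+2cos Kφ)^{(n)}| ≤ 3K^n`. `V` is real and even. -/
def T_VKX : Prop := ∃ C : ℝ, 0 < C ∧ ∀ K : ℕ, 1 ≤ K → ∃ V V1 V2 : ℝ → ℝ, VK C K V V1 V2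

/-- **UD** (75 min): the `t`-derivative of `UU`. Let `W(φ) = V(φ-ψ) eta(φ)`, `e = ci(t(cos φ - 1))`;
`∂_φ e = -it sin φ e`, `cos φ - 1 = -tan(φ/2) sin φ`, so `(cos φ - 1) e = -(i/t) tan(φ/2) ∂_φ e`. Integrating by
parts over the period (`eta = 0` near `±π`, so `W tan(φ/2)` is periodic and `C²`)
`∂_t UU = t^(-1/2) ∫ (W/2 - (W tan(φ/2))') e = -t^(-1/2) ∫ tan(φ/2) Z e`, `Z = W' + tan(φ/2) W / 2`, and since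
`tan(φ/2) e = (i/t) ∂_φ e / (2 cos²(φ/2))`, `∂_t UU = i t^(-3/2) ∫ (Z / (2 cos²(φ/2)))' e dφ`. On the support of
`eta` one has `cos²(φ/2) = (1+cos φ)/2 ≥ 1/4`; the integrand is a combination of `V, V1, V2` at `φ-ψ` with
continuous coefficients depending on `φ` only; `∫_{-π}^{π} |V(φ-ψ)| dφ = ∫_{-π}^{π} |V|` by periodicity. Continuity of
the derivative in `t`: dominated convergence. -/
def T_UD : Prop := ∃ C : ℝ, 0 < C ∧ ∀ (C0 : ℝ) (K : ℕ) (V V1 V2 : ℝ → ℝ), VK C0 K V V1 V2 →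
  ∀ ψ : ℝ, ∃ D : ℝ → ℂ, ContinuousOn D (Ioi 0) ∧ ∀ t : ℝ, 0 < t →
    HasDerivAt (fun s => UU V s ψ) (D t) t ∧
    ‖D t‖ ≤ C * (t * Real.sqrt t)⁻¹ * ((∫ φ in (-Real.pi)..Real.pi, |V φ|) +
      (∫ φ in (-Real.pi)..Real.pi, |V1 φ|) + ∫ φ in (-Real.pi)..Real.pi, |V2 φ|)

/-- **UB** (75 min): the `L¹` norm in `ψ`. With `q = 1/(1+t sin² φ)`: `e = q (e + i sin φ ∂_φ e)`
(`e = ci(t(cos φ - 1))`), so `∫ W e = ∫ (W q - i (W q sin φ)') e` (by parts over the period),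
`W = V(φ-ψ) eta(φ)`. `|q' sin φ| = 2t sin² φ |cos φ| q² ≤ 2q`; so
`|∫ W e| ≤ C ∫_{|φ| ≤ 2π/3} (q |V(φ-ψ)| + q |sin φ| |V1(φ-ψ)|) dφ`. There `|sin φ| ≥ c|φ|`, so
`q ≤ 1/(1+c²tφ²)`, `∫ q ≤ C t^(-1/2)`, and `q |sin φ| ≤ |φ|/(1+c²tφ²) ≤ C t^(-3/4) |φ|^(-1/2)`, integrable. Integrate over
`ψ`: `∫ |UU V t ψ| dψ ≤ √t (C t^(-1/2) C₀ + C t^(-3/4) C₀ K) ≤ C` for `t = K⁴`. -/
def T_UB : Prop := ∀ C0 : ℝ, ∃ C : ℝ≥0, ∀ (K : ℕ) (V V1 V2 : ℝ → ℝ), 1 ≤ K → VK C0 K V V1 V2 →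
  ∫⁻ ψ in Ioc (-Real.pi) Real.pi, ‖UU V ((K : ℝ) ^ 4) ψ‖ₑ ≤ C

/-- **ABL** (30 min): Abel summation. `∫_a^R D U = Φ(R) U(R) - ∫_a^R Φ U'`, `Φ(s) = ∫_a^s D`, `|Φ| ≤ M`, and
`|U(R)| ≤ |U(a)| + ∫_a^R |U'|`. (`D` is only integrable: use Fubini,
`∫_a^R D(r) (U(R) - ∫_r^R U'(s) ds) dr`, or `intervalIntegral` integration by parts for absolutely continuous
functions.) -/
def T_ABL : Prop := ∀ (D U U' : ℝ → ℂ) (a R M B : ℝ), a ≤ R → IntegrableOn D (Ioc a R) →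
  (∀ r ∈ Icc a R, HasDerivAt U (U' r) r) → ContinuousOn U' (Icc a R) →
  (∀ s ∈ Icc a R, ‖∫ r in Ioc a s, D r‖ ≤ M) → (∫ r in Ioc a R, ‖U' r‖) ≤ B →
    ‖∫ r in Ioc a R, D r * U r‖ ≤ M * (‖U a‖ + 2 * B)

/-- **PT** (120 min; uses POLC, UD, ABL): pointwise domination of the large radii by partial
integrals along rays. `x = ρ e_θ`, `1 ≤ ρ ≤ 2`, `a = K⁴`. By polar coordinates (the angle shifted by `θ`) and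
`eta φ + eta (φ+π) = 1`, the left side is `I₊ + I₋`,
`I₊ = ∫_a^R r ∫_φ eta(φ) g(r e_{θ+φ}) ci(2πrρ cos φ) dφ dr`, `I₋` the same with `g(r e_{θ+π+φ})`, `ci(-2πrρ cos φ)`.
Insert `g(r e_{θ+φ}) = (2π)⁻¹ ∫_ψ g(r e_{θ+ψ}) V(φ-ψ) dψ` (Ang.eq, VK.rep). With `t = 2πrρ`,
`∫ V(φ-ψ) eta(φ) ci(t cos φ) dφ = ci(t) t^(-1/2) UU V t ψ`, `ci(t) = e1(rρ)`, so
`I₊ = (2π)⁻¹ (2πρ)^(-1/2) ∫_ψ ∫_a^R √r g(r e_{θ+ψ}) e1(rρ) UU V (2πρr) ψ dr dψ`. ABL in `r` with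
`U(r) = UU V (2πρr) ψ`: `|U'(r)| ≤ 2πρ C (2πρr)^(-3/2) 3C₀K²` (UD, VK), so `∫_{K⁴}^∞ |U'| ≤ C K² K^(-2) = C`, and
`|U(a)| ≤ |UU V K⁴ ψ| + ∫_{K⁴}^∞ |∂_t UU| dt ≤ |UU V K⁴ ψ| + C`. `I₋`: `V`, `eta` are real, so
`∫ V(φ-ψ) eta(φ) ci(-t cos φ) dφ = ci(-t) t^(-1/2) conj (UU V t ψ)`; ray `θ+ψ+π`, frequency `-ρ`. -/
def T_PT : Prop := ∀ C0 : ℝ, ∃ C : ℝ≥0, ∀ (K : ℕ) (V V1 V2 : ℝ → ℝ) (g : E 2 → ℂ) (c : ℤ → ℝ → ℂ),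
  1 ≤ K → VK C0 K V V1 V2 → Ang K g c → ∀ θ ρ : ℝ, 1 ≤ ρ → ρ ≤ 2 → ∀ R : ℝ,
    ‖∫ ξ in Metric.closedBall (0 : E 2) R \ Metric.closedBall 0 ((K : ℝ) ^ 4),
      g ξ * ex (ρ • ev θ) ξ‖ₑ ≤
    C * ∫⁻ ψ in Ioc (-Real.pi) Real.pi, (1 + ‖UU V ((K : ℝ) ^ 4) ψ‖ₑ) *
      (HH g ((K : ℝ) ^ 4) (θ + ψ) ρ + HH g ((K : ℝ) ^ 4) (θ + ψ + Real.pi) (-ρ))

/-- **RAY** (60 min): the Carleson theorem on rays. For fixed `θ`: `g₁(r) = 1_{(a,R₀]}(r) √r g(r e_θ)` is in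
`L¹ ∩ L²` (Ang), `∫_{Ioc a R}` for `R ≤ R₀` is `∫_{Iio}` up to a point; T_CARL with the set `B`; let
`R₀ → ∞` (the suprema over `R ≤ R₀` increase to the supremum; monotone convergence). -/
def T_RAY : Prop := T_CARL → ∃ C : ℝ≥0, ∀ (K : ℕ) (g : E 2 → ℂ) (c : ℤ → ℝ → ℂ) (a θ : ℝ)
  (B : Set ℝ), 0 ≤ a → Ang K g c → MeasurableSet B → volume B ≠ ⊤ →
    ∫⁻ ρ in B, HH g a θ ρ ≤
      C * (∫⁻ r in Ioi (0 : ℝ), ENNReal.ofReal r * ‖g (r • ev θ)‖ₑ ^ 2) ^ (1 / 2 : ℝ) *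
        volume B ^ (1 / 2 : ℝ)

/-- **HM** (45 min): joint measurability of `HH`. `R ↦ ∫_{Ioc a R}` is continuous (the integrand is
integrable on bounded intervals by Ang), so the supremum may be taken over rational `R`; each partial
integral is a measurable function of `(θ, ρ)` (`g(r e_θ)` is a finite sum `Σ c_k(r) ci(kθ)`). -/
def T_HM : Prop := ∀ (K : ℕ) (g : E 2 → ℂ) (c : ℤ → ℝ → ℂ) (a : ℝ), 0 ≤ a → Ang K g c →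
  Measurable (fun p : ℝ × ℝ => HH g a p.1 p.2)

/-- **PI** (90 min; uses POLC, VKX, UB, PT, RAY, HM): the large radii. Integrate PT over `E` in
polar coordinates (`ρ ≤ 2`): the left side is
`≤ C ∫_ψ M(ψ) ∫_θ ∫_{E_θ} (HH(θ+ψ,ρ) + HH(θ+ψ+π,-ρ)) dρ dθ dψ`, `M = 1 + |UU V K⁴ ψ|`,
`E_θ = {ρ ∈ [1,2] : ρ e_θ ∈ E}`. RAY (for `-ρ` with the set `-E_θ`), Cauchy–Schwarz in `θ`,
`∫_θ |E_θ| ≤ |E|` (`ρ ≥ 1`), `∫_θ ∫_r r |g(r e_{θ+ψ})|² = ∫ |g|²` (periodicity), `∫ M ≤ 2π + C` (UB). -/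
def T_PI : Prop := T_CARL → ∃ C : ℝ≥0, ∀ (K : ℕ) (g : E 2 → ℂ) (c : ℤ → ℝ → ℂ) (A : Set (E 2)),
  1 ≤ K → Ang K g c → MeasurableSet A → (∀ x ∈ A, 1 ≤ ‖x‖ ∧ ‖x‖ ≤ 2) →
    ∫⁻ x in A, (⨆ R : ℝ,
      ‖∫ ξ in Metric.closedBall (0 : E 2) R \ Metric.closedBall 0 ((K : ℝ) ^ 4),
        g ξ * ex x ξ‖ₑ) ≤
      C * (∫⁻ ξ, ‖g ξ‖ₑ ^ 2) ^ (1 / 2 : ℝ) * volume A ^ (1 / 2 : ℝ)

/-! ### small radii: the log log theorem on unit discs -/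

/-- the landed theorem `MP_ee701d_an.LogLogLocal` (first part), used as a hypothesis -/
def T_LLL : Prop := ∃ C : ℝ≥0, ∀ (g : E 2 → ℂ) (x0 : E 2), Measurable g →
  ∫⁻ x in Metric.closedBall x0 1,
      (⨆ (R : ℝ) (_ : 0 < R), ‖∫ ξ in Metric.closedBall (0 : E 2) R, g ξ * ex x ξ‖ₑ) ^ 2 ≤
    C * ∫⁻ ξ, ‖g ξ‖ₑ ^ 2 * ENNReal.ofReal (Real.log (3 + Real.log (3 + ‖ξ‖)) ^ 12)

/-- **LLK** (45 min): frequencies `≤ K⁴`, on the shell (finitely many unit discs cover it: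
compactness). `3 + K⁴ ≤ (3+K)⁴`, `3 + 4 log(3+K) ≤ 4(3 + log(3+K))`, so
`log(3+log(3+K⁴)) ≤ log 4 + log(3+log(3+K)) ≤ 2 log(3+log(3+K))`. -/
def T_LLK : Prop := T_LLL → ∃ C : ℝ≥0, ∀ (K : ℕ) (g : E 2 → ℂ), 1 ≤ K → Measurable g →
  (∀ ξ, g ξ ≠ 0 → ‖ξ‖ ≤ (K : ℝ) ^ 4) →
    ∫⁻ x in {x : E 2 | 1 ≤ ‖x‖ ∧ ‖x‖ ≤ 2},
      (⨆ (R : ℝ) (_ : 0 < R), ‖∫ ξ in Metric.closedBall (0 : E 2) R, g ξ * ex x ξ‖ₑ) ^ 2 ≤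
    C * ENNReal.ofReal (Real.log (3 + Real.log (3 + K)) ^ 12) * ∫⁻ ξ, ‖g ξ‖ₑ ^ 2

/-- **ND** (60 min; uses LLK, PI): functions of angular degree `≤ K` on the unit shell.
`S f R` is, for `R ≤ K⁴`, the disc integral of `g = 1_{|ξ| ≤ K⁴} 𝓕f`, and for `R > K⁴` the sum of the integral over
`|ξ| ≤ K⁴` and over `K⁴ < |ξ| ≤ R`; first part LLK and Cauchy–Schwarz on `A`, second part PI; Plancherel. -/
def T_ND : Prop := T_CARL → T_LLL → ∃ C : ℝ≥0, ∀ (K : ℕ) (f : E 2 → ℂ) (c : ℤ → ℝ → ℂ)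
  (A : Set (E 2)), 1 ≤ K → Nice f → Ang K (𝓕 f) c → MeasurableSet A →
  (∀ x ∈ A, 1 ≤ ‖x‖ ∧ ‖x‖ ≤ 2) →
    ∫⁻ x in A, Sstar f x ≤ C * ENNReal.ofReal (Real.log (3 + Real.log (3 + K)) ^ 6) *
      (∫⁻ x, ‖f x‖ₑ ^ 2) ^ (1 / 2 : ℝ) * volume A ^ (1 / 2 : ℝ)

/-! ### angular modes -/

/-- **MODA** (75 min): basic facts on the modes. Rotations preserve the measure and the norm and
commute with `𝓕`; Fubini; Minkowski or Jensen for `L²`. (`∫ over a period` is rotation invariant, also for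
non-integrable `θ ↦ f(rot θ x)`, where both sides are `0`.) -/
def T_MODA : Prop := ∀ (k : ℤ) (f : E 2 → ℂ), Nice f →
  Nice (amode k f) ∧ IsMode k (amode k f) ∧ 𝓕 (amode k f) = amode k (𝓕 f) ∧
  IsMode k (amode k (𝓕 f))

/-- **MODB** (75 min; uses POLC, MODA): Parseval. For a.e. `r` the function `θ ↦ f(r e_θ)` is in
`L²(-π,π)` and `amode k f (r e_θ) = c_k(r) e^{ikθ}`, `c_k(r)` its Fourier coefficient (`rot θ (r e_α) = r e_{α+θ}`);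
Parseval for a.e. `r` (Mathlib: `tsum_sq_fourierCoeffOn`, `fourierBasis`), then Tonelli. -/
def T_MODB : Prop := ∀ f : E 2 → ℂ, Nice f →
  (∑' k : ℤ, ∫⁻ x, ‖amode k f x‖ₑ ^ 2) = ∫⁻ x, ‖f x‖ₑ ^ 2 ∧
  (∀ F : Finset ℤ, ∫⁻ x, ‖∑ k ∈ F, amode k f x‖ₑ ^ 2 = ∑ k ∈ F, ∫⁻ x, ‖amode k f x‖ₑ ^ 2) ∧
  ∀ F : Finset ℤ, (∫⁻ x, ‖f x - ∑ k ∈ F, amode k f x‖ₑ ^ 2) +
    (∑ k ∈ F, ∫⁻ x, ‖amode k f x‖ₑ ^ 2) = ∫⁻ x, ‖f x‖ₑ ^ 2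

/-- **ANG** (45 min; uses MODA, POLC): Fourier transforms of finite sums of modes.
`c k r = 𝓕(amode k f)(r e_0)` for `k ∈ F` and `0` otherwise; `IsMode` gives `g(r e_θ) = g(rot θ (r e_0)) =
e^{ikθ} g(r e_0)`; `2π ∫ r |c_k|² = ∫ |𝓕(amode k f)|² < ∞`. -/
def T_ANG : Prop := ∀ (f : E 2 → ℂ) (K : ℕ) (F : Finset ℤ), Nice f → (∀ k ∈ F, |k| ≤ K) →
  ∃ c : ℤ → ℝ → ℂ, Ang K (𝓕 (fun x => ∑ k ∈ F, amode k f x)) c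

/-- **NB** (90 min; uses ND, MODA, MODB, ANG): all angular frequencies, unit shell. Blocks
`K_n = 2^(2^(2^n))`, `F_0 = {|k| ≤ K_0}`, `F_n = {K_{n-1} < |k| ≤ K_n}`, `P_n f = Σ_{F_n} amode k f`.
`Sstar f ≤ Σ_n Sstar (P_n f)` pointwise: for each `R`, `x`, `|S h R x| ≤ (πR²)^(1/2) ‖h‖₂` (Cauchy–Schwarz,
Plancherel) with `h = f - Σ_{n ≤ N} P_n f`, `‖h‖₂ → 0` (MODB). ND: `∫_A Sstar (P_n f) ≤
C log(3+log(3+K_n))^6 ‖P_n f‖₂ |A|^(1/2) ≤ C 2^(6n) ‖P_n f‖₂ |A|^(1/2)`; Cauchy–Schwarz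
`Σ 2^(6n) ‖P_n f‖₂ ≤ (Σ 2^(-n))^(1/2) (Σ 2^(13n) ‖P_n f‖₂²)^(1/2)`, `‖P_n f‖₂² = Σ_{F_n} ‖amode k f‖²`, and
`2^(13n) ≤ C wk k` for `k ∈ F_n` (`log(3+log(3+|k|)) ≥ c 2^n` for `|k| ≥ K_{n-1}`). -/
def T_NB : Prop := T_CARL → T_LLL → ∃ C : ℝ≥0, ∀ (f : E 2 → ℂ) (A : Set (E 2)), Nice f →
  MeasurableSet A → (∀ x ∈ A, 1 ≤ ‖x‖ ∧ ‖x‖ ≤ 2) →
    ∫⁻ x in A, Sstar f x ≤ C * NN f ^ (1 / 2 : ℝ) * volume A ^ (1 / 2 : ℝ)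

/-- **NBJ** (60 min; uses NB): the shell `sh j`, by scaling. `f~(y) = f(cy)`, `c = 2^j`:
`Sstar f~ x = Sstar f (cx)`, `amode k f~ (x) = amode k f (cx)`, `NN f~ = c⁻² NN f`, `|c⁻¹A| = c⁻² |A|`. -/
def T_NBJ : Prop := T_CARL → T_LLL → ∃ C : ℝ≥0, ∀ (j : ℤ) (f : E 2 → ℂ) (A : Set (E 2)), Nice f →
  MeasurableSet A → A ⊆ sh j →
    ∫⁻ x in A, Sstar f x ≤ C * NN f ^ (1 / 2 : ℝ) * volume A ^ (1 / 2 : ℝ)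

/-- **SHN** (60 min; uses MODA): shells and modes. `amode k` commutes with multiplication by
`1_{sh i}`; so `Σ_i NN (1_{sh i} f) = NN f` (the shells are disjoint and cover `ℝ² ∖ {0}`), and with
`near j = sh (j-1) ∪ sh j ∪ sh (j+1)`: `Σ_j NN (1_{near j} f) = 3 NN f`. -/
def T_SHN : Prop := ∀ f : E 2 → ℂ, Nice f →
  (∑' j : ℤ, NN ((sh (j - 1) ∪ sh j ∪ sh (j + 1)).indicator f)) ≤ 3 * NN f ∧
  (∑' i : ℤ, ∫⁻ x, ‖(sh i).indicator f x‖ₑ ^ 2) ≤ ∫⁻ x, ‖f x‖ₑ ^ 2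

/-- **SUB** (45 min): subadditivity over the shells. For `x ∈ sh j`: `f = 1_{near j} f + Σ_{|i-j| ≥ 2} 1_{sh i} f`
a.e., the sum converges in `L¹` (dominated), so `𝓕` of it converges uniformly and `S f R x` is the sum of the
`S (…) R x`. -/
def T_SUB : Prop := ∀ (f : E 2 → ℂ) (j : ℤ) (x : E 2), Nice f →
  Sstar f x ≤ Sstar ((sh (j - 1) ∪ sh j ∪ sh (j + 1)).indicator f) x +
    ∑' i : ℤ, if 2 ≤ |i - j| then Sstar ((sh i).indicator f) x else 0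

/-- **GLB** (90 min; uses NBJ, OFF, SHN, SUB, MODB): the global inequality. Sum over the shells
`A_j = A ∩ sh j` (`0` is a null set). Near part: NBJ and Cauchy–Schwarz over `j` with SHN. Far part:
`∫_{A_j} Σ_i Sstar(1_{sh i} f) ≤ |A_j|^(1/2) Σ_i C 2^(-|i-j|/8) ‖1_{sh i} f‖₂` (OFF, Cauchy–Schwarz on `A_j`), then
Cauchy–Schwarz over `j` and Young's inequality for the convolution with the summable sequence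
`2^(-|n|/8)`: `≤ C |A|^(1/2) ‖f‖₂`, and `‖f‖₂² = Σ_k ‖amode k f‖² ≤ C NN f` (`wk k ≥ wk 0 > 0`, MODB). -/
def T_GLB : Prop := T_CARL → T_LLL → ∃ C : ℝ≥0, ∀ (f : E 2 → ℂ) (A : Set (E 2)), Nice f →
  MeasurableSet A → volume A ≠ ⊤ →
    ∫⁻ x in A, Sstar f x ≤ C * NN f ^ (1 / 2 : ℝ) * volume A ^ (1 / 2 : ℝ)

/-- **WT** (30 min; uses GLB): weak type. `x ↦ S f R x` is continuous, so `Sstar f` is lower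
semicontinuous; for `A = {λ < Sstar f} ∩ ball` of finite measure `λ|A| ≤ ∫_A Sstar f ≤ C N |A|^(1/2)`. -/
def T_WT : Prop := T_CARL → T_LLL → ∃ C : ℝ≥0, ∀ (f : E 2 → ℂ) (l : ℝ≥0∞), Nice f → 0 < l →
  volume {x | l < Sstar f x} ≤ C * NN f / l ^ 2

/-- **AE** (90 min; uses WT, MODA, MODB): a.e. convergence. Let `Ω f(x) = limsup_{R→∞} |S f R x - f(x)|`.
Given `ε`, choose `n` with `Σ_{|k|>n} wk k ‖amode k f‖² < ε`, `h = Σ_{|k| ≤ n} amode k f` (`NN (f-h)` is this tail), and a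
Schwartz (or `C_c^∞`) function `g` with `‖f - g‖₂² < ε/wk n`; `h' = Σ_{|k| ≤ n} amode k g` has
`NN (h-h') ≤ wk n ‖f-g‖₂² < ε`. `𝓕 h' = Σ amode k (𝓕g) ∈ L¹`, so `S h' R x → IE (𝓕h') x = h'(x)` for a.e. `x`. So
`|{Ω f > 2λ}| ≤ |{Sstar (f-h') > λ}| + |{|f-h'| > λ}| ≤ C λ⁻² NN(f-h')` → 0. See also
`Pool/Agent/KSP/FA2.lean`. -/
def T_AE : Prop := T_CARL → T_LLL → ∀ f : E 2 → ℂ, Nice f → NN f ≠ ⊤ →
  ∀ᵐ x, Tendsto (fun R : ℝ => S f R x) atTop (𝓝 (f x))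

end Pool.Agent.CRL
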